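import Pool.Agent.Helper106.CG.Stmts

/-! Task A1: facts on the Fano group. -/

namespace Pool.Agent.Helper106.CG
namespace TA1

open scoped Pointwise commutatorElement

def tvFun (c a x : Y) : Y := if x = c ∨ x = a ∨ x = star c a then x else star x c

set_option maxRecDepth 100000 in
theorem tvFun_tvFun : ∀ c a x : Y, tvFun c a (tvFun c a x) = x := by decide

def tv (c a : Y) : Equiv.Perm Y where
  toFun := tvFun c a
  invFun := tvFun c a
  left_inv := tvFun_tvFun c a
  right_inv := tvFun_tvFun c a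

@[simp] theorem tv_apply (c a x : Y) : tv c a x = tvFun c a x := rfl
@[simp] theorem tv_inv_apply (c a x : Y) : (tv c a)⁻¹ x = tvFun c a x := rfl
@[simp] theorem tv_symm_apply (c a x : Y) : (tv c a).symm x = tvFun c a x := rfl

theorem tv_inv (c a : Y) : (tv c a)⁻¹ = tv c a := rfl

set_option maxRecDepth 100000 in
theorem tv_hom : ∀ c a : Y, c ≠ a → ∀ i j, tvFun c a (star i j) = star (tvFun c a i) (tvFun c a j) := by
  decide

theorem tv_mem {c a : Y} (h : c ≠ a) : tv c a ∈ S := tv_hom c a h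

set_option maxRecDepth 100000 in
theorem step1 : ∀ i j : Y, i = j ∨ ∃ c a, c ≠ a ∧ tvFun c a i = j := by decide

set_option maxRecDepth 100000 in
theorem step2 : ∀ x y y' : Y, x ≠ y → x ≠ y' → y = y' ∨ ∃ c a, c ≠ a ∧ tvFun c a x = x ∧ tvFun c a y = y' := by
  decide

set_option maxRecDepth 100000 in
theorem step3 : ∀ x y k k' : Y, x ≠ y → k ≠ x → k ≠ y → k ≠ star x y → k' ≠ x → k' ≠ y → k' ≠ star x y →
    k = k' ∨ (star k k' ≠ (if star k k' = x then y else x) ∧
      tvFun (star k k') (if star k k' = x then y else x) x = x ∧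
      tvFun (star k k') (if star k k' = x then y else x) y = y ∧
      tvFun (star k k') (if star k k' = x then y else x) k = k') := by
  decide

/-- the subgroup generated by the transvections -/
def H : Subgroup (Equiv.Perm Y) := Subgroup.closure {σ | ∃ c a, c ≠ a ∧ σ = tv c a}

theorem tv_mem_H {c a : Y} (h : c ≠ a) : tv c a ∈ H := Subgroup.subset_closure ⟨c, a, h, rfl⟩

theorem H_le : H ≤ S := by
  unfold H
  rw [Subgroup.closure_le]
  rintro σ ⟨c, a, h, rfl⟩
  exact tv_mem h

theorem exists_H (x y x' y' : Y) (h : x ≠ y) (h' : x' ≠ y') : ∃ s ∈ H, s x = x' ∧ s y = y' := by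
  obtain ⟨s1, hs1, e1⟩ : ∃ s ∈ H, s x = x' := by
    rcases step1 x x' with rfl | ⟨c, a, hca, e⟩
    · exact ⟨1, H.one_mem, rfl⟩
    · exact ⟨tv c a, tv_mem_H hca, e⟩
  have hne : x' ≠ s1 y := by
    intro h''; rw [← e1] at h''; exact h (s1.injective h'')
  obtain ⟨s2, hs2, e2, e2'⟩ : ∃ s ∈ H, s x' = x' ∧ s (s1 y) = y' := by
    rcases step2 x' (s1 y) y' hne h' with e | ⟨c, a, hca, e, e'⟩
    · exact ⟨1, H.one_mem, rfl, e⟩
    · exact ⟨tv c a, tv_mem_H hca, e, e'⟩
  refine ⟨s2 * s1, H.mul_mem hs2 hs1, ?_, ?_⟩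
  · rw [Equiv.Perm.mul_apply, e1, e2]
  · rw [Equiv.Perm.mul_apply, e2']

theorem fix3 {s : Equiv.Perm Y} (hs : s ∈ S) (h0 : s 0 = 0) (h1 : s 1 = 1) (h2 : s 2 = 2) : s = 1 := by
  have h3 : s 3 = 3 := by
    have := hs 0 1
    rw [h0, h1, show star 0 1 = 3 by decide] at this
    exact this
  have h6 : s 6 = 6 := by
    have := hs 0 2
    rw [h0, h2, show star 0 2 = 6 by decide] at this
    exact this
  have h4 : s 4 = 4 := by
    have := hs 1 2
    rw [h1, h2, show star 1 2 = 4 by decide] at this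
    exact this
  have h5 : s 5 = 5 := by
    have := hs 2 3
    rw [h2, h3, show star 2 3 = 5 by decide] at this
    exact this
  ext x
  fin_cases x <;> simp_all

theorem S_le_H : S ≤ H := by
  intro s hs
  -- move s 0, s 1 back to 0, 1
  have hne : s 0 ≠ s 1 := fun h => by
    have := s.injective h
    exact absurd this (by decide)
  obtain ⟨h1, hh1, e0, e1⟩ := exists_H (s 0) (s 1) 0 1 hne (by decide)
  set s' := h1 * s with hs'
  have hs'S : s' ∈ S := S.mul_mem (H_le hh1) hs
  have e0' : s' 0 = 0 := by rw [hs', Equiv.Perm.mul_apply, e0]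
  have e1' : s' 1 = 1 := by rw [hs', Equiv.Perm.mul_apply, e1]
  have hk0 : s' 2 ≠ 0 := fun h => by
    rw [← e0'] at h
    exact absurd (s'.injective h) (by decide)
  have hk1 : s' 2 ≠ 1 := fun h => by
    rw [← e1'] at h
    exact absurd (s'.injective h) (by decide)
  have hk3 : s' 2 ≠ star 0 1 := fun h => by
    have := hs'S 0 1
    rw [e0', e1'] at this
    exact absurd (s'.injective (h.trans this.symm)) (by decide)
  obtain ⟨h2, hh2, f0, f1, f2⟩ : ∃ s ∈ H, s 0 = 0 ∧ s 1 = 1 ∧ s (s' 2) = 2 := by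
    rcases step3 0 1 (s' 2) 2 (by decide) hk0 hk1 hk3 (by decide) (by decide) (by decide) with e | ⟨g1, g2, g3, g4⟩
    · exact ⟨1, H.one_mem, rfl, rfl, e⟩
    · exact ⟨_, tv_mem_H g1, g2, g3, g4⟩
  have hfin : h2 * s' = 1 := by
    apply fix3 (S.mul_mem (H_le hh2) hs'S)
    · rw [Equiv.Perm.mul_apply, e0', f0]
    · rw [Equiv.Perm.mul_apply, e1', f1]
    · rw [Equiv.Perm.mul_apply, f2]
  have : s = h1⁻¹ * h2⁻¹ := by
    have h3 : h2 * (h1 * s) = 1 := hfin
    have h4 : h1 * s = h2⁻¹ := eq_inv_of_mul_eq_one_right h3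
    rw [← h4]; group
  rw [this]
  exact H.mul_mem (H.inv_mem hh1) (H.inv_mem hh2)

theorem H_eq : H = S := le_antisymm H_le S_le_H

set_option maxRecDepth 100000 in
theorem comm_id : ∀ c c' d : Y, c ≠ c' → d ≠ c → d ≠ c' → d ≠ star c c' → ∀ x,
    tvFun c d (tvFun c' c (tvFun c d (tvFun c' c x))) = tvFun c c' x := by decide

set_option maxRecDepth 100000 in
theorem exists_d : ∀ c c' : Y, c ≠ c' → ∃ d, d ≠ c ∧ d ≠ c' ∧ d ≠ star c c' := by decide

theorem starstar : ∀ k i : Y, star (star k i) i = k := by decide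

/-- the transvections of centre `i` -/
def TT (i : Y) : Subgroup ↥S where
  carrier := {s | (s : Equiv.Perm Y) i = i ∧ ∀ k, (s : Equiv.Perm Y) k = k ∨ (s : Equiv.Perm Y) k = star k i}
  mul_mem' := by
    rintro a b ⟨ha, ha'⟩ ⟨hb, hb'⟩
    refine ⟨by rw [Subgroup.coe_mul, Equiv.Perm.mul_apply, hb, ha], fun k => ?_⟩
    rw [Subgroup.coe_mul, Equiv.Perm.mul_apply]
    rcases hb' k with h | h
    · rw [h]; exact ha' k
    · rw [h, a.2 k i, ha]
      rcases ha' k with h' | h'
      · right; rw [h']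
      · left; rw [h']
        exact starstar k i
  one_mem' := ⟨rfl, fun k => Or.inl rfl⟩
  inv_mem' := by
    rintro a ⟨ha, ha'⟩
    have hi : ((a⁻¹ : ↥S) : Equiv.Perm Y) i = i := by
      rw [Subgroup.coe_inv, Equiv.Perm.inv_eq_iff_eq]; exact ha.symm
    refine ⟨hi, fun k => ?_⟩
    rcases ha' k with h | h
    · left
      rw [Subgroup.coe_inv, Equiv.Perm.inv_eq_iff_eq]; exact h.symm
    · right
      rw [Subgroup.coe_inv, Equiv.Perm.inv_eq_iff_eq, a.2 k i, ha, h]
      exact (starstar k i).symm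

theorem TT_comm (i : Y) (a b : ↥S) (ha : a ∈ TT i) (hb : b ∈ TT i) : a * b = b * a := by
  obtain ⟨ha, ha'⟩ := ha
  obtain ⟨hb, hb'⟩ := hb
  apply Subtype.ext
  apply Equiv.ext
  intro k
  rw [Subgroup.coe_mul, Subgroup.coe_mul, Equiv.Perm.mul_apply, Equiv.Perm.mul_apply]
  rcases ha' k with h | h <;> rcases hb' k with h' | h' <;>
    simp [h, h', a.2 k i, b.2 k i, ha, hb, starstar]

theorem tv_mem_TT (c a : Y) (h : c ≠ a) : (⟨tv c a, tv_mem h⟩ : ↥S) ∈ TT c := by
  refine ⟨?_, fun k => ?_⟩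
  · change tvFun c a c = c
    simp [tvFun]
  · change tvFun c a k = k ∨ tvFun c a k = star k c
    unfold tvFun
    split_ifs
    · left; rfl
    · right; rfl

instance : MulAction.IsPretransitive ↥S Y where
  exists_smul_eq x y := by
    rcases step1 x y with rfl | ⟨c, a, hca, e⟩
    · exact ⟨1, one_smul _ _⟩
    · exact ⟨⟨tv c a, tv_mem hca⟩, e⟩

end TA1

open TA1
open scoped Pointwise commutatorElement

theorem a_trans : A_trans := by
  intro x y x' y' h h'
  obtain ⟨s, hs, e⟩ := exists_H x y x' y' h h'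
  exact ⟨s, H_le hs, e⟩

set_option maxRecDepth 100000 in
theorem a_rank : A_rank := by
  refine ⟨tv 0 1, tv_mem (by decide), tv 0 2, tv_mem (by decide), 4, 5, by decide, ?_⟩
  intro A _ f j
  rw [tv_inv_apply, tv_inv_apply, tv_inv_apply]
  fin_cases j
  all_goals first
    | (simp [tvFun, star]; abel)
    | (simp [tvFun, star])

theorem a_perfect : A_perfect := by
  unfold A_perfect
  rw [eq_top_iff]
  rintro ⟨s, hs⟩ -
  have hs' := S_le_H hs
  unfold H at hs'
  refine Subgroup.closure_induction (p := fun x hx => (⟨x, H_le hx⟩ : ↥S) ∈ commutator ↥S) ?_ ?_ ?_ ?_ hs'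
  · rintro _ ⟨c, c', h, rfl⟩
    obtain ⟨d, hd, hd', hd''⟩ := exists_d c c' h
    have : (⟨tv c c', tv_mem h⟩ : ↥S) = ⁅(⟨tv c d, tv_mem hd.symm⟩ : ↥S), ⟨tv c' c, tv_mem h.symm⟩⁆ := by
      apply Subtype.ext
      rw [commutatorElement_def]
      apply Equiv.ext
      intro x
      exact (comm_id c c' d h hd hd' hd'' x).symm
    rw [this]
    exact Subgroup.commutator_mem_commutator (Subgroup.mem_top _) (Subgroup.mem_top _)
  · exact (commutator ↥S).one_mem
  · intro x y hx hy h1 h2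
    exact (commutator ↥S).mul_mem h1 h2
  · intro x hx h1
    exact (commutator ↥S).inv_mem h1

theorem a_simple : A_simple := by
  have : Nontrivial ↥S := ⟨⟨1, ⟨tv 0 1, tv_mem (by decide)⟩, by
    intro h
    have := congrArg (fun s : ↥S => (s : Equiv.Perm Y) 2) h
    exact absurd this (by decide)⟩⟩
  have : MulAction.IsPreprimitive ↥S Y := MulAction.IsPreprimitive.of_prime_card (by
    rw [Nat.card_eq_fintype_card, Fintype.card_fin]; norm_num)
  refine MulAction.IwasawaStructure.isSimpleGroup (α := Y) a_perfect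
    { T := TT, is_comm := ?_, is_conj := ?_, is_generator := ?_ } ?_
  · intro x
    exact ⟨⟨fun a b => Subtype.ext (TT_comm x a b a.2 b.2)⟩⟩
  · intro g x
    ext s
    rw [Subgroup.mem_pointwise_smul_iff_inv_smul_mem]
    change ((s : Equiv.Perm Y) ((g : Equiv.Perm Y) x) = (g : Equiv.Perm Y) x ∧ ∀ k, (s : Equiv.Perm Y) k = k ∨ (s : Equiv.Perm Y) k = star k ((g : Equiv.Perm Y) x)) ↔ _
    have key : ∀ k, (((MulAut.conj g)⁻¹ • s : ↥S) : Equiv.Perm Y) k = (g : Equiv.Perm Y).symm ((s : Equiv.Perm Y) ((g : Equiv.Perm Y) k)) := by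
      intro k
      rw [← map_inv, MulAut.smul_def, MulAut.conj_apply]
      simp
    change _ ↔ ((((MulAut.conj g)⁻¹ • s : ↥S) : Equiv.Perm Y) x = x ∧ ∀ k, (((MulAut.conj g)⁻¹ • s : ↥S) : Equiv.Perm Y) k = k ∨ (((MulAut.conj g)⁻¹ • s : ↥S) : Equiv.Perm Y) k = star k x)
    simp only [key]
    constructor
    · rintro ⟨h1, h2⟩
      refine ⟨by rw [h1]; simp, fun k => ?_⟩
      rcases h2 ((g : Equiv.Perm Y) k) with h | h
      · left; rw [h]; simp
      · right; rw [h, ← g.2 k x]; simp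
    · rintro ⟨h1, h2⟩
      refine ⟨?_, fun k => ?_⟩
      · rw [Equiv.symm_apply_eq] at h1; exact h1
      · rcases h2 ((g : Equiv.Perm Y).symm k) with h | h
        · left
          rw [Equiv.apply_symm_apply, Equiv.symm_apply_eq, Equiv.apply_symm_apply] at h
          exact h
        · right
          rw [Equiv.apply_symm_apply, Equiv.symm_apply_eq, g.2, Equiv.apply_symm_apply] at h
          exact h
  · rw [eq_top_iff]
    rintro ⟨s, hs⟩ -
    have hs' := S_le_H hs
    unfold H at hs'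
    refine Subgroup.closure_induction (p := fun x hx => (⟨x, H_le hx⟩ : ↥S) ∈ iSup TT) ?_ ?_ ?_ ?_ hs'
    · rintro _ ⟨c, c', h, rfl⟩
      exact Subgroup.mem_iSup_of_mem c (tv_mem_TT c c' h)
    · exact (iSup TT).one_mem
    · intro x y hx hy h1 h2
      exact (iSup TT).mul_mem h1 h2
    · intro x hx h1
      exact (iSup TT).inv_mem h1
  · exact ⟨fun {a b} h => Subtype.ext (Equiv.ext fun x => h x)⟩

namespace TA1
set_option maxRecDepth 100000 in
theorem tv_fix : ∀ i j : Y, i ≠ j → ∀ x, tvFun i j x = x ↔ (x = i ∨ x = j ∨ x = star i j) := by decide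
set_option maxRecDepth 100000 in
theorem star_ne : ∀ i j : Y, i ≠ j → star i j ≠ i ∧ star i j ≠ j := by decide
theorem star_self : ∀ i : Y, star i i = i := by decide
end TA1

theorem a_norm : A_norm := by
  intro σ hσ i j
  by_cases hij : i = j
  · subst hij; rw [star_self, star_self]
  · have hmem := hσ (tv i j) (tv_mem hij)
    have hfix : ∀ x, tvFun i j x = x → (σ * tv i j * σ⁻¹) (σ x) = σ x := by
      intro x hx
      rw [Equiv.Perm.mul_apply, Equiv.Perm.mul_apply]
      simp [hx]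
    have hfix' : ∀ x, (σ * tv i j * σ⁻¹) (σ x) = σ x → tvFun i j x = x := by
      intro x hx
      rw [Equiv.Perm.mul_apply, Equiv.Perm.mul_apply] at hx
      simpa using hx
    have hi := hfix i ((tv_fix i j hij i).2 (Or.inl rfl))
    have hj := hfix j ((tv_fix i j hij j).2 (Or.inr (Or.inl rfl)))
    have hs : (σ * tv i j * σ⁻¹) (star (σ i) (σ j)) = star (σ i) (σ j) := by
      rw [hmem (σ i) (σ j), hi, hj]
    obtain ⟨x, hx⟩ := σ.surjective (star (σ i) (σ j))
    rw [← hx] at hs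
    have := (tv_fix i j hij x).1 (hfix' x hs)
    have hne : σ i ≠ σ j := fun h => hij (σ.injective h)
    have h2 := star_ne _ _ hne
    rcases this with rfl | rfl | rfl
    · exact absurd hx.symm h2.1
    · exact absurd hx.symm h2.2
    · exact hx

end Pool.Agent.Helper106.CG
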