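import Pool.Agent.Helper106.CG.Stmts

/-! Task A2: linear algebra over the Fano group; finitely many normal subgroups. -/

namespace Pool.Agent.Helper106.CG
namespace TA2

/-- a function with sum zero is a combination of differences -/
theorem decomp {A : Type} [AddCommGroup A] (f : Y → A) (hf : ∑ y, f y = 0) :
    f = ∑ y, (Pi.single y (f y) - Pi.single 0 (f y)) := by
  funext j
  rw [Finset.sum_apply]
  simp only [Pi.sub_apply]
  rw [Finset.sum_sub_distrib]
  have h1 : ∑ y, (Pi.single y (f y) : Y → A) j = f j := by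
    rw [Finset.sum_eq_single j]
    · simp
    · intro b _ hb; rw [Pi.single_eq_of_ne hb.symm]
    · intro h; exact absurd (Finset.mem_univ _) h
  have h2 : ∑ y, (Pi.single (0 : Y) (f y) : Y → A) j = 0 := by
    by_cases hj : j = 0
    · subst hj; simpa using hf
    · apply Finset.sum_eq_zero
      intro y _
      rw [Pi.single_eq_of_ne hj]
  rw [h1, h2, sub_zero]

theorem single_comp {A : Type} [AddCommGroup A] (s : Equiv.Perm Y) (x : Y) (a : A) (j : Y) :
    (Pi.single x a : Y → A) (s⁻¹ j) = (Pi.single (s x) a : Y → A) j := by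
  by_cases h : j = s x
  · subst h
    rw [Pi.single_eq_same, show s⁻¹ (s x) = x from s.symm_apply_apply x, Pi.single_eq_same]
  · rw [Pi.single_eq_of_ne h, Pi.single_eq_of_ne]
    intro h'
    apply h
    rw [← h']
    exact (s.apply_symm_apply j).symm

end TA2
open TA2

theorem a_coinv (hT : A_trans) : A_coinv := by
  intro A _ f hf
  rw [decomp f hf]
  apply AddSubgroup.sum_mem
  intro x' _
  by_cases h : x' = 0
  · subst h; rw [sub_self]; exact AddSubgroup.zero_mem _
  · obtain ⟨y, hy0, hyx⟩ : ∃ y : Y, y ≠ 0 ∧ y ≠ x' := by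
      clear hf; revert x'; decide
    obtain ⟨s, hs, h1, h2⟩ := hT y 0 y x' hy0 hyx
    refine AddSubgroup.subset_closure ⟨s, hs, Pi.single 0 (f x') - Pi.single y (f x'), ?_, ?_⟩
    · simp [Finset.sum_sub_distrib]
    · funext j
      simp only [Pi.sub_apply]
      rw [single_comp, single_comp, h1, h2]
      abel

theorem a_fix (hT : A_trans) : A_fix := by
  intro q hq h7 f hf hinv
  have : Fact q.Prime := ⟨hq⟩
  have hc : ∀ y, f y = f 0 := by
    intro y
    by_cases hy : y = 0
    · rw [hy]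
    · obtain ⟨s, hs, h1, _⟩ := hT y 0 0 y hy (Ne.symm hy)
      have := hinv s hs 0
      rw [show s⁻¹ (0 : Y) = y by rw [Equiv.Perm.inv_eq_iff_eq]; exact h1.symm] at this
      exact this
  have h7c : (7 : ZMod q) * f 0 = 0 := by
    have : ∑ y, f y = ∑ _y : Y, f 0 := Finset.sum_congr rfl (fun y _ => hc y)
    rw [this, Finset.sum_const, Finset.card_univ, Fintype.card_fin] at hf
    simpa using hf
  have h7ne : (7 : ZMod q) ≠ 0 := by
    intro h
    have h' : ((7 : ℕ) : ZMod q) = 0 := by exact_mod_cast h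
    rw [ZMod.natCast_eq_zero_iff] at h'
    exact absurd (Nat.le_of_dvd (by norm_num) h') (by omega)
  have h0 : f 0 = 0 := by
    rcases mul_eq_zero.1 h7c with h | h
    · exact absurd h h7ne
    · exact h
  funext y
  rw [hc y, h0]; rfl

theorem a_irr (hT : A_trans) (hR : A_rank) : A_irr := by
  intro q hq h7 K hK hS hne
  have : Fact q.Prime := ⟨hq⟩
  obtain ⟨f, hfK, hf0⟩ : ∃ f ∈ K, f ≠ 0 := by
    by_contra hcon
    push Not at hcon
    exact hne ((AddSubgroup.eq_bot_iff_forall K).2 hcon)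
  have h7ne : (7 : ZMod q) ≠ 0 := by
    intro h
    have h' : ((7 : ℕ) : ZMod q) = 0 := by exact_mod_cast h
    rw [ZMod.natCast_eq_zero_iff] at h'
    exact absurd (Nat.le_of_dvd (by norm_num) h') (by omega)
  have h2ne : (2 : ZMod q) ≠ 0 := by
    intro h
    have h' : ((2 : ℕ) : ZMod q) = 0 := by exact_mod_cast h
    rw [ZMod.natCast_eq_zero_iff] at h'
    exact absurd (Nat.le_of_dvd (by norm_num) h') (by omega)
  obtain ⟨x, y, hxy⟩ : ∃ x y, f x ≠ f y := by
    by_contra hcon
    push Not at hcon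
    apply hf0
    have hs := hK f hfK
    have : ∑ y, f y = ∑ _y : Y, f 0 := Finset.sum_congr rfl (fun y _ => hcon y 0)
    rw [this, Finset.sum_const, Finset.card_univ, Fintype.card_fin] at hs
    have h70 : (7 : ZMod q) * f 0 = 0 := by simpa using hs
    have h0 : f 0 = 0 := by
      rcases mul_eq_zero.1 h70 with h | h
      · exact absurd h h7ne
      · exact h
    funext y
    rw [hcon y 0, h0]; rfl
  have hne' : x ≠ y := fun h => hxy (by rw [h])
  obtain ⟨t₁, ht₁, t₂, ht₂, k, k', hkk, hform⟩ := hR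
  obtain ⟨s, hs, e1, e2⟩ := hT x y k k' hne' hkk
  set f' : Y → ZMod q := fun j => f (s⁻¹ j) with hf'
  have hf'K : f' ∈ K := hS s hs f hfK
  have e1' : f' k = f x := by
    rw [hf']; simp only; congr 1; rw [Equiv.Perm.inv_eq_iff_eq]; exact e1.symm
  have e2' : f' k' = f y := by
    rw [hf']; simp only; congr 1; rw [Equiv.Perm.inv_eq_iff_eq]; exact e2.symm
  set d : ZMod q := (f x - f y) + (f x - f y) with hd
  have hd0 : d ≠ 0 := by
    rw [hd, ← two_mul]
    exact mul_ne_zero h2ne (sub_ne_zero.2 hxy)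
  have hg : (fun j => f' (t₂⁻¹ (t₁⁻¹ j)) - f' (t₁⁻¹ j) - f' (t₂⁻¹ j) + f' j) ∈ K := by
    have m1 := hS t₂ ht₂ f' hf'K
    have m2 := hS t₁ ht₁ _ m1
    have m3 := hS t₁ ht₁ f' hf'K
    exact K.add_mem (K.sub_mem (K.sub_mem m2 m3) m1) hf'K
  have hg' : (Pi.single k d - Pi.single k' d : Y → ZMod q) ∈ K := by
    have : (Pi.single k d - Pi.single k' d : Y → ZMod q) =
        fun j => f' (t₂⁻¹ (t₁⁻¹ j)) - f' (t₁⁻¹ j) - f' (t₂⁻¹ j) + f' j := by
      funext j
      rw [hform (ZMod q) _ f' j, e1', e2', Pi.sub_apply]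
      by_cases hj : j = k
      · subst hj
        rw [if_pos rfl, Pi.single_eq_same, Pi.single_eq_of_ne hkk, sub_zero]
      · rw [if_neg hj, Pi.single_eq_of_ne hj]
        by_cases hj' : j = k'
        · subst hj'
          rw [if_pos rfl, Pi.single_eq_same, zero_sub]
        · rw [if_neg hj', Pi.single_eq_of_ne hj', sub_zero]
    rw [this]; exact hg
  have hmul : ∀ a : ZMod q, (Pi.single k a - Pi.single k' a : Y → ZMod q) ∈ K := by
    intro a
    have h1 := K.nsmul_mem hg' (a * d⁻¹).val
    have : (a * d⁻¹).val • (Pi.single k d - Pi.single k' d : Y → ZMod q) = Pi.single k a - Pi.single k' a := by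
      funext j
      rw [Pi.smul_apply, Pi.sub_apply, Pi.sub_apply, nsmul_eq_mul, ZMod.natCast_zmod_val]
      have hda : a * d⁻¹ * d = a := by rw [mul_assoc, inv_mul_cancel₀ hd0, mul_one]
      by_cases hj : j = k
      · subst hj
        rw [Pi.single_eq_same, Pi.single_eq_of_ne hkk, Pi.single_eq_same, Pi.single_eq_of_ne hkk,
          sub_zero, sub_zero, hda]
      · rw [Pi.single_eq_of_ne hj, Pi.single_eq_of_ne hj]
        by_cases hj' : j = k'
        · subst hj'
          rw [Pi.single_eq_same, Pi.single_eq_same, zero_sub, zero_sub, mul_neg, hda]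
        · rw [Pi.single_eq_of_ne hj', Pi.single_eq_of_ne hj', sub_zero, mul_zero]
    rw [← this]; exact h1
  intro g hg0
  rw [decomp g hg0]
  apply AddSubgroup.sum_mem
  intro x' _
  by_cases h : x' = 0
  · subst h; rw [sub_self]; exact AddSubgroup.zero_mem _
  · obtain ⟨u, hu, h1, h2⟩ := hT k k' x' 0 hkk h
    have := hS u hu _ (hmul (g x'))
    convert this using 1
    funext j
    simp only [Pi.sub_apply]
    rw [single_comp, single_comp, h1, h2]

theorem f_fin : F_fin := by
  intro G _ hG n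
  classical
  obtain ⟨s, hs, hsf⟩ := Group.fg_iff.1 hG
  have : Finite ↥s := hsf
  have hhom : ∀ m : ℕ, Finite (G →* Equiv.Perm (Fin m)) := by
    intro m
    refine Finite.of_injective (β := ↥s → Equiv.Perm (Fin m)) (fun f x => f x) ?_
    intro f g hfg
    apply MonoidHom.eq_of_eqOn_dense hs
    intro x hx
    exact congrFun hfg ⟨x, hx⟩
  have hsub : NN G n ⊆ ⋃ m ∈ Finset.range (n + 1), Set.range (fun f : G →* Equiv.Perm (Fin m) => f.ker) := by
    rintro N ⟨hN, h0, hn⟩
    rw [Set.mem_iUnion₂]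
    refine ⟨N.index, Finset.mem_range.2 (by omega), ?_⟩
    have hfi : N.FiniteIndex := ⟨h0⟩
    have e : G ⧸ N ≃ Fin N.index := (Finite.equivFin (G ⧸ N)).trans (finCongr rfl)
    refine ⟨(e.permCongrHom.toMonoidHom).comp (MulAction.toPermHom G (G ⧸ N)), ?_⟩
    change MonoidHom.ker _ = N
    rw [MonoidHom.ker_comp_of_injective _ _ (MulEquiv.injective _), ← Subgroup.normalCore_eq_ker,
      Subgroup.normalCore_eq_self]
  refine Set.Finite.subset ?_ hsub
  refine Set.Finite.biUnion (Finset.finite_toSet _) ?_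
  intro m _
  exact Set.finite_range _

end Pool.Agent.Helper106.CG
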