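import Pool.Agent.Helper106.CG.Stmts

/-!
# Characteristic versus normal subgroup growth: task B1
-/

namespace Pool.Agent.Helper106.CG

open scoped commutatorElement

namespace TB1

theorem app_zero (v z : Ray) : app 0 v z = z := by
  funext i; simp [app]

theorem app_succ (n : ℕ) (v z : Ray) : app (n + 1) v z = cons (v 0) (app n (tail v) z) := by
  funext i
  cases i with
  | zero => simp [app]
  | succ i =>
    rw [cons_succ]
    simp only [app, tail_apply, Nat.add_lt_add_iff_right, Nat.add_sub_add_right]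

theorem incAt_succ (n : ℕ) (v : Ray) (t : Equiv.Perm Ray) :
    incAt (n + 1) v t = inc (Pi.mulSingle (v 0) (incAt n (tail v) t)) := rfl

end TB1

open TB1 in
theorem b_incAt_apply : B_incAt_apply := by
  intro n
  induction n with
  | zero =>
    intro v t
    refine ⟨fun z => ?_, ?_, ?_⟩
    · rw [app_zero, app_zero]; rfl
    · rintro z ⟨i, hi, _⟩; omega
    · intro z i hi; omega
  | succ n ih =>
    intro v t
    obtain ⟨h1, h2, h3⟩ := ih (tail v) t
    refine ⟨fun z => ?_, fun z hz => ?_, fun z i hi => ?_⟩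
    · rw [app_succ, app_succ, incAt_succ, inc_apply, cons_zero, tail_cons, Pi.mulSingle_eq_same, h1]
    · rw [incAt_succ, inc_apply]
      by_cases h0 : z 0 = v 0
      · rw [h0, Pi.mulSingle_eq_same, h2, ← h0, cons_tail]
        obtain ⟨i, hi, hne⟩ := hz
        cases i with
        | zero => exact absurd h0 hne
        | succ i => exact ⟨i, by omega, hne⟩
      · rw [Pi.mulSingle_eq_of_ne h0, Equiv.Perm.one_apply, cons_tail]
    · rw [incAt_succ, inc_apply]
      cases i with
      | zero => rfl
      | succ i =>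
        rw [cons_succ]
        by_cases h0 : z 0 = v 0
        · rw [h0, Pi.mulSingle_eq_same, h3 _ i (by omega)]; rfl
        · rw [Pi.mulSingle_eq_of_ne h0, Equiv.Perm.one_apply]; rfl

namespace TB1

/-- the element `inc_y t` -/
noncomputable def iy (y : Y) : Equiv.Perm Ray →* Equiv.Perm Ray :=
  inc.comp (MonoidHom.mulSingle (fun _ : Y => Equiv.Perm Ray) y)

theorem iy_apply (y : Y) (t : Equiv.Perm Ray) : iy y t = inc (Pi.mulSingle y t) := rfl

theorem dir_eq (a : Equiv.Perm Y) :
    dir a = inc (fun y => if y = 0 then dir a else if y = 1 then rooted a else 1) := by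
  ext1 z
  rw [inc_apply, dir_apply]
  funext n
  cases n with
  | zero => rfl
  | succ k =>
    rw [dirFun_succ, cons_succ]
    by_cases h0 : z 0 = 0
    · rw [if_pos h0, dir_apply]
      cases k with
      | zero =>
        have : ¬ Dir 0 z := fun h => by
          have h1 := h.1
          rw [h0] at h1
          exact absurd h1 (by decide)
        rw [if_neg this]; rfl
      | succ k =>
        rw [dirFun_succ]
        have : Dir (k + 1) z ↔ Dir k (tail z) := by
          unfold Dir
          constructor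
          · rintro ⟨h1, h2⟩
            exact ⟨h1, fun i hi => h2 (i + 1) (by omega)⟩
          · rintro ⟨h1, h2⟩
            refine ⟨h1, fun i hi => ?_⟩
            cases i with
            | zero => exact h0
            | succ i => exact h2 i (by omega)
        by_cases hD : Dir (k + 1) z
        · rw [if_pos hD, if_pos (this.1 hD)]; rfl
        · rw [if_neg hD, if_neg (fun h => hD (this.2 h))]; rfl
    · rw [if_neg h0]
      by_cases h1 : z 0 = 1
      · rw [if_pos h1, rooted_apply]
        cases k with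
        | zero =>
          have : Dir 0 z := ⟨h1, fun i hi => absurd hi (by omega)⟩
          rw [if_pos this]; rfl
        | succ k =>
          have : ¬ Dir (k + 1) z := fun h => h0 (h.2 0 (by omega))
          rw [if_neg this]; rfl
      · rw [if_neg h1, Equiv.Perm.one_apply]
        have : ¬ Dir k z := fun h => by
          cases k with
          | zero => exact h1 h.1
          | succ k => exact h0 (h.2 0 (by omega))
        rw [if_neg this]; rfl

theorem rooted_conj (s : Equiv.Perm Y) (g : Y → Equiv.Perm Ray) :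
    rooted s * inc g * (rooted s)⁻¹ = inc (fun y => g (s⁻¹ y)) := by
  rw [mul_inv_eq_iff_eq_mul]
  ext1 z
  simp [Equiv.Perm.mul_apply]

theorem rooted_inc (s : Equiv.Perm Y) (g : Y → Equiv.Perm Ray) :
    rooted s * inc g = inc (fun y => g (s⁻¹ y)) * rooted s := by
  rw [← rooted_conj, inv_mul_cancel_right]

theorem rooted_conj_iy (s : Equiv.Perm Y) (y : Y) (t : Equiv.Perm Ray) :
    rooted s * iy y t * (rooted s)⁻¹ = iy (s y) t := by
  rw [iy_apply, rooted_conj, iy_apply]
  congr 1
  funext x
  by_cases h : x = s y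
  · subst h
    rw [Pi.mulSingle_eq_same, show s⁻¹ (s y) = y from s.symm_apply_apply y, Pi.mulSingle_eq_same]
  · rw [Pi.mulSingle_eq_of_ne h, Pi.mulSingle_eq_of_ne]
    intro h2
    exact h (by rw [← h2]; exact (s.apply_symm_apply x).symm)

theorem comm_dir (a a' s : Equiv.Perm Y) (h1 : s 1 = 1) (h0 : s 0 ≠ 0) :
    ⁅dir a, rooted s * dir a' * (rooted s)⁻¹⁆ = iy 1 (rooted ⁅a, a'⁆) := by
  have hs1 : s⁻¹ 1 = 1 := by rw [Equiv.Perm.inv_eq_iff_eq, h1]
  rw [dir_eq a, dir_eq a', rooted_conj, iy_apply, ← map_commutatorElement]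
  congr 1
  funext y
  simp only [Pi.mul_apply, commutatorElement_def, Pi.inv_apply]
  by_cases hy0 : y = 0
  · subst hy0
    have h2 : s⁻¹ 0 ≠ 0 := by
      intro h
      rw [Equiv.Perm.inv_eq_iff_eq] at h
      exact h0 h.symm
    have h3 : s⁻¹ 0 ≠ 1 := by
      intro h
      rw [Equiv.Perm.inv_eq_iff_eq, h1] at h
      exact absurd h (by decide)
    rw [if_neg h2, if_neg h3, Pi.mulSingle_eq_of_ne (by decide)]
    group
  · rw [if_neg hy0]
    by_cases hy1 : y = 1
    · subst hy1
      rw [if_pos rfl, hs1, if_neg (by decide), if_pos rfl, Pi.mulSingle_eq_same]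
      simp only [map_mul, map_inv]
    · rw [if_neg hy1, Pi.mulSingle_eq_of_ne hy1]
      group

end TB1

open TB1 in
theorem b_inc (hA : A_trans) (hP : A_perfect) : B_inc := by
  classical
  -- rooted elements below the letter 1
  have h1 : ∀ a ∈ S, iy 1 (rooted a) ∈ T := by
    obtain ⟨s, hs, hs1, hs0⟩ := hA 1 0 1 2 (by decide) (by decide)
    have hs0' : s 0 ≠ 0 := by rw [hs0]; decide
    let K : Subgroup ↥S := T.comap (((iy 1).comp rooted).comp S.subtype)
    have hK : commutator ↥S ≤ K := by
      rw [commutator_def, Subgroup.commutator_le]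
      intro a _ b _
      rw [Subgroup.mem_comap]
      have := comm_dir (a : Equiv.Perm Y) (b : Equiv.Perm Y) s hs1 hs0'
      have h2 : ((((iy 1).comp rooted).comp S.subtype) ⁅a, b⁆ : Equiv.Perm Ray) =
          iy 1 (rooted ⁅(a : Equiv.Perm Y), (b : Equiv.Perm Y)⁆) := rfl
      rw [h2, ← this, commutatorElement_def]
      have hr := rooted_mem hs
      have hc := T.mul_mem (T.mul_mem hr (dir_mem b.2)) (T.inv_mem hr)
      exact T.mul_mem (T.mul_mem (T.mul_mem (dir_mem a.2) hc) (T.inv_mem (dir_mem a.2)))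
        (T.inv_mem hc)
    rw [hP] at hK
    intro a ha
    exact hK (Subgroup.mem_top (⟨a, ha⟩ : ↥S))
  -- all letters
  have hmove : ∀ (x y : Y) (t : Equiv.Perm Ray), iy x t ∈ T → iy y t ∈ T := by
    intro x y t ht
    by_cases hxy : x = y
    · rw [← hxy]; exact ht
    · obtain ⟨s, hs, h2, _⟩ := hA x y y x hxy (Ne.symm hxy)
      rw [← h2, ← rooted_conj_iy]
      exact T.mul_mem (T.mul_mem (rooted_mem hs) ht) (T.inv_mem (rooted_mem hs))
  have hd0 : ∀ a ∈ S, iy 0 (dir a) ∈ T := by
    intro a ha
    have h2 : iy 0 (dir a) = dir a * (iy 1 (rooted a))⁻¹ := by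
      rw [eq_mul_inv_iff_mul_eq, iy_apply, iy_apply, ← map_mul]
      conv_rhs => rw [dir_eq]
      congr 1
      funext y
      rw [Pi.mul_apply]
      by_cases hy0 : y = 0
      · subst hy0
        rw [Pi.mulSingle_eq_same, Pi.mulSingle_eq_of_ne (by decide), if_pos rfl, mul_one]
      · rw [Pi.mulSingle_eq_of_ne hy0, if_neg hy0, one_mul]
        by_cases hy1 : y = 1
        · subst hy1
          rw [Pi.mulSingle_eq_same, if_pos rfl]
        · rw [Pi.mulSingle_eq_of_ne hy1, if_neg hy1]
    rw [h2]
    exact T.mul_mem (dir_mem ha) (T.inv_mem (h1 a ha))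
  have hall : ∀ (y : Y), ∀ t ∈ T, iy y t ∈ T := by
    intro y t ht
    refine T_induction (P := fun t => iy y t ∈ T) ?_ ?_ ?_ ?_ ht
    · rw [map_one]; exact T.one_mem
    · intro s hs
      exact hmove 1 y _ (h1 s hs)
    · intro s hs
      exact hmove 0 y _ (hd0 s hs)
    · intro a _ b _ ha hb
      rw [map_mul]
      exact T.mul_mem ha hb
  intro g hg
  have : g ∈ T.comap inc := Subgroup.pi_mem_of_mulSingle_mem g fun y => hall y (g y) (hg y)
  exact this

open TB1 in
theorem b_dec : B_dec := by
  intro t ht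
  refine T_induction (P := fun t => ∃ g : Y → Equiv.Perm Ray, (∀ y, g y ∈ T) ∧
    ∃ s ∈ S, t = inc g * rooted s) ?_ ?_ ?_ ?_ ht
  · exact ⟨1, fun y => T.one_mem, 1, S.one_mem, by rw [map_one, map_one, mul_one]⟩
  · intro s hs
    exact ⟨1, fun y => T.one_mem, s, hs, by rw [map_one, one_mul]⟩
  · intro s hs
    refine ⟨fun y => if y = 0 then dir s else if y = 1 then rooted s else 1, fun y => ?_, 1,
      S.one_mem, ?_⟩
    · show (if y = 0 then dir s else if y = 1 then rooted s else 1) ∈ T
      by_cases h0 : y = 0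
      · rw [if_pos h0]; exact dir_mem hs
      · rw [if_neg h0]
        by_cases h1 : y = 1
        · rw [if_pos h1]; exact rooted_mem hs
        · rw [if_neg h1]; exact T.one_mem
    · rw [map_one, mul_one]; exact dir_eq s
  · rintro a _ b _ ⟨g, hg, s, hs, rfl⟩ ⟨g', hg', s', hs', rfl⟩
    refine ⟨g * fun y => g' (s⁻¹ y), fun y => T.mul_mem (hg y) (hg' _), s * s', S.mul_mem hs hs', ?_⟩
    rw [map_mul, map_mul, mul_assoc, ← mul_assoc (rooted s), rooted_inc]
    simp only [mul_assoc]

theorem b_perfect (hP : A_perfect) : B_perfect := by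
  have key : ∀ (f : ↥S →* ↥T) (a : ↥S), f a ∈ commutator ↥T := by
    intro f a
    have ha : a ∈ commutator ↥S := by rw [hP]; exact Subgroup.mem_top a
    have h1 : f a ∈ (commutator ↥S).map f := Subgroup.mem_map_of_mem f ha
    rw [commutator_def, Subgroup.map_commutator] at h1
    exact Subgroup.commutator_mono le_top le_top h1
  let fr : ↥S →* ↥T := (rooted.comp S.subtype).codRestrict T fun s => rooted_mem s.2
  let fd : ↥S →* ↥T := (dir.comp S.subtype).codRestrict T fun s => dir_mem s.2
  rw [B_perfect, eq_top_iff]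
  rintro ⟨t, ht⟩ _
  have : ∃ h : t ∈ T, (⟨t, h⟩ : ↥T) ∈ commutator ↥T := by
    refine T_induction (P := fun t => ∃ h : t ∈ T, (⟨t, h⟩ : ↥T) ∈ commutator ↥T) ?_ ?_ ?_ ?_ ht
    · exact ⟨T.one_mem, Subgroup.one_mem _⟩
    · intro s hs
      exact ⟨rooted_mem hs, key fr ⟨s, hs⟩⟩
    · intro s hs
      exact ⟨dir_mem hs, key fd ⟨s, hs⟩⟩
    · rintro a _ b _ ⟨ha, ha'⟩ ⟨hb, hb'⟩
      exact ⟨T.mul_mem ha hb, Subgroup.mul_mem _ ha' hb'⟩
  exact this.2

theorem b_fg : B_fg := by
  have h1 : ∀ f : Equiv.Perm Y →* Equiv.Perm Ray, (S.map f).FG := by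
    intro f
    rw [Subgroup.fg_iff]
    refine ⟨(S.map f : Set (Equiv.Perm Ray)), Subgroup.closure_eq _, ?_⟩
    rw [Subgroup.coe_map]
    exact (Set.toFinite _).image _
  rw [B_fg, Group.fg_iff_subgroup_fg]
  exact (h1 rooted).sup (h1 dir)

end Pool.Agent.Helper106.CG
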