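import Pool.Agent.Helper106.CG.Stmts

/-!
# Characteristic versus normal subgroup growth: task B2 (branch structure of the tree group)
-/

namespace Pool.Agent.Helper106.CG

namespace TB2

theorem app_zero (v z : Ray) : app 0 v z = z := by
  funext i; simp [app]

theorem app_succ (n : ℕ) (v z : Ray) : app (n + 1) v z = cons (v 0) (app n (tail v) z) := by
  funext i
  cases i with
  | zero => simp [app]
  | succ i =>
    simp only [app, cons_succ, tail_apply]
    by_cases h : i < n
    · rw [if_pos (by omega), if_pos h]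
    · rw [if_neg (by omega), if_neg h, show i + 1 - (n + 1) = i - n by omega]

theorem incAt_zero (v : Ray) (t : Equiv.Perm Ray) : incAt 0 v t = t := rfl

theorem incAt_succ (n : ℕ) (v : Ray) (t : Equiv.Perm Ray) :
    incAt (n + 1) v t = inc (Pi.mulSingle (v 0) (incAt n (tail v) t)) := rfl

theorem inc_cons (g : Y → Equiv.Perm Ray) (y : Y) (z : Ray) : inc g (cons y z) = cons y (g y z) := by
  rw [inc_apply, cons_zero, tail_cons]

theorem rooted_cons (s : Equiv.Perm Y) (y : Y) (z : Ray) : rooted s (cons y z) = cons (s y) z := by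
  rw [rooted_apply, cons_zero, tail_cons]

theorem inc_inj {g h : Y → Equiv.Perm Ray} (e : inc g = inc h) : g = h := by
  funext y
  ext1 z
  have := congrArg (fun f : Equiv.Perm Ray => f (cons y z)) e
  simp only [inc_cons] at this
  exact (cons_ext.1 this).2

theorem exists_ne_Y (y : Y) : ∃ y' : Y, y ≠ y' := by
  obtain ⟨y', hy'⟩ := exists_ne y
  exact ⟨y', hy'.symm⟩

/-- `inc` as a homomorphism into `T` -/
def incT (hi : B_inc) : (Y → ↥T) →* ↥T where
  toFun g := ⟨inc (fun y => (g y : Equiv.Perm Ray)), hi _ (fun y => (g y).2)⟩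
  map_one' := by
    ext1
    exact map_one inc
  map_mul' g h := by
    ext1
    exact map_mul inc (fun y => (g y : Equiv.Perm Ray)) (fun y => (h y : Equiv.Perm Ray))

theorem incT_coe (hi : B_inc) (g : Y → ↥T) :
    ((incT hi g : ↥T) : Equiv.Perm Ray) = inc (fun y => (g y : Equiv.Perm Ray)) := rfl

theorem incT_inj (hi : B_inc) : Function.Injective (incT hi) := by
  intro g h e
  have e' : inc (fun y => (g y : Equiv.Perm Ray)) = inc (fun y => (h y : Equiv.Perm Ray)) := by
    rw [← incT_coe hi g, ← incT_coe hi h, e]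
  have := inc_inj e'
  funext y
  exact Subtype.ext (congrFun this y)

end TB2

open TB2

theorem b_incAt (hi : B_inc) : B_incAt := by
  intro n
  induction n with
  | zero => intro v t ht; exact ht
  | succ n ih =>
    intro v t ht
    rw [incAt_succ]
    apply hi
    intro y
    by_cases h : y = v 0
    · subst h
      rw [Pi.mulSingle_eq_same]
      exact ih _ t ht
    · rw [Pi.mulSingle_eq_of_ne h]
      exact T.one_mem

theorem b_sec (hd : B_dec) : B_sec := by
  intro t ht n
  induction n generalizing t with
  | zero =>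
    intro v
    refine ⟨t, ht, fun z => ?_⟩
    rw [app_zero, app_zero]
  | succ n ih =>
    intro v
    obtain ⟨g, hg, s0, hs0, rfl⟩ := hd t ht
    obtain ⟨s, hs, hz⟩ := ih (g (s0 (v 0))) (hg _) (tail v)
    refine ⟨s, hs, fun z => ?_⟩
    rw [app_succ, Equiv.Perm.mul_apply, rooted_cons, inc_cons, hz, app_succ]
    have e : (inc g * rooted s0) v = cons (s0 (v 0)) (g (s0 (v 0)) (tail v)) := by
      rw [Equiv.Perm.mul_apply]
      conv_lhs => rw [← cons_tail v]
      rw [rooted_cons, inc_cons]
    rw [e, cons_zero, tail_cons]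

theorem b_trans (hA : A_trans) (hi : B_inc) : B_trans := by
  intro n
  induction n with
  | zero =>
    intro v v'
    refine ⟨1, T.one_mem, fun z => ?_⟩
    rw [app_zero, app_zero]; rfl
  | succ n ih =>
    intro v v'
    obtain ⟨y, hy⟩ := exists_ne_Y (v 0)
    obtain ⟨y', hy'⟩ := exists_ne_Y (v' 0)
    obtain ⟨s, hs, hs1, _⟩ := hA (v 0) y (v' 0) y' hy hy'
    obtain ⟨t1, ht1, h1⟩ := ih (tail v) (tail v')
    refine ⟨inc (Pi.mulSingle (v' 0) t1) * rooted s, T.mul_mem (hi _ ?_) (rooted_mem hs), fun z => ?_⟩
    · intro y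
      by_cases h : y = v' 0
      · subst h
        rw [Pi.mulSingle_eq_same]
        exact ht1
      · rw [Pi.mulSingle_eq_of_ne h]
        exact T.one_mem
    · rw [app_succ, Equiv.Perm.mul_apply, rooted_cons, hs1, inc_cons, Pi.mulSingle_eq_same, h1, app_succ]

theorem b_St_succ (hd : B_dec) : B_St_succ := by
  intro n t
  constructor
  · intro ht
    obtain ⟨g, hg, s, hs, e⟩ := hd t t.2
    have hs1 : s = 1 := by
      ext1 y
      have h0 := ht (cons y (fun _ => 0)) 0 (Nat.succ_pos n)
      rw [e, Equiv.Perm.mul_apply, rooted_cons, inc_cons, cons_zero, cons_zero] at h0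
      rw [h0]; rfl
    subst hs1
    rw [map_one, mul_one] at e
    refine ⟨fun y => ⟨g y, hg y⟩, fun y z i hi' => ?_, e⟩
    have h0 := ht (cons y z) (i + 1) (by omega)
    rw [e, inc_cons, cons_succ, cons_succ] at h0
    exact h0
  · rintro ⟨g, hg, e⟩ z i hi'
    rw [e, inc_apply]
    cases i with
    | zero => rfl
    | succ i =>
      rw [cons_succ, hg (z 0) (tail z) i (by omega)]
      rfl

theorem b_St_perfect (hi : B_inc) (hd : B_dec) (hp : B_perfect) : B_St_perfect := by
  intro n
  induction n with
  | zero =>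
    have h0 : St 0 = ⊤ := by
      rw [eq_top_iff]
      intro t _ z i hi'
      exact absurd hi' (by omega)
    rw [h0]
    exact hp
  | succ n ih =>
    apply le_antisymm
    · rw [Subgroup.commutator_le]
      intro a ha b hb
      exact (St (n + 1)).mul_mem ((St (n + 1)).mul_mem ((St (n + 1)).mul_mem ha hb) ((St (n + 1)).inv_mem ha))
        ((St (n + 1)).inv_mem hb)
    · have key : Subgroup.pi Set.univ (fun _ : Y => St n) ≤
          (⁅St (n + 1), St (n + 1)⁆ : Subgroup ↥T).comap (incT hi) := by
        rw [Subgroup.pi_le_iff]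
        intro i
        rw [← ih, Subgroup.map_commutator, ← Subgroup.map_le_iff_le_comap, Subgroup.map_commutator,
          Subgroup.map_map]
        have hle : (St n).map ((incT hi).comp (MonoidHom.mulSingle (fun _ : Y => ↥T) i)) ≤ St (n + 1) := by
          rintro _ ⟨t, ht, rfl⟩
          rw [b_St_succ hd]
          refine ⟨Pi.mulSingle i t, fun y => ?_, rfl⟩
          by_cases h : y = i
          · subst h
            rw [Pi.mulSingle_eq_same]
            exact ht
          · rw [Pi.mulSingle_eq_of_ne h]
            exact (St n).one_mem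
        exact Subgroup.commutator_mono hle hle
      intro t ht
      rw [b_St_succ hd] at ht
      obtain ⟨g, hg, e⟩ := ht
      have h1 : g ∈ Subgroup.pi Set.univ (fun _ : Y => St n) := fun y _ => hg y
      have h2 : incT hi g ∈ (⁅St (n + 1), St (n + 1)⁆ : Subgroup ↥T) := key h1
      have e2 : t = incT hi g := Subtype.ext e
      rw [e2]
      exact h2

namespace TB2

theorem exists_root (t : ↥T) : ∃ l : ↥S, ∀ z : Ray, (t : Equiv.Perm Ray) z 0 = (l : Equiv.Perm Y) (z 0) := by
  obtain ⟨l, hl, h⟩ := label t.2 0 (fun _ => 0)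
  exact ⟨⟨l, hl⟩, fun z => (h z (fun i hi => absurd hi (by omega))).2⟩

/-- the action on the first letter -/
noncomputable def root : ↥T →* ↥S :=
  MonoidHom.mk' (fun t => (exists_root t).choose) (by
    intro a b
    apply Subtype.ext
    ext1 y
    have h1 := (exists_root (a * b)).choose_spec (cons y (fun _ => 0))
    have h2 := (exists_root a).choose_spec ((b : Equiv.Perm Ray) (cons y (fun _ => 0)))
    have h3 := (exists_root b).choose_spec (cons y (fun _ => 0))
    rw [h3, cons_zero] at h2
    rw [cons_zero] at h1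
    rw [← h1, Subgroup.coe_mul, Equiv.Perm.mul_apply, h2, Subgroup.coe_mul, Equiv.Perm.mul_apply])

theorem root_spec (t : ↥T) (z : Ray) : (t : Equiv.Perm Ray) z 0 = (root t : Equiv.Perm Y) (z 0) :=
  (exists_root t).choose_spec z

theorem root_surj : Function.Surjective root := by
  intro s
  refine ⟨⟨rooted s, rooted_mem s.2⟩, ?_⟩
  apply Subtype.ext
  ext1 y
  have h := root_spec ⟨rooted s, rooted_mem s.2⟩ (cons y (fun _ => 0))
  rw [cons_zero] at h
  rw [← h]
  rfl

theorem root_ker : root.ker = St 1 := by
  ext t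
  rw [MonoidHom.mem_ker]
  constructor
  · intro h z i hi
    have hi0 : i = 0 := by omega
    subst hi0
    rw [root_spec, h]; rfl
  · intro h
    apply Subtype.ext
    ext1 y
    have h1 := h (cons y (fun _ => 0)) 0 (by omega)
    rw [root_spec, cons_zero] at h1
    rw [h1]; rfl

theorem St_one_index : (St 1).index = Nat.card ↥S := by
  rw [← root_ker, Subgroup.index_ker, MonoidHom.range_eq_top.2 root_surj]
  exact Subgroup.card_top

theorem St_le_one (n : ℕ) : St (n + 1) ≤ St 1 := by
  intro t ht z i hi
  exact ht z i (by omega)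

theorem incT_range (hi : B_inc) (hd : B_dec) : (incT hi).range = St 1 := by
  ext t
  constructor
  · rintro ⟨g, rfl⟩
    rw [show (1 : ℕ) = 0 + 1 from rfl, b_St_succ hd]
    exact ⟨g, fun y z i hi' => absurd hi' (by omega), rfl⟩
  · intro ht
    rw [show (1 : ℕ) = 0 + 1 from rfl, b_St_succ hd] at ht
    obtain ⟨g, _, e⟩ := ht
    exact ⟨g, (Subtype.ext e).symm⟩

theorem incT_comap (hi : B_inc) (hd : B_dec) (n : ℕ) :
    (St (n + 1)).comap (incT hi) = Subgroup.pi Set.univ (fun _ : Y => St n) := by
  ext g
  rw [Subgroup.mem_comap, b_St_succ hd]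
  constructor
  · rintro ⟨g', hg', e⟩ y _
    have e2 : incT hi g = incT hi g' := Subtype.ext e
    rw [incT_inj hi e2]
    exact hg' y
  · intro h
    exact ⟨g, fun y => h y (Set.mem_univ y), rfl⟩

end TB2

theorem b_index (hi : B_inc) (hd : B_dec) : B_index := by
  constructor
  · rw [Subgroup.index_eq_one, eq_top_iff]
    intro t _ z i hi'
    exact absurd hi' (by omega)
  · intro n
    rw [← Subgroup.relIndex_mul_index (St_le_one n), St_one_index, ← incT_range hi hd, ← Subgroup.index_comap,
      incT_comap hi hd, Subgroup.index_pi, Finset.prod_const, Finset.card_univ, Fintype.card_fin, mul_comm]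

end Pool.Agent.Helper106.CG
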