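import Pool.Agent.Helper106.CG.B1
import Pool.Agent.Helper106.CG.B2

/-! Task B3: normal subgroups of the tree group, the nucleus, stabilisers of rays. -/

namespace Pool.Agent.Helper106.CG
namespace TB3

open TB2
open scoped commutatorElement

theorem St_normal (n : ℕ) : (St n).Normal := by
  refine ⟨fun t ht g => ?_⟩
  intro z i hi
  rw [Subgroup.coe_mul, Subgroup.coe_mul, Equiv.Perm.mul_apply, Equiv.Perm.mul_apply]
  have h := (T_prefix g.2 (n := n) (z := (t : Equiv.Perm Ray) (((g⁻¹ : ↥T) : Equiv.Perm Ray) z))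
    (z' := ((g⁻¹ : ↥T) : Equiv.Perm Ray) z)).2 (ht _) i hi
  rw [h, Subgroup.coe_inv]
  exact congrFun (Equiv.apply_symm_apply (g : Equiv.Perm Ray) z) i

/-- `t` at the letter `y` -/
def at1 (hi : B_inc) (y : Y) : ↥T →* ↥T := (incT hi).comp (MonoidHom.mulSingle (fun _ : Y => ↥T) y)

theorem at1_apply (hi : B_inc) (y : Y) (t : ↥T) : at1 hi y t = incT hi (Pi.mulSingle y t) := rfl

theorem rootedT_conj (hi : B_inc) (s : ↥S) (g : Y → ↥T) :
    (⟨rooted s, rooted_mem s.2⟩ : ↥T) * incT hi g * (⟨rooted s, rooted_mem s.2⟩ : ↥T)⁻¹ =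
      incT hi (fun y => g ((s : Equiv.Perm Y)⁻¹ y)) := by
  apply Subtype.ext
  exact TB1.rooted_conj (s : Equiv.Perm Y) (fun y => (g y : Equiv.Perm Ray))

theorem mulSingle_comp (s : Equiv.Perm Y) (y : Y) (t : ↥T) :
    (fun x => (Pi.mulSingle y t : Y → ↥T) (s⁻¹ x)) = Pi.mulSingle (s y) t := by
  funext x
  by_cases h : x = s y
  · subst h
    rw [Pi.mulSingle_eq_same, show s⁻¹ (s y) = y from s.symm_apply_apply y, Pi.mulSingle_eq_same]
  · rw [Pi.mulSingle_eq_of_ne h, Pi.mulSingle_eq_of_ne]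
    intro h2
    exact h (by rw [← h2]; exact (s.apply_symm_apply x).symm)

/-- every element is `incT g` times a rooted element -/
theorem decT (hi : B_inc) (hd : B_dec) (t : ↥T) :
    ∃ (g : Y → ↥T) (s : ↥S), t = incT hi g * ⟨rooted s, rooted_mem s.2⟩ := by
  obtain ⟨g, hg, s, hs, e⟩ := hd t t.2
  exact ⟨fun y => ⟨g y, hg y⟩, ⟨s, hs⟩, Subtype.ext e⟩

theorem all_le (hA : A_trans) (hi : B_inc) (hd : B_dec) {N : Subgroup ↥T} (hN : N.Normal) {r : ℕ} {y : Y}
    (h : ∀ t ∈ St r, at1 hi y t ∈ N) : St (r + 1) ≤ N := by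
  have hall : ∀ y', ∀ t ∈ St r, at1 hi y' t ∈ N := by
    intro y' t ht
    obtain ⟨s, hs, e⟩ : ∃ s ∈ S, s y = y' := by
      by_cases hyy : y = y'
      · exact ⟨1, S.one_mem, hyy⟩
      · obtain ⟨s, hs, e, _⟩ := hA y y' y' y hyy (Ne.symm hyy)
        exact ⟨s, hs, e⟩
    have := hN.conj_mem _ (h t ht) ⟨rooted s, rooted_mem hs⟩
    rw [at1_apply, rootedT_conj hi ⟨s, hs⟩, mulSingle_comp, e] at this
    exact this
  have key : Subgroup.pi Set.univ (fun _ : Y => St r) ≤ N.comap (incT hi) := by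
    rw [Subgroup.pi_le_iff]
    rintro y' _ ⟨t, ht, rfl⟩
    exact hall y' t ht
  intro t ht
  rw [b_St_succ hd] at ht
  obtain ⟨g, hg, e⟩ := ht
  have h1 : incT hi g ∈ N := key (show g ∈ Subgroup.pi Set.univ (fun _ : Y => St r) from fun y _ => hg y)
  rw [show t = incT hi g from Subtype.ext e]
  exact h1

theorem St_zero : St 0 = ⊤ := by
  rw [eq_top_iff]
  intro t _ z i hi'
  exact absurd hi' (by omega)

theorem case0 (hA : A_trans) (hS : A_simple) (hi : B_inc) (hd : B_dec) (hp : B_perfect) {N : Subgroup ↥T}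
    (hN : N.Normal) (h : ¬ N ≤ St 1) : N = ⊤ := by
  have hsimp : IsSimpleGroup ↥S := hS
  have hmap : N.map root = ⊤ := by
    have hn : (N.map root).Normal := hN.map root root_surj
    rcases hn.eq_bot_or_eq_top with e | e
    · exfalso
      apply h
      rw [← root_ker]
      exact (Subgroup.map_eq_bot_iff N).1 e
    · exact e
  obtain ⟨s, hs, hs0, _⟩ := hA 0 1 1 0 (by decide) (by decide)
  obtain ⟨y, hyN, hyr⟩ : ∃ y ∈ N, root y = ⟨s, hs⟩ := by
    have : (⟨s, hs⟩ : ↥S) ∈ N.map root := by rw [hmap]; exact Subgroup.mem_top _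
    exact this
  obtain ⟨g, s', e⟩ := decT hi hd y
  have hs' : s' = ⟨s, hs⟩ := by
    rw [← hyr, e]
    apply Subtype.ext
    ext1 c
    have := root_spec (incT hi g * ⟨rooted s', rooted_mem s'.2⟩) (cons c (fun _ => 0))
    rw [cons_zero] at this
    rw [← this, Subgroup.coe_mul, Equiv.Perm.mul_apply, incT_coe]
    rfl
  subst hs'
  -- the double commutator
  have hdc : ∀ t t' : ↥T, at1 hi 0 ⁅t, t'⁆ ∈ N := by
    intro t t'
    have hc1 : ⁅at1 hi 0 t, y⁆ ∈ N := by
      rw [commutatorElement_def]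
      have : at1 hi 0 t * y * (at1 hi 0 t)⁻¹ ∈ N := hN.conj_mem y hyN _
      exact N.mul_mem this (N.inv_mem hyN)
    have hc2 : ⁅⁅at1 hi 0 t, y⁆, at1 hi 0 t'⁆ ∈ N := by
      rw [commutatorElement_def]
      have : at1 hi 0 t' * ⁅at1 hi 0 t, y⁆⁻¹ * (at1 hi 0 t')⁻¹ ∈ N := hN.conj_mem _ (N.inv_mem hc1) _
      have h2 := N.mul_mem hc1 this
      convert h2 using 1
      group
    have hval : ⁅at1 hi 0 t, y⁆ = incT hi (Pi.mulSingle 0 t * Pi.mulSingle 1 (g 1 * t⁻¹ * (g 1)⁻¹)) := by
      have h3 : y * (at1 hi 0 t)⁻¹ * y⁻¹ = incT hi (Pi.mulSingle 1 (g 1 * t⁻¹ * (g 1)⁻¹)) := by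
        rw [e, mul_inv_rev]
        have h4 : (⟨rooted s, rooted_mem hs⟩ : ↥T) * (at1 hi 0 t)⁻¹ * (⟨rooted s, rooted_mem hs⟩ : ↥T)⁻¹ =
            at1 hi 1 t⁻¹ := by
          rw [← map_inv, at1_apply, rootedT_conj hi ⟨s, hs⟩, mulSingle_comp, hs0]
          rfl
        calc incT hi g * (⟨rooted s, rooted_mem hs⟩ : ↥T) * (at1 hi 0 t)⁻¹ *
              ((⟨rooted s, rooted_mem hs⟩ : ↥T)⁻¹ * (incT hi g)⁻¹)
            = incT hi g * ((⟨rooted s, rooted_mem hs⟩ : ↥T) * (at1 hi 0 t)⁻¹ * (⟨rooted s, rooted_mem hs⟩ : ↥T)⁻¹) *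
              (incT hi g)⁻¹ := by group
          _ = incT hi (g * Pi.mulSingle 1 t⁻¹ * g⁻¹) := by
              rw [h4, at1_apply, map_mul, map_mul, map_inv]
          _ = _ := by
              congr 1
              funext x
              by_cases hx : x = 1
              · subst hx
                simp
              · simp [Pi.mulSingle_eq_of_ne hx]
      rw [commutatorElement_def, mul_assoc, mul_assoc, ← mul_assoc y, h3, at1_apply, ← map_mul]
    have hval2 : ⁅⁅at1 hi 0 t, y⁆, at1 hi 0 t'⁆ = at1 hi 0 ⁅t, t'⁆ := by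
      rw [hval, at1_apply, at1_apply, commutatorElement_def, ← map_inv, ← map_inv, ← map_mul, ← map_mul, ← map_mul]
      congr 1
      funext x
      by_cases hx : x = 0
      · subst hx
        simp [commutatorElement_def]
      · by_cases hx1 : x = 1
        · subst hx1
          simp
        · simp [Pi.mulSingle_eq_of_ne hx, Pi.mulSingle_eq_of_ne hx1]
    rw [← hval2]; exact hc2
  have hK : N.comap (at1 hi 0) = ⊤ := by
    rw [eq_top_iff, ← (show commutator ↥T = ⊤ from hp), commutator_def, Subgroup.commutator_le]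
    intro t _ t' _
    exact hdc t t'
  have hle : St 1 ≤ N := by
    apply all_le hA hi hd hN (r := 0) (y := 0)
    intro t _
    have : t ∈ N.comap (at1 hi 0) := by rw [hK]; exact Subgroup.mem_top _
    exact this
  rw [eq_top_iff]
  intro t _
  obtain ⟨u, hu, hut⟩ : ∃ u ∈ N, root u = root t := by
    have : root t ∈ N.map root := by rw [hmap]; exact Subgroup.mem_top _
    exact this
  have h5 : u⁻¹ * t ∈ St 1 := by
    rw [← root_ker, MonoidHom.mem_ker, map_mul, map_inv, hut, inv_mul_cancel]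
  have h6 := N.mul_mem hu (hle h5)
  rwa [mul_inv_cancel_left] at h6

theorem normal_aux (hA : A_trans) (hS : A_simple) (hi : B_inc) (hd : B_dec) (hp : B_perfect) (n : ℕ) :
    ∀ N : Subgroup ↥T, N.Normal → ¬ N ≤ St (n + 1) → ∃ r, N = St r := by
  induction n with
  | zero =>
    intro N hN h
    exact ⟨0, by rw [St_zero]; exact case0 hA hS hi hd hp hN h⟩
  | succ n ih =>
    intro N hN h
    by_cases h1 : N ≤ St 1
    · obtain ⟨x, hxN, hx⟩ : ∃ x ∈ N, x ∉ St (n + 2) := by
        by_contra hcon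
        push Not at hcon
        exact h hcon
      have hx1 := h1 hxN
      rw [← incT_range hi hd] at hx1
      obtain ⟨g, rfl⟩ := hx1
      obtain ⟨y, hy⟩ : ∃ y, g y ∉ St (n + 1) := by
        by_contra hcon
        push Not at hcon
        apply hx
        rw [b_St_succ hd]
        exact ⟨g, hcon, rfl⟩
      -- the projection
      let P : Subgroup ↥T := (N.comap (incT hi)).map (Pi.evalMonoidHom (fun _ : Y => ↥T) y)
      have hP : P.Normal := by
        refine ⟨?_⟩
        rintro _ ⟨g', hg', rfl⟩ t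
        refine ⟨Pi.mulSingle y t * g' * (Pi.mulSingle y t)⁻¹, ?_, ?_⟩
        · change incT hi _ ∈ N
          rw [map_mul, map_mul, map_inv]
          exact hN.conj_mem _ hg' _
        · simp
      have hPn : ¬ P ≤ St (n + 1) := fun hcon => hy (hcon ⟨g, hxN, rfl⟩)
      obtain ⟨r, hr⟩ := ih P hP hPn
      refine ⟨r + 1, le_antisymm ?_ ?_⟩
      · -- N ≤ St (r+1)
        intro t ht
        have ht1 := h1 ht
        rw [← incT_range hi hd] at ht1
        obtain ⟨g', rfl⟩ := ht1
        rw [b_St_succ hd]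
        refine ⟨g', fun y' => ?_, rfl⟩
        obtain ⟨s, hs, e⟩ : ∃ s ∈ S, s y' = y := by
          by_cases hyy : y' = y
          · exact ⟨1, S.one_mem, hyy⟩
          · obtain ⟨s, hs, e, _⟩ := hA y' y y y' hyy (Ne.symm hyy)
            exact ⟨s, hs, e⟩
        have hc := hN.conj_mem _ ht ⟨rooted s, rooted_mem hs⟩
        rw [rootedT_conj hi ⟨s, hs⟩] at hc
        have : g' y' ∈ P := ⟨_, hc, by
          change g' (s⁻¹ y) = g' y'
          rw [← e]
          exact congrArg g' (s.symm_apply_apply y')⟩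
        rw [hr] at this
        exact this
      · -- St (r+1) ≤ N
        apply all_le hA hi hd hN (y := y)
        have : St r ≤ N.comap (at1 hi y) := by
          rw [← b_St_perfect hi hd hp r, Subgroup.commutator_le]
          intro a ha b hb
          rw [← hr] at ha
          obtain ⟨g', hg', rfl⟩ := ha
          change at1 hi y ⁅g' y, b⁆ ∈ N
          have e : at1 hi y ⁅g' y, b⁆ = incT hi g' * (at1 hi y b * (incT hi g')⁻¹ * (at1 hi y b)⁻¹) := by
            rw [at1_apply, at1_apply, ← map_inv, ← map_inv, ← map_mul, ← map_mul, ← map_mul]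
            congr 1
            funext x
            by_cases hx : x = y
            · subst hx
              simp [commutatorElement_def, mul_assoc]
            · simp [Pi.mulSingle_eq_of_ne hx]
          rw [e]
          exact N.mul_mem hg' (hN.conj_mem _ (N.inv_mem hg') _)
        exact this
    · exact ⟨0, by rw [St_zero]; exact case0 hA hS hi hd hp hN h1⟩

theorem exists_not_le {N : Subgroup ↥T} (h : N ≠ ⊥) : ∃ n, ¬ N ≤ St (n + 1) := by
  by_contra hcon
  push Not at hcon
  apply h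
  rw [Subgroup.eq_bot_iff_forall]
  intro t ht
  apply Subtype.ext
  ext1 z
  funext i
  exact hcon i ht z i (by omega)

end TB3

open TB3 in
theorem b_normal (hA : A_trans) (hS : A_simple) (hi : B_inc) (hd : B_dec) (hp : B_perfect) : B_normal := by
  refine ⟨St_normal, fun N hN hne => ?_⟩
  obtain ⟨n, hn⟩ := exists_not_le hne
  exact normal_aux hA hS hi hd hp n N hN hn

/-! ### the nucleus -/

namespace TB3

def Nuc (s : Equiv.Perm Ray) : Prop := (∃ a ∈ S, s = rooted a) ∨ (∃ a ∈ S, s = dir a)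

theorem Nuc_one : Nuc 1 := Or.inl ⟨1, S.one_mem, (map_one rooted).symm⟩

theorem rooted_cons' (s : Equiv.Perm Y) (y : Y) (z : Ray) : rooted s (cons y z) = cons (s y) z := by
  rw [rooted_apply]; rfl

/-- the section of a directed element -/
theorem dir_cons {a : Equiv.Perm Y} (ha : a ∈ S) (y : Y) : ∃ s, Nuc s ∧ ∀ z, dir a (cons y z) = cons y (s z) := by
  refine ⟨if y = 0 then dir a else if y = 1 then rooted a else 1, ?_, fun z => ?_⟩
  · split_ifs
    · exact Or.inr ⟨a, ha, rfl⟩
    · exact Or.inl ⟨a, ha, rfl⟩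
    · exact Nuc_one
  · conv_lhs => rw [TB1.dir_eq a]
    rw [inc_apply]
    rfl

theorem Nuc_sec {s : Equiv.Perm Ray} (hs : Nuc s) (y : Y) : ∃ y' s', Nuc s' ∧ ∀ z, s (cons y z) = cons y' (s' z) := by
  rcases hs with ⟨a, ha, rfl⟩ | ⟨a, ha, rfl⟩
  · exact ⟨a y, 1, Nuc_one, fun z => rooted_cons' a y z⟩
  · obtain ⟨s', hs', h⟩ := dir_cons ha y
    exact ⟨y, s', hs', h⟩

theorem Nuc_mul_sec {s t : Equiv.Perm Ray} (hs : Nuc s) (ht : Nuc t) (y : Y) :
    ∃ y' s', Nuc s' ∧ ∀ z, s (t (cons y z)) = cons y' (s' z) := by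
  rcases ht with ⟨a, ha, rfl⟩ | ⟨a, ha, rfl⟩
  · obtain ⟨y', s', hs', h⟩ := Nuc_sec hs (a y)
    exact ⟨y', s', hs', fun z => by rw [rooted_cons', h]⟩
  · rcases hs with ⟨b, hb, rfl⟩ | ⟨b, hb, rfl⟩
    · obtain ⟨s', hs', h⟩ := dir_cons ha y
      exact ⟨b y, s', hs', fun z => by rw [h, rooted_cons']⟩
    · obtain ⟨s', hs', h⟩ := dir_cons (S.mul_mem hb ha) y
      refine ⟨y, s', hs', fun z => ?_⟩
      rw [← h z, map_mul, Equiv.Perm.mul_apply]

def NucAt (t : Equiv.Perm Ray) (k : ℕ) : Prop :=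
  ∀ v : Ray, ∃ s : Equiv.Perm Ray, Nuc s ∧ ∀ z, t (app k v z) = app k (t v) (s z)

/-- the ray `z` shifted -/
def sh (k : ℕ) (z : Ray) : Ray := fun i => z (i + k)

theorem app_sh (k : ℕ) (v : Ray) : app k v (sh k v) = v := by
  funext i
  unfold app sh
  split_ifs with h
  · rfl
  · congr 1; omega

theorem app_succ' (k : ℕ) (v z : Ray) : app (k + 1) v z = app k v (cons (v k) z) := by
  funext i
  unfold app
  by_cases h : i < k
  · rw [if_pos h, if_pos (by omega)]
  · by_cases h' : i = k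
    · subst h'
      rw [if_pos (by omega), if_neg h, Nat.sub_self]; rfl
    · rw [if_neg (by omega), if_neg h]
      obtain ⟨j, rfl⟩ : ∃ j, i = k + 1 + j := ⟨i - (k + 1), by omega⟩
      rw [show k + 1 + j - (k + 1) = j by omega, show k + 1 + j - k = j + 1 by omega]; rfl

theorem app_congr {k : ℕ} {v v' z : Ray} (h : ∀ i < k, v i = v' i) : app k v z = app k v' z := by
  funext i
  unfold app
  split_ifs with hi
  · exact h i hi
  · rfl

theorem app_inj {k : ℕ} {v z z' : Ray} (h : app k v z = app k v z') : z = z' := by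
  funext i
  have := congrFun h (i + k)
  unfold app at this
  rw [if_neg (by omega), if_neg (by omega)] at this
  simpa using this

/-- from a description of the action on the next letter -/
theorem step {t : Equiv.Perm Ray} {k : ℕ} {v : Ray} {y' : Y} {s s' : Equiv.Perm Ray}
    (h : ∀ z, t (app k v z) = app k (t v) (s z)) (h' : ∀ z, s (cons (v k) z) = cons y' (s' z)) :
    ∀ z, t (app (k + 1) v z) = app (k + 1) (t v) (s' z) := by
  have hy : (t v) k = y' := by
    have e1 : t v = app k (t v) (s (sh k v)) := by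
      conv_lhs => rw [← app_sh k v]
      exact h _
    have e2 : sh k v = cons (v k) (sh (k + 1) v) := by
      funext i
      cases i with
      | zero => simp [sh]
      | succ i => simp [sh]; congr 1; omega
    rw [e2, h'] at e1
    rw [e1]
    unfold app
    rw [if_neg (lt_irrefl k), Nat.sub_self]; rfl
  intro z
  rw [app_succ', app_succ', h, h', hy]

theorem NucAt_succ {t : Equiv.Perm Ray} {k : ℕ} (h : NucAt t k) : NucAt t (k + 1) := by
  intro v
  obtain ⟨s, hs, hsv⟩ := h v
  obtain ⟨y', s', hs', h'⟩ := Nuc_sec hs (v k)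
  exact ⟨s', hs', step hsv h'⟩

theorem NucAt_mono {t : Equiv.Perm Ray} {k l : ℕ} (hkl : k ≤ l) (h : NucAt t k) : NucAt t l := by
  induction l, hkl using Nat.le_induction with
  | base => exact h
  | succ l _ ih => exact NucAt_succ ih

theorem NucAt_mul {a b : Equiv.Perm Ray} {k : ℕ} (ha : NucAt a k) (hb : NucAt b k) : NucAt (a * b) (k + 1) := by
  intro v
  obtain ⟨s, hs, hsv⟩ := hb v
  obtain ⟨s2, hs2, hs2v⟩ := ha (b v)
  obtain ⟨y', s', hs', h'⟩ := Nuc_mul_sec hs2 hs (v k)
  refine ⟨s', hs', ?_⟩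
  apply step (s := s2 * s) (y' := y')
  · intro z
    rw [Equiv.Perm.mul_apply, hsv, hs2v, Equiv.Perm.mul_apply, Equiv.Perm.mul_apply]
  · intro z
    rw [Equiv.Perm.mul_apply, h']

end TB3

open TB3 in
theorem b_nuc : B_nuc := by
  intro t ht
  have : ∃ k, NucAt t k := by
    refine T_induction (P := fun t => ∃ k, NucAt t k) ?_ ?_ ?_ ?_ ht
    · exact ⟨0, fun v => ⟨1, Nuc_one, fun z => by rw [TB2.app_zero, TB2.app_zero]⟩⟩
    · intro s hs
      exact ⟨0, fun v => ⟨rooted s, Or.inl ⟨s, hs, rfl⟩, fun z => by rw [TB2.app_zero, TB2.app_zero]⟩⟩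
    · intro s hs
      exact ⟨0, fun v => ⟨dir s, Or.inr ⟨s, hs, rfl⟩, fun z => by rw [TB2.app_zero, TB2.app_zero]⟩⟩
    · rintro a _ b _ ⟨k, hk⟩ ⟨l, hl⟩
      exact ⟨max k l + 1, NucAt_mul (NucAt_mono (le_max_left _ _) hk) (NucAt_mono (le_max_right _ _) hl)⟩
  exact this

open TB3 in
theorem b_stab (hA : A_trans) (hiA : B_incAt) : B_stab := by
  intro z
  have hmove : ∀ w : Ray, ∃ s ∈ S, rooted s w ≠ w := by
    intro w
    obtain ⟨y, hy⟩ : ∃ y : Y, w 0 ≠ y := TB2.exists_ne_Y (w 0)
    obtain ⟨s, hs, h1, _⟩ := hA (w 0) y y (w 0) hy (Ne.symm hy)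
    refine ⟨s, hs, fun h => ?_⟩
    have := congrFun h 0
    rw [rooted_apply, cons_zero, h1] at this
    exact hy this.symm
  constructor
  · intro z' h
    by_contra hne
    have hex : ∃ n, z' n ≠ z n := by
      by_contra hcon
      push Not at hcon
      exact hne (funext hcon)
    classical
    obtain ⟨s, hs, hsm⟩ := hmove (sh (Nat.find hex + 1) z')
    have hmem : incAt (Nat.find hex + 1) z' (rooted s) ∈ T := hiA _ _ _ (rooted_mem hs)
    have h1 : incAt (Nat.find hex + 1) z' (rooted s) z = z :=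
      (b_incAt_apply (Nat.find hex + 1) z' (rooted s)).2.1 z
        ⟨Nat.find hex, by omega, fun h => Nat.find_spec hex h.symm⟩
    have h2 := h _ hmem h1
    have h3 := (b_incAt_apply (Nat.find hex + 1) z' (rooted s)).1 (sh (Nat.find hex + 1) z')
    rw [app_sh, h2] at h3
    apply hsm
    apply app_inj (k := Nat.find hex + 1) (v := z')
    rw [← h3, app_sh]
  · rw [MulAction.index_stabilizer]
    apply Set.Infinite.ncard
    choose s hs hsm using hmove
    let u : ℕ → Ray := fun n => incAt n z (rooted (s (sh n z))) z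
    have hu : ∀ n, u n = app n z (rooted (s (sh n z)) (sh n z)) := by
      intro n
      have := (b_incAt_apply n z (rooted (s (sh n z)))).1 (sh n z)
      rw [app_sh] at this
      exact this
    have hpre : ∀ n, ∀ i < n, u n i = z i := by
      intro n i hi
      rw [hu]; unfold app; rw [if_pos hi]
    have hne : ∀ n, u n n ≠ z n := by
      intro n h
      apply hsm (sh n z)
      rw [hu] at h
      unfold app at h
      rw [if_neg (lt_irrefl n), Nat.sub_self, rooted_apply, cons_zero] at h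
      rw [rooted_apply, h]
      funext i
      cases i with
      | zero => simp [sh]
      | succ i => rfl
    have hinj : Function.Injective u := by
      intro m n hmn
      rcases lt_trichotomy m n with h | h | h
      · exact absurd (by rw [hmn]; exact hpre n m h) (hne m)
      · exact h
      · exact absurd (by rw [← hmn]; exact hpre m n h) (hne n)
    refine Set.infinite_of_injective_forall_mem hinj (s := MulAction.orbit ↥T z) ?_
    intro n
    exact ⟨⟨incAt n z (rooted (s (sh n z))), hiA _ _ _ (rooted_mem (hs _))⟩, rfl⟩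

end Pool.Agent.Helper106.CG
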