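import Pool.Agent.Helper106.CG.Stmts

/-!
# Characteristic versus normal subgroup growth: task B4 (rigidity)

There is a ray `z` such that every automorphism of `T` preserving the stabiliser of `z` up to conjugacy is inner.
-/

namespace Pool.Agent.Helper106.CG

namespace TB4

/-- agreement on the first `n` letters -/
def Agr (n : ℕ) (z w : Ray) : Prop := ∀ i < n, z i = w i

theorem Agr.refl (n : ℕ) (z : Ray) : Agr n z z := fun _ _ => rfl

theorem Agr.symm {n : ℕ} {z w : Ray} (h : Agr n z w) : Agr n w z := fun i hi => (h i hi).symm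

theorem Agr.trans {n : ℕ} {z w x : Ray} (h : Agr n z w) (h' : Agr n w x) : Agr n z x :=
  fun i hi => (h i hi).trans (h' i hi)

theorem agr_all {z w : Ray} (h : ∀ n, Agr n z w) : z = w :=
  funext fun i => h (i + 1) i (Nat.lt_succ_self i)

theorem agr_T {t : Equiv.Perm Ray} (ht : t ∈ T) {n : ℕ} {z w : Ray} : Agr n (t z) (t w) ↔ Agr n z w :=
  T_prefix ht

theorem agr_one {z w : Ray} (h : z 0 = w 0) : Agr 1 z w := by
  intro i hi
  obtain rfl : i = 0 := by omega
  exact h

theorem agr_succ {n : ℕ} {z w : Ray} (y : Y) (h : Agr n z w) : Agr (n + 1) (cons y z) (cons y w) := by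
  intro i hi
  cases i with
  | zero => rfl
  | succ i => exact h i (by omega)

theorem agr_tail {n : ℕ} {z w : Ray} (h : Agr (n + 1) z w) : Agr n (tail z) (tail w) :=
  fun i hi => h (i + 1) (by omega)

theorem app_zero (v z : Ray) : app 0 v z = z := by
  funext i; simp [app]

theorem app_succ (n : ℕ) (v z : Ray) : app (n + 1) v z = cons (v 0) (app n (tail v) z) := by
  funext i
  cases i with
  | zero => simp [app]
  | succ i => simp [app]

theorem app_agr (n : ℕ) (v z : Ray) : Agr n (app n v z) v := by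
  intro i hi; simp [app, hi]

theorem app_congr {n : ℕ} {v w : Ray} (h : Agr n v w) (z : Ray) : app n v z = app n w z := by
  funext i
  unfold app
  by_cases hi : i < n
  · rw [if_pos hi, if_pos hi, h i hi]
  · rw [if_neg hi, if_neg hi]

theorem app_drop {n : ℕ} {v z : Ray} (h : Agr n z v) : app n v (fun i => z (i + n)) = z := by
  funext i
  unfold app
  by_cases hi : i < n
  · rw [if_pos hi, h i hi]
  · rw [if_neg hi]
    change z (i - n + n) = z i
    rw [Nat.sub_add_cancel (by omega)]

/-- the prefix-preserving bijections normalising `T` -/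
structure Nrm (g : Equiv.Perm Ray) : Prop where
  pre : ∀ n z w, Agr n z w → Agr n (g z) (g w)
  pre' : ∀ n z w, Agr n z w → Agr n (g⁻¹ z) (g⁻¹ w)
  conj : ∀ t ∈ T, g * t * g⁻¹ ∈ T
  conj' : ∀ t ∈ T, g⁻¹ * t * g ∈ T

theorem Nrm.of_mem {t : Equiv.Perm Ray} (ht : t ∈ T) : Nrm t where
  pre _ _ _ h := (T_prefix ht).2 h
  pre' _ _ _ h := (T_prefix (T.inv_mem ht)).2 h
  conj _ hu := T.mul_mem (T.mul_mem ht hu) (T.inv_mem ht)
  conj' _ hu := T.mul_mem (T.mul_mem (T.inv_mem ht) hu) ht

theorem Nrm.mul {g h : Equiv.Perm Ray} (hg : Nrm g) (hh : Nrm h) : Nrm (g * h) where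
  pre n _ _ hzw := hg.pre n _ _ (hh.pre n _ _ hzw)
  pre' n _ _ hzw := by
    rw [mul_inv_rev]
    exact hh.pre' n _ _ (hg.pre' n _ _ hzw)
  conj u hu := by
    have := hg.conj _ (hh.conj u hu)
    convert this using 1
    group
  conj' u hu := by
    have := hh.conj' _ (hg.conj' u hu)
    convert this using 1
    group

/-- if `inc h ∈ T` then all the `h y ∈ T`. -/
theorem inc_mem (hsec : B_sec) {h : Y → Equiv.Perm Ray} (hh : inc h ∈ T) (y : Y) : h y ∈ T := by
  obtain ⟨s, hs, hs'⟩ := hsec _ hh 1 (cons y 0)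
  have : h y = s := by
    ext1 z
    have h1 := congrArg tail (hs' z)
    rw [app_succ, app_zero, app_succ, app_zero, tail_cons] at h1
    simpa using h1
  rw [this]
  exact hs

theorem rooted_inc (s : Equiv.Perm Y) (h : Y → Equiv.Perm Ray) :
    rooted s * inc h * (rooted s)⁻¹ = inc (fun y => h (s⁻¹ y)) := by
  rw [mul_inv_eq_iff_eq_mul]
  ext1 z
  rw [Equiv.Perm.mul_apply, Equiv.Perm.mul_apply, inc_apply, rooted_apply, inc_apply, rooted_apply]
  simp

/-- an element of the normaliser fixing a cone pointwise is in `T` -/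
theorem claim (h1 : A_norm) (h2 : A_trans) (h3 : B_inc) (h4 : B_sec) :
    ∀ (n : ℕ) (g : Equiv.Perm Ray), Nrm g → ∀ v : Ray, (∀ z, g (app n v z) = app n v z) → g ∈ T := by
  intro n
  induction n with
  | zero =>
    intro g _ v hv
    have : g = 1 := by
      ext1 z
      have := hv z
      rwa [app_zero] at this
    rw [this]; exact T.one_mem
  | succ n ih =>
    intro g hg v hv
    have hgi : ∀ z, g⁻¹ (g z) = z := fun z => Equiv.symm_apply_apply g z
    have hgi' : ∀ z, g (g⁻¹ z) = z := fun z => Equiv.apply_symm_apply g z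
    -- the root permutation
    let s : Equiv.Perm Y :=
      { toFun := fun y => g (cons y 0) 0
        invFun := fun y => g⁻¹ (cons y 0) 0
        left_inv := by
          intro y
          have := hg.pre' 1 (cons (g (cons y 0) 0) 0) (g (cons y 0)) (agr_one rfl) 0 (by omega)
          change g⁻¹ (cons (g (cons y 0) 0) 0) 0 = y
          rw [this, hgi]; rfl
        right_inv := by
          intro y
          have := hg.pre 1 (cons (g⁻¹ (cons y 0) 0) 0) (g⁻¹ (cons y 0)) (agr_one rfl) 0 (by omega)
          change g (cons (g⁻¹ (cons y 0) 0) 0) 0 = y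
          rw [this, hgi']; rfl }
    have hs : ∀ z, g z 0 = s (z 0) := fun z =>
      hg.pre 1 z (cons (z 0) 0) (agr_one rfl) 0 (by omega)
    have hs' : ∀ z, g⁻¹ z 0 = s⁻¹ (z 0) := fun z =>
      hg.pre' 1 z (cons (z 0) 0) (agr_one rfl) 0 (by omega)
    have hsS : s ∈ S := by
      apply h1
      intro a ha
      obtain ⟨l, hl, hl'⟩ := label (hg.conj _ (rooted_mem ha)) 0 0
      have : s * a * s⁻¹ = l := by
        ext1 y
        have h := (hl' (cons y 0) (fun i hi => absurd hi (by omega))).2
        rw [Equiv.Perm.mul_apply, Equiv.Perm.mul_apply, hs, rooted_apply, cons_zero, hs', cons_zero] at h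
        exact h
      rw [this]; exact hl
    -- reduction to trivial root permutation
    have hrT := rooted_mem hsS
    obtain ⟨g', hg'⟩ : ∃ g', g' = g * (rooted s)⁻¹ := ⟨_, rfl⟩
    have hN : Nrm g' := by rw [hg']; exact hg.mul (Nrm.of_mem (T.inv_mem hrT))
    have hroot : ∀ z, g' z 0 = z 0 := by
      intro z
      have e : (rooted s)⁻¹ z = cons (s⁻¹ (z 0)) (tail z) := rfl
      rw [hg', Equiv.Perm.mul_apply, hs, e, cons_zero]
      exact Equiv.apply_symm_apply s (z 0)
    have hgi : ∀ z, g'⁻¹ (g' z) = z := fun z => Equiv.symm_apply_apply g' z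
    have hgi' : ∀ z, g' (g'⁻¹ z) = z := fun z => Equiv.apply_symm_apply g' z
    have hroot' : ∀ z, g'⁻¹ z 0 = z 0 := by
      intro z
      have := hroot (g'⁻¹ z)
      rw [hgi'] at this
      exact this.symm
    -- the sections
    let k : Y → Equiv.Perm Ray := fun y =>
      { toFun := fun z => tail (g' (cons y z))
        invFun := fun z => tail (g'⁻¹ (cons y z))
        left_inv := by
          intro z
          have e : cons y (tail (g' (cons y z))) = g' (cons y z) := by
            have := hroot (cons y z)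
            rw [cons_zero] at this
            conv_rhs => rw [← cons_tail (g' (cons y z)), this]
          change tail (g'⁻¹ (cons y (tail (g' (cons y z))))) = z
          rw [e, hgi, tail_cons]
        right_inv := by
          intro z
          have e : cons y (tail (g'⁻¹ (cons y z))) = g'⁻¹ (cons y z) := by
            have := hroot' (cons y z)
            rw [cons_zero] at this
            conv_rhs => rw [← cons_tail (g'⁻¹ (cons y z)), this]
          change tail (g' (cons y (tail (g'⁻¹ (cons y z))))) = z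
          rw [e, hgi', tail_cons] }
    have hk : ∀ y z, k y z = tail (g' (cons y z)) := fun _ _ => rfl
    have hk' : ∀ y z, (k y)⁻¹ z = tail (g'⁻¹ (cons y z)) := fun _ _ => rfl
    have hinc : g' = inc k := by
      ext1 z
      rw [inc_apply, hk, cons_tail]
      conv_lhs => rw [← cons_tail (g' z), hroot]
    -- the sections are in the normaliser
    have hkN : ∀ y, Nrm (k y) := by
      intro y
      have key : ∀ t ∈ T, inc (Function.update (1 : Y → Equiv.Perm Ray) y t) ∈ T := by
        intro t ht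
        apply h3
        intro y'
        by_cases hy : y' = y
        · subst hy; rw [Function.update_self]; exact ht
        · rw [Function.update_of_ne hy]; exact T.one_mem
      refine ⟨?_, ?_, ?_, ?_⟩
      · intro m z w h
        rw [hk, hk]
        exact agr_tail (hN.pre _ _ _ (agr_succ y h))
      · intro m z w h
        rw [hk', hk']
        exact agr_tail (hN.pre' _ _ _ (agr_succ y h))
      · intro t ht
        have h := hN.conj _ (key t ht)
        rw [hinc, ← map_mul, ← map_inv, ← map_mul] at h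
        have := inc_mem h4 h y
        simpa using this
      · intro t ht
        have h := hN.conj' _ (key t ht)
        rw [hinc, ← map_inv, ← map_mul, ← map_mul] at h
        have := inc_mem h4 h y
        simpa using this
    -- the section at `v 0` is in `T`
    have hsv : s (v 0) = v 0 := by
      rw [← hs v]
      have := congrFun (hv (fun i => v (i + (n + 1)))) 0
      rwa [app_drop (Agr.refl _ _)] at this
    have hsv' : s⁻¹ (v 0) = v 0 := by
      rw [Equiv.Perm.inv_eq_iff_eq]; exact hsv.symm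
    have hv0 : k (v 0) ∈ T := by
      apply ih _ (hkN _) (tail v)
      intro z
      rw [hk, ← app_succ]
      have e : (rooted s)⁻¹ (app (n + 1) v z) = app (n + 1) v z := by
        have e' : (rooted s)⁻¹ (app (n + 1) v z) =
          cons (s⁻¹ (app (n + 1) v z 0)) (tail (app (n + 1) v z)) := rfl
        rw [e', app_succ, cons_zero, hsv', tail_cons]
      rw [hg', Equiv.Perm.mul_apply, e, hv, app_succ, tail_cons]
    -- all sections are in `T`
    have hall : ∀ y, k y ∈ T := by
      intro y
      by_cases hy : y = v 0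
      · rw [hy]; exact hv0
      · obtain ⟨a, ha, ha1, -⟩ := h2 (v 0) y y (v 0) (Ne.symm hy) hy
        have h := T.mul_mem (hN.conj _ (rooted_mem ha)) (T.inv_mem (rooted_mem ha))
        have e : g' * rooted a * g'⁻¹ * (rooted a)⁻¹ = inc (k * (fun y => (k⁻¹) (a⁻¹ y))) := by
          rw [map_mul, ← rooted_inc, hinc, map_inv]
          group
        rw [e] at h
        have h' := inc_mem h4 h y
        have ha1' : a⁻¹ y = v 0 := by rw [Equiv.Perm.inv_eq_iff_eq]; exact ha1.symm
        rw [Pi.mul_apply] at h'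
        change k y * k⁻¹ (a⁻¹ y) ∈ T at h'
        rw [ha1', Pi.inv_apply] at h'
        have := T.mul_mem h' hv0
        rwa [inv_mul_cancel_right] at this
    have : g = inc k * rooted s := by rw [← hinc, hg', inv_mul_cancel_right]
    rw [this]
    exact T.mul_mem (h3 _ hall) hrT

theorem index_strictMono (hT : A_trans) (hI : B_index) : StrictMono (fun n => (St n).index) := by
  obtain ⟨s, hs, hs0, -⟩ := hT 0 1 1 0 (by decide) (by decide)
  have hne : (⟨s, hs⟩ : ↥S) ≠ 1 := by
    intro h
    have : s = 1 := congrArg Subtype.val h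
    rw [this] at hs0
    exact absurd hs0 (by decide)
  have : Nontrivial ↥S := ⟨⟨_, _, hne⟩⟩
  have hc : 1 < Nat.card ↥S := Finite.one_lt_card
  have hpos : ∀ n, 0 < (St n).index := by
    intro n
    induction n with
    | zero => rw [hI.1]; exact Nat.one_pos
    | succ n ih => rw [hI.2]; positivity
  apply strictMono_nat_of_lt_succ
  intro n
  change (St n).index < (St (n + 1)).index
  rw [hI.2]
  have h0 := hpos n
  calc (St n).index ≤ (St n).index ^ 7 := Nat.le_self_pow (by norm_num) _
    _ < Nat.card ↥S * (St n).index ^ 7 := by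
      have : 0 < (St n).index ^ 7 := by positivity
      nlinarith

theorem map_St (hT : A_trans) (hN : B_normal) (hI : B_index) (β : MulAut ↥T) (n : ℕ) :
    ∀ u ∈ St n, β u ∈ St n := by
  by_cases hb : St n = ⊥
  · intro u hu
    rw [hb, Subgroup.mem_bot] at hu
    rw [hu, map_one]; exact (St n).one_mem
  · have hnorm : ((St n).map (β : ↥T →* ↥T)).Normal := (hN.1 n).map _ β.surjective
    have hne : (St n).map (β : ↥T →* ↥T) ≠ ⊥ := by
      intro h
      exact hb ((Subgroup.map_eq_bot_iff_of_injective _ β.injective).1 h)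
    obtain ⟨m, hm⟩ := hN.2 _ hnorm hne
    have h1 : (St m).index = (St n).index := by
      rw [← hm]
      exact Subgroup.index_map_equiv (St n) β
    have h2 : m = n := (index_strictMono hT hI).injective h1
    intro u hu
    rw [← h2, ← hm]
    exact Subgroup.mem_map_of_mem _ hu

/-- an automorphism preserving the stabiliser of `z` preserves the stabilisers of its prefixes -/
theorem stab_prefix (hT : A_trans) (hN : B_normal) (hI : B_index) (hsec : B_sec) (hat : B_incAt)
    (hap : B_incAt_apply) (β : MulAut ↥T) (z : Ray)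
    (H : ∀ u : ↥T, (u : Equiv.Perm Ray) z = z → (β u : Equiv.Perm Ray) z = z) (n : ℕ) (u : ↥T)
    (hu : Agr n ((u : Equiv.Perm Ray) z) z) : Agr n ((β u : Equiv.Perm Ray) z) z := by
  obtain ⟨s, hs, hs'⟩ := hsec _ u.2 n z
  let k : ↥T := ⟨incAt n z s, hat n z s hs⟩
  have hkS : k ∈ St n := fun w i hi => (hap n z s).2.2 w i hi
  have hz : app n z (fun i => z (i + n)) = z := app_drop (Agr.refl _ _)
  have e1 : (u : Equiv.Perm Ray) z = (k : Equiv.Perm Ray) z := by
    have h1 := hs' (fun i => z (i + n))
    rw [hz, app_congr hu] at h1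
    have h2 := (hap n z s).1 (fun i => z (i + n))
    rw [hz] at h2
    rw [h1]; exact h2.symm
  have e2 : ((k⁻¹ * u : ↥T) : Equiv.Perm Ray) z = z := by
    rw [Subgroup.coe_mul, Equiv.Perm.mul_apply, e1, Subgroup.coe_inv]
    exact Equiv.symm_apply_apply (k : Equiv.Perm Ray) z
  have e3 := H _ e2
  have e4 : (β u : Equiv.Perm Ray) z = (β k : Equiv.Perm Ray) z := by
    have : β u = β k * β (k⁻¹ * u) := by rw [← map_mul, mul_inv_cancel_left]
    rw [this, Subgroup.coe_mul, Equiv.Perm.mul_apply, e3]
  rw [e4]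
  exact fun i hi => map_St hT hN hI β n k hkS z i hi

theorem compat (hT : A_trans) (hN : B_normal) (hI : B_index) (hsec : B_sec) (hat : B_incAt)
    (hap : B_incAt_apply) (β : MulAut ↥T) (z : Ray)
    (H : ∀ u : ↥T, (u : Equiv.Perm Ray) z = z → (β u : Equiv.Perm Ray) z = z) (n : ℕ) (u u' : ↥T)
    (hu : Agr n ((u : Equiv.Perm Ray) z) ((u' : Equiv.Perm Ray) z)) :
    Agr n ((β u : Equiv.Perm Ray) z) ((β u' : Equiv.Perm Ray) z) := by
  have h1 : Agr n (((u'⁻¹ * u : ↥T) : Equiv.Perm Ray) z) z := by
    rw [← agr_T u'.2, ← Equiv.Perm.mul_apply, ← Subgroup.coe_mul, mul_inv_cancel_left]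
    exact hu
  have h2 := stab_prefix hT hN hI hsec hat hap β z H n _ h1
  rw [← agr_T (β u').2, ← Equiv.Perm.mul_apply, ← Subgroup.coe_mul, ← map_mul, mul_inv_cancel_left] at h2
  exact h2

theorem exists_pt (htr : B_trans) (z : Ray) (n : ℕ) (w : Ray) : ∃ u : ↥T, Agr n ((u : Equiv.Perm Ray) z) w := by
  obtain ⟨t, ht, h⟩ := htr n z w
  refine ⟨⟨t, ht⟩, ?_⟩
  have := h (fun i => z (i + n))
  rw [app_drop (Agr.refl _ _)] at this
  change Agr n (t z) w
  rw [this]
  exact app_agr n w _

open Classical in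
/-- the map induced on rays by an automorphism -/
noncomputable def ind (htr : B_trans) (β : MulAut ↥T) (z w : Ray) : Ray :=
  fun i => (β (exists_pt htr z (i + 1) w).choose : Equiv.Perm Ray) z i

theorem ind_spec (htr : B_trans) (hT : A_trans) (hN : B_normal) (hI : B_index) (hsec : B_sec) (hat : B_incAt)
    (hap : B_incAt_apply) (β : MulAut ↥T) (z : Ray)
    (H : ∀ u : ↥T, (u : Equiv.Perm Ray) z = z → (β u : Equiv.Perm Ray) z = z) (n : ℕ) (w : Ray) (u : ↥T)
    (hu : Agr n ((u : Equiv.Perm Ray) z) w) : Agr n ((β u : Equiv.Perm Ray) z) (ind htr β z w) := by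
  intro i hi
  have h1 := (exists_pt htr z (i + 1) w).choose_spec
  have h2 : Agr (i + 1) ((u : Equiv.Perm Ray) z) w := fun j hj => hu j (by omega)
  exact compat hT hN hI hsec hat hap β z H (i + 1) u _ (h2.trans h1.symm) i (Nat.lt_succ_self i)

/-- every automorphism preserving the stabiliser of `z` is induced by a prefix-preserving bijection -/
theorem exists_nrm (htr : B_trans) (hT : A_trans) (hN : B_normal) (hI : B_index) (hsec : B_sec)
    (hat : B_incAt) (hap : B_incAt_apply) (β : MulAut ↥T) (z : Ray)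
    (H : ∀ u : ↥T, (u : Equiv.Perm Ray) z = z ↔ (β u : Equiv.Perm Ray) z = z) :
    ∃ g : Equiv.Perm Ray, Nrm g ∧ g z = z ∧ ∀ u : ↥T, (β u : Equiv.Perm Ray) = g * u * g⁻¹ := by
  have HS : ∀ u : ↥T, (u : Equiv.Perm Ray) z = z → (β.symm u : Equiv.Perm Ray) z = z := by
    intro u hu
    rw [H, MulEquiv.apply_symm_apply]
    exact hu
  have P := ind_spec htr hT hN hI hsec hat hap β z (fun u => (H u).1)
  have P' := ind_spec htr hT hN hI hsec hat hap β.symm z HS
  let g : Equiv.Perm Ray :=
    { toFun := ind htr β z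
      invFun := ind htr β.symm z
      left_inv := by
        intro w
        apply agr_all
        intro n
        obtain ⟨u, hu⟩ := exists_pt htr z n w
        have h1 := P' n _ _ (P n w u hu)
        rw [MulEquiv.symm_apply_apply] at h1
        exact h1.symm.trans hu
      right_inv := by
        intro w
        apply agr_all
        intro n
        obtain ⟨u, hu⟩ := exists_pt htr z n w
        have h1 := P n _ _ (P' n w u hu)
        rw [MulEquiv.apply_symm_apply] at h1
        exact h1.symm.trans hu }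
  have hg : ∀ w, g w = ind htr β z w := fun _ => rfl
  have hg' : ∀ w, g⁻¹ w = ind htr β.symm z w := fun _ => rfl
  have hconj : ∀ u : ↥T, (β u : Equiv.Perm Ray) = g * u * g⁻¹ := by
    intro u
    rw [eq_mul_inv_iff_mul_eq]
    ext1 w
    rw [Equiv.Perm.mul_apply, Equiv.Perm.mul_apply, hg, hg]
    apply agr_all
    intro n
    obtain ⟨k, hk⟩ := exists_pt htr z n w
    have h1 := P n w k hk
    have h2 : Agr n (((u * k : ↥T) : Equiv.Perm Ray) z) ((u : Equiv.Perm Ray) w) := by
      rw [Subgroup.coe_mul, Equiv.Perm.mul_apply, agr_T u.2]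
      exact hk
    have h3 := P n _ _ h2
    rw [map_mul, Subgroup.coe_mul, Equiv.Perm.mul_apply] at h3
    exact ((agr_T (β u).2).2 h1).symm.trans h3
  refine ⟨g, ⟨?_, ?_, ?_, ?_⟩, ?_, hconj⟩
  · intro n w w' h
    obtain ⟨u, hu⟩ := exists_pt htr z n w
    exact (P n w u hu).symm.trans (P n w' u (hu.trans h))
  · intro n w w' h
    obtain ⟨u, hu⟩ := exists_pt htr z n w
    exact (P' n w u hu).symm.trans (P' n w' u (hu.trans h))
  · intro t ht
    have := hconj ⟨t, ht⟩
    rw [← this]
    exact (β _).2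
  · intro t ht
    have h := hconj (β.symm ⟨t, ht⟩)
    rw [MulEquiv.apply_symm_apply] at h
    change t = _ at h
    generalize β.symm ⟨t, ht⟩ = b at h
    have e : g⁻¹ * t * g = (b : Equiv.Perm Ray) := by
      rw [h]; group
    rw [e]
    exact b.2
  · apply agr_all
    intro n
    have := P n z 1 (Agr.refl _ _)
    rw [map_one] at this
    exact this.symm

theorem countable_T (hfg : B_fg) : Countable ↥T := by
  obtain ⟨α, _, φ, hφ⟩ := Group.fg_iff_exists_freeGroup_hom_surjective_finite.1 hfg
  have : Countable (FreeGroup α) := by unfold FreeGroup; infer_instance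
  exact hφ.countable

theorem countable_hom (hfg : B_fg) : Countable (↥T →* ↥T) := by
  have := countable_T hfg
  obtain ⟨X, hX⟩ := hfg.out
  have : Function.Injective (fun (f : ↥T →* ↥T) (x : ↥X) => f x) := by
    intro f f' h
    refine MonoidHom.eq_of_eqOn_dense hX ?_
    intro x hx
    exact congrFun h ⟨x, hx⟩
  exact this.countable

/-- a permutation of the rays commuting with `T` is trivial -/
theorem centralizer_trivial (hst : B_stab) (g : Equiv.Perm Ray) (h : ∀ t ∈ T, g * t = t * g) : g = 1 := by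
  ext1 w
  change g w = w
  apply (hst w).1
  intro t ht htw
  rw [← Equiv.Perm.mul_apply, ← h t ht, Equiv.Perm.mul_apply, htw]

theorem countable_nrm (hfg : B_fg) (hst : B_stab) : {g : Equiv.Perm Ray | Nrm g}.Countable := by
  have := countable_hom hfg
  let F : {g : Equiv.Perm Ray | Nrm g} → (↥T →* ↥T) := fun g =>
    { toFun := fun t => ⟨(g : Equiv.Perm Ray) * t * (g : Equiv.Perm Ray)⁻¹, Nrm.conj g.2 t t.2⟩
      map_one' := by ext1; simp
      map_mul' := by intro a b; ext1; simp }
  have hF : Function.Injective F := by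
    intro g h e
    have key : ∀ t ∈ T, (g : Equiv.Perm Ray) * t * (g : Equiv.Perm Ray)⁻¹ =
        (h : Equiv.Perm Ray) * t * (h : Equiv.Perm Ray)⁻¹ := by
      intro t ht
      exact congrArg Subtype.val (DFunLike.congr_fun e ⟨t, ht⟩)
    have := centralizer_trivial hst ((h : Equiv.Perm Ray)⁻¹ * g) (by
      intro t ht
      have e := key t ht
      rw [mul_inv_eq_iff_eq_mul] at e
      calc (h : Equiv.Perm Ray)⁻¹ * g * t = (h : Equiv.Perm Ray)⁻¹ * (g * t) := by group
        _ = (h : Equiv.Perm Ray)⁻¹ * (h * t * (h : Equiv.Perm Ray)⁻¹ * g) := by rw [e]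
        _ = t * ((h : Equiv.Perm Ray)⁻¹ * g) := by group)
    apply Subtype.ext
    rw [inv_mul_eq_one] at this
    exact this.symm
  exact Set.countable_coe_iff.1 hF.countable

theorem isOpen_cone (n : ℕ) (v : Ray) : IsOpen {z : Ray | Agr n z v} := by
  have : {z : Ray | Agr n z v} = ⋂ i ∈ Set.Iio n, (fun z : Ray => z i) ⁻¹' {v i} := by
    ext z; simp [Agr]
  rw [this]
  exact (Set.finite_Iio n).isOpen_biInter (fun i _ => (isOpen_discrete _).preimage (continuous_apply i))

theorem cone_subset {U : Set Ray} (hU : IsOpen U) {v : Ray} (hv : v ∈ U) : ∃ n, {z : Ray | Agr n z v} ⊆ U := by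
  obtain ⟨I, u, h1, h2⟩ := isOpen_pi_iff.1 hU v hv
  refine ⟨I.sup id + 1, fun z hz => h2 ?_⟩
  intro i hi
  have : i < I.sup id + 1 := Nat.lt_succ_of_le (Finset.le_sup (f := id) hi)
  rw [hz i this]
  exact (h1 i hi).2

/-- a ray moved by all elements of the normaliser which are not in `T` -/
theorem exists_ray (h1 : A_norm) (h2 : A_trans) (h3 : B_inc) (h4 : B_sec) (hfg : B_fg) (hst : B_stab) :
    ∃ z : Ray, ∀ g : Equiv.Perm Ray, Nrm g → g ∉ T → g z ≠ z := by
  have hc : {g : Equiv.Perm Ray | Nrm g ∧ g ∉ T}.Countable :=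
    (countable_nrm hfg hst).mono (fun g hg => hg.1)
  have hd : Dense (⋂ g ∈ {g : Equiv.Perm Ray | Nrm g ∧ g ∉ T}, {z : Ray | g z ≠ z}) := by
    apply dense_biInter_of_isOpen _ hc _
    · rintro g ⟨hg, -⟩
      rw [isOpen_iff_forall_mem_open]
      intro z hz
      obtain ⟨i, hi⟩ := Function.ne_iff.1 hz
      refine ⟨{w | Agr (i + 1) w z}, ?_, isOpen_cone _ _, Agr.refl _ _⟩
      intro w hw hgw
      have a1 := hg.pre _ _ _ hw i (Nat.lt_succ_self i)
      rw [hgw, hw i (Nat.lt_succ_self i)] at a1
      exact hi a1.symm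
    · rintro g ⟨hg, hgT⟩
      rw [dense_iff_inter_open]
      rintro U hU ⟨v, hv⟩
      obtain ⟨n, hn⟩ := cone_subset hU hv
      by_contra hne
      apply hgT
      apply claim h1 h2 h3 h4 n g hg v
      intro z
      by_contra hz
      exact hne ⟨app n v z, hn (app_agr n v z), hz⟩
  obtain ⟨z, hz⟩ := hd.nonempty
  refine ⟨z, fun g hg hgT => ?_⟩
  exact Set.mem_iInter₂.1 hz g ⟨hg, hgT⟩

end TB4

open TB4 in
theorem b_rigid (h1 : A_norm) (h2 : A_trans) (h3 : B_inc) (h4 : B_sec) (hfg : B_fg) (hst : B_stab)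
    (htr : B_trans) (hN : B_normal) (hI : B_index) (hat : B_incAt) (hap : B_incAt_apply) : B_rigid := by
  obtain ⟨z, hz⟩ := exists_ray h1 h2 h3 h4 hfg hst
  refine ⟨z, fun β c H => ?_⟩
  have H' : ∀ u : ↥T, (u : Equiv.Perm Ray) z = z ↔
      ((MulAut.conj c⁻¹ * β) u : Equiv.Perm Ray) z = z := by
    intro u
    rw [H u, MulAut.mul_apply, MulAut.conj_apply, inv_inv]
  obtain ⟨g, hg, hgz, hgc⟩ := exists_nrm htr h2 hN hI h4 hat hap (MulAut.conj c⁻¹ * β) z H'
  have hgT : g ∈ T := by
    by_contra h
    exact hz g hg h hgz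
  refine ⟨c * ⟨g, hgT⟩, fun u => ?_⟩
  have e := hgc u
  rw [MulAut.mul_apply, MulAut.conj_apply, inv_inv] at e
  have e' : c⁻¹ * β u * c = ⟨g, hgT⟩ * u * ⟨g, hgT⟩⁻¹ := Subtype.ext e
  calc β u = c * (c⁻¹ * β u * c) * c⁻¹ := by group
    _ = c * (⟨g, hgT⟩ * u * ⟨g, hgT⟩⁻¹) * c⁻¹ := by rw [e']
    _ = c * ⟨g, hgT⟩ * u * (c * ⟨g, hgT⟩)⁻¹ := by group

end Pool.Agent.Helper106.CG
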