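import Pool.Agent.Helper106.CG.Defs

/-!
# Characteristic versus normal subgroup growth: labels, and the group `D = (M × M) ⋊ T`
-/

namespace Pool.Agent.Helper106.CG

theorem Dir.congr {k : ℕ} {z z' : Ray} (h : ∀ i ≤ k, z i = z' i) : Dir k z ↔ Dir k z' := by
  unfold Dir
  rw [h k le_rfl]
  constructor
  · rintro ⟨h1, h2⟩; exact ⟨h1, fun i hi => by rw [← h i hi.le]; exact h2 i hi⟩
  · rintro ⟨h1, h2⟩; exact ⟨h1, fun i hi => by rw [h i hi.le]; exact h2 i hi⟩

/-- Induction over the generators of `T`. -/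
theorem T_induction {P : Equiv.Perm Ray → Prop} (h1 : P 1) (hr : ∀ s ∈ S, P (rooted s))
    (hd : ∀ s ∈ S, P (dir s)) (hm : ∀ a ∈ T, ∀ b ∈ T, P a → P b → P (a * b))
    {t : Equiv.Perm Ray} (ht : t ∈ T) : P t := by
  have hT : T = Subgroup.closure ((rooted '' (S : Set (Equiv.Perm Y))) ∪ (dir '' (S : Set (Equiv.Perm Y)))) := by
    rw [Subgroup.closure_union]
    have e1 : Subgroup.closure (rooted '' (S : Set (Equiv.Perm Y))) = S.map rooted := by
      rw [← Subgroup.coe_map, Subgroup.closure_eq]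
    have e2 : Subgroup.closure (dir '' (S : Set (Equiv.Perm Y))) = S.map dir := by
      rw [← Subgroup.coe_map, Subgroup.closure_eq]
    rw [e1, e2]; rfl
  have hmem : ∀ x ∈ ((rooted '' (S : Set (Equiv.Perm Y))) ∪ (dir '' (S : Set (Equiv.Perm Y)))), x ∈ T := by
    intro x hx; rw [hT]; exact Subgroup.subset_closure hx
  have hinv : ∀ x ∈ ((rooted '' (S : Set (Equiv.Perm Y))) ∪ (dir '' (S : Set (Equiv.Perm Y)))),
      x⁻¹ ∈ ((rooted '' (S : Set (Equiv.Perm Y))) ∪ (dir '' (S : Set (Equiv.Perm Y)))) := by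
    rintro x (⟨s, hs, rfl⟩ | ⟨s, hs, rfl⟩)
    · left; exact ⟨s⁻¹, S.inv_mem hs, by rw [map_inv]⟩
    · right; exact ⟨s⁻¹, S.inv_mem hs, by rw [map_inv]⟩
  have hP : ∀ x ∈ ((rooted '' (S : Set (Equiv.Perm Y))) ∪ (dir '' (S : Set (Equiv.Perm Y)))), P x := by
    rintro x (⟨s, hs, rfl⟩ | ⟨s, hs, rfl⟩)
    · exact hr s hs
    · exact hd s hs
  have key : t ∈ T ∧ P t := by
    rw [hT] at ht
    refine Subgroup.closure_induction_left (p := fun x _ => x ∈ T ∧ P x) ⟨T.one_mem, h1⟩ ?_ ?_ ht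
    · intro x hx y hy ih
      exact ⟨T.mul_mem (hmem x hx) ih.1, hm x (hmem x hx) y ih.1 (hP x hx) ih.2⟩
    · intro x hx y hy ih
      exact ⟨T.mul_mem (T.inv_mem (hmem x hx)) ih.1,
        hm x⁻¹ (T.inv_mem (hmem x hx)) y ih.1 (hP _ (hinv x hx)) ih.2⟩
  exact key.2

theorem rooted_mem {s : Equiv.Perm Y} (hs : s ∈ S) : rooted s ∈ T :=
  (le_sup_left : S.map rooted ≤ T) (Subgroup.mem_map_of_mem _ hs)

theorem dir_mem {s : Equiv.Perm Y} (hs : s ∈ S) : dir s ∈ T :=
  (le_sup_right : S.map dir ≤ T) (Subgroup.mem_map_of_mem _ hs)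

/-- **Labels.** At each prefix (of length `n`) an element of `T` preserves prefixes and acts on the next letter by an
element of `S`. -/
theorem label {t : Equiv.Perm Ray} (ht : t ∈ T) (n : ℕ) (v : Ray) :
    ∃ l ∈ S, ∀ z : Ray, (∀ i < n, z i = v i) → (∀ i < n, t z i = t v i) ∧ t z n = l (z n) := by
  revert n v
  refine T_induction (P := fun t => ∀ (n : ℕ) (v : Ray),
    ∃ l ∈ S, ∀ z : Ray, (∀ i < n, z i = v i) → (∀ i < n, t z i = t v i) ∧ t z n = l (z n)) ?_ ?_ ?_ ?_ ht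
  · intro n v
    exact ⟨1, S.one_mem, fun z hz => ⟨fun i hi => hz i hi, rfl⟩⟩
  · intro s hs n v
    cases n with
    | zero => exact ⟨s, hs, fun z _ => ⟨fun i hi => absurd hi (by omega), rfl⟩⟩
    | succ n =>
      refine ⟨1, S.one_mem, fun z hz => ⟨fun i hi => ?_, rfl⟩⟩
      cases i with
      | zero => simp [hz 0 (by omega)]
      | succ i => simp [hz (i + 1) hi]
  · intro s hs n v
    cases n with
    | zero => exact ⟨1, S.one_mem, fun z _ => ⟨fun i hi => absurd hi (by omega), rfl⟩⟩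
    | succ n =>
      have pre : ∀ z : Ray, (∀ i < n + 1, z i = v i) → ∀ i < n + 1, dir s z i = dir s v i := by
        intro z hz i hi
        cases i with
        | zero => simp [hz 0 (by omega)]
        | succ i =>
          have hc : Dir i z ↔ Dir i v := Dir.congr (fun j hj => hz j (by omega))
          simp [hc, hz (i + 1) hi]
      by_cases hD : Dir n v
      · refine ⟨s, hs, fun z hz => ⟨pre z hz, ?_⟩⟩
        have hc : Dir n z := (Dir.congr (fun j hj => hz j (by omega))).2 hD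
        simp [hc]
      · refine ⟨1, S.one_mem, fun z hz => ⟨pre z hz, ?_⟩⟩
        have hc : ¬ Dir n z := fun h => hD ((Dir.congr (fun j hj => hz j (by omega))).1 h)
        simp [hc]
  · intro a _ b _ iha ihb n v
    obtain ⟨lb, hlb, hb⟩ := ihb n v
    obtain ⟨la, hla, ha⟩ := iha n (b v)
    refine ⟨la * lb, S.mul_mem hla hlb, fun z hz => ?_⟩
    have h1 := hb z hz
    have h2 := ha (b z) h1.1
    refine ⟨h2.1, ?_⟩
    rw [Equiv.Perm.mul_apply, h2.2, h1.2, Equiv.Perm.mul_apply]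

/-- elements of `T` preserve prefixes -/
theorem T_prefix {t : Equiv.Perm Ray} (ht : t ∈ T) {n : ℕ} {z z' : Ray} :
    (∀ i < n, t z i = t z' i) ↔ (∀ i < n, z i = z' i) := by
  constructor
  · intro h i hi
    induction i using Nat.strong_induction_on with
    | _ i ih =>
      obtain ⟨l, _, hl⟩ := label ht i z'
      have h1 := hl z (fun j hj => ih j hj (hj.trans hi))
      have h2 := hl z' (fun j _ => rfl)
      have h3 := h i hi
      rw [h1.2, h2.2] at h3
      exact l.injective h3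
  · intro h
    obtain ⟨l, _, hl⟩ := label ht n z'
    exact (hl z h).1

theorem smul_blk {t : Equiv.Perm Ray} (ht : t ∈ T) (n : ℕ) (v : Ray) :
    ∃ l ∈ S, ∀ u : Y → ZMod (p n), t • blk n v u = blk n (t v) (fun y => u (l⁻¹ y)) := by
  obtain ⟨l, hl, h⟩ := label ht n v
  refine ⟨l, hl, fun u => ?_⟩
  apply V_ext
  intro m z
  by_cases hm : m = n
  · subst hm
    rw [V_smul_apply]
    unfold blk
    rw [Pi.single_eq_same, Pi.single_eq_same]
    have hz : t (t⁻¹ z) = z := Equiv.apply_symm_apply t z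
    have key : (∀ i < m, (t⁻¹ z) i = v i) ↔ (∀ i < m, z i = t v i) := by
      rw [← T_prefix ht (z := t⁻¹ z) (z' := v), hz]
    by_cases hc : ∀ i < m, (t⁻¹ z) i = v i
    · rw [if_pos hc, if_pos (key.1 hc)]
      have := (h (t⁻¹ z) hc).2
      rw [hz] at this
      rw [this]
      simp
    · rw [if_neg hc, if_neg (fun h' => hc (key.2 h'))]
  · rw [V_smul_apply]
    unfold blk
    rw [Pi.single_eq_of_ne hm, Pi.single_eq_of_ne hm]
    rfl

theorem smul_Mn_mem {t : Equiv.Perm Ray} (ht : t ∈ T) {n : ℕ} {x : V} (hx : x ∈ Mn n) : t • x ∈ Mn n := by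
  refine AddSubgroup.closure_induction (p := fun x _ => t • x ∈ Mn n) ?_ ?_ ?_ ?_ hx
  · rintro x ⟨v, u, hu, rfl⟩
    obtain ⟨l, _, hl⟩ := smul_blk ht n v
    rw [hl]
    refine AddSubgroup.subset_closure ⟨t v, _, ?_, rfl⟩
    rw [← hu]
    exact Equiv.sum_comp l⁻¹ u
  · rw [smul_zero]; exact (Mn n).zero_mem
  · intro x y _ _ hx hy; rw [smul_add]; exact (Mn n).add_mem hx hy
  · intro x _ hx; rw [smul_neg]; exact (Mn n).neg_mem hx

theorem smul_M_mem {t : Equiv.Perm Ray} (ht : t ∈ T) {x : V} (hx : x ∈ M) : t • x ∈ M := by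
  refine AddSubgroup.closure_induction (p := fun x _ => t • x ∈ M) ?_ ?_ ?_ ?_ hx
  · rintro x (⟨t', ht', w, hw, rfl⟩ | hx)
    · rw [← mul_smul]
      exact AddSubgroup.subset_closure (Or.inl ⟨t * t', T.mul_mem ht ht', w, hw, rfl⟩)
    · exact AddSubgroup.subset_closure (Or.inr (smul_Mn_mem ht hx))
  · rw [smul_zero]; exact M.zero_mem
  · intro x y _ _ hx hy; rw [smul_add]; exact M.add_mem hx hy
  · intro x _ hx; rw [smul_neg]; exact M.neg_mem hx

/-! ## The group `D` -/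

noncomputable section

instance : DistribMulAction ↥T ↥M where
  smul t x := ⟨(t : Equiv.Perm Ray) • (x : V), smul_M_mem t.2 x.2⟩
  one_smul x := by ext1; exact one_smul _ _
  mul_smul a b x := by ext1; exact mul_smul _ _ _
  smul_zero a := by ext1; exact smul_zero _
  smul_add a x y := by ext1; exact smul_add _ _ _

@[simp] theorem coe_smul_M (t : ↥T) (x : ↥M) : ((t • x : ↥M) : V) = (t : Equiv.Perm Ray) • (x : V) := rfl

/-- `D = (M × M) ⋊ T` -/
@[ext] structure D where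
  x : ↥M
  y : ↥M
  t : ↥T

instance : Group D where
  mul a b := ⟨a.x + a.t • b.x, a.y + a.t • b.y, a.t * b.t⟩
  one := ⟨0, 0, 1⟩
  inv a := ⟨-(a.t⁻¹ • a.x), -(a.t⁻¹ • a.y), a.t⁻¹⟩
  mul_assoc a b c := by
    apply D.ext
    · change a.x + a.t • b.x + (a.t * b.t) • c.x = a.x + a.t • (b.x + b.t • c.x)
      rw [smul_add, mul_smul, add_assoc]
    · change a.y + a.t • b.y + (a.t * b.t) • c.y = a.y + a.t • (b.y + b.t • c.y)
      rw [smul_add, mul_smul, add_assoc]
    · exact mul_assoc _ _ _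
  one_mul a := by
    apply D.ext
    · change 0 + (1 : ↥T) • a.x = a.x
      rw [one_smul, zero_add]
    · change 0 + (1 : ↥T) • a.y = a.y
      rw [one_smul, zero_add]
    · exact one_mul _
  mul_one a := by
    apply D.ext
    · change a.x + a.t • (0 : ↥M) = a.x
      rw [smul_zero, add_zero]
    · change a.y + a.t • (0 : ↥M) = a.y
      rw [smul_zero, add_zero]
    · exact mul_one _
  inv_mul_cancel a := by
    apply D.ext
    · change -(a.t⁻¹ • a.x) + a.t⁻¹ • a.x = 0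
      rw [neg_add_cancel]
    · change -(a.t⁻¹ • a.y) + a.t⁻¹ • a.y = 0
      rw [neg_add_cancel]
    · exact inv_mul_cancel _

@[simp] theorem D_mul_x (a b : D) : (a * b).x = a.x + a.t • b.x := rfl
@[simp] theorem D_mul_y (a b : D) : (a * b).y = a.y + a.t • b.y := rfl
@[simp] theorem D_mul_t (a b : D) : (a * b).t = a.t * b.t := rfl
@[simp] theorem D_one_x : (1 : D).x = 0 := rfl
@[simp] theorem D_one_y : (1 : D).y = 0 := rfl
@[simp] theorem D_one_t : (1 : D).t = 1 := rfl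
@[simp] theorem D_inv_x (a : D) : (a⁻¹).x = -(a.t⁻¹ • a.x) := rfl
@[simp] theorem D_inv_y (a : D) : (a⁻¹).y = -(a.t⁻¹ • a.y) := rfl
@[simp] theorem D_inv_t (a : D) : (a⁻¹).t = a.t⁻¹ := rfl

/-- the projection `D → T` -/
def piT : D →* ↥T where
  toFun := D.t
  map_one' := rfl
  map_mul' _ _ := rfl

@[simp] theorem piT_apply (a : D) : piT a = a.t := rfl

/-- the automorphism `(x, y, t) ↦ (x, -y, t)` -/
def phi : MulAut D where
  toFun a := ⟨a.x, -a.y, a.t⟩
  invFun a := ⟨a.x, -a.y, a.t⟩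
  left_inv a := by simp
  right_inv a := by simp
  map_mul' a b := by
    apply D.ext
    · rfl
    · change -(a.y + a.t • b.y) = -a.y + a.t • (-b.y)
      rw [smul_neg, neg_add]
    · rfl

/-- the stabiliser of `Λ` in `T` -/
def T3 : Subgroup ↥T where
  carrier := {t | ∀ x : V, (t : Equiv.Perm Ray) • x ∈ Lam ↔ x ∈ Lam}
  mul_mem' := by
    intro a b ha hb x
    rw [Subgroup.coe_mul, mul_smul, ha, hb]
  one_mem' := by intro x; rw [Subgroup.coe_one, one_smul]
  inv_mem' := by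
    intro a ha x
    have h := ha (((a⁻¹ : ↥T) : Equiv.Perm Ray) • x)
    rw [← mul_smul, Subgroup.coe_inv, mul_inv_cancel, one_smul] at h
    exact h.symm

/-- the four marked subgroups of `D` (the second depends on a ray) -/
def L (z : Ray) : Fin 4 → Subgroup D
  | 0 => { carrier := {d | d.x = 0 ∧ d.y = 0}
           mul_mem' := by rintro a b ⟨h1, h2⟩ ⟨h3, h4⟩; simp [h1, h2, h3, h4]
           one_mem' := ⟨rfl, rfl⟩
           inv_mem' := by rintro a ⟨h1, h2⟩; simp [h1, h2] }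
  | 1 => (MulAction.stabilizer ↥T z).comap piT
  | 2 => { carrier := {d | (d.x : V) ∈ Lam ∧ d.t ∈ T3}
           mul_mem' := by
            rintro a b ⟨h1, h2⟩ ⟨h3, h4⟩
            exact ⟨Lam.add_mem h1 ((h2 _).2 h3), T3.mul_mem h2 h4⟩
           one_mem' := ⟨Lam.zero_mem, T3.one_mem⟩
           inv_mem' := by
            rintro a ⟨h1, h2⟩
            exact ⟨Lam.neg_mem ((T3.inv_mem h2 _).2 h1), T3.inv_mem h2⟩ }
  | 3 => { carrier := {d | (d.y : V) ∈ Lam ∧ d.t ∈ T3}
           mul_mem' := by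
            rintro a b ⟨h1, h2⟩ ⟨h3, h4⟩
            exact ⟨Lam.add_mem h1 ((h2 _).2 h3), T3.mul_mem h2 h4⟩
           one_mem' := ⟨Lam.zero_mem, T3.one_mem⟩
           inv_mem' := by
            rintro a ⟨h1, h2⟩
            exact ⟨Lam.neg_mem ((T3.inv_mem h2 _).2 h1), T3.inv_mem h2⟩ }

theorem mem_L0 (z : Ray) (d : D) : d ∈ L z 0 ↔ d.x = 0 ∧ d.y = 0 := Iff.rfl
theorem mem_L1 (z : Ray) (d : D) : d ∈ L z 1 ↔ (d.t : Equiv.Perm Ray) z = z := Iff.rfl
theorem mem_L2 (z : Ray) (d : D) : d ∈ L z 2 ↔ (d.x : V) ∈ Lam ∧ d.t ∈ T3 := Iff.rfl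
theorem mem_L3 (z : Ray) (d : D) : d ∈ L z 3 ↔ (d.y : V) ∈ Lam ∧ d.t ∈ T3 := Iff.rfl

end

end Pool.Agent.Helper106.CG
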