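import Pool.Agent.Helper106.CG.Stmts

/-!
# Tasks C1 and C2 (helper789): the branch module
-/

namespace Pool.Agent.Helper106.CG

namespace TC1

/-! ## Blocks and projections -/

theorem blk_self (n : ℕ) (v : Ray) (u : Y → ZMod (p n)) (z : Ray) :
    blk n v u n z = if ∀ i < n, z i = v i then u (z n) else 0 := by
  unfold blk
  rw [Pi.single_eq_same]

theorem blk_ne (n : ℕ) (v : Ray) (u : Y → ZMod (p n)) {m : ℕ} (h : m ≠ n) (z : Ray) :
    blk n v u m z = 0 := by
  unfold blk
  rw [Pi.single_eq_of_ne h]
  rfl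

theorem prj_self (n : ℕ) (x : V) (z : Ray) : prj n x n z = x n z := by
  unfold prj
  rw [Pi.single_eq_same]

theorem prj_ne (n : ℕ) (x : V) {m : ℕ} (h : m ≠ n) (z : Ray) : prj n x m z = 0 := by
  unfold prj
  rw [Pi.single_eq_of_ne h]
  rfl

theorem prj_ext {n : ℕ} {x y : V} (h : ∀ z, x n z = y n z) : prj n x = prj n y := by
  apply V_ext
  intro m z
  by_cases hm : m = n
  · subst hm; rw [prj_self, prj_self, h]
  · rw [prj_ne _ _ hm, prj_ne _ _ hm]

noncomputable def prjHom (n : ℕ) : V →+ V where
  toFun := prj n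
  map_zero' := by
    apply V_ext
    intro m z
    by_cases hm : m = n
    · subst hm; rw [prj_self]
    · rw [prj_ne _ _ hm]; rfl
  map_add' x y := by
    apply V_ext
    intro m z
    rw [V_add_apply]
    by_cases hm : m = n
    · subst hm; rw [prj_self, prj_self, prj_self, V_add_apply]
    · rw [prj_ne _ _ hm, prj_ne _ _ hm, prj_ne _ _ hm, add_zero]

theorem prjHom_apply (n : ℕ) (x : V) : prjHom n x = prj n x := rfl

theorem prj_smul (n : ℕ) (g : Equiv.Perm Ray) (x : V) : prj n (g • x) = g • prj n x := by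
  apply V_ext
  intro m z
  rw [V_smul_apply]
  by_cases hm : m = n
  · subst hm; rw [prj_self, prj_self, V_smul_apply]
  · rw [prj_ne _ _ hm, prj_ne _ _ hm]

theorem blk_congr (n : ℕ) {v v' : Ray} (h : ∀ i < n, v i = v' i) (u : Y → ZMod (p n)) :
    blk n v u = blk n v' u := by
  apply V_ext
  intro m z
  by_cases hm : m = n
  · subst hm
    rw [blk_self, blk_self]
    have : (∀ i < m, z i = v i) ↔ (∀ i < m, z i = v' i) := by
      constructor
      · intro h' i hi; rw [h' i hi, h i hi]
      · intro h' i hi; rw [h' i hi, h i hi]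
    simp only [this]
  · rw [blk_ne _ _ _ hm, blk_ne _ _ _ hm]

noncomputable def blkHom (n : ℕ) (v : Ray) : (Y → ZMod (p n)) →+ V where
  toFun := blk n v
  map_zero' := by
    apply V_ext
    intro m z
    by_cases hm : m = n
    · subst hm; rw [blk_self]; simp
    · rw [blk_ne _ _ _ hm]; rfl
  map_add' x y := by
    apply V_ext
    intro m z
    rw [V_add_apply]
    by_cases hm : m = n
    · subst hm
      rw [blk_self, blk_self, blk_self]
      split_ifs <;> simp
    · rw [blk_ne _ _ _ hm, blk_ne _ _ _ hm, blk_ne _ _ _ hm, add_zero]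

theorem blkHom_apply (n : ℕ) (v : Ray) (u : Y → ZMod (p n)) : blkHom n v u = blk n v u := rfl

theorem blk_mem (n : ℕ) (v : Ray) {u : Y → ZMod (p n)} (hu : ∑ y, u y = 0) : blk n v u ∈ Mn n :=
  AddSubgroup.subset_closure ⟨v, u, hu, rfl⟩

/-- the characterising properties of the elements of `Mn n` -/
theorem Mn_props {n : ℕ} {x : V} (hx : x ∈ Mn n) :
    (∀ m, m ≠ n → ∀ z, x m z = 0) ∧ (∀ z z' : Ray, (∀ i ≤ n, z i = z' i) → x n z = x n z') ∧
    (∀ z : Ray, ∑ y, x n (Function.update z n y) = 0) := by
  refine AddSubgroup.closure_induction (p := fun x _ =>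
    (∀ m, m ≠ n → ∀ z, x m z = 0) ∧ (∀ z z' : Ray, (∀ i ≤ n, z i = z' i) → x n z = x n z') ∧
    (∀ z : Ray, ∑ y, x n (Function.update z n y) = 0)) ?_ ?_ ?_ ?_ hx
  · rintro x ⟨v, u, hu, rfl⟩
    refine ⟨fun m hm z => blk_ne _ _ _ hm z, ?_, ?_⟩
    · intro z z' h
      rw [blk_self, blk_self, h n le_rfl]
      have : (∀ i < n, z i = v i) ↔ (∀ i < n, z' i = v i) := by
        constructor
        · intro h' i hi; rw [← h i hi.le, h' i hi]
        · intro h' i hi; rw [h i hi.le, h' i hi]
      simp only [this]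
    · intro z
      have : ∀ y, blk n v u n (Function.update z n y) = if ∀ i < n, z i = v i then u y else 0 := by
        intro y
        rw [blk_self]
        have h1 : (∀ i < n, Function.update z n y i = v i) ↔ (∀ i < n, z i = v i) := by
          constructor
          · intro h' i hi
            have := h' i hi
            rwa [Function.update_of_ne (by omega)] at this
          · intro h' i hi
            rw [Function.update_of_ne (by omega)]
            exact h' i hi
        simp only [h1, Function.update_self]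
      simp only [this]
      split_ifs
      · exact hu
      · simp
  · refine ⟨fun m _ z => rfl, fun z z' _ => rfl, fun z => ?_⟩
    simp
  · intro x y _ _ hx hy
    refine ⟨fun m hm z => ?_, fun z z' h => ?_, fun z => ?_⟩
    · rw [V_add_apply, hx.1 m hm, hy.1 m hm, add_zero]
    · rw [V_add_apply, V_add_apply, hx.2.1 z z' h, hy.2.1 z z' h]
    · simp only [V_add_apply]
      rw [Finset.sum_add_distrib, hx.2.2, hy.2.2, add_zero]
  · intro x _ hx
    refine ⟨fun m hm z => ?_, fun z z' h => ?_, fun z => ?_⟩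
    · rw [V_neg_apply, hx.1 m hm, neg_zero]
    · rw [V_neg_apply, V_neg_apply, hx.2.1 z z' h]
    · simp only [V_neg_apply]
      rw [Finset.sum_neg_distrib, hx.2.2, neg_zero]

theorem prj_of_mem {n : ℕ} {x : V} (hx : x ∈ Mn n) : prj n x = x := by
  apply V_ext
  intro m z
  by_cases hm : m = n
  · subst hm; rw [prj_self]
  · rw [prj_ne _ _ hm, (Mn_props hx).1 m hm]

theorem prj_of_mem_ne {n m : ℕ} (h : m ≠ n) {x : V} (hx : x ∈ Mn n) : prj m x = 0 := by
  apply V_ext
  intro k z
  by_cases hk : k = m
  · subst hk; rw [prj_self, (Mn_props hx).1 k h]; rfl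
  · rw [prj_ne _ _ hk]; rfl

/-! ## Prefixes -/

/-- the ray `0 ... 0 1 1 ...` with `k` zeros -/
def vv (k : ℕ) : Ray := fun i => if i < k then 0 else 1

theorem Dir_iff (k : ℕ) (z : Ray) : Dir k z ↔ ∀ i < k + 1, z i = vv k i := by
  unfold Dir vv
  constructor
  · rintro ⟨h1, h2⟩ i hi
    by_cases h : i < k
    · rw [if_pos h]; exact h2 i h
    · have : i = k := by omega
      subst this
      rw [if_neg h]; exact h1
  · intro h
    refine ⟨?_, fun i hi => ?_⟩
    · have := h k (by omega)
      rwa [if_neg (by omega)] at this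
    · have := h i (by omega)
      rwa [if_pos hi] at this

theorem app_lt {n : ℕ} {v z : Ray} {i : ℕ} (h : i < n) : app n v z i = v i := by
  unfold app; rw [if_pos h]

theorem app_ge {n : ℕ} {v z : Ray} (i : ℕ) : app n v z (n + i) = z i := by
  unfold app; rw [if_neg (by omega)]; congr 1; omega

theorem app_self {n : ℕ} {v z : Ray} : app n v z n = z 0 := app_ge 0

theorem app_shift {n : ℕ} {v z : Ray} (h : ∀ i < n, z i = v i) :
    app n v (fun i => z (n + i)) = z := by
  funext i
  by_cases hi : i < n
  · rw [app_lt hi, h i hi]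
  · obtain ⟨j, rfl⟩ := Nat.exists_eq_add_of_le (not_lt.1 hi)
    rw [app_ge]

/-! ## The projection of `M` -/

theorem prj_germ (w : Y → ℤ) (n : ℕ) (hw : ∑ y, w y = 0) : prj n (germ w) ∈ Mn n := by
  cases n with
  | zero =>
    have : prj 0 (germ w) = 0 := by
      apply V_ext
      intro m z
      by_cases hm : m = 0
      · subst hm; rw [prj_self, germ_zero]; rfl
      · rw [prj_ne _ _ hm]; rfl
    rw [this]
    exact (Mn 0).zero_mem
  | succ k =>
    have : prj (k + 1) (germ w) = blk (k + 1) (vv k) (fun y => ((w y : ℤ) : ZMod (p (k + 1)))) := by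
      apply V_ext
      intro m z
      by_cases hm : m = k + 1
      · subst hm
        rw [prj_self, germ_succ, blk_self]
        simp only [Dir_iff]
      · rw [prj_ne _ _ hm, blk_ne _ _ _ hm]
    rw [this]
    apply blk_mem
    rw [← Int.cast_sum, hw, Int.cast_zero]

theorem c_prj' : C_prj := by
  intro x hx n
  refine AddSubgroup.closure_induction (p := fun x _ => prj n x ∈ Mn n) ?_ ?_ ?_ ?_ hx
  · rintro x (⟨t, ht, w, hw, rfl⟩ | hx)
    · rw [prj_smul]
      exact smul_Mn_mem ht (prj_germ w n hw)
    · by_cases hn : n = 0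
      · subst hn
        rw [prj_of_mem hx]
        exact hx
      · rw [prj_of_mem_ne hn hx]
        exact (Mn n).zero_mem
  · rw [← prjHom_apply, map_zero]; exact (Mn n).zero_mem
  · intro x y _ _ hx hy
    rw [← prjHom_apply, map_add]; exact (Mn n).add_mem hx hy
  · intro x _ hx
    rw [← prjHom_apply, map_neg]; exact (Mn n).neg_mem hx

/-! ## Operators at a vertex -/

/-- the block of `x` at `v` -/
def fb (x : V) (n : ℕ) (v : Ray) : Y → ZMod (p n) := fun y => x n (Function.update v n y)

theorem inc_sub (hA : B_incAt_apply) {n : ℕ} {x : V}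
    (hx : ∀ z z' : Ray, (∀ i ≤ n, z i = z' i) → x n z = x n z') (s : Equiv.Perm Y) (v z : Ray) :
    (incAt n v (rooted s) • x - x) n z =
      blk n v (fun y => fb x n v (s⁻¹ y) - fb x n v y) n z := by
  rw [V_sub_apply, V_smul_apply, blk_self, ← map_inv, ← map_inv]
  obtain ⟨h1, h2, _⟩ := hA n v (rooted s⁻¹)
  by_cases hp : ∀ i < n, z i = v i
  · rw [if_pos hp]
    have hz := app_shift hp
    have h3 : incAt n v (rooted s⁻¹) z = app n v (rooted s⁻¹ (fun i => z (n + i))) := by
      conv_lhs => rw [← hz]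
      exact h1 _
    rw [h3]
    unfold fb
    congr 1
    · apply hx
      intro i hi
      rcases Nat.lt_or_ge i n with h | h
      · rw [app_lt h, Function.update_of_ne (by omega)]
      · have : i = n := le_antisymm hi h
        subst this
        rw [app_self, Function.update_self, rooted_apply, cons_zero, add_zero]
    · apply hx
      intro i hi
      rcases Nat.lt_or_ge i n with h | h
      · rw [hp i h, Function.update_of_ne (by omega)]
      · have : i = n := le_antisymm hi h
        subst this
        rw [Function.update_self]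
  · rw [if_neg hp]
    push Not at hp
    rw [h2 z hp, sub_self]

theorem inc_sub_blk (hA : B_incAt_apply) (n : ℕ) (v : Ray) (u : Y → ZMod (p n))
    (s : Equiv.Perm Y) : incAt n v (rooted s) • blk n v u - blk n v u =
      blk n v (fun y => u (s⁻¹ y) - u y) := by
  have hfb : fb (blk n v u) n v = u := by
    funext y
    unfold fb
    rw [blk_self, if_pos, Function.update_self]
    intro i hi
    rw [Function.update_of_ne (by omega)]
  apply V_ext
  intro m z
  by_cases hm : m = n
  · subst hm
    rw [inc_sub hA, hfb]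
    intro z z' h
    rw [blk_self, blk_self, h m le_rfl]
    have : (∀ i < m, z i = v i) ↔ (∀ i < m, z' i = v i) := by
      constructor
      · intro h' i hi; rw [← h i hi.le, h' i hi]
      · intro h' i hi; rw [h i hi.le, h' i hi]
    simp only [this]
  · rw [V_sub_apply, V_smul_apply, blk_ne _ _ _ hm, blk_ne _ _ _ hm, blk_ne _ _ _ hm, sub_zero]

theorem trans_blk (n : ℕ) {v v' : Ray} {t : Equiv.Perm Ray}
    (ht : ∀ z, t (app n v z) = app n v' z) (u : Y → ZMod (p n)) :
    t • blk n v u = blk n v' u := by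
  apply V_ext
  intro m z
  rw [V_smul_apply]
  by_cases hm : m = n
  · subst hm
    rw [blk_self, blk_self]
    by_cases hp : ∀ i < m, z i = v' i
    · have h1 : t⁻¹ z = app m v (fun i => z (m + i)) := by
        rw [Equiv.Perm.inv_eq_iff_eq, ht, app_shift hp]
      rw [if_pos hp, h1, if_pos (fun i hi => app_lt hi), app_self, add_zero]
    · rw [if_neg hp, if_neg]
      intro h
      apply hp
      have h1 := app_shift h
      have h2 := congrArg t h1
      rw [ht] at h2
      have h3 : t (t⁻¹ z) = z := Equiv.apply_symm_apply t z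
      rw [h3] at h2
      intro i hi
      rw [← h2, app_lt hi]
  · rw [blk_ne _ _ _ hm, blk_ne _ _ _ hm]

theorem c_irr' (hF : A_fix) (hI : A_irr) (hA : B_incAt_apply) (hT : B_incAt) (hB : B_trans) :
    C_irr := by
  intro n K hK hinv
  have h7 : 7 < p n := lt_trans (by norm_num) (p_large n)
  by_cases hb : K = ⊥
  · exact Or.inl hb
  right
  apply le_antisymm hK
  obtain ⟨x, hx, hx0⟩ : ∃ x : V, x ∈ K ∧ x ≠ 0 := by
    by_contra hcon
    push Not at hcon
    apply hb
    rw [eq_bot_iff]
    intro x hx
    rw [AddSubgroup.mem_bot]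
    exact hcon x hx
  have hp := Mn_props (hK hx)
  have hz : ∃ v, x n v ≠ 0 := by
    by_contra hcon
    push Not at hcon
    apply hx0
    apply V_ext
    intro m z
    by_cases hm : m = n
    · subst hm; rw [hcon]; rfl
    · rw [hp.1 m hm]; rfl
  obtain ⟨v, hv⟩ := hz
  -- the subgroup of functions with block in `K`
  let K' : AddSubgroup (Y → ZMod (p n)) :=
    { carrier := {f | ∑ y, f y = 0 ∧ blk n v f ∈ K}
      zero_mem' := ⟨by simp, by rw [← blkHom_apply, map_zero]; exact K.zero_mem⟩
      add_mem' := by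
        rintro a b ⟨ha, ha'⟩ ⟨hb, hb'⟩
        refine ⟨by simp only [Pi.add_apply]; rw [Finset.sum_add_distrib, ha, hb, add_zero], ?_⟩
        rw [← blkHom_apply, map_add]; exact K.add_mem ha' hb'
      neg_mem' := by
        rintro a ⟨ha, ha'⟩
        refine ⟨by simp only [Pi.neg_apply]; rw [Finset.sum_neg_distrib, ha, neg_zero], ?_⟩
        rw [← blkHom_apply, map_neg]; exact K.neg_mem ha' }
  have hK'inv : ∀ s ∈ S, ∀ f ∈ K', (fun y => f (s⁻¹ y)) ∈ K' := by
    rintro s hs f ⟨hf, hf'⟩
    refine ⟨?_, ?_⟩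
    · rw [← hf]; exact Equiv.sum_comp s⁻¹ f
    · have h1 := hinv _ (hT n v _ (rooted_mem hs)) _ hf'
      have h2 := inc_sub_blk hA n v f s
      have h3 : blk n v (fun y => f (s⁻¹ y)) = blk n v (fun y => f (s⁻¹ y) - f y) + blk n v f := by
        rw [← blkHom_apply, ← blkHom_apply, ← blkHom_apply, ← map_add]
        congr 1
        funext y
        simp
      rw [h3, ← h2]
      simpa using h1
  have hne : K' ≠ ⊥ := by
    intro hbot
    have hf0 : fb x n v = 0 := by
      apply hF (p n) (p_prime n) h7
      · exact hp.2.2 v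
      · intro s hs y
        have h1 : (fun y => fb x n v (s⁻¹ y) - fb x n v y) ∈ K' := by
          refine ⟨?_, ?_⟩
          · rw [Finset.sum_sub_distrib]
            rw [show ∑ y, fb x n v (s⁻¹ y) = ∑ y, fb x n v y from Equiv.sum_comp s⁻¹ _, sub_self]
          · have h2 : blk n v (fun y => fb x n v (s⁻¹ y) - fb x n v y) =
                incAt n v (rooted s) • x - x := by
              apply V_ext
              intro m z
              by_cases hm : m = n
              · subst hm; rw [inc_sub hA hp.2.1]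
              · rw [blk_ne _ _ _ hm, V_sub_apply, V_smul_apply, hp.1 m hm, hp.1 m hm, sub_zero]
            rw [h2]
            exact K.sub_mem (hinv _ (hT n v _ (rooted_mem hs)) _ hx) hx
        rw [hbot, AddSubgroup.mem_bot] at h1
        have := congrFun h1 y
        simp only [Pi.zero_apply] at this
        exact sub_eq_zero.1 this
    apply hv
    have h1 := congrFun hf0 (v n)
    unfold fb at h1
    rw [Function.update_eq_self] at h1
    exact h1
  have hall := hI (p n) (p_prime n) h7 K' (fun f hf => hf.1) hK'inv hne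
  unfold Mn
  rw [AddSubgroup.closure_le]
  rintro _ ⟨v', u, hu, rfl⟩
  obtain ⟨t, ht, ht'⟩ := hB n v v'
  rw [← trans_blk n ht' u]
  exact hinv t ht _ (hall u hu).2

theorem c_fix' (hF : A_fix) (hA : B_incAt_apply) (hT : B_incAt) : C_fix := by
  intro x hx hfix
  apply V_ext
  intro n v
  have h7 : 7 < p n := lt_trans (by norm_num) (p_large n)
  have hp := Mn_props (c_prj' x hx n)
  have hx2 : ∀ z z' : Ray, (∀ i ≤ n, z i = z' i) → x n z = x n z' := by
    intro z z' h
    have := hp.2.1 z z' h
    rwa [prj_self, prj_self] at this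
  have hf0 : fb x n v = 0 := by
    apply hF (p n) (p_prime n) h7
    · have := hp.2.2 v
      simp only [prj_self] at this
      exact this
    · intro s hs y
      have h1 := inc_sub hA hx2 s v (Function.update v n y)
      rw [hfix _ (hT n v _ (rooted_mem hs)), sub_self, blk_self, if_pos, Function.update_self] at h1
      · exact (sub_eq_zero.1 h1.symm)
      · intro i hi
        rw [Function.update_of_ne (by omega)]
  have h1 := congrFun hf0 (v n)
  unfold fb at h1
  rw [Function.update_eq_self] at h1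
  exact h1

/-! ## Tails of germs -/

/-- the part of the germ above level `k` -/
noncomputable def gt (k : ℕ) : (Y → ℤ) →+ V where
  toFun w := fun m z => if k < m then germ w m z else 0
  map_zero' := by
    apply V_ext
    intro m z
    show (if k < m then germ 0 m z else 0) = 0
    cases m with
    | zero => rw [germ_zero, ite_self]
    | succ m => rw [germ_succ]; simp
  map_add' a b := by
    apply V_ext
    intro m z
    show (if k < m then germ (a + b) m z else 0) =
      (if k < m then germ a m z else 0) + (if k < m then germ b m z else 0)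
    cases m with
    | zero => simp only [germ_zero, ite_self, add_zero]
    | succ m =>
      rw [germ_succ, germ_succ, germ_succ]
      by_cases h1 : k < m + 1
      · rw [if_pos h1, if_pos h1, if_pos h1]
        by_cases h2 : Dir m z
        · rw [if_pos h2, if_pos h2, if_pos h2, Pi.add_apply, Int.cast_add]
        · rw [if_neg h2, if_neg h2, if_neg h2, add_zero]
      · rw [if_neg h1, if_neg h1, if_neg h1, add_zero]

theorem gt_apply (k : ℕ) (w : Y → ℤ) (m : ℕ) (z : Ray) :
    gt k w m z = if k < m then germ w m z else 0 := rfl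

theorem gt_zero (w : Y → ℤ) : gt 0 w = germ w := by
  apply V_ext
  intro m z
  rw [gt_apply]
  cases m with
  | zero => simp
  | succ m => simp

theorem gt_succ (k : ℕ) (w : Y → ℤ) :
    gt k w = gt (k + 1) w + blk (k + 1) (vv k) (fun y => ((w y : ℤ) : ZMod (p (k + 1)))) := by
  apply V_ext
  intro m z
  rw [V_add_apply, gt_apply, gt_apply]
  rcases lt_trichotomy m (k + 1) with h | h | h
  · rw [if_neg (by omega), if_neg (by omega), blk_ne _ _ _ (by omega), add_zero]
  · subst h
    rw [if_pos (by omega), if_neg (by omega), blk_self, germ_succ, zero_add]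
    simp only [Dir_iff]
  · rw [if_pos (by omega), if_pos (by omega), blk_ne _ _ _ (by omega), add_zero]

/-- the commutator trick element -/
def hh (s a : Equiv.Perm Y) : Equiv.Perm Ray := rooted s * dir a * rooted s⁻¹

theorem hh_inv (s a : Equiv.Perm Y) : (hh s a)⁻¹ = hh s a⁻¹ := by
  unfold hh
  rw [map_inv, map_inv]
  group

theorem hh_apply (s a : Equiv.Perm Y) (z : Ray) :
    hh s a z = rooted s (dirFun a (cons (s⁻¹ (z 0)) (tail z))) := rfl

theorem hh_first (s a : Equiv.Perm Y) (z : Ray) : hh s a z 0 = z 0 := by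
  rw [hh_apply, rooted_apply, cons_zero, dirFun_zero, cons_zero]
  simp

theorem hh_one {s : Equiv.Perm Y} (h1 : s 1 = 1) (a : Equiv.Perm Y) {z : Ray} (hz : z 0 = 1) :
    hh s a z = cons 1 (cons (a (z 1)) (tail (tail z))) := by
  have hs : s⁻¹ 1 = 1 := by rw [Equiv.Perm.inv_eq_iff_eq, h1]
  have hD : Dir 0 (cons (s⁻¹ (z 0)) (tail z)) := by
    refine ⟨?_, fun i hi => absurd hi (by omega)⟩
    rw [cons_zero, hz, hs]
  have hD' : ∀ k, ¬ Dir (k + 1) (cons (s⁻¹ (z 0)) (tail z)) := by
    intro k hk
    have := Dir.unique hD hk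
    omega
  funext n
  rcases n with _ | _ | n
  · rw [hh_first, hz]; rfl
  · rw [hh_apply, rooted_apply, cons_succ, tail_apply, dirFun_succ, if_pos hD]
    rfl
  · rw [hh_apply, rooted_apply, cons_succ, tail_apply, dirFun_succ, if_neg (hD' _)]
    rfl

theorem hh_zero {s : Equiv.Perm Y} (h1 : s 1 = 1) (h0 : s 0 ≠ 0) (a : Equiv.Perm Y) {z : Ray}
    (hz : z 0 = 0) : hh s a z = z := by
  have hs : s⁻¹ 0 ≠ 0 := by
    intro h
    rw [Equiv.Perm.inv_eq_iff_eq] at h
    exact h0 h.symm
  have hs1 : s⁻¹ 0 ≠ 1 := by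
    intro h
    rw [Equiv.Perm.inv_eq_iff_eq, h1] at h
    exact absurd h (by decide)
  have hD : ∀ k, ¬ Dir k (cons (s⁻¹ (z 0)) (tail z)) := by
    intro k hk
    cases k with
    | zero =>
      have := hk.1
      rw [cons_zero, hz] at this
      exact hs1 this
    | succ k =>
      have := hk.2 0 (by omega)
      rw [cons_zero, hz] at this
      exact hs this
  funext n
  cases n with
  | zero => rw [hh_first]
  | succ n =>
    rw [hh_apply, rooted_apply, cons_succ, tail_apply, dirFun_succ, if_neg (hD _)]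
    rfl

theorem hh_mem {s a : Equiv.Perm Y} (hs : s ∈ S) (ha : a ∈ S) : hh s a ∈ T :=
  T.mul_mem (T.mul_mem (rooted_mem hs) (dir_mem ha)) (rooted_mem (S.inv_mem hs))

/-- `(c - 1) g_k(w)` is a block -/
theorem inc_gt_one (hA : B_incAt_apply) {s : Equiv.Perm Y} (h1 : s 1 = 1) (h0 : s 0 ≠ 0)
    (a : Equiv.Perm Y) (k : ℕ) (w : Y → ℤ) :
    incAt k 0 (hh s a) • gt k w - gt k w =
      blk (k + 1) (vv k) (fun y => ((w (a⁻¹ y) - w y : ℤ) : ZMod (p (k + 1)))) := by
  obtain ⟨i1, i2, i3⟩ := hA k 0 (hh s a⁻¹)
  apply V_ext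
  intro m z
  rw [V_sub_apply, V_smul_apply, ← map_inv, hh_inv, gt_apply, gt_apply]
  -- levels at most `k`
  rcases Nat.lt_or_ge k m with hm | hm
  swap
  · rw [if_neg (by omega), if_neg (by omega), blk_ne _ _ _ (by omega), sub_zero]
  rw [if_pos hm, if_pos hm]
  obtain ⟨j, rfl⟩ : ∃ j, m = j + 1 := ⟨m - 1, by omega⟩
  rw [germ_succ, germ_succ]
  by_cases hpre : ∀ i < k, z i = (0 : Ray) i
  · have hz := app_shift hpre
    set z' : Ray := fun i => z (k + i) with hz'
    have hc : incAt k 0 (hh s a⁻¹) z = app k 0 (hh s a⁻¹ z') := by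
      conv_lhs => rw [← hz]
      exact i1 _
    have hzk : z' 0 = z k := rfl
    by_cases hk0 : z k = 0
    · -- trivial action
      have e1 : incAt k 0 (hh s a⁻¹) z = z := by
        rw [hc, hh_zero h1 h0 a⁻¹ (z := z') hk0, hz]
      rw [e1, sub_self]
      by_cases hj : j + 1 = k + 1
      · have hj' : j = k := by omega
        subst hj'
        rw [blk_self, if_neg]
        intro h
        have := h j (by omega)
        unfold vv at this
        rw [if_neg (by omega), hk0] at this
        exact absurd this (by decide)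
      · rw [blk_ne _ _ _ hj]
    · by_cases hk1 : z k = 1
      · have e1 : incAt k 0 (hh s a⁻¹) z =
            app k 0 (cons 1 (cons (a⁻¹ (z' 1)) (tail (tail z')))) := by
          rw [hc, hh_one h1 a⁻¹ (z := z') hk1]
        have d1 : Dir k z := ⟨hk1, fun i hi => hpre i hi⟩
        have d2 : Dir k (incAt k 0 (hh s a⁻¹) z) := by
          rw [e1]
          refine ⟨by rw [app_self, cons_zero], fun i hi => by rw [app_lt hi]; rfl⟩
        by_cases hj : j = k
        · subst hj
          rw [if_pos d2, if_pos d1, blk_self, if_pos ((Dir_iff j z).1 d1), e1]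
          have : app j 0 (cons 1 (cons (a⁻¹ (z' 1)) (tail (tail z')))) (j + 1) = a⁻¹ (z (j + 1)) := by
            rw [app_ge]; rfl
          rw [this]
          push_cast
          ring
        · rw [if_neg (fun h => hj (Dir.unique h d2)), if_neg (fun h => hj (Dir.unique h d1)),
            blk_ne _ _ _ (by omega), sub_zero]
      · -- no direction
        have key : ∀ y : Ray, y k = z k → ∀ j ≥ k, ¬ Dir j y := by
          intro y hy j hj hD
          rcases Nat.lt_or_ge k j with h | h
          · have := hD.2 k h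
            rw [hy] at this
            exact hk0 this
          · have : j = k := le_antisymm h hj
            subst this
            have := hD.1
            rw [hy] at this
            exact hk1 this
        have e1 : incAt k 0 (hh s a⁻¹) z k = z k := by
          rw [hc, app_self, hh_first]
          exact hzk
        rw [if_neg (key _ e1 j (by omega)), if_neg (key z rfl j (by omega)), sub_zero]
        by_cases hj : j + 1 = k + 1
        · have hj' : j = k := by omega
          subst hj'
          rw [blk_self, if_neg]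
          intro h
          exact key z rfl j le_rfl ((Dir_iff j z).2 h)
        · rw [blk_ne _ _ _ hj]
  · have hpre' := hpre
    push Not at hpre'
    rw [i2 z hpre', sub_self]
    by_cases hj : j + 1 = k + 1
    · have hj' : j = k := by omega
      subst hj'
      rw [blk_self, if_neg]
      intro h
      apply hpre
      intro i hi
      have := h i (by omega)
      unfold vv at this
      rw [if_pos hi] at this
      exact this
    · rw [blk_ne _ _ _ hj]

theorem Dir_app {k j : ℕ} (hj : k ≤ j) (z : Ray) : Dir j (app k 0 z) ↔ Dir (j - k) z := by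
  obtain ⟨i, rfl⟩ := Nat.exists_eq_add_of_le hj
  rw [show k + i - k = i by omega]
  unfold Dir
  rw [app_ge]
  constructor
  · rintro ⟨h1, h2⟩
    refine ⟨h1, fun l hl => ?_⟩
    have := h2 (k + l) (by omega)
    rwa [app_ge] at this
  · rintro ⟨h1, h2⟩
    refine ⟨h1, fun l hl => ?_⟩
    rcases Nat.lt_or_ge l k with h | h
    · rw [app_lt h]; rfl
    · obtain ⟨l', rfl⟩ := Nat.exists_eq_add_of_le h
      rw [app_ge]
      exact h2 l' (by omega)

/-- the directed elements at `0^k` act on the tails of the germs -/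
theorem inc_gt_dir (hA : B_incAt_apply) (a : Equiv.Perm Y) (k : ℕ) (w : Y → ℤ) :
    incAt k 0 (dir a) • gt k w = gt k (fun y => w (a⁻¹ y)) := by
  obtain ⟨i1, i2, i3⟩ := hA k 0 (dir a⁻¹)
  apply V_ext
  intro m z
  rw [V_smul_apply, ← map_inv, ← map_inv, gt_apply, gt_apply]
  rcases Nat.lt_or_ge k m with hm | hm
  swap
  · rw [if_neg (by omega), if_neg (by omega)]
  rw [if_pos hm, if_pos hm]
  obtain ⟨j, rfl⟩ : ∃ j, m = j + 1 := ⟨m - 1, by omega⟩
  rw [germ_succ, germ_succ]
  by_cases hpre : ∀ i < k, z i = (0 : Ray) i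
  · have hz := app_shift hpre
    set z' : Ray := fun i => z (k + i) with hz'
    have hc : incAt k 0 (dir a⁻¹) z = app k 0 (dirFun (⇑(a⁻¹ : Equiv.Perm Y)) z') := by
      conv_lhs => rw [← hz]
      exact i1 _
    have e1 : Dir j (incAt k 0 (dir a⁻¹) z) ↔ Dir j z := by
      rw [hc]
      conv_rhs => rw [← hz]
      rw [Dir_app (by omega), Dir_app (by omega), dir_dirFun]
    by_cases hD : Dir j z
    · rw [if_pos (e1.2 hD), if_pos hD]
      have hD' : Dir (j - k) z' := by
        rw [← hz] at hD
        exact (Dir_app (by omega) z').1 hD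
      have e2 : incAt k 0 (dir a⁻¹) z (j + 1) = a⁻¹ (z (j + 1)) := by
        rw [hc]
        have h3 : j + 1 = k + ((j - k) + 1) := by omega
        rw [h3, app_ge, dirFun_succ, if_pos hD']
      rw [e2]
    · rw [if_neg (fun h => hD (e1.1 h)), if_neg hD]
  · have hpre' := hpre
    push Not at hpre'
    rw [i2 z hpre']
    have hD : ¬ Dir j z := by
      intro h
      apply hpre
      intro i hi
      exact h.2 i (by omega)
    rw [if_neg hD, if_neg hD]

/-- integer lifts -/
theorem lift_int {q : ℕ} (hq : q ≠ 0) (u : Y → ZMod q) (hu : ∑ y, u y = 0) :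
    ∃ w : Y → ℤ, ∑ y, w y = 0 ∧ ∀ y, ((w y : ℤ) : ZMod q) = u y := by
  have : NeZero q := ⟨hq⟩
  let w0 : Y → ℤ := fun y => ((u y).val : ℤ)
  have h1 : ∀ y, ((w0 y : ℤ) : ZMod q) = u y := by
    intro y
    simp [w0]
  have h2 : (((∑ y, w0 y : ℤ)) : ZMod q) = 0 := by
    rw [Int.cast_sum]
    simp only [h1]
    exact hu
  refine ⟨fun y => w0 y - if y = 0 then ∑ y, w0 y else 0, ?_, ?_⟩
  · rw [Finset.sum_sub_distrib]
    simp
  · intro y
    rw [Int.cast_sub, h1]
    split_ifs with h
    · rw [h2, sub_zero]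
    · simp

theorem exists_s (hS : A_trans) : ∃ s ∈ S, s 1 = 1 ∧ s 0 ≠ 0 := by
  obtain ⟨s, hs, h1, h2⟩ := hS 1 0 1 2 (by decide) (by decide)
  exact ⟨s, hs, h1, by rw [h2]; decide⟩

theorem step_M (hS : A_trans) (hC : A_coinv) (hA : B_incAt_apply) (hT : B_incAt) (hB : B_trans)
    (k : ℕ) : (Mn k ≤ M) ∧ ∀ w : Y → ℤ, ∑ y, w y = 0 → gt k w ∈ M := by
  obtain ⟨s, hs, hs1, hs0⟩ := exists_s hS
  induction k with
  | zero =>
    refine ⟨fun x hx => AddSubgroup.subset_closure (Or.inr hx), fun w hw => ?_⟩
    rw [gt_zero]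
    exact AddSubgroup.subset_closure (Or.inl ⟨1, T.one_mem, w, hw, by rw [one_smul]⟩)
  | succ k ih =>
    obtain ⟨_, ih2⟩ := ih
    -- integral blocks
    have h1 : ∀ w : Y → ℤ, ∑ y, w y = 0 →
        blk (k + 1) (vv k) (fun y => ((w y : ℤ) : ZMod (p (k + 1)))) ∈ M := by
      intro w hw
      let Φ : (Y → ℤ) →+ V := (blkHom (k + 1) (vv k)).comp
        ((Int.castAddHom (ZMod (p (k + 1)))).compLeft Y)
      have hΦ : ∀ w : Y → ℤ, Φ w = blk (k + 1) (vv k) (fun y => ((w y : ℤ) : ZMod (p (k + 1)))) :=
        fun w => rfl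
      have h2 : AddSubgroup.closure {g : Y → ℤ | ∃ s ∈ S, ∃ h : Y → ℤ, ∑ y, h y = 0 ∧
          g = fun y => h (s⁻¹ y) - h y} ≤ M.comap Φ := by
        rw [AddSubgroup.closure_le]
        rintro _ ⟨a, ha, h, hh0, rfl⟩
        rw [SetLike.mem_coe, AddSubgroup.mem_comap, hΦ, ← inc_gt_one hA hs1 hs0 a k h]
        exact M.sub_mem (smul_M_mem (hT k 0 _ (hh_mem hs ha)) (ih2 h hh0)) (ih2 h hh0)
      have h3 := h2 (hC ℤ inferInstance w hw)
      have h4 : Φ w ∈ M := h3
      rw [hΦ] at h4
      exact h4
    constructor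
    · unfold Mn
      rw [AddSubgroup.closure_le]
      rintro _ ⟨v, u, hu, rfl⟩
      obtain ⟨w, hw, hw'⟩ := lift_int (p_prime (k + 1)).ne_zero u hu
      have h2 := h1 w hw
      have h3 : (fun y => ((w y : ℤ) : ZMod (p (k + 1)))) = u := funext hw'
      rw [h3] at h2
      obtain ⟨t, ht, ht'⟩ := hB (k + 1) (vv k) v
      rw [← trans_blk (k + 1) ht' u]
      exact smul_M_mem ht h2
    · intro w hw
      have h2 := gt_succ k w
      have h3 : gt (k + 1) w = gt k w - blk (k + 1) (vv k) (fun y => ((w y : ℤ) : ZMod (p (k + 1)))) := by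
        rw [h2, add_sub_cancel_right]
      rw [h3]
      exact M.sub_mem (ih2 w hw) (h1 w hw)

/-! ## Faithfulness and cardinality -/

theorem c_faith' (hM : C_Mn_le) : C_faith := by
  intro t ht hfix
  by_contra hne
  have hex : ∃ n, ∃ z : Ray, t z n ≠ z n := by
    by_contra hcon
    push Not at hcon
    exact hne (Equiv.ext fun z => funext fun n => hcon n z)
  classical
  set n := Nat.find hex with hn
  obtain ⟨z, hz⟩ := Nat.find_spec hex
  have hlt : ∀ i < n, ∀ z : Ray, t z i = z i := by
    intro i hi z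
    have := Nat.find_min hex hi
    push Not at this
    exact this z
  obtain ⟨l, hl, hl2⟩ := label ht n z
  -- the test function
  let u : Y → ZMod (p n) := fun y => if y = z n then 1 else if y = t z n then -1 else 0
  have hu : ∑ y, u y = 0 := by
    have h1 : ∀ y, u y = (if y = z n then 1 else 0) + (if y = t z n then -1 else 0) := by
      intro y
      simp only [u]
      by_cases h1 : y = z n
      · rw [if_pos h1, if_pos h1, if_neg (by rw [h1]; exact fun h => hz h.symm), add_zero]
      · rw [if_neg h1, if_neg h1, zero_add]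
    simp only [h1]
    rw [Finset.sum_add_distrib]
    simp
  have h1 := hfix _ (hM n (blk_mem n z hu))
  have h2 : (t • blk n z u) n (t z) = blk n z u n (t z) := by rw [h1]
  rw [V_smul_apply, show t⁻¹ (t z) = z from Equiv.symm_apply_apply t z, blk_self, blk_self,
    if_pos (fun i _ => rfl), if_pos (fun i hi => hlt i hi z)] at h2
  have h3 : u (z n) = 1 := by simp [u]
  have h4 : u (t z n) = -1 := by
    show (if t z n = z n then (1 : ZMod (p n)) else if t z n = t z n then -1 else 0) = -1
    rw [if_neg hz, if_pos rfl]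
  rw [h3, h4] at h2
  have h5 : (2 : ZMod (p n)) = 0 := by
    have : (1 : ZMod (p n)) + 1 = 0 := by
      nth_rewrite 1 [h2]
      ring
    rw [← this]; norm_num
  have h6 : ((2 : ℕ) : ZMod (p n)) = 0 := by exact_mod_cast h5
  rw [ZMod.natCast_eq_zero_iff] at h6
  have := Nat.le_of_dvd (by norm_num) h6
  have := p_large n
  omega

theorem c_Mn_card' : C_Mn_card := by
  intro n
  have : NeZero (p n) := ⟨(p_prime n).ne_zero⟩
  let e : (Fin (n + 1) → Y) → Ray := fun w i => if h : i < n + 1 then w ⟨i, h⟩ else 0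
  let F : ↥(Mn n) → ((Fin (n + 1) → Y) → ZMod (p n)) := fun x w => (x : V) n (e w)
  have hF : Function.Injective F := by
    intro x y hxy
    apply Subtype.ext
    apply V_ext
    intro m z
    have hx := Mn_props x.2
    have hy := Mn_props y.2
    by_cases hm : m = n
    · subst hm
      have h1 := congrFun hxy (fun i => z i)
      have h2 : ∀ i ≤ m, z i = e (fun i => z i) i := by
        intro i hi
        simp only [e]
        rw [dif_pos (by omega)]
      rw [hx.2.1 z _ h2, hy.2.1 z _ h2]
      exact h1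
    · rw [hx.1 m hm, hy.1 m hm]
  have hfin : Finite ↥(Mn n) := Finite.of_injective F hF
  refine ⟨hfin, ?_, ?_⟩
  · have : Nontrivial ↥(Mn n) := by
      let u : Y → ZMod (p n) := fun y => if y = 0 then 1 else if y = 1 then -1 else 0
      have hu : ∑ y, u y = 0 := by
        have h1 : ∀ y, u y = (if y = 0 then 1 else 0) + (if y = 1 then -1 else 0) := by
          intro y
          simp only [u]
          by_cases h1 : y = 0
          · rw [if_pos h1, if_pos h1, if_neg (by rw [h1]; decide), add_zero]
          · rw [if_neg h1, if_neg h1, zero_add]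
        simp only [h1]
        rw [Finset.sum_add_distrib]
        simp
      refine ⟨⟨⟨blk n 0 u, blk_mem n 0 hu⟩, 0, ?_⟩⟩
      intro h
      have h1 := congrArg (fun x : ↥(Mn n) => (x : V) n 0) h
      simp only at h1
      rw [blk_self, if_pos (fun i _ => rfl)] at h1
      have h2 : u ((0 : Ray) n) = 1 := by simp [u]
      rw [h2] at h1
      exact one_ne_zero h1
    rwa [Finite.one_lt_card_iff_nontrivial]
  · have h1 := Nat.card_le_card_of_injective F hF
    refine h1.trans (le_of_eq ?_)
    rw [Nat.card_eq_fintype_card]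
    simp [ZMod.card]

/-! ## Coinvariants -/

theorem M_dep {x : V} (hx : x ∈ M) (n : ℕ) {z z' : Ray} (h : ∀ i ≤ n, z i = z' i) :
    x n z = x n z' := by
  have := (Mn_props (c_prj' x hx n)).2.1 z z' h
  rwa [prj_self, prj_self] at this

/-- the submodule `I_r M` -/
noncomputable def Ir (r : ℕ) : AddSubgroup V :=
  AddSubgroup.closure {y : V | ∃ t ∈ St r, ∃ x' ∈ M, y = (t : Equiv.Perm Ray) • x' - x'}

theorem St_mono {r n : ℕ} (h : r ≤ n) : St n ≤ St r := by
  intro t ht z i hi
  exact ht z i (by omega)

theorem Ir_mono {r n : ℕ} (h : r ≤ n) : Ir n ≤ Ir r := by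
  unfold Ir
  apply AddSubgroup.closure_mono
  rintro y ⟨t, ht, x, hx, rfl⟩
  exact ⟨t, St_mono h ht, x, hx, rfl⟩

theorem Ir_smul {r : ℕ} {g : Equiv.Perm Ray} (hg : g ∈ T) {x : V} (hx : x ∈ Ir r) :
    g • x ∈ Ir r := by
  refine AddSubgroup.closure_induction (p := fun x _ => g • x ∈ Ir r) ?_ ?_ ?_ ?_ hx
  · rintro x ⟨t, ht, x', hx', rfl⟩
    apply AddSubgroup.subset_closure
    refine ⟨⟨g, hg⟩ * t * ⟨g, hg⟩⁻¹, ?_, g • x', smul_M_mem hg hx', ?_⟩
    · intro z i hi
      have h1 : ∀ i < r, g ((t : Equiv.Perm Ray) (g⁻¹ z)) i = g (g⁻¹ z) i :=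
        (T_prefix hg).2 (fun i hi => ht (g⁻¹ z) i hi)
      have h2 := h1 i hi
      rw [show g (g⁻¹ z) = z from Equiv.apply_symm_apply g z] at h2
      exact h2
    · rw [smul_sub, Subgroup.coe_mul, Subgroup.coe_mul, Subgroup.coe_inv, ← mul_smul, ← mul_smul,
        mul_assoc, inv_mul_cancel, mul_one]
  · rw [smul_zero]; exact (Ir r).zero_mem
  · intro x y _ _ hx hy; rw [smul_add]; exact (Ir r).add_mem hx hy
  · intro x _ hx; rw [smul_neg]; exact (Ir r).neg_mem hx

theorem incAt_St (hA : B_incAt_apply) (hT : B_incAt) (n : ℕ) (v : Ray) {t : Equiv.Perm Ray}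
    (ht : t ∈ T) : (⟨incAt n v t, hT n v t ht⟩ : ↥T) ∈ St n :=
  fun z i hi => (hA n v t).2.2 z i hi

theorem blk_Ir (hC : A_coinv) (hA : B_incAt_apply) (hT : B_incAt) (hM : C_Mn_le) (n : ℕ) (v : Ray)
    {u : Y → ZMod (p n)} (hu : ∑ y, u y = 0) : blk n v u ∈ Ir n := by
  have h2 : AddSubgroup.closure {g : Y → ZMod (p n) | ∃ s ∈ S, ∃ h : Y → ZMod (p n),
      ∑ y, h y = 0 ∧ g = fun y => h (s⁻¹ y) - h y} ≤ (Ir n).comap (blkHom n v) := by
    rw [AddSubgroup.closure_le]
    rintro _ ⟨s, hs, h, hh0, rfl⟩
    rw [SetLike.mem_coe, AddSubgroup.mem_comap, blkHom_apply, ← inc_sub_blk hA n v h s]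
    apply AddSubgroup.subset_closure
    exact ⟨_, incAt_St hA hT n v (rooted_mem hs), blk n v h, hM n (blk_mem n v hh0), rfl⟩
  exact h2 (hC (ZMod (p n)) inferInstance u hu)

theorem gt_Ir (hC : A_coinv) (hA : B_incAt_apply) (hT : B_incAt)
    (hG : ∀ k, ∀ w : Y → ℤ, ∑ y, w y = 0 → gt k w ∈ M) (k : ℕ)
    {w : Y → ℤ} (hw : ∑ y, w y = 0) : gt k w ∈ Ir k := by
  have h2 : AddSubgroup.closure {g : Y → ℤ | ∃ s ∈ S, ∃ h : Y → ℤ,
      ∑ y, h y = 0 ∧ g = fun y => h (s⁻¹ y) - h y} ≤ (Ir k).comap (gt k) := by
    rw [AddSubgroup.closure_le]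
    rintro _ ⟨s, hs, h, hh0, rfl⟩
    rw [SetLike.mem_coe, AddSubgroup.mem_comap]
    have h3 : gt k (fun y => h (s⁻¹ y) - h y) = incAt k 0 (dir s) • gt k h - gt k h := by
      rw [inc_gt_dir hA, ← map_sub]
      rfl
    rw [h3]
    apply AddSubgroup.subset_closure
    exact ⟨_, incAt_St hA hT k 0 (dir_mem hs), gt k h, hG k h hh0, rfl⟩
  exact h2 (hC ℤ inferInstance w hw)

/-- removing the levels below `k` -/
noncomputable def tr (k : ℕ) : V →+ V where
  toFun x := fun m z => if m < k then 0 else x m z
  map_zero' := by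
    apply V_ext
    intro m z
    show (if m < k then 0 else (0 : V) m z) = 0
    rw [V_zero_apply, ite_self]
  map_add' x y := by
    apply V_ext
    intro m z
    show (if m < k then 0 else (x + y) m z) =
      (if m < k then 0 else x m z) + (if m < k then 0 else y m z)
    rw [V_add_apply]
    by_cases h : m < k
    · rw [if_pos h, if_pos h, if_pos h, add_zero]
    · rw [if_neg h, if_neg h, if_neg h]

theorem tr_apply (k : ℕ) (x : V) (m : ℕ) (z : Ray) : tr k x m z = if m < k then 0 else x m z := rfl

theorem tr_smul (k : ℕ) (g : Equiv.Perm Ray) (x : V) : tr k (g • x) = g • tr k x := by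
  apply V_ext
  intro m z
  rw [V_smul_apply, tr_apply, tr_apply, V_smul_apply]

theorem tr_mem (hC : A_coinv) (hA : B_incAt_apply) (hT : B_incAt) (hM : C_Mn_le)
    (hG : ∀ k, ∀ w : Y → ℤ, ∑ y, w y = 0 → gt k w ∈ M) (k : ℕ) {x : V} (hx : x ∈ M) :
    tr k x ∈ Ir k := by
  refine AddSubgroup.closure_induction (p := fun x _ => tr k x ∈ Ir k) ?_ ?_ ?_ ?_ hx
  · rintro x (⟨t, ht, w, hw, rfl⟩ | hx)
    · rw [tr_smul]
      apply Ir_smul ht
      cases k with
      | zero =>
        have : tr 0 (germ w) = gt 0 w := by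
          rw [gt_zero]
          apply V_ext
          intro m z
          rw [tr_apply, if_neg (by omega)]
        rw [this]
        exact gt_Ir hC hA hT hG 0 hw
      | succ k =>
        have : tr (k + 1) (germ w) = gt k w := by
          apply V_ext
          intro m z
          rw [tr_apply, gt_apply]
          by_cases h : m < k + 1
          · rw [if_pos h, if_neg (by omega)]
          · rw [if_neg h, if_pos (by omega)]
        rw [this, gt_succ]
        apply (Ir (k + 1)).add_mem (gt_Ir hC hA hT hG (k + 1) hw)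
        apply blk_Ir hC hA hT hM
        rw [← Int.cast_sum, hw, Int.cast_zero]
    · cases k with
      | zero =>
        have h0 : tr 0 x = x := by
          apply V_ext
          intro m z
          rw [tr_apply, if_neg (by omega)]
        rw [h0]
        have h1 : Mn 0 ≤ Ir 0 := by
          unfold Mn
          rw [AddSubgroup.closure_le]
          rintro _ ⟨v, u, hu, rfl⟩
          exact blk_Ir hC hA hT hM 0 v hu
        exact h1 hx
      | succ k =>
        have h0 : tr (k + 1) x = 0 := by
          apply V_ext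
          intro m z
          rw [tr_apply]
          split_ifs with h
          · rfl
          · rw [(Mn_props hx).1 m (by omega)]; rfl
        rw [h0]
        exact (Ir _).zero_mem
  · rw [map_zero]; exact (Ir k).zero_mem
  · intro x y _ _ hx hy; rw [map_add]; exact (Ir k).add_mem hx hy
  · intro x _ hx; rw [map_neg]; exact (Ir k).neg_mem hx

theorem c_fg' (hcard : C_Mn_card) : C_fg := by
  classical
  let b : Y → (Y → ℤ) := fun i y => (if y = i then 1 else 0) - (if y = 0 then 1 else 0)
  have hb : ∀ i, ∑ y, b i y = 0 := by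
    intro i
    simp only [b]
    rw [Finset.sum_sub_distrib]
    simp
  have hbw : ∀ w : Y → ℤ, ∑ y, w y = 0 → w = ∑ i, w i • b i := by
    intro w hw
    funext y
    rw [Finset.sum_apply]
    simp only [Pi.smul_apply, b, smul_eq_mul, mul_sub]
    rw [Finset.sum_sub_distrib]
    simp [hw]
  refine ⟨(Set.range fun i => germ (b i)) ∪ (Mn 0 : Set V), ?_, ?_, ?_⟩
  · apply (Set.finite_range _).union
    have := (hcard 0).1
    exact Set.toFinite _
  · rintro x (⟨i, rfl⟩ | hx)
    · exact AddSubgroup.subset_closure (Or.inl ⟨1, T.one_mem, b i, hb i, by rw [one_smul]⟩)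
    · exact AddSubgroup.subset_closure (Or.inr hx)
  · intro K hK hX
    unfold M
    rw [AddSubgroup.closure_le]
    rintro x (⟨t, ht, w, hw, rfl⟩ | hx)
    · apply hK t ht
      rw [hbw w hw, ← gt_zero, map_sum]
      apply K.sum_mem
      intro i _
      rw [map_zsmul]
      apply K.zsmul_mem
      rw [gt_zero]
      exact hX (Or.inl ⟨i, rfl⟩)
    · exact hX (Or.inr hx)

end TC1

open TC1

theorem c_prj : C_prj := c_prj'

theorem c_irr (hF : A_fix) (hI : A_irr) (hA : B_incAt_apply) (hT : B_incAt) (hB : B_trans) :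
    C_irr := c_irr' hF hI hA hT hB

theorem c_fix (hF : A_fix) (hA : B_incAt_apply) (hT : B_incAt) : C_fix := c_fix' hF hA hT

theorem c_Mn_card : C_Mn_card := c_Mn_card'

theorem c_Mn_le (hS : A_trans) (hC : A_coinv) (hA : B_incAt_apply) (hT : B_incAt)
    (hB : B_trans) : C_Mn_le := fun n => (step_M hS hC hA hT hB n).1

theorem c_faith (hM : C_Mn_le) : C_faith := c_faith' hM

theorem c_coinv (hS : A_trans) (hC : A_coinv) (hA : B_incAt_apply) (hT : B_incAt)
    (hB : B_trans) : C_coinv := by
  have hM := c_Mn_le hS hC hA hT hB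
  have hG : ∀ k, ∀ w : Y → ℤ, ∑ y, w y = 0 → gt k w ∈ M :=
    fun k => (step_M hS hC hA hT hB k).2
  constructor
  · intro r t ht x hx n hn z
    rw [V_smul_apply]
    apply M_dep hx
    intro i hi
    have := (St r).inv_mem ht z i (by omega)
    exact this
  · intro r x hx hx0
    have h1 := tr_mem hC hA hT hM hG r hx
    have h2 : tr r x = x := by
      apply V_ext
      intro m z
      rw [tr_apply]
      split_ifs with h
      · exact (hx0 m h z).symm
      · rfl
    rw [h2] at h1
    exact h1

theorem c_fg : C_fg := c_fg' c_Mn_card'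

end Pool.Agent.Helper106.CG
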