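import Pool.Agent.Helper106.CG.Stmts

/-!
# Characteristic versus normal subgroup growth: task C3 (endomorphisms of the module, the thin subgroup)
-/

namespace Pool.Agent.Helper106.CG

namespace TC3

/-- evaluation -/
def ev (n : ℕ) (z : Ray) : V →+ ZMod (p n) where
  toFun x := x n z
  map_zero' := rfl
  map_add' _ _ := rfl

@[simp] theorem ev_apply (n : ℕ) (z : Ray) (x : V) : ev n z x = x n z := rfl

theorem V_nsmul_apply (k : ℕ) (x : V) (n : ℕ) (z : Ray) : (k • x) n z = (k : ZMod (p n)) * x n z := by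
  show ev n z (k • x) = _
  rw [map_nsmul, nsmul_eq_mul]
  rfl

theorem blk_same (n : ℕ) (v : Ray) (u : Y → ZMod (p n)) (z : Ray) :
    blk n v u n z = if ∀ i < n, z i = v i then u (z n) else 0 := by
  unfold blk
  rw [Pi.single_eq_same]

theorem blk_ne (n : ℕ) (v : Ray) (u : Y → ZMod (p n)) {m : ℕ} (h : m ≠ n) (z : Ray) :
    blk n v u m z = 0 := by
  unfold blk
  rw [Pi.single_eq_of_ne h]
  rfl

theorem prj_same (n : ℕ) (x : V) (z : Ray) : prj n x n z = x n z := by
  unfold prj
  rw [Pi.single_eq_same]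

theorem prj_ne (n : ℕ) (x : V) {m : ℕ} (h : m ≠ n) (z : Ray) : prj n x m z = 0 := by
  unfold prj
  rw [Pi.single_eq_of_ne h]
  rfl

theorem blk_mem (n : ℕ) (v : Ray) (u : Y → ZMod (p n)) (hu : ∑ y, u y = 0) : blk n v u ∈ Mn n :=
  AddSubgroup.subset_closure ⟨v, u, hu, rfl⟩

theorem Mn_props {n : ℕ} {x : V} (hx : x ∈ Mn n) : (∀ m, m ≠ n → ∀ z, x m z = 0) ∧
    (∀ z z' : Ray, (∀ i ≤ n, z i = z' i) → x n z = x n z') ∧
    ∀ z : Ray, ∑ y, x n (Function.update z n y) = 0 := by
  refine AddSubgroup.closure_induction (p := fun x _ => (∀ m, m ≠ n → ∀ z, x m z = 0) ∧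
    (∀ z z' : Ray, (∀ i ≤ n, z i = z' i) → x n z = x n z') ∧
    ∀ z : Ray, ∑ y, x n (Function.update z n y) = 0) ?_ ?_ ?_ ?_ hx
  · rintro x ⟨v, u, hu, rfl⟩
    refine ⟨fun m hm z => blk_ne n v u hm z, fun z z' h => ?_, fun z => ?_⟩
    · have h1 : (∀ i < n, z i = v i) ↔ (∀ i < n, z' i = v i) := by
        constructor
        · intro h2 i hi; rw [← h i hi.le]; exact h2 i hi
        · intro h2 i hi; rw [h i hi.le]; exact h2 i hi
      rw [blk_same, blk_same, h n le_rfl]
      by_cases hc : ∀ i < n, z i = v i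
      · rw [if_pos hc, if_pos (h1.1 hc)]
      · rw [if_neg hc, if_neg (fun h' => hc (h1.2 h'))]
    · by_cases hc : ∀ i < n, z i = v i
      · rw [← hu]
        refine Finset.sum_congr rfl fun y _ => ?_
        rw [blk_same, if_pos, Function.update_self]
        intro i hi
        rw [Function.update_of_ne hi.ne]
        exact hc i hi
      · refine Finset.sum_eq_zero fun y _ => ?_
        rw [blk_same, if_neg]
        intro h
        apply hc
        intro i hi
        have := h i hi
        rwa [Function.update_of_ne hi.ne] at this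
  · refine ⟨fun m _ z => rfl, fun z z' _ => rfl, fun z => ?_⟩
    exact Finset.sum_eq_zero fun y _ => rfl
  · rintro x y _ _ ⟨h1, h2, h3⟩ ⟨h4, h5, h6⟩
    refine ⟨fun m hm z => ?_, fun z z' h => ?_, fun z => ?_⟩
    · rw [V_add_apply, h1 m hm, h4 m hm, add_zero]
    · rw [V_add_apply, V_add_apply, h2 z z' h, h5 z z' h]
    · simp only [V_add_apply]
      rw [Finset.sum_add_distrib, h3, h6, add_zero]
  · rintro x _ ⟨h1, h2, h3⟩
    refine ⟨fun m hm z => ?_, fun z z' h => ?_, fun z => ?_⟩
    · rw [V_neg_apply, h1 m hm, neg_zero]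
    · rw [V_neg_apply, V_neg_apply, h2 z z' h]
    · simp only [V_neg_apply]
      rw [Finset.sum_neg_distrib, h3, neg_zero]

theorem M_dep (hprj : C_prj) {x : V} (hx : x ∈ M) (n : ℕ) {z z' : Ray}
    (h : ∀ i ≤ n, z i = z' i) : x n z = x n z' := by
  have h1 := (Mn_props (hprj x hx n)).2.1 z z' h
  rwa [prj_same, prj_same] at h1

theorem M_sum (hprj : C_prj) {x : V} (hx : x ∈ M) (n : ℕ) (z : Ray) :
    ∑ y, x n (Function.update z n y) = 0 := by
  have h1 := (Mn_props (hprj x hx n)).2.2 z
  simpa only [prj_same] using h1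

theorem natCast_ne_zero_of_lt {q n : ℕ} (h : 0 < n) (hn : n < q) : (n : ZMod q) ≠ 0 := by
  intro h0
  rw [ZMod.natCast_eq_zero_iff] at h0
  exact absurd (Nat.le_of_dvd h h0) (not_le.2 hn)

theorem p_ne_zero {m n : ℕ} (h : m ≠ n) : ((p n : ℕ) : ZMod (p m)) ≠ 0 := by
  intro h0
  rw [ZMod.natCast_eq_zero_iff] at h0
  exact h (p_strictMono.injective ((Nat.prime_dvd_prime_iff_eq (p_prime m) (p_prime n)).1 h0))

/-- how `incAt n v (rooted s)` acts on rays which begin with `v` -/
theorem incAt_match (hinc : B_incAt_apply) (n : ℕ) (v : Ray) (s : Equiv.Perm Y) (z : Ray)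
    (hz : ∀ i < n, z i = v i) : (∀ i < n, incAt n v (rooted s) z i = v i) ∧
      incAt n v (rooted s) z n = s (z n) := by
  obtain ⟨h1, _, h3⟩ := hinc n v (rooted s)
  refine ⟨fun i hi => by rw [h3 z i hi, hz i hi], ?_⟩
  have h4 : z = app n v (fun i => z (n + i)) := by
    funext i
    by_cases hi : i < n
    · simp [app, hi, hz i hi]
    · simp only [app, hi, if_false]
      congr 1
      omega
  conv_lhs => rw [h4]
  rw [h1]
  simp [app]

theorem incAt_nomatch (hinc : B_incAt_apply) (n : ℕ) (v : Ray) (t : Equiv.Perm Ray) (z : Ray)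
    (hz : ¬ ∀ i < n, z i = v i) : incAt n v t z = z := by
  push Not at hz
  exact (hinc n v t).2.1 z hz

end TC3

open TC3 in
theorem c_end (hrank : A_rank) (hinc : B_incAt_apply) (hincT : B_incAt) (hprj : C_prj)
    (hirr : C_irr) (hle : C_Mn_le) (hco : C_coinv) : C_end := by
  classical
  intro f hf
  obtain ⟨t₁, ht₁, t₂, ht₂, k, k', hkk, hR⟩ := hrank
  -- torsion
  have htor : ∀ (n : ℕ) (x : ↥M), (x : V) ∈ Mn n → ∀ m, m ≠ n → ∀ z, (f x : V) m z = 0 := by
    intro n x hx m hm z
    have h1 : (p n) • x = 0 := by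
      ext1
      rw [AddSubgroup.coe_nsmul, ZeroMemClass.coe_zero]
      apply V_ext
      intro m' z'
      rw [V_nsmul_apply, V_zero_apply]
      by_cases h : m' = n
      · subst h
        rw [ZMod.natCast_self, zero_mul]
      · rw [(Mn_props hx).1 m' h, mul_zero]
    have h2 : (p n) • f x = 0 := by rw [← map_nsmul, h1, map_zero]
    have h3 : ((p n : ℕ) : ZMod (p m)) * (f x : V) m z = 0 := by
      rw [← V_nsmul_apply, ← AddSubgroup.coe_nsmul, h2]
      rfl
    exact (mul_eq_zero.1 h3).resolve_left (p_ne_zero hm)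
  -- the scalars
  have hscal : ∀ n : ℕ, ∃ l : ZMod (p n), ∀ x : ↥M, (x : V) ∈ Mn n → ∀ z,
      (f x : V) n z = l * (x : V) n z := by
    intro n
    let v : Ray := fun _ => 0
    let e : Y → ZMod (p n) := fun y => if y = k then 1 else if y = k' then -1 else 0
    have he : ∑ y, e y = 0 := by
      have h1 : ∀ y, e y = (if y = k then (1 : ZMod (p n)) else 0) - (if y = k' then 1 else 0) := by
        intro y
        simp only [e]
        by_cases h1 : y = k
        · subst h1; simp [hkk]
        · by_cases h2 : y = k'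
          · rw [if_neg h1, if_pos h2, if_neg h1, if_pos h2]; ring
          · simp [h1, h2]
      simp_rw [h1]
      rw [Finset.sum_sub_distrib]
      simp
    have hekk : e k - e k' = 2 := by
      simp only [e, if_pos, if_neg (Ne.symm hkk)]
      norm_num
    have hεn : blk n v e ∈ Mn n := blk_mem n v e he
    let ε : ↥M := ⟨blk n v e, hle n hεn⟩
    let τ₁ : ↥T := ⟨incAt n v (rooted t₁), hincT n v _ (rooted_mem ht₁)⟩
    let τ₂ : ↥T := ⟨incAt n v (rooted t₂), hincT n v _ (rooted_mem ht₂)⟩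
    have hτ : ∀ (s : Equiv.Perm Y) (x : V), x ∈ M → ∀ z : Ray, x n ((incAt n v (rooted s))⁻¹ z) =
        if ∀ i < n, z i = v i then x n (app n v fun _ => s⁻¹ (z n)) else x n z := by
      intro s x hx z
      have e1 : (incAt n v (rooted s))⁻¹ = incAt n v (rooted s⁻¹) := by rw [map_inv, map_inv]
      rw [e1]
      by_cases hz : ∀ i < n, z i = v i
      · rw [if_pos hz]
        obtain ⟨h1, h2⟩ := incAt_match hinc n v s⁻¹ z hz
        refine M_dep hprj hx n fun i hi => ?_
        rcases hi.lt_or_eq with h | h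
        · rw [h1 i h]; simp [app, h]
        · subst h; rw [h2]; simp [app]
      · rw [if_neg hz, incAt_nomatch hinc n v _ z hz]
    have happ : ∀ (x : V), x ∈ M → ∀ z : Ray, (∀ i < n, z i = v i) →
        x n z = x n (app n v fun _ => z n) := by
      intro x hx z hz
      refine M_dep hprj hx n fun i hi => ?_
      rcases hi.lt_or_eq with h | h
      · rw [hz i h]; simp [app, h]
      · subst h; simp [app]
    -- the rank one operator
    have hop : ∀ (x : ↥M) (z : Ray), ((τ₁ * τ₂) • x - τ₁ • x - τ₂ • x + x : ↥M).1 n z =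
        ((x : V) n (app n v fun _ => k) - (x : V) n (app n v fun _ => k')) * 2 *
          (blk n v e) n z := by
      intro x z
      have e1 : ((τ₁ * τ₂) • x - τ₁ • x - τ₂ • x + x : ↥M).1 n z =
          (x : V) n ((incAt n v (rooted t₂))⁻¹ ((incAt n v (rooted t₁))⁻¹ z)) -
            (x : V) n ((incAt n v (rooted t₁))⁻¹ z) - (x : V) n ((incAt n v (rooted t₂))⁻¹ z) +
            (x : V) n z := by
        rw [mul_smul]
        rfl
      rw [e1, blk_same]
      have e2 : (incAt n v (rooted t₁))⁻¹ = incAt n v (rooted t₁⁻¹) := by rw [map_inv, map_inv]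
      by_cases hz : ∀ i < n, z i = v i
      · have h1 := incAt_match hinc n v t₁⁻¹ z hz
        rw [← e2] at h1
        rw [hτ t₂ x x.2, if_pos h1.1, hτ t₁ x x.2, if_pos hz, hτ t₂ x x.2, if_pos hz, h1.2,
          happ x x.2 z hz, if_pos hz]
        have h2 := hR (ZMod (p n)) inferInstance (fun y => (x : V) n (app n v fun _ => y)) (z n)
        rw [h2]
        simp only [e]
        by_cases h3 : z n = k
        · rw [if_pos h3, if_pos h3]; ring
        · rw [if_neg h3, if_neg h3]
          by_cases h4 : z n = k'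
          · rw [if_pos h4, if_pos h4]; ring
          · rw [if_neg h4, if_neg h4]; ring
      · have h1 : (incAt n v (rooted t₁))⁻¹ z = z := by
          rw [e2]; exact incAt_nomatch hinc n v _ z hz
        rw [h1, hτ t₂ x x.2, if_neg hz, if_neg hz]
        ring
    have h4ne : (4 : ZMod (p n)) ≠ 0 := by
      have := natCast_ne_zero_of_lt (q := p n) (n := 4) (by norm_num) (by have := p_large n; omega)
      exact_mod_cast this
    have hε4 : (τ₁ * τ₂) • ε - τ₁ • ε - τ₂ • ε + ε = 4 • ε := by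
      ext1
      apply V_ext
      intro m z
      rw [AddSubgroup.coe_nsmul, V_nsmul_apply]
      by_cases hm : m = n
      · subst hm
        rw [hop]
        have e1 : (ε : V) m (app m v fun _ => k) = e k := by
          show blk m v e m _ = _
          rw [blk_same, if_pos]
          · simp [app]
          · intro i hi; simp [app, hi]
        have e2 : (ε : V) m (app m v fun _ => k') = e k' := by
          show blk m v e m _ = _
          rw [blk_same, if_pos]
          · simp [app]
          · intro i hi; simp [app, hi]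
        rw [e1, e2, hekk]
        show _ = _ * blk m v e m z
        push_cast
        ring
      · have h0 : ∀ g : Equiv.Perm Ray, (g • (ε : V)) m z = 0 := fun g =>
          blk_ne n v e hm _
        have h1 : (ε : V) m z = 0 := blk_ne n v e hm z
        show (((τ₁ * τ₂ : ↥T) : Equiv.Perm Ray) • (ε : V)) m z - ((τ₁ : Equiv.Perm Ray) • (ε : V)) m z -
          ((τ₂ : Equiv.Perm Ray) • (ε : V)) m z + (ε : V) m z = _
        rw [h0, h0, h0, h1]
        ring
    -- the scalar
    let c : ZMod (p n) := ((f ε : V) n (app n v fun _ => k) - (f ε : V) n (app n v fun _ => k')) * 2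
    have hfε : ∀ z, (f ε : V) n z = c / 4 * (ε : V) n z := by
      intro z
      have h1 : (τ₁ * τ₂) • f ε - τ₁ • f ε - τ₂ • f ε + f ε = 4 • f ε := by
        rw [← map_nsmul, ← hε4, map_add, map_sub, map_sub, hf, hf, hf]
      have h2 := hop (f ε) z
      rw [h1, AddSubgroup.coe_nsmul, V_nsmul_apply] at h2
      have h3 : (4 : ZMod (p n)) * (f ε : V) n z = c * blk n v e n z := by
        rw [← h2]; push_cast; rfl
      show _ = c / 4 * blk n v e n z
      field_simp
      rw [← h3]
      ring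
    -- irreducibility
    let K : AddSubgroup V :=
      { carrier := {x | x ∈ Mn n ∧ ∃ h : x ∈ M, ∀ z, (f ⟨x, h⟩ : V) n z = c / 4 * x n z}
        add_mem' := by
          rintro x y ⟨hx, hxM, hx'⟩ ⟨hy, hyM, hy'⟩
          refine ⟨(Mn n).add_mem hx hy, M.add_mem hxM hyM, fun z => ?_⟩
          have : (⟨x + y, M.add_mem hxM hyM⟩ : ↥M) = ⟨x, hxM⟩ + ⟨y, hyM⟩ := rfl
          rw [this, map_add, AddSubgroup.coe_add, V_add_apply, hx', hy', V_add_apply]
          ring
        zero_mem' := by
          refine ⟨(Mn n).zero_mem, M.zero_mem, fun z => ?_⟩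
          have : (⟨0, M.zero_mem⟩ : ↥M) = 0 := rfl
          rw [this, map_zero]
          simp
        neg_mem' := by
          rintro x ⟨hx, hxM, hx'⟩
          refine ⟨(Mn n).neg_mem hx, M.neg_mem hxM, fun z => ?_⟩
          have : (⟨-x, M.neg_mem hxM⟩ : ↥M) = -⟨x, hxM⟩ := rfl
          rw [this, map_neg, AddSubgroup.coe_neg, V_neg_apply, hx', V_neg_apply]
          ring }
    have hK : K = Mn n := by
      refine (hirr n K (fun x hx => hx.1) ?_).resolve_left ?_
      · rintro t ht x ⟨hx, hxM, hx'⟩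
        refine ⟨smul_Mn_mem ht hx, smul_M_mem ht hxM, fun z => ?_⟩
        have : (⟨t • x, smul_M_mem ht hxM⟩ : ↥M) = (⟨t, ht⟩ : ↥T) • ⟨x, hxM⟩ := rfl
        rw [this, hf, coe_smul_M, V_smul_apply, hx', V_smul_apply]
      · intro hbot
        have h1 : blk n v e ∈ K := ⟨hεn, hle n hεn, hfε⟩
        rw [hbot, AddSubgroup.mem_bot] at h1
        have h2 : blk n v e n (app n v fun _ => k) = 0 := by rw [h1]; rfl
        rw [blk_same, if_pos] at h2
        · have h3 : app n v (fun _ => k) n = k := by simp [app]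
          rw [h3] at h2
          simp only [e, if_pos] at h2
          exact one_ne_zero h2
        · intro i hi; simp [app, hi]
    refine ⟨c / 4, fun x hx z => ?_⟩
    rw [← hK] at hx
    obtain ⟨_, hM, h⟩ := hx
    exact h z
  choose l hl using hscal
  refine ⟨l, fun x n z => ?_⟩
  -- decomposition
  let y : ↥M := x - ∑ m ∈ Finset.range (n + 1), ⟨prj m (x : V), hle m (hprj x x.2 m)⟩
  have hy0 : ∀ m < n + 1, ∀ z, (y : V) m z = 0 := by
    intro m hm z
    have e1 : (y : V) m z = (x : V) m z - ∑ m' ∈ Finset.range (n + 1), prj m' (x : V) m z := by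
      have : (y : V) m z = ev m z ((AddSubgroup.subtype M) y) := rfl
      rw [this]
      simp only [y]
      rw [map_sub, map_sub, map_sum, map_sum]
      rfl
    rw [e1, Finset.sum_eq_single_of_mem m (Finset.mem_range.2 hm), prj_same, sub_self]
    intro m' _ hne
    exact prj_ne m' x hne.symm z
  have hfy : (f y : V) n z = 0 := by
    have h1 := hco.2 (n + 1) y y.2 hy0
    have h2 : ∃ h : (y : V) ∈ M, ∀ z, (f ⟨y, h⟩ : V) n z = 0 := by
      refine AddSubgroup.closure_induction (p := fun u _ => ∃ h : u ∈ M, ∀ z, (f ⟨u, h⟩ : V) n z = 0)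
        ?_ ?_ ?_ ?_ h1
      · rintro u ⟨t, ht, x', hx', rfl⟩
        refine ⟨M.sub_mem (smul_M_mem t.2 hx') hx', fun z => ?_⟩
        have : (⟨(t : Equiv.Perm Ray) • x' - x', M.sub_mem (smul_M_mem t.2 hx') hx'⟩ : ↥M) =
            t • (⟨x', hx'⟩ : ↥M) - ⟨x', hx'⟩ := rfl
        rw [this, map_sub, hf, AddSubgroup.coe_sub, V_sub_apply, coe_smul_M,
          hco.1 (n + 1) t ht _ (f ⟨x', hx'⟩).2 n (by omega), sub_self]
      · refine ⟨M.zero_mem, fun z => ?_⟩
        have : (⟨0, M.zero_mem⟩ : ↥M) = 0 := rfl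
        rw [this, map_zero]
        rfl
      · rintro u w _ _ ⟨hu, hu'⟩ ⟨hw, hw'⟩
        refine ⟨M.add_mem hu hw, fun z => ?_⟩
        have : (⟨u + w, M.add_mem hu hw⟩ : ↥M) = ⟨u, hu⟩ + ⟨w, hw⟩ := rfl
        rw [this, map_add, AddSubgroup.coe_add, V_add_apply, hu', hw', add_zero]
      · rintro u _ ⟨hu, hu'⟩
        refine ⟨M.neg_mem hu, fun z => ?_⟩
        have : (⟨-u, M.neg_mem hu⟩ : ↥M) = -⟨u, hu⟩ := rfl
        rw [this, map_neg, AddSubgroup.coe_neg, V_neg_apply, hu', neg_zero]
    exact h2.2 z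
  have hx : x = y + ∑ m ∈ Finset.range (n + 1), ⟨prj m (x : V), hle m (hprj x x.2 m)⟩ := by
    simp only [y]; rw [sub_add_cancel]
  have e2 : (f x : V) n z = (f y : V) n z +
      ∑ m ∈ Finset.range (n + 1), (f ⟨prj m (x : V), hle m (hprj x x.2 m)⟩ : V) n z := by
    have : (f x : V) n z = ev n z ((AddSubgroup.subtype M) (f x)) := rfl
    rw [this]
    conv_lhs => rw [hx]
    rw [map_add, map_sum, map_add, map_add, map_sum, map_sum]
    rfl
  rw [e2, hfy, zero_add, Finset.sum_eq_single_of_mem n (Finset.mem_range.2 (by omega)),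
    hl n _ (hprj x x.2 n)]
  · show l n * prj n (x : V) n z = _
    rw [prj_same]
  · intro m _ hne
    exact htor m _ (hprj x x.2 m) n hne.symm z

namespace TC3

/-- `0^j 1 y y y ...` -/
def ry (j : ℕ) (y : Y) : Ray := fun i => if i < j then 0 else if i = j then 1 else y

theorem ry_dir (j : ℕ) (y : Y) : Dir j (ry j y) := by
  refine ⟨by simp [ry], fun i hi => by simp [ry, hi]⟩

theorem ry_succ (j : ℕ) (y : Y) : ry j y (j + 1) = y := by simp [ry]

theorem ry_agree {j : ℕ} {z : Ray} (h : Dir j z) : ∀ i ≤ j + 1, z i = ry j (z (j + 1)) i := by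
  intro i hi
  by_cases h1 : i < j
  · rw [h.2 i h1]; simp [ry, h1]
  · by_cases h2 : i = j
    · subst h2; rw [h.1]; simp [ry]
    · have h3 : i = j + 1 := by omega
      subst h3; simp [ry]

theorem xbar (hprj : C_prj) {x : V} (hx : x ∈ M) {j : ℕ} {z : Ray} (h : Dir j z) :
    x (j + 1) z = x (j + 1) (ry j (z (j + 1))) := M_dep hprj hx (j + 1) (ry_agree h)

theorem xbar_sum (hprj : C_prj) {x : V} (hx : x ∈ M) (j : ℕ) :
    ∑ y, x (j + 1) (ry j y) = 0 := by
  rw [← M_sum hprj hx (j + 1) (ry j 0)]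
  refine Finset.sum_congr rfl fun y _ => M_dep hprj hx (j + 1) fun i hi => ?_
  by_cases h : i = j + 1
  · subst h; rw [ry_succ, Function.update_self]
  · rw [Function.update_of_ne h]
    have h1 : i ≤ j := by omega
    rcases h1.lt_or_eq with h2 | h2
    · simp [ry, h2]
    · subst h2; simp [ry]

theorem dir_inv_apply (a : Equiv.Perm Y) (z : Ray) : (dir a)⁻¹ z = dirFun (a⁻¹ : Equiv.Perm Y) z := by
  rw [← map_inv]; rfl

theorem dir_smul (hprj : C_prj) {x : V} (hx : x ∈ M) (a : Equiv.Perm Y) (j : ℕ) (y : Y) :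
    (dir a • x) (j + 1) (ry j y) = x (j + 1) (ry j (a⁻¹ y)) := by
  rw [V_smul_apply, dir_inv_apply,
    xbar hprj hx ((dir_dirFun (a⁻¹ : Equiv.Perm Y) (ry j y) j).2 (ry_dir j y)), dirFun_succ,
    if_pos (ry_dir j y), ry_succ]

/-- eventual coherence -/
def ACoh (x : V) : Prop :=
  ∃ w : Y → ℤ, ∑ y, w y = 0 ∧ ∃ N : ℕ, ∀ j, N ≤ j → ∀ z : Ray, Dir j z →
    x (j + 1) z = ((w (z (j + 1)) : ℤ) : ZMod (p (j + 1)))

theorem acoh_germ (hnuc : B_nuc) {t : Equiv.Perm Ray} (ht : t ∈ T) {w : Y → ℤ} (hw : ∑ y, w y = 0) :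
    ACoh (t • germ w) := by
  classical
  obtain ⟨k, hk⟩ := hnuc t⁻¹ (T.inv_mem ht)
  obtain ⟨s, hs, hsz⟩ := hk (fun _ => 0)
  set v : Ray := fun _ => 0 with hv
  let P : Prop := ∀ i < k, (t⁻¹ v) i = 0
  -- the shifted ray
  have hsh : ∀ j, k + 1 ≤ j → ∀ z : Ray, Dir j z → z = app k v (fun i => z (k + i)) := by
    intro j hj z hz
    funext i
    by_cases hi : i < k
    · simp only [app, hi, if_true]
      exact hz.2 i (by omega)
    · simp only [app, hi, if_false]
      congr 1; omega
  have hval : ∀ j, k + 1 ≤ j → ∀ z : Ray, Dir j z → ∀ i, (t⁻¹ z) i =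
      if i < k then (t⁻¹ v) i else s (fun i => z (k + i)) (i - k) := by
    intro j hj z hz i
    conv_lhs => rw [hsh j hj z hz]
    rw [hsz]
    rfl
  rcases hs with ⟨a, ha, rfl⟩ | ⟨a, ha, rfl⟩
  · -- rooted
    refine ⟨fun y => if P ∧ a 0 = 0 then w y else 0, ?_, k + 1, fun j hj z hz => ?_⟩
    · by_cases hc : P ∧ a 0 = 0
      · simp only [if_pos hc]; exact hw
      · simp only [if_neg hc]; simp
    have hz0 : z k = 0 := hz.2 k (by omega)
    have h1 : ∀ i, k < i → (t⁻¹ z) i = z i := by
      intro i hi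
      rw [hval j hj z hz i, if_neg (by omega), rooted_apply]
      obtain ⟨m, hm⟩ : ∃ m, i - k = m + 1 := ⟨i - k - 1, by omega⟩
      rw [hm, cons_succ]
      show z (k + (m + 1)) = z i
      congr 1; omega
    have h2 : (t⁻¹ z) k = a 0 := by
      rw [hval j hj z hz k, if_neg (by omega), rooted_apply, Nat.sub_self, cons_zero]
      show a (z (k + 0)) = a 0
      rw [add_zero, hz0]
    have h3 : ∀ i < k, (t⁻¹ z) i = (t⁻¹ v) i := by
      intro i hi
      rw [hval j hj z hz i, if_pos hi]
    have h4 : Dir j (t⁻¹ z) ↔ P ∧ a 0 = 0 := by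
      constructor
      · rintro ⟨_, h5⟩
        exact ⟨fun i hi => by rw [← h3 i hi]; exact h5 i (by omega), by rw [← h2]; exact h5 k (by omega)⟩
      · rintro ⟨h5, h6⟩
        refine ⟨by rw [h1 j (by omega)]; exact hz.1, fun i hi => ?_⟩
        rcases lt_trichotomy i k with h | h | h
        · rw [h3 i h]; exact h5 i h
        · rw [h, h2, h6]
        · rw [h1 i h]; exact hz.2 i hi
    rw [V_smul_apply, germ_succ, h1 (j + 1) (by omega)]
    show _ = (((if P ∧ a 0 = 0 then w (z (j + 1)) else 0 : ℤ)) : ZMod (p (j + 1)))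
    by_cases hc : P ∧ a 0 = 0
    · rw [if_pos (h4.2 hc), if_pos hc]
    · rw [if_neg (fun h => hc (h4.1 h)), if_neg hc]; simp
  · -- directed
    refine ⟨fun y => if P then w (a y) else 0, ?_, k + 1, fun j hj z hz => ?_⟩
    · by_cases hc : P
      · simp only [if_pos hc]
        rw [← hw]
        exact Equiv.sum_comp a w
      · simp only [if_neg hc]; simp
    have hD : Dir (j - k) (fun i => z (k + i)) := by
      refine ⟨?_, fun i hi => hz.2 _ (by omega)⟩
      show z (k + (j - k)) = 1
      rw [show k + (j - k) = j by omega]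
      exact hz.1
    have h0 : ∀ i, k ≤ i → i ≤ j → (t⁻¹ z) i = z i := by
      intro i hi hij
      rw [hval j hj z hz i, if_neg (by omega), dir_apply]
      rcases Nat.eq_zero_or_pos (i - k) with h | h
      · rw [h, dirFun_zero]
        show z (k + 0) = z i
        congr 1; omega
      · obtain ⟨m, hm⟩ : ∃ m, i - k = m + 1 := ⟨i - k - 1, by omega⟩
        rw [hm, dirFun_succ, if_neg]
        · show z (k + (m + 1)) = z i
          congr 1; omega
        · intro hD'
          have := Dir.unique hD hD'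
          omega
    have h1 : (t⁻¹ z) (j + 1) = a (z (j + 1)) := by
      rw [hval j hj z hz (j + 1), if_neg (by omega), dir_apply, show j + 1 - k = (j - k) + 1 by omega,
        dirFun_succ, if_pos hD]
      show a (z (k + (j - k + 1))) = _
      congr 2; omega
    have h3 : ∀ i < k, (t⁻¹ z) i = (t⁻¹ v) i := by
      intro i hi
      rw [hval j hj z hz i, if_pos hi]
    have h4 : Dir j (t⁻¹ z) ↔ P := by
      constructor
      · rintro ⟨_, h5⟩
        exact fun i hi => by rw [← h3 i hi]; exact h5 i (by omega)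
      · intro h5
        refine ⟨by rw [h0 j (by omega) le_rfl]; exact hz.1, fun i hi => ?_⟩
        by_cases h : i < k
        · rw [h3 i h]; exact h5 i h
        · rw [h0 i (by omega) hi.le]; exact hz.2 i hi
    rw [V_smul_apply, germ_succ, h1]
    show _ = (((if P then w (a (z (j + 1))) else 0 : ℤ)) : ZMod (p (j + 1)))
    by_cases hc : P
    · rw [if_pos (h4.2 hc), if_pos hc]
    · rw [if_neg (fun h => hc (h4.1 h)), if_neg hc]; simp

theorem acoh (hnuc : B_nuc) {x : V} (hx : x ∈ M) : ACoh x := by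
  refine AddSubgroup.closure_induction (p := fun x _ => ACoh x) ?_ ?_ ?_ ?_ hx
  · rintro x (⟨t, ht, w, hw, rfl⟩ | hx)
    · exact acoh_germ hnuc ht hw
    · refine ⟨0, by simp, 0, fun j _ z _ => ?_⟩
      rw [(Mn_props hx).1 (j + 1) (by omega)]
      simp
  · refine ⟨0, by simp, 0, fun j _ z _ => ?_⟩
    simp
  · rintro x y _ _ ⟨w, hw, N, h⟩ ⟨w', hw', N', h'⟩
    refine ⟨w + w', by simp [Finset.sum_add_distrib, hw, hw'], max N N', fun j hj z hz => ?_⟩
    rw [V_add_apply, h j ((le_max_left _ _).trans hj) z hz, h' j ((le_max_right _ _).trans hj) z hz]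
    simp
  · rintro x _ ⟨w, hw, N, h⟩
    refine ⟨-w, by simp [hw], N, fun j hj z hz => ?_⟩
    rw [V_neg_apply, h j hj z hz]
    simp

/-- an integer divisible by `p (j + 1)` for all large `j` is zero -/
theorem int_zero {c : ℤ} {N : ℕ} (h : ∀ j, N ≤ j → ((c : ℤ) : ZMod (p (j + 1))) = 0) : c = 0 := by
  by_contra hc
  have h1 := h (N + c.natAbs) (by omega)
  rw [ZMod.intCast_zmod_eq_zero_iff_dvd] at h1
  have h2 : p (N + c.natAbs + 1) ≤ c.natAbs := by
    apply Nat.le_of_dvd (Int.natAbs_pos.2 hc)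
    exact Int.natCast_dvd.1 h1
  have h3 : N + c.natAbs + 1 ≤ p (N + c.natAbs + 1) := p_strictMono.id_le _
  omega

theorem lam_dir {a : Equiv.Perm Y} (ha : a ∈ S) {x : V} (hx : x ∈ Lam) : dir a • x ∈ Lam := by
  obtain ⟨hM, w, hw, h⟩ := hx
  refine ⟨smul_M_mem (dir_mem ha) hM, fun y => w (a⁻¹ y), ?_, fun k z hz => ?_⟩
  · rw [← hw]
    exact Equiv.sum_comp a⁻¹ w
  · rw [V_smul_apply, dir_inv_apply, h k _ ((dir_dirFun (a⁻¹ : Equiv.Perm Y) z k).2 hz),
      dirFun_succ, if_pos hz]

end TC3

open TC3 in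
theorem c_lam (hfix : A_fix) (hnuc : B_nuc) (hprj : C_prj) (hle : C_Mn_le) :
    C_lam := by
  classical
  refine ⟨fun a ha x => ⟨fun h => ?_, lam_dir ha⟩, fun x hx h => ?_, ?_⟩
  · have := lam_dir (S.inv_mem ha) h
    rwa [map_inv, inv_smul_smul] at this
  · -- averaging
    have : Fintype ↥S := Fintype.ofFinite _
    have hw : ∀ a : ↥S, ∃ w : Y → ℤ, ∀ (j : ℕ) (y : Y), x (j + 1) (ry j ((a : Equiv.Perm Y)⁻¹ y)) -
        x (j + 1) (ry j y) = ((w y : ℤ) : ZMod (p (j + 1))) := by
      intro a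
      obtain ⟨_, w, _, hw⟩ := h a a.2
      refine ⟨w, fun j y => ?_⟩
      have := hw j (ry j y) (ry_dir j y)
      rw [V_sub_apply, dir_smul hprj hx, ry_succ] at this
      exact this
    choose w hw using hw
    obtain ⟨w', hw'0, N, hw'⟩ := acoh hnuc hx
    -- the sum over the group vanishes
    have hsum : ∀ (j : ℕ) (y : Y), ∑ a : ↥S, x (j + 1) (ry j ((a : Equiv.Perm Y)⁻¹ y)) = 0 := by
      intro j y
      let F : Y → ZMod (p (j + 1)) := fun y => ∑ a : ↥S, x (j + 1) (ry j ((a : Equiv.Perm Y)⁻¹ y))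
      have hF : F = 0 := by
        refine hfix (p (j + 1)) (p_prime _) (by have := p_large (j + 1); omega) F ?_ ?_
        · simp only [F]
          rw [Finset.sum_comm]
          refine Finset.sum_eq_zero fun a _ => ?_
          rw [← xbar_sum hprj hx j]
          exact Equiv.sum_comp (a : Equiv.Perm Y)⁻¹ fun y => x (j + 1) (ry j y)
        · intro s hs y
          simp only [F]
          refine Fintype.sum_equiv (Equiv.mulLeft (⟨s, hs⟩ : ↥S)) _ _ fun a => ?_
          simp [mul_inv_rev, Equiv.Perm.mul_apply]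
      exact congrFun hF y
    have hcard : ∀ (j : ℕ) (y : Y), (Fintype.card ↥S : ZMod (p (j + 1))) * x (j + 1) (ry j y) =
        -((∑ a : ↥S, w a y : ℤ) : ZMod (p (j + 1))) := by
      intro j y
      have h1 : ∑ a : ↥S, (x (j + 1) (ry j ((a : Equiv.Perm Y)⁻¹ y)) - x (j + 1) (ry j y)) =
          ((∑ a : ↥S, w a y : ℤ) : ZMod (p (j + 1))) := by
        rw [Int.cast_sum]
        exact Finset.sum_congr rfl fun a _ => hw a j y
      rw [Finset.sum_sub_distrib, hsum, zero_sub, Finset.sum_const, Finset.card_univ,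
        nsmul_eq_mul] at h1
      rw [← h1, neg_neg]
    have hWw : ∀ y, (Fintype.card ↥S : ℤ) * w' y + ∑ a : ↥S, w a y = 0 := by
      intro y
      apply int_zero (N := N)
      intro j hj
      have h1 := hcard j y
      rw [hw' j hj (ry j y) (ry_dir j y), ry_succ] at h1
      rw [Int.cast_add, Int.cast_mul, Int.cast_natCast, h1, neg_add_cancel]
    have hS0 : ∀ j, (Fintype.card ↥S : ZMod (p (j + 1))) ≠ 0 := by
      intro j
      apply natCast_ne_zero_of_lt Fintype.card_pos
      refine lt_of_le_of_lt ?_ (p_large (j + 1))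
      have h1 : Nat.card ↥S ≤ Nat.card (Equiv.Perm Y) := Subgroup.card_le_card_group S
      rw [Nat.card_eq_fintype_card, Nat.card_eq_fintype_card, Fintype.card_perm,
        Fintype.card_fin] at h1
      exact h1.trans (by decide)
    refine ⟨hx, w', hw'0, fun k z hz => ?_⟩
    rw [xbar hprj hx hz]
    apply mul_left_cancel₀ (hS0 k)
    rw [hcard]
    have h1 := hWw (z (k + 1))
    have h2 : (∑ a : ↥S, w a (z (k + 1)) : ℤ) = -((Fintype.card ↥S : ℤ) * w' (z (k + 1))) := by
      linarith
    rw [h2]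
    push_cast
    ring
  · -- infinite index
    rw [AddSubgroup.index_eq_zero_iff_infinite]
    let u : (n : ℕ) → Y → ZMod (p n) := fun n y => if y = 0 then 1 else if y = 1 then -1 else 0
    have hu : ∀ n, ∑ y, u n y = 0 := by
      intro n
      rw [Fin.sum_univ_seven]
      simp [u]
    let e : ℕ → ↥M := fun j => ⟨blk (j + 1) (ry j 0) (u (j + 1)), hle _ (blk_mem _ _ _ (hu _))⟩
    have hinj : Function.Injective fun j => (QuotientAddGroup.mk (e j) : ↥M ⧸ Lam.addSubgroupOf M) := by
      intro i j hij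
      by_contra hne
      rw [QuotientAddGroup.eq, AddSubgroup.mem_addSubgroupOf] at hij
      obtain ⟨_, w, _, hw⟩ := hij
      have hval : ∀ (k : ℕ) (y : Y), (-(e i : V) + (e j : V)) (k + 1) (ry k y) =
          -(e i : V) (k + 1) (ry k y) + (e j : V) (k + 1) (ry k y) := fun _ _ => rfl
      have hev : ∀ (j k : ℕ), k ≠ j → ∀ y, (e j : V) (k + 1) (ry k y) = 0 := by
        intro j k hjk y
        exact blk_ne _ _ _ (by omega) _
      have hw0 : w 0 = 0 := by
        apply int_zero (N := i + j + 1)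
        intro k hk
        have h1 := hw k (ry k 0) (ry_dir k 0)
        rw [ry_succ] at h1
        rw [← h1]
        show (-(e i : V) + (e j : V)) (k + 1) (ry k 0) = 0
        rw [hval, hev i k (by omega), hev j k (by omega)]
        simp
      have h1 := hw i (ry i 0) (ry_dir i 0)
      rw [ry_succ, hw0] at h1
      have h2 : (-(e i : V) + (e j : V)) (i + 1) (ry i 0) = ((0 : ℤ) : ZMod (p (i + 1))) := h1
      rw [hval, hev j i hne] at h2
      have h3 : (e i : V) (i + 1) (ry i 0) = 1 := by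
        show blk (i + 1) (ry i 0) (u (i + 1)) (i + 1) (ry i 0) = 1
        rw [blk_same, if_pos (fun _ _ => rfl), ry_succ]
        simp [u]
      rw [h3] at h2
      simp at h2
    exact Infinite.of_injective _ hinj

end Pool.Agent.Helper106.CG
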