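import Pool.Agent.Helper106.CG.Stmts

/-!
# Characteristic versus normal subgroup growth: task C4 (thinness of `Lam`)
-/

namespace Pool.Agent.Helper106.CG

namespace TC4

/-- the ray `0^k 1 c c c ...` -/
def rayk (k : ℕ) (c : Y) : Ray := fun i => if i < k then 0 else if i = k then 1 else c

theorem rayk_dir (k : ℕ) (c : Y) : Dir k (rayk k c) := by
  refine ⟨?_, fun i hi => ?_⟩
  · simp [rayk]
  · simp [rayk, hi]

theorem rayk_next (k : ℕ) (c : Y) : rayk k c (k + 1) = c := by
  have h1 : ¬ (k + 1 < k) := by omega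
  have h2 : ¬ (k + 1 = k) := by omega
  unfold rayk
  rw [if_neg h1, if_neg h2]

theorem dir_agree {k : ℕ} {z z' : Ray} (h : Dir k z) (h' : Dir k z') : ∀ i < k + 1, z i = z' i := by
  intro i hi
  rcases Nat.lt_succ_iff_lt_or_eq.1 hi with h1 | h1
  · rw [h.2 i h1, h'.2 i h1]
  · subst h1; rw [h.1, h'.1]

theorem int_zero {d : ℤ} (h : ∀ N : ℕ, ∃ n ≥ N, ((d : ℤ) : ZMod (p n)) = 0) : d = 0 := by
  obtain ⟨n, hn, h0⟩ := h (d.natAbs + 1)
  rw [ZMod.intCast_zmod_eq_zero_iff_dvd] at h0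
  apply Int.eq_zero_of_dvd_of_natAbs_lt_natAbs h0
  have h1 : n ≤ p n := p_strictMono.le_apply
  rw [Int.natAbs_natCast]
  omega

/-- an element whose levels other than `n` vanish and which is coherent vanishes at the marked block -/
theorem single_zero {n : ℕ} {x : V} (hx : Coh x) (h : ∀ m, m ≠ n → ∀ z, x m z = 0) :
    ∀ (k : ℕ) (z : Ray), Dir k z → x (k + 1) z = 0 := by
  obtain ⟨w, _, hw⟩ := hx
  have hw0 : ∀ c : Y, w c = 0 := by
    intro c
    apply int_zero
    intro N
    refine ⟨N + n + 1, by omega, ?_⟩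
    have h1 := hw (N + n) (rayk (N + n) c) (rayk_dir _ _)
    rw [rayk_next, h (N + n + 1) (by omega)] at h1
    exact h1.symm
  intro k z hz
  rw [hw k z hz, hw0, Int.cast_zero]

/-- a nonzero vector with zero sum -/
noncomputable def e01 (n : ℕ) : Y → ZMod (p n) := fun y => if y = 0 then 1 else if y = 1 then -1 else 0

theorem e01_sum (n : ℕ) : ∑ y, e01 n y = 0 := by
  simp [e01, Fin.sum_univ_succ]

theorem e01_zero (n : ℕ) : e01 n 0 = 1 := by simp [e01]

theorem blk_same (n : ℕ) (v : Ray) (u : Y → ZMod (p n)) (z : Ray) (h : ∀ i < n, z i = v i) :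
    blk n v u n z = u (z n) := by
  unfold blk
  rw [Pi.single_eq_same, if_pos h]

theorem blk_out (n : ℕ) (v : Ray) (u : Y → ZMod (p n)) (z : Ray) (h : ¬ ∀ i < n, z i = v i) :
    blk n v u n z = 0 := by
  unfold blk
  rw [Pi.single_eq_same, if_neg h]

theorem blk_other (n : ℕ) (v : Ray) (u : Y → ZMod (p n)) (m : ℕ) (h : m ≠ n) (z : Ray) :
    blk n v u m z = 0 := by
  unfold blk
  rw [Pi.single_eq_of_ne h]
  rfl

theorem blk_mem (n : ℕ) (v : Ray) : blk n v (e01 n) ∈ Mn n :=
  AddSubgroup.subset_closure ⟨v, e01 n, e01_sum n, rfl⟩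

end TC4

open TC4

theorem c_thin (hM : C_Mn_le) : C_thin := by
  intro a b τ H
  -- the basic computation
  have base : ∀ (k : ℕ) (l : Equiv.Perm Y),
      (∀ z : Ray, (∀ i < k + 1, z i = rayk k 0 i) → (∀ i < k + 1, (τ : Equiv.Perm Ray) z i =
        (τ : Equiv.Perm Ray) (rayk k 0) i) ∧ (τ : Equiv.Perm Ray) z (k + 1) = l (z (k + 1))) →
      blk (k + 1) ((τ : Equiv.Perm Ray) (rayk k 0)) (e01 (k + 1)) (k + 1)
        ((τ : Equiv.Perm Ray) (rayk k (l⁻¹ 0))) = 1 := by
    intro k l h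
    have h1 := h (rayk k (l⁻¹ 0)) (dir_agree (rayk_dir _ _) (rayk_dir _ _))
    rw [blk_same _ _ _ _ h1.1, h1.2, rayk_next]
    rw [show l (l⁻¹ 0) = 0 from Equiv.apply_symm_apply l 0, e01_zero]
  have tinv : ∀ z : Ray, (τ : Equiv.Perm Ray)⁻¹ ((τ : Equiv.Perm Ray) z) = z := fun z =>
    Equiv.symm_apply_apply _ z
  constructor
  · intro n hn
    obtain ⟨k, rfl⟩ : ∃ k, n = k + 1 := ⟨n - 1, by omega⟩
    obtain ⟨l, _, h⟩ := label τ.2 (k + 1) (rayk k 0)
    obtain ⟨u, hu, hz⟩ := H 0 Lam.zero_mem (blk (k + 1) ((τ : Equiv.Perm Ray) (rayk k 0)) (e01 (k + 1)))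
      (hM _ (blk_mem _ _))
    have hz' : ∀ m z, u m z = b m * blk (k + 1) ((τ : Equiv.Perm Ray) (rayk k 0)) (e01 (k + 1)) m
        ((τ : Equiv.Perm Ray) z) := by
      intro m z
      have := hz m ((τ : Equiv.Perm Ray) z)
      rw [V_zero_apply, mul_zero, zero_add, V_smul_apply, tinv] at this
      exact this.symm
    have h0 := single_zero (n := k + 1) hu.2 (fun m hm z => by rw [hz', blk_other _ _ _ _ hm, mul_zero])
      k (rayk k (l⁻¹ 0)) (rayk_dir _ _)
    rw [hz', base k l h, mul_one] at h0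
    exact h0
  · intro ha
    have fixd : ∀ k, Dir k ((τ : Equiv.Perm Ray) (rayk k 0)) := by
      intro k
      by_contra hcon
      obtain ⟨l, _, h⟩ := label τ.2 (k + 1) (rayk k 0)
      have hx : blk (k + 1) ((τ : Equiv.Perm Ray) (rayk k 0)) (e01 (k + 1)) ∈ Lam := by
        refine ⟨hM _ (blk_mem _ _), 0, by simp, ?_⟩
        intro j z hj
        rw [Pi.zero_apply, Int.cast_zero]
        by_cases hjk : j = k
        · subst hjk
          apply blk_out
          intro hall
          exact hcon ((Dir.congr (fun i hi => hall i (by omega))).1 hj)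
        · exact blk_other _ _ _ _ (by omega) z
      obtain ⟨u, hu, hz⟩ := H _ hx 0 M.zero_mem
      have hz' : ∀ m z, u m z = a m * blk (k + 1) ((τ : Equiv.Perm Ray) (rayk k 0)) (e01 (k + 1)) m
          ((τ : Equiv.Perm Ray) z) := by
        intro m z
        have := hz m ((τ : Equiv.Perm Ray) z)
        rw [V_zero_apply, mul_zero, add_zero, V_smul_apply, tinv] at this
        exact this.symm
      have h0 := single_zero (n := k + 1) hu.2 (fun m hm z => by rw [hz', blk_other _ _ _ _ hm, mul_zero])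
        k (rayk k (l⁻¹ 0)) (rayk_dir _ _)
      rw [hz', base k l h, mul_one] at h0
      exact ha (k + 1) (by omega) h0
    -- the test vector
    have hw : ∑ y : Y, (fun y : Y => if y = 0 then (6 : ℤ) else -1) y = 0 := by decide
    have hg : germ (fun y : Y => if y = 0 then (6 : ℤ) else -1) ∈ Lam := by
      refine ⟨AddSubgroup.subset_closure (Or.inl ⟨1, T.one_mem, _, hw, (one_smul _ _).symm⟩), _, hw, ?_⟩
      intro k z hz
      rw [germ_succ, if_pos hz]
    obtain ⟨u, hu, hz⟩ := H _ hg 0 M.zero_mem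
    obtain ⟨θ, _, hθ⟩ := hu.2
    have key : ∀ k, ∃ y0 : Y, ∀ y : Y, y ≠ y0 → ((θ y : ℤ) : ZMod (p (k + 1))) = - a (k + 1) := by
      intro k
      obtain ⟨l, _, h⟩ := label τ.2 (k + 1) (rayk k 0)
      refine ⟨l⁻¹ 0, fun y hy => ?_⟩
      have h1 := hθ k (rayk k y) (rayk_dir _ _)
      rw [rayk_next] at h1
      have h2 := h (rayk k y) (dir_agree (rayk_dir _ _) (rayk_dir _ _))
      have h3 := hz (k + 1) ((τ : Equiv.Perm Ray) (rayk k y))
      rw [V_zero_apply, mul_zero, add_zero, V_smul_apply, tinv, h1] at h3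
      have h4 : Dir k ((τ : Equiv.Perm Ray) (rayk k y)) :=
        (Dir.congr (fun i hi => h2.1 i (by omega))).2 (fixd k)
      rw [germ_succ, if_pos h4, h2.2, rayk_next] at h3
      have h5 : l y ≠ 0 := by
        intro h6
        apply hy
        rw [← h6]
        exact (Equiv.symm_apply_apply l y).symm
      rw [← h3, if_neg h5]
      simp
    choose y0 hy0 using key
    have pig : ∃ ys : Y, ∀ N : ℕ, ∃ k ≥ N, y0 k = ys := by
      by_contra hcon
      push Not at hcon
      choose N hN using hcon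
      exact hN (y0 (Finset.univ.sup N)) (Finset.univ.sup N) (Finset.le_sup (Finset.mem_univ _)) rfl
    obtain ⟨ys, hys⟩ := pig
    obtain ⟨y1, hy1⟩ := exists_ne ys
    have const : ∀ y, y ≠ ys → θ y = θ y1 := by
      intro y hy
      rw [← sub_eq_zero]
      apply int_zero
      intro N
      obtain ⟨k, hk, hk'⟩ := hys N
      refine ⟨k + 1, by omega, ?_⟩
      rw [Int.cast_sub, hy0 k y (by rw [hk']; exact hy), hy0 k y1 (by rw [hk']; exact hy1), sub_self]
    refine ⟨-θ y1, fun n hn => ?_⟩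
    obtain ⟨k, rfl⟩ : ∃ k, n = k + 1 := ⟨n - 1, by omega⟩
    obtain ⟨y, hya, hyb⟩ : ∃ y : Y, y ≠ y0 k ∧ y ≠ ys := by
      have : ∀ a b : Y, ∃ y : Y, y ≠ a ∧ y ≠ b := by decide
      exact this _ _
    rw [← const y hyb, Int.cast_neg, hy0 k y hya, neg_neg]

end Pool.Agent.Helper106.CG
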