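import Pool.Agent.Helper106.CG.Stmts

/-!
# Characteristic versus normal subgroup growth: task D2
The marks of `D`, and the automorphisms of `D` preserving the marks.
-/

namespace Pool.Agent.Helper106.CG

namespace TD2

/-! ## Conjugation formulas -/

theorem conj_formula (g d : D) : g * d * g⁻¹ =
    ⟨g.x + g.t • d.x - (g.t * d.t * g.t⁻¹) • g.x, g.y + g.t • d.y - (g.t * d.t * g.t⁻¹) • g.y,
      g.t * d.t * g.t⁻¹⟩ := by
  apply D.ext
  · simp only [D_mul_x, D_mul_t, D_inv_x, smul_neg, mul_smul, sub_eq_add_neg]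
  · simp only [D_mul_y, D_mul_t, D_inv_y, smul_neg, mul_smul, sub_eq_add_neg]
  · rfl

theorem T_inv_smul_smul (t : ↥T) (x : ↥M) : t⁻¹ • t • x = x := inv_smul_smul t x

theorem Lam_le {x : V} (h : x ∈ Lam) : x ∈ M := h.1

theorem smul_M_iff (t : ↥T) (x : V) : (t : Equiv.Perm Ray) • x ∈ M ↔ x ∈ M := by
  constructor
  · intro h
    have := smul_M_mem (T.inv_mem t.2) h
    rwa [inv_smul_smul] at this
  · exact smul_M_mem t.2

theorem mem_T3_of {t : ↥T} (h : ∀ m : ↥M, (m : V) ∈ Lam ↔ ((t • m : ↥M) : V) ∈ Lam) : t ∈ T3 := by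
  intro x
  constructor
  · intro hx
    have hxM : x ∈ M := (smul_M_iff t x).1 (Lam_le hx)
    exact (h ⟨x, hxM⟩).2 hx
  · intro hx
    exact (h ⟨x, Lam_le hx⟩).1 hx

theorem dir_mem_T3 (hC : C_lam) {a : Equiv.Perm Y} (ha : a ∈ S) :
    (⟨dir a, dir_mem ha⟩ : ↥T) ∈ T3 := fun x => hC.1 a ha x

/-- if `(x - (t a t⁻¹) x) ∈ Λ` for all directed `a`, and `t` stabilises `Λ`, then `x ∈ Λ` -/
theorem mem_Lam_of (hC : C_lam) {t : ↥T} (ht : t ∈ T3) (x : ↥M)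
    (h : ∀ a (ha : a ∈ S), ((x - (t * ⟨dir a, dir_mem ha⟩ * t⁻¹ : ↥T) • x : ↥M) : V) ∈ Lam) :
    (x : V) ∈ Lam := by
  have key : ((t⁻¹ • x : ↥M) : V) ∈ Lam := by
    refine hC.2.1 _ (t⁻¹ • x : ↥M).2 fun a ha => ?_
    have h1 := (T3.inv_mem ht _).2 (h a ha)
    have h2 : (((t⁻¹ : ↥T) : Equiv.Perm Ray) •
        ((x - (t * ⟨dir a, dir_mem ha⟩ * t⁻¹ : ↥T) • x : ↥M) : V)) =
        -(dir a • ((t⁻¹ • x : ↥M) : V) - ((t⁻¹ • x : ↥M) : V)) := by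
      have h3 : (t⁻¹ • (x - (t * ⟨dir a, dir_mem ha⟩ * t⁻¹ : ↥T) • x) : ↥M) =
          -((⟨dir a, dir_mem ha⟩ : ↥T) • (t⁻¹ • x) - t⁻¹ • x) := by
        rw [smul_sub, mul_smul, mul_smul, inv_smul_smul, neg_sub]
      exact congrArg (fun m : ↥M => (m : V)) h3
    rw [h2] at h1
    have h4 := Lam.neg_mem h1
    rwa [neg_neg] at h4
  have h5 := (ht _).2 key
  have h6 : (t : Equiv.Perm Ray) • ((t⁻¹ • x : ↥M) : V) = (x : V) := by
    have : (t • (t⁻¹ • x) : ↥M) = x := smul_inv_smul t x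
    exact congrArg (fun m : ↥M => (m : V)) this
  rwa [h6] at h5

/-! ## The marks are self-normalising -/

theorem self0 (hfix : C_fix) (z : Ray) (g : D)
    (h : ∀ x, x ∈ L z 0 ↔ g * x * g⁻¹ ∈ L z 0) : g ∈ L z 0 := by
  have key : ∀ s : ↥T, s • g.x = g.x ∧ s • g.y = g.y := by
    intro s
    have h1 := (h ⟨0, 0, g.t⁻¹ * s * g.t⟩).1 ⟨rfl, rfl⟩
    rw [conj_formula, mem_L0] at h1
    have e : g.t * (g.t⁻¹ * s * g.t) * g.t⁻¹ = s := by group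
    simp only [smul_zero, add_zero, e] at h1
    exact ⟨(sub_eq_zero.1 h1.1).symm, (sub_eq_zero.1 h1.2).symm⟩
  refine ⟨?_, ?_⟩
  · apply Subtype.ext
    exact hfix _ g.x.2 fun t ht => congrArg (fun m : ↥M => (m : V)) (key ⟨t, ht⟩).1
  · apply Subtype.ext
    exact hfix _ g.y.2 fun t ht => congrArg (fun m : ↥M => (m : V)) (key ⟨t, ht⟩).2

theorem self1 (hst : B_stab) (z : Ray) (g : D)
    (h : ∀ x, x ∈ L z 1 ↔ g * x * g⁻¹ ∈ L z 1) : g ∈ L z 1 := by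
  rw [mem_L1]
  have key : ((g.t⁻¹ : ↥T) : Equiv.Perm Ray) z = z := by
    refine (hst z).1 _ fun t ht htz => ?_
    have h1 := (h ⟨0, 0, ⟨t, ht⟩⟩)
    rw [mem_L1, mem_L1] at h1
    have h2 := (h ⟨0, 0, g.t⁻¹ * ⟨t, ht⟩ * g.t⟩)
    rw [mem_L1, mem_L1] at h2
    have e : g.t * (g.t⁻¹ * ⟨t, ht⟩ * g.t) * g.t⁻¹ = ⟨t, ht⟩ := by group
    simp only [D_mul_t, D_inv_t] at h1 h2
    have h3 := h1.1 htz
    simp only [Subgroup.coe_mul, Equiv.Perm.mul_apply] at h3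
    rw [Subgroup.coe_inv, Equiv.Perm.eq_inv_iff_eq]
    exact h3
  rw [Subgroup.coe_inv, Equiv.Perm.inv_eq_iff_eq] at key
  exact key.symm

theorem self2 (hC : C_lam) (z : Ray) (g : D)
    (h : ∀ x, x ∈ L z 2 ↔ g * x * g⁻¹ ∈ L z 2) : g ∈ L z 2 := by
  have ht : g.t ∈ T3 := by
    refine mem_T3_of fun m => ?_
    have h1 := h ⟨m, 0, 1⟩
    rw [conj_formula, mem_L2, mem_L2] at h1
    simp only [mul_one, mul_inv_cancel, one_smul, add_sub_cancel_left] at h1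
    constructor
    · intro hm
      exact (h1.1 ⟨hm, T3.one_mem⟩).1
    · intro hm
      exact (h1.2 ⟨hm, T3.one_mem⟩).1
  refine ⟨mem_Lam_of hC ht g.x fun a ha => ?_, ht⟩
  have h2 := (h ⟨0, 0, ⟨dir a, dir_mem ha⟩⟩).1 ⟨Lam.zero_mem, dir_mem_T3 hC ha⟩
  rw [conj_formula, mem_L2] at h2
  simp only [smul_zero, add_zero] at h2
  exact h2.1

theorem self3 (hC : C_lam) (z : Ray) (g : D)
    (h : ∀ x, x ∈ L z 3 ↔ g * x * g⁻¹ ∈ L z 3) : g ∈ L z 3 := by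
  have ht : g.t ∈ T3 := by
    refine mem_T3_of fun m => ?_
    have h1 := h ⟨0, m, 1⟩
    rw [conj_formula, mem_L3, mem_L3] at h1
    simp only [mul_one, mul_inv_cancel, one_smul, add_sub_cancel_left] at h1
    constructor
    · intro hm
      exact (h1.1 ⟨hm, T3.one_mem⟩).1
    · intro hm
      exact (h1.2 ⟨hm, T3.one_mem⟩).1
  refine ⟨mem_Lam_of hC ht g.y fun a ha => ?_, ht⟩
  have h2 := (h ⟨0, 0, ⟨dir a, dir_mem ha⟩⟩).1 ⟨Lam.zero_mem, dir_mem_T3 hC ha⟩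
  rw [conj_formula, mem_L3] at h2
  simp only [smul_zero, add_zero] at h2
  exact h2.1

/-! ## The marks have infinite index -/

theorem inf_M (hC : C_lam) : Infinite ↥M := by
  by_contra h
  rw [not_infinite_iff_finite] at h
  exact (AddSubgroup.FiniteIndex.index_ne_zero (H := Lam.addSubgroupOf M)) hC.2.2

theorem index_zero_of_inj {α : Type} [Infinite α] {H : Subgroup D} (f : α → D)
    (hf : ∀ a b, (f a)⁻¹ * f b ∈ H → a = b) : H.index = 0 := by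
  have : Function.Injective (fun a => (QuotientGroup.mk (f a) : D ⧸ H)) := by
    intro a b hab
    exact hf a b (QuotientGroup.eq.1 hab)
  have := Infinite.of_injective _ this
  exact Nat.card_eq_zero_of_infinite

theorem inf0 (hC : C_lam) (z : Ray) : (L z 0).index = 0 := by
  have := inf_M hC
  refine index_zero_of_inj (fun m : ↥M => (⟨m, 0, 1⟩ : D)) fun a b h => ?_
  rw [mem_L0] at h
  have h1 := h.1
  simp only [D_mul_x, D_inv_x, D_inv_t, inv_one, one_smul] at h1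
  exact (neg_add_eq_zero.1 h1)

theorem inf1 (hst : B_stab) (z : Ray) : (L z 1).index = 0 := by
  have h : Function.Surjective piT := fun t => ⟨⟨0, 0, t⟩, rfl⟩
  have h1 := Subgroup.index_comap_of_surjective (MulAction.stabilizer ↥T z) h
  exact h1.trans (hst z).2

theorem inf_Lam (hC : C_lam) : Infinite (↥M ⧸ Lam.addSubgroupOf M) := by
  by_contra h
  rw [not_infinite_iff_finite] at h
  have h1 := hC.2.2
  rw [AddSubgroup.index] at h1
  exact (Nat.card_pos (α := ↥M ⧸ Lam.addSubgroupOf M)).ne' h1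

theorem inf2 (hC : C_lam) (z : Ray) : (L z 2).index = 0 := by
  have := inf_Lam hC
  refine index_zero_of_inj
    (fun q : ↥M ⧸ Lam.addSubgroupOf M => (⟨Quotient.out q, 0, 1⟩ : D)) fun a b h => ?_
  rw [mem_L2] at h
  have h1 := h.1
  simp only [D_mul_x, D_inv_x, D_inv_t, inv_one, one_smul] at h1
  have h2 : (QuotientAddGroup.mk (Quotient.out a) : ↥M ⧸ Lam.addSubgroupOf M) =
      QuotientAddGroup.mk (Quotient.out b) := by
    rw [QuotientAddGroup.eq, AddSubgroup.mem_addSubgroupOf]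
    exact h1
  rwa [QuotientAddGroup.out_eq', QuotientAddGroup.out_eq'] at h2

theorem inf3 (hC : C_lam) (z : Ray) : (L z 3).index = 0 := by
  have := inf_Lam hC
  refine index_zero_of_inj
    (fun q : ↥M ⧸ Lam.addSubgroupOf M => (⟨0, Quotient.out q, 1⟩ : D)) fun a b h => ?_
  rw [mem_L3] at h
  have h1 := h.1
  simp only [D_mul_y, D_inv_y, D_inv_t, inv_one, one_smul] at h1
  have h2 : (QuotientAddGroup.mk (Quotient.out a) : ↥M ⧸ Lam.addSubgroupOf M) =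
      QuotientAddGroup.mk (Quotient.out b) := by
    rw [QuotientAddGroup.eq, AddSubgroup.mem_addSubgroupOf]
    exact h1
  rwa [QuotientAddGroup.out_eq', QuotientAddGroup.out_eq'] at h2

theorem faith (hf : C_faith) (z : Ray) (g : D) (h : ∀ e : D, e⁻¹ * g * e ∈ L z 0) : g = 1 := by
  have h1 := h 1
  rw [inv_one, one_mul, mul_one, mem_L0] at h1
  have h2 : ∀ m : ↥M, g.t • m = m := by
    intro m
    have h3 := (h ⟨m, 0, 1⟩).1
    simp only [D_mul_x, D_inv_x, D_inv_t, D_mul_t, inv_one, one_smul, one_mul] at h3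
    rw [h1.1, add_zero, neg_add_eq_zero] at h3
    exact h3.symm
  have h4 : g.t = 1 := by
    apply Subtype.ext
    exact hf _ g.t.2 fun x hx => congrArg (fun m : ↥M => (m : V)) (h2 ⟨x, hx⟩)
  apply D.ext
  · exact h1.1
  · exact h1.2
  · exact h4

theorem phi_marks (z : Ray) (j : Fin 4) : (L z j).map phi.toMonoidHom = L z j := by
  ext d
  rw [Subgroup.mem_map_equiv]
  have e : phi.symm d = ⟨d.x, -d.y, d.t⟩ := rfl
  rw [e]
  fin_cases j
  · show (⟨d.x, -d.y, d.t⟩ : D) ∈ L z 0 ↔ d ∈ L z 0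
    rw [mem_L0, mem_L0, neg_eq_zero]
  · show (⟨d.x, -d.y, d.t⟩ : D) ∈ L z 1 ↔ d ∈ L z 1
    rw [mem_L1, mem_L1]
  · show (⟨d.x, -d.y, d.t⟩ : D) ∈ L z 2 ↔ d ∈ L z 2
    rw [mem_L2, mem_L2]
  · show (⟨d.x, -d.y, d.t⟩ : D) ∈ L z 3 ↔ d ∈ L z 3
    rw [mem_L3, mem_L3]
    have : ((-d.y : ↥M) : V) ∈ Lam ↔ (d.y : V) ∈ Lam := by
      rw [AddSubgroup.coe_neg]
      exact Lam.neg_mem_iff
    rw [this]

end TD2

theorem d_marks (hst : B_stab) (hfix : C_fix) (hfaith : C_faith) (hC : C_lam) : D_marks := by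
  intro z
  refine ⟨⟨?_, ?_, ?_⟩, TD2.phi_marks z⟩
  · intro j
    fin_cases j
    · exact TD2.self0 hfix z
    · exact TD2.self1 hst z
    · exact TD2.self2 hC z
    · exact TD2.self3 hC z
  · intro j
    fin_cases j
    · exact TD2.inf0 hC z
    · exact TD2.inf1 hst z
    · exact TD2.inf2 hC z
    · exact TD2.inf3 hC z
  · intro g h
    exact TD2.faith hfaith z g (h 0)

/-! ## Automorphisms preserving the marks -/

namespace TD2

/-- `α` maps the marks to conjugates -/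
def Good (z : Ray) (α : MulAut D) : Prop :=
  ∀ j, ∃ g : D, ∀ d, d ∈ L z j ↔ g⁻¹ * α d * g ∈ L z j

theorem good_of {z : Ray} {α : MulAut D}
    (h : ∀ j, ∃ g : D, (L z j).map α.toMonoidHom = (L z j).map (MulAut.conj g).toMonoidHom) :
    Good z α := by
  intro j
  obtain ⟨g, hg⟩ := h j
  refine ⟨g, fun d => ?_⟩
  have h1 : α d ∈ (L z j).map α.toMonoidHom ↔ d ∈ L z j := by
    rw [Subgroup.mem_map_equiv, MulEquiv.symm_apply_apply]
  rw [← h1, hg, Subgroup.mem_map_equiv, MulAut.conj_symm_apply]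

theorem good_inv {z : Ray} {α : MulAut D} (h : Good z α) : Good z α⁻¹ := by
  intro j
  obtain ⟨g, hg⟩ := h j
  refine ⟨α⁻¹ g⁻¹, fun d => ?_⟩
  have e : (α⁻¹ g⁻¹)⁻¹ * α⁻¹ d * α⁻¹ g⁻¹ = α⁻¹ (g * d * g⁻¹) := by
    simp only [map_mul, map_inv, inv_inv]
  have e2 : g⁻¹ * (g * d * g⁻¹) * g = d := by group
  rw [e, hg (α⁻¹ (g * d * g⁻¹)), MulAut.apply_inv_self, e2]

theorem good_conj {z : Ray} {α : MulAut D} (h : Good z α) (k : D) : Good z (MulAut.conj k * α) := by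
  intro j
  obtain ⟨g, hg⟩ := h j
  refine ⟨k * g, fun d => ?_⟩
  rw [hg, MulAut.mul_apply, MulAut.conj_apply]
  have e : (k * g)⁻¹ * (k * α d * k⁻¹) * (k * g) = g⁻¹ * α d * g := by group
  rw [e]

/-- an element of `T` fixing an orbit is trivial -/
theorem T_one (hB : B_trans) (z : Ray) (t : ↥T)
    (h : ∀ u : ↥T, (t : Equiv.Perm Ray) ((u : Equiv.Perm Ray) z) = (u : Equiv.Perm Ray) z) :
    t = 1 := by
  apply Subtype.ext
  apply Equiv.Perm.ext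
  intro w
  funext n
  obtain ⟨u, hu, huz⟩ := hB (n + 1) z w
  have h1 := huz (fun i => z (i + (n + 1)))
  have e1 : app (n + 1) z (fun i => z (i + (n + 1))) = z := by
    funext i
    unfold app
    by_cases hi : i < n + 1
    · rw [if_pos hi]
    · rw [if_neg hi]
      show z (i - (n + 1) + (n + 1)) = z i
      rw [Nat.sub_add_cancel (by omega)]
  rw [e1] at h1
  have h2 := h ⟨u, hu⟩
  simp only at h2
  rw [h1] at h2
  set w' := app (n + 1) w (fun i => z (i + (n + 1))) with hw'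
  have h3 : ∀ i < n + 1, w i = w' i := by
    intro i hi
    rw [hw']
    unfold app
    rw [if_pos hi]
  have h4 := (T_prefix t.2).2 h3 n (Nat.lt_succ_self n)
  rw [h4, h2, ← h3 n (Nat.lt_succ_self n)]
  rfl

theorem ker_iff' (hB : B_trans) {z : Ray} (d : D) :
    d.t = 1 ↔ ∀ e : D, e⁻¹ * d * e ∈ L z 1 := by
  constructor
  · intro h e
    rw [mem_L1]
    simp only [D_mul_t, D_inv_t, h, mul_one, inv_mul_cancel, Subgroup.coe_one, Equiv.Perm.one_apply]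
  · intro h
    refine T_one hB z d.t fun u => ?_
    have h1 := h ⟨0, 0, u⟩
    rw [mem_L1] at h1
    simp only [D_mul_t, D_inv_t, Subgroup.coe_mul, Subgroup.coe_inv, Equiv.Perm.mul_apply] at h1
    exact Equiv.Perm.inv_eq_iff_eq.1 h1

theorem ker_iff (hB : B_trans) {z : Ray} {α : MulAut D} (h : Good z α) (d : D) :
    d.t = 1 ↔ (α d).t = 1 := by
  rw [ker_iff' hB (z := z) d, ker_iff' hB (z := z) (α d)]
  obtain ⟨g, hg⟩ := h 1
  constructor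
  · intro hd e
    have h1 := hd (α⁻¹ (e * g⁻¹))
    rw [hg] at h1
    simp only [map_mul, map_inv, MulAut.apply_inv_self] at h1
    have e1 : g⁻¹ * ((e * g⁻¹)⁻¹ * α d * (e * g⁻¹)) * g = e⁻¹ * α d * e := by group
    rwa [e1] at h1
  · intro hd e
    rw [hg]
    have h1 := hd (α e * g)
    have e1 : (α e * g)⁻¹ * α d * (α e * g) = g⁻¹ * α (e⁻¹ * d * e) * g := by
      simp only [map_mul, map_inv]
      group
    rwa [e1] at h1

/-- the automorphism of `T` induced by an automorphism preserving `L₀` -/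
noncomputable def bet (z : Ray) (α : MulAut D) (h0 : ∀ d, d ∈ L z 0 ↔ α d ∈ L z 0) : MulAut ↥T where
  toFun t := (α ⟨0, 0, t⟩).t
  invFun t := (α⁻¹ ⟨0, 0, t⟩).t
  left_inv t := by
    have h1 := (h0 ⟨0, 0, t⟩).1 ⟨rfl, rfl⟩
    have h2 : (⟨0, 0, (α ⟨0, 0, t⟩).t⟩ : D) = α ⟨0, 0, t⟩ := D.ext h1.1.symm h1.2.symm rfl
    simp only [h2, MulAut.inv_apply_self]
  right_inv t := by
    have h1 : α⁻¹ ⟨0, 0, t⟩ ∈ L z 0 := by
      rw [h0, MulAut.apply_inv_self]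
      exact ⟨rfl, rfl⟩
    have h2 : (⟨0, 0, (α⁻¹ ⟨0, 0, t⟩).t⟩ : D) = α⁻¹ ⟨0, 0, t⟩ := D.ext h1.1.symm h1.2.symm rfl
    simp only [h2, MulAut.apply_inv_self]
  map_mul' t u := by
    have e : (⟨0, 0, t * u⟩ : D) = ⟨0, 0, t⟩ * ⟨0, 0, u⟩ := by
      apply D.ext
      · simp
      · simp
      · rfl
    rw [e, map_mul, D_mul_t]

/-- `α` maps the marks to conjugates and fixes `T` pointwise -/
structure Nice (z : Ray) (α : MulAut D) : Prop where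
  good : Good z α
  fixT : ∀ t : ↥T, α ⟨0, 0, t⟩ = ⟨0, 0, t⟩

theorem exists_nice {z : Ray} (hz : Rigid z) {α : MulAut D} (h : Good z α) :
    ∃ k : D, Nice z (MulAut.conj k * α) := by
  obtain ⟨g, hg⟩ := h 0
  set α₁ := MulAut.conj g⁻¹ * α with hα₁
  have h1 : Good z α₁ := good_conj h g⁻¹
  have h0 : ∀ d, d ∈ L z 0 ↔ α₁ d ∈ L z 0 := by
    intro d
    rw [hg, hα₁, MulAut.mul_apply, MulAut.conj_apply, inv_inv]
  obtain ⟨g1, hg1⟩ := h1 1
  have hα0 : ∀ t : ↥T, α₁ ⟨0, 0, t⟩ = ⟨0, 0, bet z α₁ h0 t⟩ := by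
    intro t
    have h2 := (h0 ⟨0, 0, t⟩).1 ⟨rfl, rfl⟩
    exact D.ext h2.1 h2.2 rfl
  obtain ⟨t, ht⟩ := hz (bet z α₁ h0) g1.t (by
    intro u
    have h2 := hg1 ⟨0, 0, u⟩
    rw [mem_L1, mem_L1, hα0 u] at h2
    exact h2)
  refine ⟨⟨0, 0, t⁻¹⟩ * g⁻¹, ?_⟩
  have e : MulAut.conj ((⟨0, 0, t⁻¹⟩ : D) * g⁻¹) * α = MulAut.conj (⟨0, 0, t⁻¹⟩ : D) * α₁ := by
    rw [hα₁, map_mul, mul_assoc]
  rw [e]
  refine ⟨good_conj h1 _, fun u => ?_⟩
  rw [MulAut.mul_apply, MulAut.conj_apply, hα0 u, ht u, conj_formula]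
  apply D.ext
  · simp
  · simp
  · simp only
    group

theorem nice_inv {z : Ray} {α : MulAut D} (h : Nice z α) : Nice z α⁻¹ := by
  refine ⟨good_inv h.good, fun t => ?_⟩
  have h1 := congrArg (fun d => α⁻¹ d) (h.fixT t)
  simp only [MulAut.inv_apply_self] at h1
  exact h1.symm

theorem mk_mul (x y x' y' : ↥M) : (⟨x, y, 1⟩ : D) * ⟨x', y', 1⟩ = ⟨x + x', y + y', 1⟩ := by
  apply D.ext
  · simp
  · simp
  · simp

theorem mk_mul_T (x y : ↥M) (t : ↥T) : (⟨x, y, 1⟩ : D) * ⟨0, 0, t⟩ = ⟨x, y, t⟩ := by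
  apply D.ext
  · simp
  · simp
  · simp

theorem mk_smul (x y : ↥M) (t : ↥T) :
    (⟨t • x, t • y, 1⟩ : D) = ⟨0, 0, t⟩ * ⟨x, y, 1⟩ * ⟨0, 0, t⟩⁻¹ := by
  rw [conj_formula]
  apply D.ext
  · simp
  · simp
  · simp

theorem Nice.ker (hB : B_trans) {z : Ray} {α : MulAut D} (h : Nice z α) (x y : ↥M) :
    (α ⟨x, y, 1⟩).t = 1 := (ker_iff hB h.good ⟨x, y, 1⟩).1 rfl

theorem Nice.add (hB : B_trans) {z : Ray} {α : MulAut D} (h : Nice z α) (x y x' y' : ↥M) :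
    (α ⟨x + x', y + y', 1⟩).x = (α ⟨x, y, 1⟩).x + (α ⟨x', y', 1⟩).x ∧
    (α ⟨x + x', y + y', 1⟩).y = (α ⟨x, y, 1⟩).y + (α ⟨x', y', 1⟩).y := by
  rw [← mk_mul, map_mul, D_mul_x, D_mul_y, h.ker hB, one_smul, one_smul]
  exact ⟨rfl, rfl⟩

theorem Nice.smul {z : Ray} {α : MulAut D} (h : Nice z α) (x y : ↥M) (t : ↥T) :
    (α ⟨t • x, t • y, 1⟩).x = t • (α ⟨x, y, 1⟩).x ∧
    (α ⟨t • x, t • y, 1⟩).y = t • (α ⟨x, y, 1⟩).y := by
  have h1 : α ⟨t • x, t • y, 1⟩ = ⟨0, 0, t⟩ * α ⟨x, y, 1⟩ * ⟨0, 0, t⟩⁻¹ := by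
    rw [mk_smul, map_mul, map_mul, map_inv, h.fixT]
  rw [h1, conj_formula]
  simp

/-- an additive `T`-map from its properties -/
theorem seq_of (hE : C_end) (f : ↥M → ↥M) (hadd : ∀ x y, f (x + y) = f x + f y)
    (hs : ∀ (t : ↥T) (x : ↥M), f (t • x) = t • f x) :
    ∃ l : (n : ℕ) → ZMod (p n), ∀ (x : ↥M) (n : ℕ) (z : Ray), (f x : V) n z = l n * (x : V) n z :=
  hE (AddMonoidHom.mk' f hadd) hs

theorem Nice.coords (hB : B_trans) (hE : C_end) {z : Ray} {α : MulAut D} (h : Nice z α) :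
    ∃ a b c d : (n : ℕ) → ZMod (p n), ∀ (x y : ↥M) (n : ℕ) (w : Ray),
      ((α ⟨x, y, 1⟩).x : V) n w = a n * (x : V) n w + b n * (y : V) n w ∧
      ((α ⟨x, y, 1⟩).y : V) n w = c n * (x : V) n w + d n * (y : V) n w := by
  obtain ⟨a, ha⟩ := seq_of hE (fun x => (α ⟨x, 0, 1⟩).x)
    (fun x y => by
      have := (h.add hB x 0 y 0).1
      rwa [add_zero] at this)
    (fun t x => by
      have := (h.smul x 0 t).1
      rwa [smul_zero] at this)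
  obtain ⟨b, hb⟩ := seq_of hE (fun y => (α ⟨0, y, 1⟩).x)
    (fun x y => by
      have := (h.add hB 0 x 0 y).1
      rwa [add_zero] at this)
    (fun t x => by
      have := (h.smul 0 x t).1
      rwa [smul_zero] at this)
  obtain ⟨c, hc⟩ := seq_of hE (fun x => (α ⟨x, 0, 1⟩).y)
    (fun x y => by
      have := (h.add hB x 0 y 0).2
      rwa [add_zero] at this)
    (fun t x => by
      have := (h.smul x 0 t).2
      rwa [smul_zero] at this)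
  obtain ⟨d, hd⟩ := seq_of hE (fun y => (α ⟨0, y, 1⟩).y)
    (fun x y => by
      have := (h.add hB 0 x 0 y).2
      rwa [add_zero] at this)
    (fun t x => by
      have := (h.smul 0 x t).2
      rwa [smul_zero] at this)
  refine ⟨a, b, c, d, fun x y n w => ?_⟩
  have h1 := h.add hB x 0 0 y
  rw [add_zero, zero_add] at h1
  rw [h1.1, h1.2, AddSubgroup.coe_add, AddSubgroup.coe_add, V_add_apply, V_add_apply]
  exact ⟨by rw [ha, hb], by rw [hc, hd]⟩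

/-- thinness gives strong restrictions on the coefficients -/
theorem Nice.thin (hB : B_trans) (hT : C_thin) {z : Ray} {α : MulAut D} (h : Nice z α)
    (a b c d : (n : ℕ) → ZMod (p n))
    (hc : ∀ (x y : ↥M) (n : ℕ) (w : Ray),
      ((α ⟨x, y, 1⟩).x : V) n w = a n * (x : V) n w + b n * (y : V) n w ∧
      ((α ⟨x, y, 1⟩).y : V) n w = c n * (x : V) n w + d n * (y : V) n w) :
    ((∀ n, 1 ≤ n → b n = 0) ∧
      ((∀ n, 1 ≤ n → a n ≠ 0) → ∃ c : ℤ, ∀ n, 1 ≤ n → a n = (c : ZMod (p n)))) ∧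
    ((∀ n, 1 ≤ n → c n = 0) ∧
      ((∀ n, 1 ≤ n → d n ≠ 0) → ∃ c : ℤ, ∀ n, 1 ≤ n → d n = (c : ZMod (p n)))) := by
  constructor
  · obtain ⟨g, hg⟩ := h.good 2
    refine hT a b g.t fun x hx y hy => ?_
    have h1 := (hg ⟨⟨x, Lam_le hx⟩, ⟨y, hy⟩, 1⟩).1 ⟨hx, T3.one_mem⟩
    have h2 := conj_formula g⁻¹ (α ⟨⟨x, Lam_le hx⟩, ⟨y, hy⟩, 1⟩)
    rw [inv_inv, h.ker hB] at h2
    rw [h2, mem_L2] at h1
    simp only [D_inv_t, mul_one, inv_inv, inv_mul_cancel, one_smul, add_sub_cancel_left] at h1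
    refine ⟨_, h1.1, fun n w => ?_⟩
    have h3 := (hc ⟨x, Lam_le hx⟩ ⟨y, hy⟩ n w).1
    rw [← h3]
    have h4 : (g.t : Equiv.Perm Ray) • ((g.t⁻¹ • (α ⟨⟨x, Lam_le hx⟩, ⟨y, hy⟩, 1⟩).x : ↥M) : V) =
        ((α ⟨⟨x, Lam_le hx⟩, ⟨y, hy⟩, 1⟩).x : V) :=
      congrArg (fun m : ↥M => (m : V)) (smul_inv_smul g.t (α ⟨⟨x, Lam_le hx⟩, ⟨y, hy⟩, 1⟩).x)
    rw [h4]
  · obtain ⟨g, hg⟩ := h.good 3
    refine hT d c g.t fun y hy x hx => ?_
    have h1 := (hg ⟨⟨x, hx⟩, ⟨y, Lam_le hy⟩, 1⟩).1 ⟨hy, T3.one_mem⟩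
    have h2 := conj_formula g⁻¹ (α ⟨⟨x, hx⟩, ⟨y, Lam_le hy⟩, 1⟩)
    rw [inv_inv, h.ker hB] at h2
    rw [h2, mem_L3] at h1
    simp only [D_inv_t, mul_one, inv_inv, inv_mul_cancel, one_smul, add_sub_cancel_left] at h1
    refine ⟨_, h1.1, fun n w => ?_⟩
    have h3 := (hc ⟨x, hx⟩ ⟨y, Lam_le hy⟩ n w).2
    rw [add_comm, ← h3]
    have h4 : (g.t : Equiv.Perm Ray) • ((g.t⁻¹ • (α ⟨⟨x, hx⟩, ⟨y, Lam_le hy⟩, 1⟩).y : ↥M) : V) =
        ((α ⟨⟨x, hx⟩, ⟨y, Lam_le hy⟩, 1⟩).y : V) :=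
      congrArg (fun m : ↥M => (m : V)) (smul_inv_smul g.t (α ⟨⟨x, hx⟩, ⟨y, Lam_le hy⟩, 1⟩).y)
    rw [h4]

theorem one_ne (n : ℕ) : (1 : ZMod (p n)) ≠ 0 := by
  have : Fact (1 < p n) := ⟨(p_prime n).one_lt⟩
  exact one_ne_zero

/-- a vector with a nonzero entry at level `n` -/
theorem exists_vec (hM : C_Mn_le) (n : ℕ) : ∃ (x : ↥M) (w : Ray), (x : V) n w = 1 := by
  have h1 : blk n (fun _ => 0) (fun y => (if y = 0 then 1 else 0) - (if y = 1 then 1 else 0)) ∈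
      M := by
    refine hM n (AddSubgroup.subset_closure ⟨_, _, ?_, rfl⟩)
    rw [Finset.sum_sub_distrib, Finset.sum_ite_eq', Finset.sum_ite_eq']
    simp
  refine ⟨⟨_, h1⟩, fun _ => 0, ?_⟩
  simp [blk]

theorem p_gt (n : ℕ) : n < p n := by
  induction n with
  | zero => exact (p_prime 0).pos
  | succ m ih => exact lt_of_le_of_lt ih (p_strictMono (Nat.lt_succ_self m))

theorem int_pm {c c' : ℤ} (h : ∀ n, 1 ≤ n → (c : ZMod (p n)) * (c' : ZMod (p n)) = 1) :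
    c = 1 ∨ c = -1 := by
  have h1 : c * c' - 1 = 0 := by
    set N := (c * c' - 1).natAbs + 1 with hN
    have h2 := h N (by omega)
    have h3 : ((c * c' - 1 : ℤ) : ZMod (p N)) = 0 := by
      push_cast
      rw [h2, sub_self]
    rw [ZMod.intCast_zmod_eq_zero_iff_dvd] at h3
    refine Int.eq_zero_of_abs_lt_dvd h3 ?_
    have h4 : (c * c' - 1).natAbs < p N := (Nat.lt_succ_self _).trans (p_gt N)
    rw [Int.abs_eq_natAbs]
    exact_mod_cast h4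
  have h5 : IsUnit c := IsUnit.of_mul_eq_one c' (by linarith)
  exact Int.isUnit_iff.1 h5

/-- sequences of signs with a free first entry -/
noncomputable def sq (a0 : ZMod (p 0)) (s : ℤ) : (n : ℕ) → ZMod (p n)
  | 0 => a0
  | n + 1 => (s : ZMod (p (n + 1)))

theorem sq_of {a : (n : ℕ) → ZMod (p n)} {s : ℤ} (h : ∀ n, 1 ≤ n → a n = (s : ZMod (p n))) :
    a = sq (a 0) s := by
  funext n
  cases n with
  | zero => rfl
  | succ n => exact h (n + 1) (by omega)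

/-- normal forms -/
def NF (q : (ZMod (p 0) × ZMod (p 0) × ZMod (p 0) × ZMod (p 0)) × (Bool × Bool)) :
    Set (MulAut D) :=
  {e | (∀ t : ↥T, e ⟨0, 0, t⟩ = ⟨0, 0, t⟩) ∧ ∀ (x y : ↥M), (e ⟨x, y, 1⟩).t = 1 ∧
    ∀ (n : ℕ) (w : Ray),
      ((e ⟨x, y, 1⟩).x : V) n w =
        sq q.1.1 (if q.2.1 then 1 else -1) n * (x : V) n w + sq q.1.2.1 0 n * (y : V) n w ∧
      ((e ⟨x, y, 1⟩).y : V) n w =
        sq q.1.2.2.1 0 n * (x : V) n w + sq q.1.2.2.2 (if q.2.2 then 1 else -1) n * (y : V) n w}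

theorem NF_sub (q : (ZMod (p 0) × ZMod (p 0) × ZMod (p 0) × ZMod (p 0)) × (Bool × Bool)) :
    (NF q).Subsingleton := by
  rintro e ⟨h1, h2⟩ e' ⟨h1', h2'⟩
  apply MulEquiv.ext
  rintro ⟨x, y, t⟩
  rw [← mk_mul_T, map_mul, map_mul, h1, h1']
  congr 1
  have k := h2 x y
  have k' := h2' x y
  apply D.ext
  · apply Subtype.ext
    apply V_ext
    intro n w
    rw [(k.2 n w).1, (k'.2 n w).1]
  · apply Subtype.ext
    apply V_ext
    intro n w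
    rw [(k.2 n w).2, (k'.2 n w).2]
  · rw [k.1, k'.1]

theorem sign_of {a : (n : ℕ) → ZMod (p n)} {s : ℤ} (hs : s = 1 ∨ s = -1)
    (h : ∀ n, 1 ≤ n → a n = (s : ZMod (p n))) :
    ∃ b : Bool, a = sq (a 0) (if b then 1 else -1) := by
  rcases hs with rfl | rfl
  · exact ⟨true, by simpa using sq_of h⟩
  · exact ⟨false, by simpa using sq_of h⟩

theorem Nice.nf (hB : B_trans) (hE : C_end) (hM : C_Mn_le) (hT : C_thin) {z : Ray} {α : MulAut D}
    (h : Nice z α) : ∃ q, α ∈ NF q := by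
  obtain ⟨a, b, c, d, hc⟩ := h.coords hB hE
  obtain ⟨a', b', c', d', hc'⟩ := (nice_inv h).coords hB hE
  obtain ⟨⟨hb, ha⟩, ⟨hcc, hd⟩⟩ := h.thin hB hT a b c d hc
  obtain ⟨⟨hb', ha'⟩, ⟨hcc', hd'⟩⟩ := (nice_inv h).thin hB hT a' b' c' d' hc'
  have hinv : ∀ x y : ↥M, α ⟨(α⁻¹ ⟨x, y, 1⟩).x, (α⁻¹ ⟨x, y, 1⟩).y, 1⟩ = ⟨x, y, 1⟩ := by
    intro x y
    have e : (⟨(α⁻¹ ⟨x, y, 1⟩).x, (α⁻¹ ⟨x, y, 1⟩).y, 1⟩ : D) = α⁻¹ ⟨x, y, 1⟩ :=
      D.ext rfl rfl ((nice_inv h).ker hB x y).symm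
    rw [e, MulAut.apply_inv_self]
  have haa : ∀ n, 1 ≤ n → a n * a' n = 1 := by
    intro n hn
    obtain ⟨x, w, hx⟩ := exists_vec hM n
    have h1 := (hc (α⁻¹ ⟨x, 0, 1⟩).x (α⁻¹ ⟨x, 0, 1⟩).y n w).1
    rw [hinv, (hc' x 0 n w).1, hb n hn, hx] at h1
    simp only [AddSubgroup.coe_zero, V_zero_apply, mul_one, mul_zero, add_zero, zero_mul] at h1
    exact h1.symm
  have hdd : ∀ n, 1 ≤ n → d n * d' n = 1 := by
    intro n hn
    obtain ⟨y, w, hy⟩ := exists_vec hM n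
    have h1 := (hc (α⁻¹ ⟨0, y, 1⟩).x (α⁻¹ ⟨0, y, 1⟩).y n w).2
    rw [hinv, (hc' 0 y n w).2, hcc n hn, hy] at h1
    simp only [AddSubgroup.coe_zero, V_zero_apply, mul_one, mul_zero, zero_add, zero_mul] at h1
    exact h1.symm
  have hne : ∀ (u v : (n : ℕ) → ZMod (p n)), (∀ n, 1 ≤ n → u n * v n = 1) →
      (∀ n, 1 ≤ n → u n ≠ 0) ∧ (∀ n, 1 ≤ n → v n ≠ 0) := by
    intro u v huv
    refine ⟨fun n hn h0 => ?_, fun n hn h0 => ?_⟩
    · have := huv n hn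
      rw [h0, zero_mul] at this
      exact one_ne n this.symm
    · have := huv n hn
      rw [h0, mul_zero] at this
      exact one_ne n this.symm
  obtain ⟨s, hs⟩ := ha (hne a a' haa).1
  obtain ⟨s', hs'⟩ := ha' (hne a a' haa).2
  obtain ⟨r, hr⟩ := hd (hne d d' hdd).1
  obtain ⟨r', hr'⟩ := hd' (hne d d' hdd).2
  have hspm : s = 1 ∨ s = -1 := int_pm (c' := s') fun n hn => by
    rw [← hs n hn, ← hs' n hn]; exact haa n hn
  have hrpm : r = 1 ∨ r = -1 := int_pm (c' := r') fun n hn => by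
    rw [← hr n hn, ← hr' n hn]; exact hdd n hn
  obtain ⟨sb, hsb⟩ := sign_of hspm hs
  obtain ⟨rb, hrb⟩ := sign_of hrpm hr
  have hbq : b = sq (b 0) 0 := sq_of fun n hn => by rw [hb n hn, Int.cast_zero]
  have hcq : c = sq (c 0) 0 := sq_of fun n hn => by rw [hcc n hn, Int.cast_zero]
  refine ⟨((a 0, b 0, c 0, d 0), (sb, rb)), h.fixT, fun x y => ⟨h.ker hB x y, fun n w => ?_⟩⟩
  simp only
  rw [← hsb, ← hrb, ← hbq, ← hcq]
  exact hc x y n w

end TD2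

theorem d_aut (hB : B_trans) (hM : C_Mn_le) (hE : C_end) (hT : C_thin) : D_aut := by
  intro z hz
  refine ⟨⋃ q, TD2.NF q, Set.finite_iUnion fun q => (TD2.NF_sub q).finite, fun α hα => ?_⟩
  obtain ⟨k, hk⟩ := TD2.exists_nice hz (TD2.good_of hα)
  obtain ⟨q, hq⟩ := hk.nf hB hE hM hT
  refine ⟨_, Set.mem_iUnion.2 ⟨q, hq⟩, k⁻¹, ?_⟩
  rw [← mul_assoc, ← map_mul, inv_mul_cancel, map_one, one_mul]

end Pool.Agent.Helper106.CG
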