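import Mathlib

/-!
# Characteristic versus normal subgroup growth (MP_216434_al): definitions

The Fano group `S` acting on `Y = Fin 7`, the tree group `T` acting on rays `ℕ → Y`, the branch module `M`
(a `T`-submodule of `∏ n, (Ray → ZMod (p n))`), the group `D = (M × M) ⋊ T` and its four marked subgroups.
-/

namespace Pool.Agent.Helper106.CG

/-! ## The Fano group -/

abbrev Y := Fin 7

/-- The third point on the line through `i` and `j`; the lines are `{i, i+1, i+3}` (and `star i i = i`). -/
def star (i j : Y) : Y := i + ![0, 3, 6, 1, 5, 4, 2] (j - i)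

/-- The automorphism group of the Fano plane. -/
def S : Subgroup (Equiv.Perm Y) where
  carrier := {σ | ∀ i j, σ (star i j) = star (σ i) (σ j)}
  mul_mem' := by
    intro a b ha hb i j
    rw [Equiv.Perm.mul_apply, Equiv.Perm.mul_apply, Equiv.Perm.mul_apply, hb i j, ha]
  one_mem' := by intro i j; rfl
  inv_mem' := by
    intro a ha i j
    rw [Equiv.Perm.inv_eq_iff_eq, ha]
    simp

/-! ## Rays and the tree group -/

abbrev Ray := ℕ → Y

def cons (y : Y) (z : Ray) : Ray := fun n => Nat.casesOn n y (fun k => z k)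

def tail (z : Ray) : Ray := fun n => z (n + 1)

@[simp] theorem cons_zero (y : Y) (z : Ray) : cons y z 0 = y := rfl
@[simp] theorem cons_succ (y : Y) (z : Ray) (n : ℕ) : cons y z (n + 1) = z n := rfl
@[simp] theorem tail_apply (z : Ray) (n : ℕ) : tail z n = z (n + 1) := rfl
@[simp] theorem tail_cons (y : Y) (z : Ray) : tail (cons y z) = z := rfl
@[simp] theorem cons_tail (z : Ray) : cons (z 0) (tail z) = z := by
  funext n; cases n <;> rfl

theorem cons_ext {y y' : Y} {z z' : Ray} : cons y z = cons y' z' ↔ y = y' ∧ z = z' := by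
  constructor
  · intro h
    exact ⟨congrFun h 0, by rw [← tail_cons y z, h, tail_cons]⟩
  · rintro ⟨rfl, rfl⟩; rfl

/-- `inc g` acts below the letter `y` by `g y`. -/
def inc : (Y → Equiv.Perm Ray) →* Equiv.Perm Ray where
  toFun g :=
    { toFun := fun z => cons (z 0) (g (z 0) (tail z))
      invFun := fun z => cons (z 0) ((g (z 0)).symm (tail z))
      left_inv := by intro z; simp
      right_inv := by intro z; simp }
  map_one' := by ext1 z; simp
  map_mul' g h := by ext1 z; simp [Equiv.Perm.mul_apply]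

@[simp] theorem inc_apply (g : Y → Equiv.Perm Ray) (z : Ray) :
    inc g z = cons (z 0) (g (z 0) (tail z)) := rfl

/-- `rooted s` acts on the first letter. -/
def rooted : Equiv.Perm Y →* Equiv.Perm Ray where
  toFun s :=
    { toFun := fun z => cons (s (z 0)) (tail z)
      invFun := fun z => cons (s.symm (z 0)) (tail z)
      left_inv := by intro z; simp
      right_inv := by intro z; simp }
  map_one' := by ext1 z; simp
  map_mul' g h := by ext1 z; simp [Equiv.Perm.mul_apply]

@[simp] theorem rooted_apply (s : Equiv.Perm Y) (z : Ray) : rooted s z = cons (s (z 0)) (tail z) := rfl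

/-- `z` begins with `k` zeros followed by a one. -/
def Dir (k : ℕ) (z : Ray) : Prop := z k = 1 ∧ ∀ i < k, z i = 0

instance (k : ℕ) (z : Ray) : Decidable (Dir k z) := by unfold Dir; infer_instance

def dirFun (a : Y → Y) (z : Ray) : Ray :=
  fun n => Nat.casesOn n (z 0) (fun k => if Dir k z then a (z (k + 1)) else z (k + 1))

@[simp] theorem dirFun_zero (a : Y → Y) (z : Ray) : dirFun a z 0 = z 0 := rfl
@[simp] theorem dirFun_succ (a : Y → Y) (z : Ray) (k : ℕ) :
    dirFun a z (k + 1) = if Dir k z then a (z (k + 1)) else z (k + 1) := rfl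

theorem Dir.unique {j k : ℕ} {z : Ray} (hj : Dir j z) (hk : Dir k z) : j = k := by
  rcases lt_trichotomy j k with h | h | h
  · have := hk.2 j h; rw [hj.1] at this; exact absurd this (by decide)
  · exact h
  · have := hj.2 k h; rw [hk.1] at this; exact absurd this (by decide)

theorem dir_dirFun (a : Y → Y) (z : Ray) (k : ℕ) : Dir k (dirFun a z) ↔ Dir k z := by
  suffices H : ∀ (m : ℕ), (∃ k, Dir k z ∧ m = k + 1) ∨ dirFun a z m = z m by
    have agree : ∀ j, Dir j z → ∀ i ≤ j, dirFun a z i = z i := by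
      intro j hj i hi
      rcases H i with ⟨k', hk', rfl⟩ | h
      · have := Dir.unique hj hk'; omega
      · exact h
    by_cases hex : ∃ j, Dir j z
    · obtain ⟨j, hj⟩ := hex
      have hj' : Dir j (dirFun a z) := by
        refine ⟨by rw [agree j hj j le_rfl]; exact hj.1, fun i hi => ?_⟩
        rw [agree j hj i hi.le]; exact hj.2 i hi
      constructor
      · intro h; rw [Dir.unique h hj']; exact hj
      · intro h; rw [Dir.unique h hj]; exact hj'
    · have hall : ∀ m, dirFun a z m = z m := by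
        intro m
        rcases H m with ⟨k', hk', _⟩ | h
        · exact absurd ⟨k', hk'⟩ hex
        · exact h
      have : dirFun a z = z := funext hall
      rw [this]
  intro m
  cases m with
  | zero => right; rfl
  | succ k =>
    by_cases h : Dir k z
    · left; exact ⟨k, h, rfl⟩
    · right; simp [h]

theorem dirFun_comp (a b : Y → Y) (z : Ray) : dirFun a (dirFun b z) = dirFun (a ∘ b) z := by
  funext n
  cases n with
  | zero => rfl
  | succ k =>
    rw [dirFun_succ, dirFun_succ]
    by_cases h : Dir k z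
    · rw [if_pos ((dir_dirFun b z k).2 h), if_pos h, dirFun_succ, if_pos h]; rfl
    · rw [if_neg (fun h' => h ((dir_dirFun b z k).1 h')), if_neg h, dirFun_succ, if_neg h]

theorem dirFun_id (z : Ray) : dirFun id z = z := by
  funext n; cases n <;> simp

/-- `dir a`: if `z = 0^k 1 y ...` then `y` is replaced by `a y`. -/
def dir : Equiv.Perm Y →* Equiv.Perm Ray where
  toFun a :=
    { toFun := dirFun a
      invFun := dirFun a.symm
      left_inv := by intro z; rw [dirFun_comp]; simp [dirFun_id]
      right_inv := by intro z; rw [dirFun_comp]; simp [dirFun_id] }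
  map_one' := by ext1 z; exact dirFun_id z
  map_mul' g h := by ext1 z; exact (dirFun_comp g h z).symm

@[simp] theorem dir_apply (a : Equiv.Perm Y) (z : Ray) : dir a z = dirFun a z := rfl

/-- The tree group. -/
def T : Subgroup (Equiv.Perm Ray) := S.map rooted ⊔ S.map dir

/-- first `n` letters of `v`, then `z` -/
def app (n : ℕ) (v z : Ray) : Ray := fun i => if i < n then v i else z (i - n)

/-- `incAt n v t`: acts by `t` below the prefix of length `n` of `v`, trivially elsewhere. -/
def incAt : ℕ → Ray → Equiv.Perm Ray →* Equiv.Perm Ray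
  | 0, _ => MonoidHom.id _
  | (n + 1), v => inc.comp ((MonoidHom.mulSingle (fun _ : Y => Equiv.Perm Ray) (v 0)).comp (incAt n (tail v)))

/-- The level stabilisers in `T`. -/
def St (n : ℕ) : Subgroup ↥T where
  carrier := {t | ∀ z : Ray, ∀ i < n, (t : Equiv.Perm Ray) z i = z i}
  mul_mem' := by
    intro a b ha hb z i hi
    rw [Subgroup.coe_mul, Equiv.Perm.mul_apply, ha _ i hi, hb z i hi]
  one_mem' := by intro z i _; rfl
  inv_mem' := by
    intro a ha z i hi
    have := ha ((a : Equiv.Perm Ray)⁻¹ z) i hi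
    rw [show (a : Equiv.Perm Ray) ((a : Equiv.Perm Ray)⁻¹ z) = z from
      Equiv.apply_symm_apply (a : Equiv.Perm Ray) z] at this
    exact this.symm

/-! ## The primes -/

theorem exists_p (n : ℕ) : ∃ q : ℕ, q.Prime ∧ 2 ^ ((n + 4) ^ 2) < q ∧ q ≤ 2 ^ ((n + 4) ^ 2 + 1) := by
  obtain ⟨q, hq, h1, h2⟩ := Nat.exists_prime_lt_and_le_two_mul (2 ^ ((n + 4) ^ 2)) (by positivity)
  exact ⟨q, hq, h1, by rw [pow_succ]; omega⟩

noncomputable def p (n : ℕ) : ℕ := (exists_p n).choose

theorem p_prime (n : ℕ) : (p n).Prime := (exists_p n).choose_spec.1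
theorem p_lower (n : ℕ) : 2 ^ ((n + 4) ^ 2) < p n := (exists_p n).choose_spec.2.1
theorem p_upper (n : ℕ) : p n ≤ 2 ^ ((n + 4) ^ 2 + 1) := (exists_p n).choose_spec.2.2

instance (n : ℕ) : Fact (p n).Prime := ⟨p_prime n⟩

theorem p_strictMono : StrictMono p := by
  apply strictMono_nat_of_lt_succ
  intro n
  refine (p_upper n).trans_lt (lt_of_le_of_lt ?_ (p_lower (n + 1)))
  apply Nat.pow_le_pow_right (by norm_num)
  have : (n + 1 + 4) ^ 2 = (n + 4) ^ 2 + 2 * (n + 4) + 1 := by ring
  omega

theorem p_large (n : ℕ) : 5040 < p n := by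
  refine lt_of_lt_of_le ?_ (p_lower n).le
  calc 5040 < 2 ^ 16 := by norm_num
    _ ≤ 2 ^ ((n + 4) ^ 2) := Nat.pow_le_pow_right (by norm_num) (by
        calc 16 = 4 ^ 2 := by norm_num
          _ ≤ (n + 4) ^ 2 := Nat.pow_le_pow_left (by omega) 2)

/-! ## The module -/

noncomputable section

def V : Type := (n : ℕ) → Ray → ZMod (p n)

instance : AddCommGroup V := inferInstanceAs (AddCommGroup ((n : ℕ) → Ray → ZMod (p n)))

@[simp] theorem V_add_apply (x y : V) (n : ℕ) (z : Ray) : (x + y) n z = x n z + y n z := rfl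
@[simp] theorem V_zero_apply (n : ℕ) (z : Ray) : (0 : V) n z = 0 := rfl
@[simp] theorem V_neg_apply (x : V) (n : ℕ) (z : Ray) : (-x) n z = -(x n z) := rfl
@[simp] theorem V_sub_apply (x y : V) (n : ℕ) (z : Ray) : (x - y) n z = x n z - y n z := rfl
theorem V_ext {x y : V} (h : ∀ n z, x n z = y n z) : x = y := funext fun n => funext fun z => h n z

instance : DistribMulAction (Equiv.Perm Ray) V where
  smul g x := fun n z => x n (g⁻¹ z)
  one_smul x := rfl
  mul_smul g h x := by
    apply V_ext; intro n z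
    change x n ((g * h)⁻¹ z) = x n (h⁻¹ (g⁻¹ z))
    rw [mul_inv_rev, Equiv.Perm.mul_apply]
  smul_zero g := rfl
  smul_add g x y := rfl

@[simp] theorem V_smul_apply (g : Equiv.Perm Ray) (x : V) (n : ℕ) (z : Ray) : (g • x) n z = x n (g⁻¹ z) := rfl

/-- the part of `x` at level `n` -/
def prj (n : ℕ) (x : V) : V := (Pi.single n (x n) : (m : ℕ) → Ray → ZMod (p m))

/-- the function `u` on the block below the prefix of length `n` of `v`, at level `n` -/
def blk (n : ℕ) (v : Ray) (u : Y → ZMod (p n)) : V :=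
  (Pi.single n (fun z => if ∀ i < n, z i = v i then u (z n) else 0) : (m : ℕ) → Ray → ZMod (p m))

/-- the finite module at level `n` -/
def Mn (n : ℕ) : AddSubgroup V :=
  AddSubgroup.closure {x | ∃ (v : Ray) (u : Y → ZMod (p n)), ∑ y, u y = 0 ∧ x = blk n v u}

/-- the germ -/
def germ (w : Y → ℤ) : V :=
  fun n z => Nat.casesOn n 0 (fun k => if Dir k z then ((w (z (k + 1)) : ℤ) : ZMod (p (k + 1))) else 0)

@[simp] theorem germ_zero (w : Y → ℤ) (z : Ray) : germ w 0 z = 0 := rfl
@[simp] theorem germ_succ (w : Y → ℤ) (k : ℕ) (z : Ray) :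
    germ w (k + 1) z = if Dir k z then ((w (z (k + 1)) : ℤ) : ZMod (p (k + 1))) else 0 := rfl

/-- The branch module. -/
def M : AddSubgroup V :=
  AddSubgroup.closure ({x | ∃ t ∈ T, ∃ w : Y → ℤ, ∑ y, w y = 0 ∧ x = t • germ w} ∪ (Mn 0 : Set V))

/-- `x` restricted to the blocks below `0^k 1` is coherent: given by one integer vector. -/
def Coh (x : V) : Prop :=
  ∃ w : Y → ℤ, ∑ y, w y = 0 ∧ ∀ (k : ℕ) (z : Ray), Dir k z → x (k + 1) z = ((w (z (k + 1)) : ℤ) : ZMod (p (k + 1)))

/-- The thin subgroup `Λ` of `M`. -/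
def Lam : AddSubgroup V where
  carrier := {x | x ∈ M ∧ Coh x}
  add_mem' := by
    rintro x y ⟨hx, w, hw, h⟩ ⟨hy, w', hw', h'⟩
    refine ⟨M.add_mem hx hy, w + w', ?_, ?_⟩
    · simp [Finset.sum_add_distrib, hw, hw']
    · intro k z hz
      simp [h k z hz, h' k z hz]
  zero_mem' := ⟨M.zero_mem, 0, by simp, by intro k z _; simp⟩
  neg_mem' := by
    rintro x ⟨hx, w, hw, h⟩
    refine ⟨M.neg_mem hx, -w, ?_, ?_⟩
    · simp [hw]
    · intro k z hz
      simp [h k z hz]

end

end Pool.Agent.Helper106.CG
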