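import Pool.Agent.Helper106.CG.Stmts

/-!
# Task E1: `Gam L` is finitely generated; its characteristic subgroups of finite index
-/

set_option autoImplicit false

namespace Pool.Agent.Helper106.CG

namespace TE1

open Wr

section
variable {G : Type} [Group G] {J : Type} {L : J → Subgroup G}

/-- elements with trivial `G`-part -/
def el (f : Pt L → F) (hf : f ∈ B L) : Gam L := ⟨f, hf, 1⟩

/-- the copy of `G` -/
def iot : G →* Gam L where
  toFun d := ⟨1, (B L).one_mem, d⟩
  map_one' := rfl
  map_mul' a b := by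
    apply Gam.ext
    · funext x
      rw [Gam_mul_f]
      exact (mul_one _).symm
    · rfl

open Classical in
/-- one lamp -/
noncomputable def lampf (x : Pt L) (c : F) : Pt L → F := fun y => if y = x then c else 1

open Classical in
/-- constant functions on one of the orbits -/
noncomputable def cstf (j : J) (c : F) : Pt L → F := fun y => if y.1 = j then c else 1

theorem mem_B_of_finite {f : Pt L → F} (k : J → F) (h : ∀ j, {q : G ⧸ L j | f ⟨j, q⟩ ≠ k j}.Finite) :
    f ∈ B L := fun j => ⟨k j, h j⟩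

theorem lampf_fin (x : Pt L) (c : F) (j : J) : {q : G ⧸ L j | lampf x c ⟨j, q⟩ ≠ 1}.Finite := by
  by_cases h : x.1 = j
  · subst h
    apply (Set.finite_singleton x.2).subset
    intro q hq
    by_contra hne
    apply hq
    unfold lampf
    rw [if_neg]
    intro hx
    apply hne
    rw [Set.mem_singleton_iff]
    have := congrArg (fun y : Pt L => y) hx
    obtain ⟨x1, x2⟩ := x
    exact eq_of_heq (Sigma.mk.inj hx).2
  · convert Set.finite_empty
    ext q
    simp only [Set.mem_ofPred_eq, Set.mem_empty_iff_false, iff_false, not_not]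
    unfold lampf
    rw [if_neg]
    intro hx
    exact h (congrArg Sigma.fst hx).symm

theorem lampf_mem (x : Pt L) (c : F) : lampf x c ∈ B L :=
  mem_B_of_finite (fun _ => 1) (lampf_fin x c)

theorem cstf_mem (j : J) (c : F) : (cstf j c : Pt L → F) ∈ B L := by
  classical
  apply mem_B_of_finite (fun i => if i = j then c else 1)
  intro i
  convert Set.finite_empty
  ext q
  simp [cstf]

noncomputable def lamp (x : Pt L) (c : F) : Gam L := el (lampf x c) (lampf_mem x c)

noncomputable def cst (j : J) (c : F) : Gam L := el (cstf j c) (cstf_mem j c)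

/-- the main generation lemma -/
theorem gen [Fintype J] (H : Subgroup (Gam L)) (hl : ∀ x c, lamp x c ∈ H) (k : J → F)
    (hk : ∀ j, cst j (k j) ∈ H) (f : Pt L → F) (hf : f ∈ B L)
    (h : ∀ j, {q : G ⧸ L j | f ⟨j, q⟩ ≠ k j}.Finite) : el f hf ∈ H := by
  classical
  -- finitely supported functions
  have hfin : ∀ s : Finset (Pt L), ∀ g : Pt L → F, (hg : g ∈ B L) → (∀ x, x ∉ s → g x = 1) →
      el g hg ∈ H := by
    intro s
    induction s using Finset.induction_on with
    | empty =>
      intro g hg h1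
      have : el g hg = 1 := by
        apply Gam.ext
        · funext x
          exact h1 x (Finset.notMem_empty x)
        · rfl
      rw [this]
      exact H.one_mem
    | insert x s hx ih =>
      intro g hg h1
      set g' : Pt L → F := fun y => if y = x then 1 else g y with hg'
      have hg'm : g' ∈ B L := by
        have e : g' = g * (lampf x (g x)⁻¹) := by
          funext y
          simp only [hg', Pi.mul_apply, lampf]
          by_cases hy : y = x
          · subst hy
            simp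
          · simp [hy]
        rw [e]
        exact (B L).mul_mem hg (lampf_mem _ _)
      have e : el g hg = el g' hg'm * lamp x (g x) := by
        apply Gam.ext
        · funext y
          rw [Gam_mul_f]
          change g y = g' y * lampf x (g x) ((1 : G)⁻¹ • y)
          rw [inv_one, one_smul]
          simp only [hg', lampf]
          by_cases hy : y = x
          · subst hy
            simp
          · simp [hy]
        · exact (one_mul (1:G)).symm
      rw [e]
      apply H.mul_mem _ (hl _ _)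
      apply ih
      intro y hy
      by_cases hyx : y = x
      · simp [hg', hyx]
      · simp only [hg', if_neg hyx]
        apply h1
        intro hmem
        rcases Finset.mem_insert.mp hmem with h2 | h2
        · exact hyx h2
        · exact hy h2
  -- the family of constants
  have hcm : ∀ s : Finset J, (fun y : Pt L => if y.1 ∈ s then k y.1 else 1) ∈ B L := by
    intro s
    apply mem_B_of_finite (fun i => if i ∈ s then k i else 1)
    intro i
    convert Set.finite_empty
    ext q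
    simp
  have hc : ∀ s : Finset J, el _ (hcm s) ∈ H := by
    intro s
    induction s using Finset.induction_on with
    | empty =>
      have : el _ (hcm ∅) = (1 : Gam L) := by
        apply Gam.ext
        · funext x
          change (if x.1 ∈ (∅ : Finset J) then k x.1 else 1) = 1
          simp
        · rfl
      rw [this]
      exact H.one_mem
    | insert j s hj ih =>
      have e : el _ (hcm (insert j s)) = cst j (k j) * el _ (hcm s) := by
        apply Gam.ext
        · funext y
          rw [Gam_mul_f]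
          change (if y.1 ∈ insert j s then k y.1 else 1) =
            cstf j (k j) y * (if ((1 : G)⁻¹ • y).1 ∈ s then k ((1 : G)⁻¹ • y).1 else 1)
          rw [inv_one, one_smul]
          simp only [cstf]
          by_cases hy : y.1 = j
          · rw [if_pos hy, if_pos (by rw [hy]; exact Finset.mem_insert_self _ _),
              if_neg (by rw [hy]; exact hj), hy, mul_one]
          · rw [if_neg hy, one_mul]
            congr 1
            rw [eq_iff_iff, Finset.mem_insert]
            constructor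
            · rintro (h2 | h2)
              · exact absurd h2 hy
              · exact h2
            · exact Or.inr
        · exact (one_mul (1:G)).symm
      rw [e]
      exact H.mul_mem (hk j) ih
  -- conclusion
  set r : Pt L → F := fun y => (k y.1)⁻¹ * f y with hr
  have hrfin : {x : Pt L | r x ≠ 1}.Finite := by
    have : {x : Pt L | r x ≠ 1} ⊆ ⋃ j, (fun q => (⟨j, q⟩ : Pt L)) '' {q : G ⧸ L j | f ⟨j, q⟩ ≠ k j} := by
      rintro ⟨j, q⟩ hx
      refine Set.mem_iUnion.mpr ⟨j, q, ?_, rfl⟩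
      intro h2
      apply hx
      simp only [hr]
      rw [h2, inv_mul_cancel]
    exact (Set.finite_iUnion fun j => (h j).image _).subset this
  have hrm : r ∈ B L := by
    have e : r = (fun y : Pt L => if y.1 ∈ (Finset.univ : Finset J) then k y.1 else 1)⁻¹ * f := by
      funext y
      simp [hr]
    rw [e]
    exact (B L).mul_mem ((B L).inv_mem (hcm _)) hf
  have e : el f hf = el _ (hcm Finset.univ) * el r hrm := by
    apply Gam.ext
    · funext y
      rw [Gam_mul_f]
      change f y = (if y.1 ∈ (Finset.univ : Finset J) then k y.1 else 1) * r ((1 : G)⁻¹ • y)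
      rw [inv_one, one_smul, if_pos (Finset.mem_univ _)]
      simp [hr]
    · exact (one_mul (1:G)).symm
  rw [e]
  apply H.mul_mem (hc _)
  apply hfin hrfin.toFinset
  intro x hx
  by_contra h2
  exact hx (hrfin.mem_toFinset.mpr h2)

theorem conj_lamp (g : Gam L) (x : Pt L) (c : F) :
    g * lamp x c * g⁻¹ = lamp (g.d • x) (g.f (g.d • x) * c * (g.f (g.d • x))⁻¹) := by
  classical
  apply Gam.ext
  · funext y
    rw [Gam_mul_f, Gam_mul_f, Gam_inv_f]
    change g.f y * lampf x c (g.d⁻¹ • y) * (g.f (g.d • (g.d * 1)⁻¹ • y))⁻¹ = lampf _ _ y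
    rw [mul_one, smul_inv_smul]
    unfold lampf
    by_cases hy : y = g.d • x
    · subst hy
      rw [inv_smul_smul, if_pos rfl, if_pos rfl]
    · rw [if_neg hy, if_neg, mul_one, mul_inv_cancel]
      intro h2
      apply hy
      rw [← h2, smul_inv_smul]
  · change g.d * 1 * g.d⁻¹ = 1
    group

theorem lamp_mul (x : Pt L) (c c' : F) : (lamp x c : Gam L) * lamp x c' = lamp x (c * c') := by
  classical
  apply Gam.ext
  · funext y
    rw [Gam_mul_f]
    change lampf x c y * lampf x c' ((1 : G)⁻¹ • y) = lampf x (c * c') y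
    rw [inv_one, one_smul]
    unfold lampf
    split_ifs <;> simp
  · exact one_mul (1:G)

theorem cst_mul (j : J) (c c' : F) : (cst j c : Gam L) * cst j c' = cst j (c * c') := by
  classical
  apply Gam.ext
  · funext y
    rw [Gam_mul_f]
    change cstf j c y * cstf j c' ((1 : G)⁻¹ • y) = cstf j (c * c') y
    rw [inv_one, one_smul]
    unfold cstf
    split_ifs <;> simp
  · exact one_mul (1:G)

/-- lamps as a homomorphism -/
noncomputable def lampHom (x : Pt L) : F →* Gam L := MonoidHom.mk' (lamp x) fun c c' =>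
  (lamp_mul x c c').symm

noncomputable def cstHom (j : J) : F →* Gam L := MonoidHom.mk' (cst j) fun c c' =>
  (cst_mul j c c').symm

theorem isSimple_five : IsSimpleGroup F := by
  apply alternatingGroup.isSimpleGroup
  simp

theorem eq_top_of {K : Subgroup F} (hK : K.Normal) {c : F} (hc : c ∈ K) (hc1 : c ≠ 1) : K = ⊤ := by
  have := isSimple_five
  rcases hK.eq_bot_or_eq_top with h | h
  · exact absurd (by rwa [h, Subgroup.mem_bot] at hc) hc1
  · exact h

theorem exists_not_comm {c : F} (hc : c ≠ 1) : ∃ e : F, c * e ≠ e * c := by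
  by_contra h
  push Not at h
  have h1 : c ∈ Subgroup.center F := Subgroup.mem_center_iff.mpr fun g => (h g).symm
  have := isSimple_five
  have h2 : Subgroup.center F = ⊤ := eq_top_of inferInstance h1 hc
  have h3 : ∀ a b : F, a * b = b * a := by
    intro a b
    have := Subgroup.mem_center_iff.mp (h2 ▸ Subgroup.mem_top b : b ∈ Subgroup.center F) a
    exact this
  revert h3
  decide +kernel
theorem cstf_smul (j : J) (c : F) (g : G) (x : Pt L) : cstf j c (g • x) = cstf j c x := rfl

/-- a normal subgroup of finite index contains all lamps -/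
theorem lamp_mem_of_index {N : Subgroup (Gam L)} (hN : N.Normal) (hi : N.index ≠ 0)
    (hL : ∀ j, (L j).index = 0) (x : Pt L) (c : F) : lamp x c ∈ N := by
  classical
  obtain ⟨j, q⟩ := x
  have hinf : Infinite (G ⧸ L j) := by
    rw [← not_finite_iff_infinite]
    intro hfin
    exact Subgroup.index_ne_zero_of_finite (hL j)
  have hfinN : Finite (Gam L ⧸ N) := by
    have := Subgroup.fintypeOfIndexNeZero hi
    infer_instance
  -- a nontrivial lamp
  have h1 : ∃ q' : G ⧸ L j, ∃ e : F, e ≠ 1 ∧ lamp ⟨j, q'⟩ e ∈ N := by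
    obtain ⟨c0, hc0⟩ : ∃ c0 : F, c0 ≠ 1 := by
      have := isSimple_five
      obtain ⟨a, b, hab⟩ := exists_pair_ne F
      by_cases ha : a = 1
      · exact ⟨b, fun hb => hab (by rw [ha, hb])⟩
      · exact ⟨a, ha⟩
    obtain ⟨e0, he0⟩ := exists_not_comm hc0
    obtain ⟨q1, q2, hne, heq⟩ := Finite.exists_ne_map_eq_of_infinite
      (fun q' : G ⧸ L j => (QuotientGroup.mk (lamp ⟨j, q'⟩ c0) : Gam L ⧸ N))
    have h2 : (lamp ⟨j, q2⟩ c0)⁻¹ * lamp ⟨j, q1⟩ c0 ∈ N := by
      have := QuotientGroup.eq.mp heq.symm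
      exact this
    refine ⟨q1, c0 * e0 * c0⁻¹ * e0⁻¹, ?_, ?_⟩
    · intro h3
      apply he0
      have h4 : c0 * e0 * c0⁻¹ = e0 := by rwa [mul_inv_eq_one] at h3
      rwa [mul_inv_eq_iff_eq_mul] at h4
    · set u := (lamp ⟨j, q2⟩ c0)⁻¹ * lamp ⟨j, q1⟩ c0 with hu
      have h5 : u * (lamp ⟨j, q1⟩ e0 * u⁻¹ * (lamp ⟨j, q1⟩ e0)⁻¹) ∈ N :=
        N.mul_mem h2 (hN.conj_mem _ (N.inv_mem h2) _)
      have e : u * (lamp ⟨j, q1⟩ e0 * u⁻¹ * (lamp ⟨j, q1⟩ e0)⁻¹) =
          lamp ⟨j, q1⟩ (c0 * e0 * c0⁻¹ * e0⁻¹) := by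
        have h6 : u * (lamp ⟨j, q1⟩ e0 * u⁻¹ * (lamp ⟨j, q1⟩ e0)⁻¹) =
            (u * lamp ⟨j, q1⟩ e0 * u⁻¹) * (lamp ⟨j, q1⟩ e0)⁻¹ := by group
        rw [h6, conj_lamp]
        have hud : u.d = 1 := by
          change (1:G)⁻¹ * 1 = 1
          simp
        have huf : u.f ⟨j, q1⟩ = c0 := by
          rw [hu, Gam_mul_f, Gam_inv_f]
          change (lampf ⟨j, q2⟩ c0 ((1:G) • (⟨j, q1⟩ : Pt L)))⁻¹ *
            lampf ⟨j, q1⟩ c0 (((1:G)⁻¹)⁻¹ • (⟨j, q1⟩ : Pt L)) = c0
          rw [inv_inv, one_smul]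
          unfold lampf
          rw [if_neg, if_pos rfl, inv_one, one_mul]
          intro h7
          exact hne (eq_of_heq (Sigma.mk.inj h7).2)
        rw [hud, one_smul, huf]
        have h8 : (lamp (⟨j, q1⟩ : Pt L) e0)⁻¹ = lamp ⟨j, q1⟩ e0⁻¹ :=
          ((lampHom (L := L) ⟨j, q1⟩).map_inv e0).symm
        rw [h8, lamp_mul]
      rw [e] at h5
      exact h5
  obtain ⟨q', e, he1, he⟩ := h1
  -- all lamps at `q'`
  have h2 : N.comap (lampHom ⟨j, q'⟩) = ⊤ := by
    have he' : e ∈ N.comap (lampHom (L := L) ⟨j, q'⟩) := he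
    exact eq_top_of (hN.comap _) he' he1
  -- move
  obtain ⟨g, hg⟩ := MulAction.exists_smul_eq G q' q
  have h3 : lamp ⟨j, q'⟩ c ∈ N := by
    have : c ∈ N.comap (lampHom ⟨j, q'⟩) := by rw [h2]; trivial
    exact this
  have h4 := hN.conj_mem _ h3 (iot g)
  rw [conj_lamp] at h4
  have e1 : (iot (L := L) g).d • (⟨j, q'⟩ : Pt L) = ⟨j, q⟩ := by
    rw [← hg]
    rfl
  rw [e1] at h4
  have e2 : (iot (L := L) g).f = 1 := rfl
  rw [e2] at h4
  simpa using h4

/-- the constants contained in `N` -/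
def Jset (N : Subgroup (Gam L)) : Set J := {j | ∀ c : F, cst j c ∈ N}

theorem mem_iff [Fintype J] {N : Subgroup (Gam L)} (hN : N.Normal) (hi : N.index ≠ 0)
    (hL : ∀ j, (L j).index = 0) (a : Gam L) :
    a ∈ N ↔ a.d ∈ N.map pi ∧ ∀ j, j ∉ Jset N → {q : G ⧸ L j | a.f ⟨j, q⟩ ≠ 1}.Finite := by
  classical
  have hlamp := fun x c => lamp_mem_of_index hN hi hL x c
  have hone : ∀ j : J, (cst j 1 : Gam L) ∈ N := by
    intro j
    have : (cst j 1 : Gam L) = 1 := (cstHom (L := L) j).map_one
    rw [this]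
    exact N.one_mem
  have hfwd : ∀ a ∈ N, ∀ j, j ∉ Jset N → {q : G ⧸ L j | a.f ⟨j, q⟩ ≠ 1}.Finite := by
    intro a ha j hj
    by_contra hinf
    apply hj
    obtain ⟨c, hc⟩ := a.mem j
    have hc1 : c ≠ 1 := by
      rintro rfl
      exact hinf hc
    obtain ⟨e, he⟩ := exists_not_comm hc1
    -- the commutator
    have h1 : a * (cst j e * a⁻¹ * (cst j e)⁻¹) ∈ N :=
      N.mul_mem ha (hN.conj_mem _ (N.inv_mem ha) _)
    set m := a * (cst j e * a⁻¹ * (cst j e)⁻¹) with hm
    have hmd : m.d = 1 := by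
      change a.d * (1 * a.d⁻¹ * 1⁻¹) = 1
      group
    have hmf : ∀ x : Pt L, m.f x = a.f x * cstf j e x * (a.f x)⁻¹ * (cstf j e x)⁻¹ := by
      intro x
      rw [hm, Gam_mul_f, Gam_mul_f, Gam_mul_f, Gam_inv_f, Gam_inv_f]
      change a.f x * (cstf j e (a.d⁻¹ • x) * (a.f (a.d • (1:G)⁻¹ • a.d⁻¹ • x))⁻¹ *
        (cstf j e ((1:G) • (1 * a.d⁻¹)⁻¹ • a.d⁻¹ • x))⁻¹) = _
      rw [cstf_smul, cstf_smul, cstf_smul, cstf_smul, inv_one, one_smul, smul_inv_smul]
      group
    have h2 : ∀ i, {q : G ⧸ L i | m.f ⟨i, q⟩ ≠ (if i = j then c * e * c⁻¹ * e⁻¹ else 1)}.Finite := by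
      intro i
      by_cases hij : i = j
      · subst hij
        apply hc.subset
        intro q hq h3
        apply hq
        rw [if_pos rfl, hmf, h3]
        simp [cstf]
      · convert Set.finite_empty
        ext q
        simp [hmf, cstf, hij]
    -- the constant of the commutator
    have h3 : cst j (c * e * c⁻¹ * e⁻¹) ∈ N := by
      have hmN : el m.f m.mem ∈ N := by
        have : el m.f m.mem = m := by
          apply Gam.ext
          · rfl
          · exact hmd.symm
        rw [this]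
        exact h1
      have h4 : el (cstf j (c * e * c⁻¹ * e⁻¹) * m.f⁻¹)
          ((B L).mul_mem (cstf_mem _ _) ((B L).inv_mem m.mem)) ∈ N := by
        apply gen N hlamp (fun _ => 1) hone
        intro i
        apply (h2 i).subset
        intro q hq h5
        apply hq
        rw [Pi.mul_apply, Pi.inv_apply, h5]
        by_cases hij : i = j
        · simp [cstf, hij]
        · simp [cstf, hij]
      have h6 := N.mul_mem h4 hmN
      have e2 : el (cstf j (c * e * c⁻¹ * e⁻¹) * m.f⁻¹)
          ((B L).mul_mem (cstf_mem _ _) ((B L).inv_mem m.mem)) * el m.f m.mem =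
          cst j (c * e * c⁻¹ * e⁻¹) := by
        apply Gam.ext
        · funext x
          rw [Gam_mul_f]
          change cstf j (c * e * c⁻¹ * e⁻¹) x * (m.f x)⁻¹ * m.f ((1:G)⁻¹ • x) = cstf j _ x
          rw [inv_one, one_smul, inv_mul_cancel_right]
        · exact one_mul (1:G)
      rw [e2] at h6
      exact h6
    have hne : c * e * c⁻¹ * e⁻¹ ≠ 1 := by
      intro h3
      apply he
      have h4 : c * e * c⁻¹ = e := by rwa [mul_inv_eq_one] at h3
      rwa [mul_inv_eq_iff_eq_mul] at h4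
    have h7 : N.comap (cstHom j) = ⊤ := eq_top_of (hN.comap _) (c := c * e * c⁻¹ * e⁻¹) h3 hne
    intro c'
    have : c' ∈ N.comap (cstHom j) := by rw [h7]; trivial
    exact this
  refine ⟨fun ha => ⟨⟨a, ha, rfl⟩, hfwd a ha⟩, ?_⟩
  rintro ⟨⟨b, hb, hbd⟩, hfin⟩
  have hbd : b.d = a.d := hbd
  obtain ⟨k, hk⟩ := Classical.axiomOfChoice (a * b⁻¹).mem
  have hd : (a * b⁻¹).d = 1 := by
    rw [Gam_mul_d, Gam_inv_d, hbd, mul_inv_cancel]
  have hf : ∀ x, (a * b⁻¹).f x = a.f x * (b.f x)⁻¹ := by
    intro x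
    rw [Gam_mul_f, Gam_inv_f, hbd, smul_inv_smul]
  have h1 : el (a * b⁻¹).f (a * b⁻¹).mem ∈ N := by
    apply gen N hlamp (fun j => if j ∈ Jset N then k j else 1)
    · intro j
      by_cases hj : j ∈ Jset N
      · rw [if_pos hj]
        exact hj _
      · rw [if_neg hj]
        exact hone j
    · intro j
      by_cases hj : j ∈ Jset N
      · rw [if_pos hj]
        exact hk j
      · rw [if_neg hj]
        apply ((hfin j hj).union (hfwd b hb j hj)).subset
        intro q hq
        by_contra h2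
        apply hq
        simp only [Set.mem_union, Set.mem_ofPred_eq, not_or, not_not] at h2
        rw [hf, h2.1, h2.2]
        simp
  have h2 : el (a * b⁻¹).f (a * b⁻¹).mem = a * b⁻¹ := by
    apply Gam.ext
    · rfl
    · exact hd.symm
  rw [h2] at h1
  have h3 := N.mul_mem h1 hb
  rwa [inv_mul_cancel_right] at h3

/-- the action of an automorphism on the points -/
def ptMap (φ : MulAut G) (h : ∀ j, (L j).map φ.toMonoidHom = L j) (x : Pt L) : Pt L :=
  ⟨x.1, Quotient.map' φ (by
    intro a b hab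
    rw [QuotientGroup.leftRel_apply] at hab ⊢
    rw [← h x.1]
    exact ⟨a⁻¹ * b, hab, by simp⟩) x.2⟩

theorem ptMap_smul (φ : MulAut G) (h : ∀ j, (L j).map φ.toMonoidHom = L j) (g : G) (x : Pt L) :
    ptMap φ h (g • x) = φ g • ptMap φ h x := by
  obtain ⟨j, q⟩ := x
  obtain ⟨d, rfl⟩ := QuotientGroup.mk_surjective q
  change (⟨j, ((φ (g * d) : G) : G ⧸ L j)⟩ : Pt L) = ⟨j, ((φ g * φ d : G) : G ⧸ L j)⟩
  rw [map_mul]

theorem map_symm (φ : MulAut G) (h : ∀ j, (L j).map φ.toMonoidHom = L j) :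
    ∀ j, (L j).map (φ⁻¹ : MulAut G).toMonoidHom = L j := by
  intro j
  conv_lhs => rw [← h j]
  rw [Subgroup.map_map]
  have : (φ⁻¹ : MulAut G).toMonoidHom.comp φ.toMonoidHom = MonoidHom.id G := by
    ext x
    change φ.symm (φ x) = x
    simp
  rw [this, Subgroup.map_id]

theorem ptMap_inv (φ ψ : MulAut G) (h : ∀ j, (L j).map φ.toMonoidHom = L j)
    (h' : ∀ j, (L j).map ψ.toMonoidHom = L j) (hψ : ∀ g, ψ (φ g) = g) (x : Pt L) :
    ptMap ψ h' (ptMap φ h x) = x := by
  obtain ⟨j, q⟩ := x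
  obtain ⟨d, rfl⟩ := QuotientGroup.mk_surjective q
  change (⟨j, ((ψ (φ d) : G) : G ⧸ L j)⟩ : Pt L) = ⟨j, ((d : G) : G ⧸ L j)⟩
  rw [hψ]

/-- precomposition with `ptMap` keeps `B` -/
theorem ptMap_mem (φ ψ : MulAut G) (h : ∀ j, (L j).map φ.toMonoidHom = L j)
    (h' : ∀ j, (L j).map ψ.toMonoidHom = L j) (hψ : ∀ g, ψ (φ g) = g)
    {f : Pt L → F} (hf : f ∈ B L) : (fun x => f (ptMap φ h x)) ∈ B L := by
  intro j
  obtain ⟨c, hc⟩ := hf j
  refine ⟨c, ?_⟩
  have : {q : G ⧸ L j | f (ptMap φ h ⟨j, q⟩) ≠ c} =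
      (fun q => (ptMap φ h ⟨j, q⟩).2) ⁻¹' {q : G ⧸ L j | f ⟨j, q⟩ ≠ c} := rfl
  rw [this]
  apply hc.preimage
  intro q _ q' _ hq
  have h1 : ptMap φ h (⟨j, q⟩ : Pt L) = ptMap φ h ⟨j, q'⟩ := Sigma.ext rfl (heq_of_eq hq)
  have h2 := congrArg (ptMap ψ h') h1
  rw [ptMap_inv φ ψ h h' hψ, ptMap_inv φ ψ h h' hψ] at h2
  exact eq_of_heq (Sigma.mk.inj h2).2

/-- the extension of `φ` to `Gam L` -/
def ext (φ : MulAut G) (h : ∀ j, (L j).map φ.toMonoidHom = L j) : MulAut (Gam L) where
  toFun a := ⟨fun x => a.f (ptMap φ⁻¹ (map_symm φ h) x),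
    ptMap_mem φ⁻¹ φ (map_symm φ h) h (fun g => φ.apply_symm_apply g) a.mem, φ a.d⟩
  invFun a := ⟨fun x => a.f (ptMap φ h x),
    ptMap_mem φ φ⁻¹ h (map_symm φ h) (fun g => φ.symm_apply_apply g) a.mem, φ⁻¹ a.d⟩
  left_inv a := by
    apply Gam.ext
    · funext x
      change a.f (ptMap φ⁻¹ (map_symm φ h) (ptMap φ h x)) = a.f x
      rw [ptMap_inv φ φ⁻¹ h (map_symm φ h) (fun g => φ.symm_apply_apply g)]
    · exact φ.symm_apply_apply a.d
  right_inv a := by
    apply Gam.ext
    · funext x
      change a.f (ptMap φ h (ptMap φ⁻¹ (map_symm φ h) x)) = a.f x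
      rw [ptMap_inv φ⁻¹ φ (map_symm φ h) h (fun g => φ.apply_symm_apply g)]
    · exact φ.apply_symm_apply a.d
  map_mul' a b := by
    apply Gam.ext
    · funext x
      change a.f (ptMap φ⁻¹ (map_symm φ h) x) * b.f (a.d⁻¹ • ptMap φ⁻¹ (map_symm φ h) x) =
        a.f (ptMap φ⁻¹ (map_symm φ h) x) * b.f (ptMap φ⁻¹ (map_symm φ h) ((φ a.d)⁻¹ • x))
      rw [ptMap_smul, map_inv]
      have : (φ⁻¹ : MulAut G) (φ a.d) = a.d := φ.symm_apply_apply a.d
      rw [this]
    · exact map_mul φ a.d b.d

end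
end TE1

open TE1 Wr in
theorem e_fg : E_fg := by
  intro G _ J _ L hG
  classical
  rw [Group.fg_iff] at hG ⊢
  obtain ⟨S0, hS0, hfin⟩ := hG
  refine ⟨(iot (L := L)) '' S0 ∪ (Set.range (fun p : J × F => cst (L := L) p.1 p.2) ∪
    Set.range (fun p : J × F => lamp (L := L) ⟨p.1, ((1 : G) : G ⧸ L p.1)⟩ p.2)), ?_,
    (hfin.image _).union ((Set.finite_range _).union (Set.finite_range _))⟩
  set H := Subgroup.closure ((iot (L := L)) '' S0 ∪ (Set.range (fun p : J × F => cst (L := L) p.1 p.2) ∪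
    Set.range (fun p : J × F => lamp (L := L) ⟨p.1, ((1 : G) : G ⧸ L p.1)⟩ p.2))) with hH
  have h1 : ∀ d : G, iot (L := L) d ∈ H := by
    intro d
    have h2 : Subgroup.map (iot (L := L)) (Subgroup.closure S0) ≤ H := by
      rw [MonoidHom.map_closure]
      exact Subgroup.closure_mono Set.subset_union_left
    exact h2 ⟨d, by rw [hS0]; trivial, rfl⟩
  have h2 : ∀ j c, cst (L := L) j c ∈ H := fun j c =>
    Subgroup.subset_closure (Or.inr (Or.inl ⟨(j, c), rfl⟩))
  have h3 : ∀ j c, lamp (L := L) ⟨j, ((1 : G) : G ⧸ L j)⟩ c ∈ H := fun j c =>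
    Subgroup.subset_closure (Or.inr (Or.inr ⟨(j, c), rfl⟩))
  have h4 : ∀ x c, lamp (L := L) x c ∈ H := by
    rintro ⟨j, q⟩ c
    obtain ⟨d, rfl⟩ := QuotientGroup.mk_surjective q
    have h5 := H.mul_mem (H.mul_mem (h1 d) (h3 j c)) (H.inv_mem (h1 d))
    rw [conj_lamp] at h5
    have e : (iot (L := L) d).d • (⟨j, ((1 : G) : G ⧸ L j)⟩ : Pt L) = ⟨j, ((d : G) : G ⧸ L j)⟩ := by
      change (⟨j, ((d * 1 : G) : G ⧸ L j)⟩ : Pt L) = _
      rw [mul_one]
    rw [e] at h5
    have e2 : (iot (L := L) d).f = 1 := rfl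
    rw [e2] at h5
    simpa using h5
  rw [eq_top_iff]
  rintro a -
  obtain ⟨k, hk⟩ := Classical.axiomOfChoice a.mem
  have h6 := gen H h4 k (fun j => h2 j (k j)) a.f a.mem hk
  have e : a = el a.f a.mem * iot a.d := by
    apply Gam.ext
    · funext x
      rw [Gam_mul_f]
      exact (mul_one _).symm
    · exact (one_mul _).symm
  rw [e]
  exact H.mul_mem h6 (h1 a.d)

open TE1 Wr in
theorem e_char : E_char := by
  intro G _ J _ L φ n hL hφ hfin
  classical
  set P : Subgroup (Gam L) → Set J × Subgroup G := fun N => (Jset N, N.map pi) with hP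
  have hnorm : ∀ N ∈ NC (Gam L) n, N.Normal := fun N hN =>
    have := hN.1
    inferInstance
  have hinj : Set.InjOn P (NC (Gam L) n) := by
    intro N hN N' hN' h
    have h1 : Jset N = Jset N' := congrArg Prod.fst h
    have h2 : N.map (pi (L := L)) = N'.map pi := congrArg Prod.snd h
    ext a
    rw [mem_iff (hnorm N hN) hN.2.1 hL, mem_iff (hnorm N' hN') hN'.2.1 hL, h1, h2]
  have hmaps : Set.MapsTo P (NC (Gam L) n) (Set.univ ×ˢ NI G φ n) := by
    intro N hN
    refine ⟨trivial, ?_⟩
    have h1 : (N.map (pi (L := L))).index ∣ N.index := Subgroup.index_map_dvd _ pi_surjective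
    refine ⟨(hnorm N hN).map _ pi_surjective, ?_, ?_, ?_⟩
    · change (N.map (pi (L := L))).map φ.toMonoidHom = N.map pi
      have h2 : N.map (ext φ hφ).toMonoidHom = N :=
        (Subgroup.characteristic_iff_map_eq.mp hN.1) (ext φ hφ)
      conv_rhs => rw [← h2]
      rw [Subgroup.map_map, Subgroup.map_map]
      congr 1
    · intro h2
      rw [h2, zero_dvd_iff] at h1
      exact hN.2.1 h1
    · exact (Nat.le_of_dvd (Nat.pos_of_ne_zero hN.2.1) h1).trans hN.2.2
  have hfin2 : ((Set.univ : Set (Set J)) ×ˢ NI G φ n).Finite := Set.finite_univ.prod hfin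
  refine ⟨Set.Finite.of_injOn hmaps hinj hfin2, ?_⟩
  refine (Set.ncard_le_ncard_of_injOn P hmaps hinj hfin2).trans (le_of_eq ?_)
  rw [Set.ncard_prod, Set.ncard_univ, Nat.card_eq_fintype_card, Fintype.card_set]

end Pool.Agent.Helper106.CG
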