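import Pool.Agent.Helper106.CG.Stmts

/-!
# Task E2: `E_out`
-/

namespace Pool.Agent.Helper106.CG

namespace TE2

open Wr
open scoped Classical

variable {D : Type} [Group D] {J : Type} {L : J → Subgroup D}

theorem smul_mk (d : D) (j : J) (q : D ⧸ L j) : d • (⟨j, q⟩ : Pt L) = ⟨j, d • q⟩ := rfl

theorem smul_fst (d : D) (x : Pt L) : (d • x).1 = x.1 := rfl

/-! ### Lamps -/

theorem single_mem (x : Pt L) (s : F) : (fun y => if y = x then s else 1) ∈ B L := by
  intro j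
  refine ⟨1, ?_⟩
  refine Set.Finite.subset (s := {q : D ⧸ L j | (⟨j, q⟩ : Pt L) = x}) ?_ ?_
  · apply Set.Subsingleton.finite
    intro q hq q' hq'
    have h : (⟨j, q⟩ : Pt L) = ⟨j, q'⟩ := by
      rw [Set.mem_ofPred_eq] at hq hq'
      rw [hq, hq']
    exact eq_of_heq (Sigma.mk.inj h).2
  · intro q hq
    by_contra h
    exact hq (if_neg h)

/-- The element with value `s` at `x`. -/
noncomputable def lamp (x : Pt L) (s : F) : Gam L := ⟨fun y => if y = x then s else 1, single_mem x s, 1⟩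

@[simp] theorem lamp_d (x : Pt L) (s : F) : (lamp x s).d = 1 := rfl
theorem lamp_f (x y : Pt L) (s : F) : (lamp x s).f y = if y = x then s else 1 := rfl
@[simp] theorem lamp_f_self (x : Pt L) (s : F) : (lamp x s).f x = s := if_pos rfl

theorem lamp_mul (x : Pt L) (s t : F) : lamp x (s * t) = lamp x s * lamp x t := by
  apply Gam.ext
  · funext y
    rw [Gam_mul_f, lamp_f, lamp_f, lamp_d, inv_one, one_smul, lamp_f]
    split_ifs <;> simp
  · rw [Gam_mul_d, lamp_d, lamp_d, lamp_d, one_mul]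

theorem lamp_one (x : Pt L) : lamp x 1 = 1 := by
  apply Gam.ext
  · funext y; rw [lamp_f]; split_ifs <;> rfl
  · rfl

theorem lamp_inv (x : Pt L) (s : F) : lamp x s⁻¹ = (lamp x s)⁻¹ := by
  apply eq_inv_of_mul_eq_one_left
  rw [← lamp_mul, inv_mul_cancel, lamp_one]

theorem lamp_inj {x y : Pt L} {s t : F} (hs : s ≠ 1) (h : lamp x s = lamp y t) : x = y ∧ s = t := by
  have h1 : (lamp x s).f x = (lamp y t).f x := by rw [h]
  rw [lamp_f_self, lamp_f] at h1
  by_cases hxy : x = y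
  · rw [if_pos hxy] at h1; exact ⟨hxy, h1⟩
  · rw [if_neg hxy] at h1; exact absurd h1 hs

theorem lamp_inj' {x : Pt L} {s t : F} (h : lamp x s = lamp x t) : s = t := by
  have h1 : (lamp x s).f x = (lamp x t).f x := by rw [h]
  rwa [lamp_f_self, lamp_f_self] at h1

/-- Conjugation of lamps. -/
theorem conj_lamp (γ : Gam L) (x : Pt L) (s : F) :
    γ * lamp x s * γ⁻¹ = lamp (γ.d • x) (γ.f (γ.d • x) * s * (γ.f (γ.d • x))⁻¹) := by
  apply Gam.ext
  · funext y
    simp only [Gam_mul_f, Gam_mul_d, lamp_d, mul_one, Gam_inv_f, lamp_f]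
    by_cases h : y = γ.d • x
    · subst h
      rw [inv_smul_smul, if_pos rfl, if_pos rfl]
    · have h' : γ.d⁻¹ • y ≠ x := by
        intro h'; apply h; rw [← h', smul_inv_smul]
      rw [if_neg h, if_neg h', smul_inv_smul, mul_one, mul_inv_cancel]
  · simp

/-! ### The group `F` -/

theorem F_center {a : F} (h : ∀ s : F, a * s * a⁻¹ = s) : a = 1 := by
  have hc : a ∈ Subgroup.center F := by
    rw [Subgroup.mem_center_iff]
    intro g
    have := h g
    rw [mul_inv_eq_iff_eq_mul] at this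
    exact this.symm
  rw [alternatingGroup.center_eq_bot (by simp)] at hc
  exact Subgroup.mem_bot.1 hc

theorem F_exists_ne : ∃ s : F, s ≠ 1 := exists_ne 1

instance : Finite (MulAut F) := Finite.of_injective (fun f : MulAut F => f.toEquiv) (fun _ _ h =>
  MulEquiv.toEquiv_injective h)

/-- `lamp x` as a homomorphism. -/
noncomputable def lampHom (x : Pt L) : F →* Gam L := MonoidHom.mk' (lamp x) (lamp_mul x)

@[simp] theorem lampHom_apply (x : Pt L) (s : F) : lampHom x s = lamp x s := rfl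

/-- Elements over `1` conjugate lamps in place. -/
theorem conj_lamp' {γ : Gam L} (hγ : γ.d = 1) (x : Pt L) (s : F) :
    γ * lamp x s * γ⁻¹ = lamp x (γ.f x * s * (γ.f x)⁻¹) := by
  rw [conj_lamp, hγ, one_smul]

/-- a subgroup normalised by the lamps which contains an element over `1` with nontrivial value at `y`
contains all lamps at `y` -/
theorem contains_lamp (N : Subgroup (Gam L))
    (hN : ∀ n ∈ N, ∀ (z : Pt L) (t : F), lamp z t * n * (lamp z t)⁻¹ ∈ N)
    {m : Gam L} (hm : m ∈ N) (hmd : m.d = 1) {y : Pt L} (hy : m.f y ≠ 1) (s : F) : lamp y s ∈ N := by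
  have hnorm : (N.comap (lampHom y)).Normal := by
    refine ⟨fun k hk t => ?_⟩
    rw [Subgroup.mem_comap] at hk ⊢
    rw [map_mul, map_mul, map_inv]
    exact hN _ hk y t
  rcases hnorm.eq_bot_or_eq_top with h | h
  · exfalso
    apply hy
    apply F_center
    intro t
    have h1 : m * (lamp y t * m⁻¹ * (lamp y t)⁻¹) ∈ N := N.mul_mem hm (hN _ (N.inv_mem hm) y t)
    have h2 : m * (lamp y t * m⁻¹ * (lamp y t)⁻¹) = lamp y (m.f y * t * (m.f y)⁻¹ * t⁻¹) := by
      rw [lamp_mul, ← conj_lamp' hmd, lamp_inv]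
      group
    rw [h2] at h1
    have h3 : (m.f y * t * (m.f y)⁻¹ * t⁻¹) ∈ N.comap (lampHom y) := h1
    rw [h, Subgroup.mem_bot, mul_inv_eq_one] at h3
    exact h3
  · have : s ∈ N.comap (lampHom y) := by rw [h]; trivial
    exact this

/-- The section `D → Gam L`. -/
def iota : D →* Gam L where
  toFun g := ⟨1, (B L).one_mem, g⟩
  map_one' := rfl
  map_mul' a b := by
    apply Gam.ext
    · funext x; rw [Gam_mul_f]; simp
    · rfl

@[simp] theorem iota_d (g : D) : (iota g : Gam L).d = g := rfl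
@[simp] theorem iota_f (g : D) (x : Pt L) : (iota g : Gam L).f x = 1 := rfl

theorem conj_iota (g : D) (x : Pt L) (s : F) :
    (iota g : Gam L) * lamp x s * (iota g)⁻¹ = lamp (g • x) s := by
  rw [conj_lamp]; simp

theorem exists_smul {x y : Pt L} (h : x.1 = y.1) : ∃ g : D, g • x = y := by
  obtain ⟨j, q⟩ := x
  obtain ⟨j', q'⟩ := y
  obtain rfl : j = j' := h
  obtain ⟨g, hg⟩ := MulAction.exists_smul_eq D q q'
  exact ⟨g, by rw [smul_mk, hg]⟩

theorem faith_pt (hM : Marks L) {g : D} (h : ∀ x : Pt L, g • x = x) : g = 1 := by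
  apply hM.faith
  intro j e
  have h1 := h ⟨j, (e : D ⧸ L j)⟩
  rw [smul_mk] at h1
  have h2 : g • (e : D ⧸ L j) = (e : D ⧸ L j) := eq_of_heq (Sigma.mk.inj h1).2
  have h3 : ((g * e : D) : D ⧸ L j) = (e : D ⧸ L j) := h2
  have h4 := QuotientGroup.eq.1 h3.symm
  rwa [← mul_assoc] at h4

/-- The centraliser of the lamps is trivial. -/
theorem cent_lamp (hM : Marks L) {γ : Gam L} (h : ∀ (x : Pt L) (s : F), γ * lamp x s = lamp x s * γ) :
    γ = 1 := by
  have h' : ∀ (x : Pt L) (s : F), s ≠ 1 → x = γ.d • x ∧ s = γ.f (γ.d • x) * s * (γ.f (γ.d • x))⁻¹ := by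
    intro x s hs
    apply lamp_inj hs
    rw [← conj_lamp, h x s, mul_inv_cancel_right]
  obtain ⟨s0, hs0⟩ := F_exists_ne
  have hd : γ.d = 1 := faith_pt hM fun x => (h' x s0 hs0).1.symm
  apply Gam.ext
  · funext x
    apply F_center
    intro s
    by_cases hs : s = 1
    · subst hs; simp
    · have := (h' x s hs).2
      rw [hd, one_smul] at this
      exact this.symm
  · exact hd

/-- A normal subgroup with trivial centraliser contains all lamps. -/
theorem normal_contains (N : Subgroup (Gam L)) (hN : N.Normal)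
    (hC : ∀ γ : Gam L, (∀ n ∈ N, γ * n = n * γ) → γ = 1) (x : Pt L) (s : F) : lamp x s ∈ N := by
  obtain ⟨s0, hs0⟩ := F_exists_ne
  have hne : lamp x s0 ≠ 1 := by
    intro h
    rw [← lamp_one x] at h
    exact hs0 (lamp_inj' h)
  have hex : ∃ n ∈ N, lamp x s0 * n ≠ n * lamp x s0 := by
    by_contra hno
    push Not at hno
    exact hne (hC _ hno)
  obtain ⟨n, hn, hnc⟩ := hex
  set m : Gam L := n * lamp x s0 * n⁻¹ * (lamp x s0)⁻¹ with hm
  have hmN : m ∈ N := by
    have : m = n * (lamp x s0 * n⁻¹ * (lamp x s0)⁻¹) := by rw [hm]; group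
    rw [this]
    exact N.mul_mem hn (hN.conj_mem _ (N.inv_mem hn) _)
  have hm' : m = lamp (n.d • x) (n.f (n.d • x) * s0 * (n.f (n.d • x))⁻¹) * lamp x s0⁻¹ := by
    rw [hm, conj_lamp, lamp_inv]
  have hmd : m.d = 1 := by rw [hm', Gam_mul_d, lamp_d, lamp_d, one_mul]
  have hm1 : m ≠ 1 := by
    intro h
    rw [hm, mul_inv_eq_one, mul_inv_eq_iff_eq_mul] at h
    exact hnc h.symm
  have hy : ∃ y, m.f y ≠ 1 := by
    by_contra hno
    push Not at hno
    exact hm1 (Gam.ext (funext hno) hmd)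
  obtain ⟨y, hy⟩ := hy
  have hyx : y.1 = x.1 := by
    by_contra hno
    apply hy
    rw [hm', Gam_mul_f, lamp_d, inv_one, one_smul, lamp_f, lamp_f, if_neg, if_neg, one_mul]
    · rintro rfl; exact hno rfl
    · rintro rfl; exact hno (smul_fst _ _)
  obtain ⟨g, hg⟩ := exists_smul hyx
  have h1 := contains_lamp N (fun n hn z t => hN.conj_mem n hn _) hmN hmd hy s
  have h2 := hN.conj_mem _ h1 (iota g)
  rwa [conj_iota, hg] at h2

/-- Automorphisms map lamps to elements over `1`. -/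
theorem map_lamp_d (hM : Marks L) (α : MulAut (Gam L)) (x : Pt L) (s : F) : (α (lamp x s)).d = 1 := by
  let P : Subgroup (Gam L) := Subgroup.closure {γ | ∃ (x : Pt L) (s : F), γ = lamp x s}
  have hPd : ∀ γ ∈ P, γ.d = 1 := by
    intro γ hγ
    refine Subgroup.closure_induction (p := fun γ _ => γ.d = 1) ?_ rfl ?_ ?_ hγ
    · rintro _ ⟨x, s, rfl⟩; rfl
    · intro a b _ _ ha hb; rw [Gam_mul_d, ha, hb, one_mul]
    · intro a _ ha; rw [Gam_inv_d, ha, inv_one]
  have hPn : P.Normal := by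
    refine ⟨fun n hn g => ?_⟩
    refine Subgroup.closure_induction (p := fun n _ => g * n * g⁻¹ ∈ P) ?_ ?_ ?_ ?_ hn
    · rintro _ ⟨x, s, rfl⟩
      rw [conj_lamp]
      exact Subgroup.subset_closure ⟨_, _, rfl⟩
    · simp
    · intro a b _ _ ha hb
      have := P.mul_mem ha hb
      convert this using 1
      group
    · intro a _ ha
      have := P.inv_mem ha
      convert this using 1
      group
  have hN : (P.map (α⁻¹ : MulAut (Gam L)).toMonoidHom).Normal :=
    hPn.map _ (α⁻¹ : MulAut (Gam L)).surjective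
  have hC : ∀ γ : Gam L, (∀ n ∈ P.map (α⁻¹ : MulAut (Gam L)).toMonoidHom, γ * n = n * γ) → γ = 1 := by
    intro γ h
    have h1 : α γ = 1 := by
      apply cent_lamp hM
      intro x s
      have := h (α⁻¹ (lamp x s)) ⟨lamp x s, Subgroup.subset_closure ⟨x, s, rfl⟩, rfl⟩
      have h2 := congrArg α this
      rwa [map_mul, map_mul, MulAut.apply_inv_self] at h2
    have h2 := congrArg (α⁻¹ : MulAut (Gam L)) h1
    rwa [MulAut.inv_apply_self, map_one] at h2
  obtain ⟨q, hq, hqe⟩ := normal_contains _ hN hC x s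
  have : α (lamp x s) = q := by
    rw [← hqe]
    exact MulAut.apply_inv_self _ α q
  rw [this]
  exact hPd q hq

theorem exists_acts_aux (hM : Marks L) (α : MulAut (Gam L)) (x : Pt L) :
    ∃ (y : Pt L) (θ : MulAut F), ∀ s, α (lamp x s) = lamp y (θ s) := by
  let N : Subgroup (Gam L) := (α.toMonoidHom.comp (lampHom x)).range
  have hN : ∀ n ∈ N, ∀ (z : Pt L) (t : F), lamp z t * n * (lamp z t)⁻¹ ∈ N := by
    rintro _ ⟨s, rfl⟩ z t
    have hd : (α⁻¹ (lamp z t)).d = 1 := map_lamp_d hM α⁻¹ z t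
    refine ⟨(α⁻¹ (lamp z t)).f x * s * ((α⁻¹ (lamp z t)).f x)⁻¹, ?_⟩
    change α (lamp x _) = lamp z t * α (lamp x s) * (lamp z t)⁻¹
    rw [← conj_lamp' hd, map_mul, map_mul, map_inv, MulAut.apply_inv_self]
  obtain ⟨s0, hs0⟩ := F_exists_ne
  have hmd : (α (lamp x s0)).d = 1 := map_lamp_d hM α x s0
  have hne : α (lamp x s0) ≠ 1 := by
    intro h
    rw [map_eq_one_iff α α.injective, ← lamp_one x] at h
    exact hs0 (lamp_inj' h)
  have hy : ∃ y, (α (lamp x s0)).f y ≠ 1 := by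
    by_contra hno
    push Not at hno
    exact hne (Gam.ext (funext hno) hmd)
  obtain ⟨y, hy⟩ := hy
  have h1 : ∀ t : F, ∃ s : F, α (lamp x s) = lamp y t := by
    intro t
    obtain ⟨s, hs⟩ := contains_lamp N hN (m := α (lamp x s0)) ⟨s0, rfl⟩ hmd hy t
    exact ⟨s, hs⟩
  choose g hg using h1
  have gmul : ∀ t t', g (t * t') = g t * g t' := by
    intro t t'
    apply lamp_inj' (x := x)
    apply α.injective
    rw [hg, lamp_mul, ← hg t, ← hg t', lamp_mul, map_mul]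
  have ginj : Function.Injective g := by
    intro t t' h
    have h2 := hg t
    rw [h, hg t'] at h2
    exact (lamp_inj' h2).symm
  have gbij : Function.Bijective g := Finite.injective_iff_bijective.1 ginj
  let e : F ≃* F := MulEquiv.ofBijective (MonoidHom.mk' g gmul) gbij
  refine ⟨y, e.symm, fun s => ?_⟩
  have h3 := hg (e.symm s)
  have h4 : g (e.symm s) = s := e.apply_symm_apply s
  rw [h4] at h3
  exact h3

/-- `α` permutes the lamp groups by `σ`, acting by `θ x` on the lamp group of `x`. -/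
def Acts (α : MulAut (Gam L)) (σ : Equiv.Perm (Pt L)) (θ : Pt L → MulAut F) : Prop :=
  ∀ x s, α (lamp x s) = lamp (σ x) (θ x s)

theorem exists_acts (hM : Marks L) (α : MulAut (Gam L)) : ∃ σ θ, Acts α σ θ := by
  choose σ θ h using exists_acts_aux hM α
  choose σ' θ' h' using exists_acts_aux hM α⁻¹
  obtain ⟨s0, hs0⟩ := F_exists_ne
  have hl : ∀ x, σ' (σ x) = x := by
    intro x
    have h1 : α⁻¹ (α (lamp x s0)) = lamp x s0 := MulAut.inv_apply_self _ α _
    rw [h, h'] at h1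
    exact (lamp_inj hs0 h1.symm).1.symm
  have hr : ∀ x, σ (σ' x) = x := by
    intro x
    have h1 : α (α⁻¹ (lamp x s0)) = lamp x s0 := MulAut.apply_inv_self _ α _
    rw [h', h] at h1
    exact (lamp_inj hs0 h1.symm).1.symm
  exact ⟨⟨σ, σ', hl, hr⟩, θ, h⟩

theorem Acts.comp {α β : MulAut (Gam L)} {σ τ : Equiv.Perm (Pt L)} {θ η : Pt L → MulAut F}
    (h : Acts α σ θ) (h' : Acts β τ η) : Acts (β * α) (τ * σ) (fun x => η (σ x) * θ x) := by
  intro x s
  rw [MulAut.mul_apply, h x s, h' (σ x)]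
  rfl

theorem Acts.inv {α : MulAut (Gam L)} {σ : Equiv.Perm (Pt L)} {θ : Pt L → MulAut F}
    (h : Acts α σ θ) : Acts α⁻¹ σ⁻¹ (fun x => (θ (σ⁻¹ x))⁻¹) := by
  intro x s
  apply α.injective
  rw [MulAut.apply_inv_self, h]
  simp

theorem Acts.conj (γ : Gam L) : Acts (MulAut.conj γ) (MulAction.toPerm γ.d)
    (fun x => MulAut.conj (γ.f (γ.d • x))) := by
  intro x s
  rw [MulAut.conj_apply, conj_lamp]
  rfl

theorem Acts.eq_one (hM : Marks L) {α : MulAut (Gam L)} (h : Acts α 1 (fun _ => 1)) : α = 1 := by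
  have hl : ∀ (x : Pt L) (s : F), α (lamp x s) = lamp x s := fun x s => h x s
  apply MulEquiv.ext
  intro γ
  change α γ = γ
  have : γ⁻¹ * α γ = 1 := by
    apply cent_lamp hM
    intro x s
    have h1 : α (γ * lamp x s * γ⁻¹) = γ * lamp x s * γ⁻¹ := by rw [conj_lamp, hl]
    rw [map_mul, map_mul, hl, map_inv] at h1
    have h2 : α γ * lamp x s = γ * lamp x s * γ⁻¹ * α γ := by rw [← h1]; group
    rw [mul_assoc, h2]; group
  rw [inv_mul_eq_one] at this
  exact this.symm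

/-- Equivariance. -/
theorem Acts.equivariant {α : MulAut (Gam L)} {σ : Equiv.Perm (Pt L)} {θ : Pt L → MulAut F}
    (h : Acts α σ θ) (γ : Gam L) (x : Pt L) : (α γ).d • σ x = σ (γ.d • x) := by
  obtain ⟨s0, hs0⟩ := F_exists_ne
  have h1 : α γ * lamp (σ x) (θ x s0) * (α γ)⁻¹ =
      lamp (σ (γ.d • x)) (θ (γ.d • x) (γ.f (γ.d • x) * s0 * (γ.f (γ.d • x))⁻¹)) := by
    rw [← h x s0, ← h, ← conj_lamp, map_mul, map_mul, map_inv]
  rw [conj_lamp] at h1
  refine (lamp_inj ?_ h1).1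
  intro h2
  rw [mul_inv_eq_one] at h2
  have h3 : θ x s0 = 1 := by
    have := mul_left_cancel (h2.trans (mul_one _).symm)
    exact this
  rw [map_eq_one_iff _ (θ x).injective] at h3
  exact hs0 h3

/-- The values, for an automorphism fixing the points. -/
theorem Acts.values {α : MulAut (Gam L)} {θ : Pt L → MulAut F} (h : Acts α 1 θ) (γ : Gam L) (hγ : (α γ).d = γ.d)
    (x : Pt L) (s : F) : (α γ).f (γ.d • x) * θ x s * ((α γ).f (γ.d • x))⁻¹ =
      θ (γ.d • x) (γ.f (γ.d • x) * s * (γ.f (γ.d • x))⁻¹) := by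
  have h1 : α γ * lamp x (θ x s) * (α γ)⁻¹ =
      lamp (γ.d • x) (θ (γ.d • x) (γ.f (γ.d • x) * s * (γ.f (γ.d • x))⁻¹)) := by
    have e1 : α (lamp x s) = lamp x (θ x s) := h x s
    have e2 := h (γ.d • x) (γ.f (γ.d • x) * s * (γ.f (γ.d • x))⁻¹)
    rw [← e1, ← map_inv, ← map_mul, ← map_mul, conj_lamp, e2]
    rfl
  rw [conj_lamp, hγ] at h1
  exact lamp_inj' h1

/-! ### The induced automorphism of `D` -/

theorem map_d_one (hM : Marks L) (α : MulAut (Gam L)) {γ : Gam L} (hγ : γ.d = 1) : (α γ).d = 1 := by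
  obtain ⟨σ, θ, h⟩ := exists_acts hM α
  apply faith_pt hM
  intro y
  obtain ⟨x, rfl⟩ := σ.surjective y
  rw [h.equivariant, hγ, one_smul]

theorem map_d_eq (hM : Marks L) (α : MulAut (Gam L)) {γ γ' : Gam L} (h : γ.d = γ'.d) :
    (α γ).d = (α γ').d := by
  have h1 : (α (γ * γ'⁻¹)).d = 1 := map_d_one hM α (by rw [Gam_mul_d, Gam_inv_d, h, mul_inv_cancel])
  rw [map_mul, map_inv, Gam_mul_d, Gam_inv_d, mul_inv_eq_one] at h1
  exact h1

/-- The induced automorphism of `D`. -/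
def psiFun (hM : Marks L) (α : MulAut (Gam L)) : MulAut D where
  toFun g := (α (iota g)).d
  invFun g := (α⁻¹ (iota g)).d
  left_inv g := by
    change (α⁻¹ (iota (α (iota g)).d)).d = g
    rw [map_d_eq hM α⁻¹ (show (iota (α (iota g)).d : Gam L).d = (α (iota g)).d from rfl),
      MulAut.inv_apply_self, iota_d]
  right_inv g := by
    change (α (iota (α⁻¹ (iota g)).d)).d = g
    rw [map_d_eq hM α (show (iota (α⁻¹ (iota g)).d : Gam L).d = (α⁻¹ (iota g)).d from rfl),
      MulAut.apply_inv_self, iota_d]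
  map_mul' a b := by rw [map_mul, map_mul, Gam_mul_d]

theorem psiFun_spec (hM : Marks L) (α : MulAut (Gam L)) (γ : Gam L) :
    psiFun hM α γ.d = (α γ).d := map_d_eq hM α rfl

theorem psiFun_apply (hM : Marks L) (α : MulAut (Gam L)) (g : D) :
    psiFun hM α g = (α (iota g)).d := rfl

/-- As a homomorphism. -/
def psi (hM : Marks L) : MulAut (Gam L) →* MulAut D := MonoidHom.mk' (psiFun hM) (by
  intro α β
  apply MulEquiv.ext
  intro g
  rw [MulAut.mul_apply, psiFun_apply, MulAut.mul_apply, psiFun_apply hM β, ← psiFun_spec])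

theorem psi_spec (hM : Marks L) (α : MulAut (Gam L)) (γ : Gam L) :
    psi hM α γ.d = (α γ).d := psiFun_spec hM α γ

theorem psi_iota (hM : Marks L) (α : MulAut (Gam L)) (g : D) :
    psi hM α g = (α (iota g)).d := rfl

theorem psi_conj (hM : Marks L) (γ : Gam L) : psi hM (MulAut.conj γ) = MulAut.conj γ.d := by
  apply MulEquiv.ext
  intro g
  rw [psi_iota]
  simp

theorem psi_equivariant (hM : Marks L) {α : MulAut (Gam L)} {σ : Equiv.Perm (Pt L)}
    {θ : Pt L → MulAut F} (h : Acts α σ θ) (g : D) (x : Pt L) : psi hM α g • σ x = σ (g • x) := by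
  rw [psi_iota, h.equivariant, iota_d]

/-! ### Finiteness modulo inner automorphisms -/

/-- `A` is covered by finitely many cosets of the inner automorphisms. -/
def FinInn {G : Type} [Group G] (A : Set (MulAut G)) : Prop :=
  ∃ E : Set (MulAut G), E.Finite ∧ ∀ α ∈ A, ∃ e ∈ E, ∃ g : G, α = MulAut.conj g * e

theorem FinInn.step {G : Type} [Group G] {A A' : Set (MulAut G)} (κ : Type) [Finite κ]
    (c : MulAut G → κ) (hc : ∀ α ∈ A, ∀ β ∈ A, c α = c β → β⁻¹ * α ∈ A') (h : FinInn A') :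
    FinInn A := by
  obtain ⟨E, hE, hA'⟩ := h
  let r : κ → MulAut G := fun k => if hk : ∃ β ∈ A, c β = k then hk.choose else 1
  refine ⟨Set.image2 (fun k e => r k * e) Set.univ E, Set.Finite.image2 _ Set.finite_univ hE, ?_⟩
  intro α hα
  have hk : ∃ β ∈ A, c β = c α := ⟨α, hα, rfl⟩
  have hr : r (c α) ∈ A ∧ c (r (c α)) = c α := by
    have : r (c α) = hk.choose := dif_pos hk
    rw [this]
    exact hk.choose_spec
  obtain ⟨e, he, g, hg⟩ := hA' _ (hc α hα _ hr.1 hr.2.symm)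
  refine ⟨r (c α) * e, ⟨c α, trivial, e, he, rfl⟩, r (c α) g, ?_⟩
  have h1 : α = r (c α) * (MulAut.conj g * e) := by rw [← hg, mul_inv_cancel_left]
  rw [← mul_assoc]
  have h2 : MulAut.conj (r (c α) g) * r (c α) = r (c α) * MulAut.conj g := by
    apply MulEquiv.ext
    intro x
    simp
  rw [h2, mul_assoc]
  exact h1

theorem FinInn.inn {G : Type} [Group G] {A A' : Set (MulAut G)}
    (hc : ∀ α ∈ A, ∃ g : G, MulAut.conj g * α ∈ A') (h : FinInn A') : FinInn A := by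
  obtain ⟨E, hE, hA'⟩ := h
  refine ⟨E, hE, fun α hα => ?_⟩
  obtain ⟨g, hg⟩ := hc α hα
  obtain ⟨e, he, g', hg'⟩ := hA' _ hg
  refine ⟨e, he, g⁻¹ * g', ?_⟩
  rw [map_mul, mul_assoc, ← hg', map_inv, inv_mul_cancel_left]

theorem FinInn.finite {G : Type} [Group G] (h : FinInn (Set.univ : Set (MulAut G))) :
    Finite (MulAut G ⧸ (MulAut.conj : G →* MulAut G).range) := by
  obtain ⟨E, hE, hA⟩ := h
  have : Finite E := hE.to_subtype
  refine Finite.of_surjective (fun e : E => ((e : MulAut G) : MulAut G ⧸ (MulAut.conj : G →* MulAut G).range)) ?_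
  intro q
  obtain ⟨α, rfl⟩ := QuotientGroup.mk_surjective q
  obtain ⟨e, he, g, rfl⟩ := hA α trivial
  refine ⟨⟨e, he⟩, ?_⟩
  rw [QuotientGroup.eq]
  refine ⟨e⁻¹ g, ?_⟩
  apply MulEquiv.ext
  intro x
  simp

/-! ### The chain of subsets -/

/-- Stabilisers of points. -/
theorem mem_L_iff (j : J) (e g : D) :
    e⁻¹ * g * e ∈ L j ↔ g • (⟨j, (e : D ⧸ L j)⟩ : Pt L) = ⟨j, (e : D ⧸ L j)⟩ := by
  rw [smul_mk]
  constructor
  · intro h
    have : ((g * e : D) : D ⧸ L j) = (e : D ⧸ L j) := by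
      apply Eq.symm
      rw [QuotientGroup.eq, ← mul_assoc]; exact h
    change (⟨j, ((g * e : D) : D ⧸ L j)⟩ : Pt L) = _
    rw [this]
  · intro h
    have h2 : ((g * e : D) : D ⧸ L j) = (e : D ⧸ L j) := eq_of_heq (Sigma.mk.inj h).2
    have := QuotientGroup.eq.1 h2.symm
    rwa [← mul_assoc] at this

theorem mem_L_iff' (j : J) (g : D) :
    g ∈ L j ↔ g • (⟨j, ((1 : D) : D ⧸ L j)⟩ : Pt L) = ⟨j, ((1 : D) : D ⧸ L j)⟩ := by
  rw [← mem_L_iff]; simp

/-- the base points -/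
def base (j : J) : Pt L := ⟨j, ((1 : D) : D ⧸ L j)⟩

theorem exists_rep (x : Pt L) : ∃ e : D, x = ⟨x.1, (e : D ⧸ L x.1)⟩ := by
  obtain ⟨j, q⟩ := x
  obtain ⟨e, rfl⟩ := QuotientGroup.mk_surjective q
  exact ⟨e, rfl⟩

theorem class_of_acts (hM : Marks L) {α : MulAut (Gam L)} {σ : Equiv.Perm (Pt L)}
    {θ : Pt L → MulAut F} (h : Acts α σ θ) (j : J) :
    ∃ e : D, ∀ g : D, g ∈ L j ↔ e⁻¹ * psi hM α g * e ∈ L (σ (base j)).1 := by
  obtain ⟨e, he⟩ := exists_rep (σ (base j : Pt L))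
  refine ⟨e, fun g => ?_⟩
  rw [mem_L_iff', mem_L_iff, ← he, psi_equivariant hM h]
  exact σ.injective.eq_iff.symm

theorem map_eq_of_iff {G : Type} [Group G] {K : Subgroup G} {φ : MulAut G} {u : G}
    (h : ∀ g, g ∈ K ↔ u⁻¹ * φ g * u ∈ K) :
    K.map φ.toMonoidHom = K.map (MulAut.conj u).toMonoidHom := by
  ext x
  constructor
  · rintro ⟨g, hg, rfl⟩
    refine ⟨u⁻¹ * φ g * u, (h g).1 hg, ?_⟩
    change u * (u⁻¹ * φ g * u) * u⁻¹ = φ g
    group
  · rintro ⟨k, hk, rfl⟩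
    refine ⟨φ⁻¹ (u * k * u⁻¹), (h _).2 ?_, ?_⟩
    · rw [MulAut.apply_inv_self]
      have : u⁻¹ * (u * k * u⁻¹) * u = k := by group
      rwa [this]
    · exact MulAut.apply_inv_self _ φ _

/-- the sets of the chain -/
def S1 (hM : Marks L) : Set (MulAut (Gam L)) :=
  {α | ∀ j, ∃ g : D, (L j).map (psi hM α).toMonoidHom = (L j).map (MulAut.conj g).toMonoidHom}

def S2 (hM : Marks L) : Set (MulAut (Gam L)) := {α | ∃ g : D, psi hM α = MulAut.conj g}

def S3 (hM : Marks L) : Set (MulAut (Gam L)) := {α | psi hM α = 1}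

def S4 (hM : Marks L) : Set (MulAut (Gam L)) := {α | psi hM α = 1 ∧ ∃ θ, Acts α 1 θ}

def S5 : Set (MulAut (Gam L)) := {α | ∃ η : J → MulAut F, Acts α 1 (fun x => η x.1)}

theorem fin5 (hM : Marks L) [Finite J] : FinInn (S5 (L := L)) := by
  refine FinInn.step (A' := {1}) (J → MulAut F)
    (fun α => if h : α ∈ S5 (L := L) then h.choose else 1) ?_ ⟨{1}, Set.finite_singleton 1, ?_⟩
  · intro α hα β hβ h
    simp only [dif_pos hα, dif_pos hβ] at h
    have h1 := hα.choose_spec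
    have h2 := hβ.choose_spec
    have h3 := h1.comp h2.inv
    rw [Set.mem_singleton_iff]
    apply Acts.eq_one hM
    intro x s
    rw [h3 x s, h]
    simp
  · intro α hα
    refine ⟨1, rfl, 1, ?_⟩
    rw [Set.mem_singleton_iff] at hα
    rw [hα, map_one, one_mul]

theorem infinite_quot (hM : Marks L) (j : J) : Infinite (D ⧸ L j) := by
  have := hM.inf j
  rw [Subgroup.index, Nat.card_eq_zero] at this
  rcases this with h | h
  · exact absurd ⟨((1 : D) : D ⧸ L j)⟩ (not_nonempty_iff.2 h)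
  · exact h

theorem fin4 (hM : Marks L) [Finite J] : FinInn (S4 hM) := by
  refine FinInn.inn ?_ (fin5 hM)
  rintro α ⟨hα, θ, hθ⟩
  have hd : ∀ γ : Gam L, (α γ).d = γ.d := by
    intro γ
    rw [← psi_spec hM, hα]; rfl
  -- almost constant
  have hconst : ∀ (j : J) (s : F), ∃ c : F, {q : D ⧸ L j | θ ⟨j, q⟩ s ≠ c}.Finite := by
    intro j s
    let γ : Gam L := ⟨fun y => if y.1 = j then s else 1, by
      intro j'
      by_cases hj : j' = j
      · exact ⟨s, by simp [hj]⟩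
      · exact ⟨1, by simp [hj]⟩, 1⟩
    obtain ⟨c, hc⟩ := (α γ).mem j
    refine ⟨c, hc.subset ?_⟩
    intro q hq hq'
    apply hq
    rw [← hq']
    have h1 : ∀ t : F, (α γ).f ⟨j, q⟩ * θ ⟨j, q⟩ t * ((α γ).f ⟨j, q⟩)⁻¹ =
        θ ⟨j, q⟩ s * θ ⟨j, q⟩ t * (θ ⟨j, q⟩ s)⁻¹ := by
      intro t
      have h2 := hθ.values γ (hd γ) ⟨j, q⟩ t
      have h3 : γ.d = 1 := rfl
      have h4 : γ.f ⟨j, q⟩ = s := if_pos rfl
      rw [h3, one_smul, h4] at h2
      rw [h2, map_mul, map_mul, map_inv]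
    have h5 : (θ ⟨j, q⟩ s)⁻¹ * (α γ).f ⟨j, q⟩ = 1 := by
      apply F_center
      intro t
      obtain ⟨t, rfl⟩ := (θ ⟨j, q⟩).surjective t
      have h6 := h1 t
      have h7 : (θ ⟨j, q⟩ s)⁻¹ * (α γ).f ⟨j, q⟩ * θ ⟨j, q⟩ t * ((θ ⟨j, q⟩ s)⁻¹ * (α γ).f ⟨j, q⟩)⁻¹ =
          (θ ⟨j, q⟩ s)⁻¹ * ((α γ).f ⟨j, q⟩ * θ ⟨j, q⟩ t * ((α γ).f ⟨j, q⟩)⁻¹) * θ ⟨j, q⟩ s := by group
      rw [h7, h6]; group
    rw [inv_mul_eq_one] at h5
    exact h5
  have hcof : ∀ j : J, ∃ η : MulAut F, {q : D ⧸ L j | θ ⟨j, q⟩ ≠ η}.Finite := by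
    intro j
    choose c hc using hconst j
    have hfin : (⋃ s : F, {q : D ⧸ L j | θ ⟨j, q⟩ s ≠ c s}).Finite := Set.finite_iUnion hc
    have := infinite_quot hM j
    obtain ⟨q0, hq0⟩ := hfin.infinite_compl.nonempty
    refine ⟨θ ⟨j, q0⟩, hfin.subset ?_⟩
    intro q hq
    by_contra hno
    apply hq
    apply MulEquiv.ext
    intro s
    have e1 : θ ⟨j, q⟩ s = c s := by
      by_contra h; exact hno (Set.mem_iUnion.2 ⟨s, h⟩)
    have e2 : θ ⟨j, q0⟩ s = c s := by
      by_contra h; exact hq0 (Set.mem_iUnion.2 ⟨s, h⟩)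
    rw [e1, e2]
  choose η hη using hcof
  -- inner differences
  have hinn : ∀ x y : Pt L, x.1 = y.1 → ∃ u : F, θ y = MulAut.conj u * θ x := by
    intro x y hxy
    obtain ⟨g, rfl⟩ := exists_smul hxy
    refine ⟨(α (iota g)).f (g • x), ?_⟩
    apply MulEquiv.ext
    intro s
    have h2 := hθ.values (iota g) (hd _) x s
    rw [iota_d, iota_f, one_mul, inv_one, mul_one] at h2
    rw [← h2]
    rfl
  have hinn' : ∀ x : Pt L, ∃ u : F, θ x = MulAut.conj u * η x.1 := by
    intro x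
    have := infinite_quot hM x.1
    obtain ⟨q0, hq0⟩ := (hη x.1).infinite_compl.nonempty
    have e : θ ⟨x.1, q0⟩ = η x.1 := by by_contra h; exact hq0 h
    obtain ⟨u, hu⟩ := hinn ⟨x.1, q0⟩ x rfl
    exact ⟨u, by rw [hu, e]⟩
  choose u hu using hinn'
  let w : Pt L → F := fun x => if θ x = η x.1 then 1 else u x
  have hw : ∀ x, θ x = MulAut.conj (w x) * η x.1 := by
    intro x
    by_cases h : θ x = η x.1
    · have : w x = 1 := if_pos h
      rw [this, map_one, one_mul]; exact h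
    · have : w x = u x := if_neg h
      rw [this]; exact hu x
  have hwB : w ∈ B L := by
    intro j
    refine ⟨1, (hη j).subset ?_⟩
    intro q hq h
    exact hq (if_pos h)
  let ω : Gam L := ⟨w, hwB, 1⟩
  refine ⟨ω⁻¹, η, ?_⟩
  intro x s
  rw [MulAut.mul_apply, hθ x s, MulAut.conj_apply, conj_lamp]
  have e1 : (ω⁻¹).d = 1 := by rw [Gam_inv_d]; exact inv_one
  have e2 : (ω⁻¹).f x = (w x)⁻¹ := by
    rw [Gam_inv_f]
    change (w ((1 : D) • x))⁻¹ = _
    rw [one_smul]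
  change lamp ((ω⁻¹).d • x) ((ω⁻¹).f ((ω⁻¹).d • x) * θ x s * ((ω⁻¹).f ((ω⁻¹).d • x))⁻¹) = _
  rw [e1, one_smul, e2, hw x]
  change lamp x _ = lamp x (η x.1 s)
  congr 1
  rw [MulAut.mul_apply, MulAut.conj_apply]
  group

/-- A permutation commuting with `D` is determined by the indices of the images of the base points. -/
theorem perm_determined (hM : Marks L) {σ τ : Equiv.Perm (Pt L)} (hσ : ∀ (g : D) x, g • σ x = σ (g • x))
    (hτ : ∀ (g : D) x, g • τ x = τ (g • x)) (h : ∀ j, (σ (base j)).1 = (τ (base j)).1) : σ = τ := by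
  have hb : ∀ j, σ (base j) = τ (base j) := by
    intro j
    obtain ⟨e, he⟩ := exists_rep (σ (base j : Pt L))
    obtain ⟨e', he'⟩ := exists_rep (τ (base j : Pt L))
    have h1 : ∀ g, g ∈ L j ↔ e⁻¹ * g * e ∈ L (σ (base j)).1 := by
      intro g
      rw [mem_L_iff', mem_L_iff, ← he, hσ]
      exact σ.injective.eq_iff.symm
    have h2 : ∀ g, g ∈ L j ↔ e'⁻¹ * g * e' ∈ L (τ (base j)).1 := by
      intro g
      rw [mem_L_iff', mem_L_iff, ← he', hτ]
      exact τ.injective.eq_iff.symm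
    rw [← h j] at h2
    have h3 : e'⁻¹ * e ∈ L (σ (base j)).1 := by
      apply hM.self
      intro x
      have e1 := h1 (e * x * e⁻¹)
      have e2 := h2 (e * x * e⁻¹)
      have e3 : e⁻¹ * (e * x * e⁻¹) * e = x := by group
      have e4 : e'⁻¹ * (e * x * e⁻¹) * e' = e'⁻¹ * e * x * (e'⁻¹ * e)⁻¹ := by group
      rw [e3] at e1
      rw [e4] at e2
      rw [← e1, e2]
    rw [he, he']
    have : ∀ (i i' : J) (hi : i = i'), e'⁻¹ * e ∈ L i →
        (⟨i, (e : D ⧸ L i)⟩ : Pt L) = ⟨i', (e' : D ⧸ L i')⟩ := by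
      rintro i _ rfl h
      have : (e : D ⧸ L i) = (e' : D ⧸ L i) := (QuotientGroup.eq.2 h).symm
      rw [this]
    exact this _ _ (h j) h3
  apply Equiv.ext
  intro x
  obtain ⟨g, hg⟩ := exists_smul (show (base x.1 : Pt L).1 = x.1 from rfl)
  rw [← hg, ← hσ, ← hτ, hb]

theorem fin3 (hM : Marks L) [Finite J] : FinInn (S3 hM) := by
  choose σ θ h using exists_acts hM
  refine FinInn.step (A' := S4 hM) (J → J) (fun α j => (σ α (base j)).1) ?_ (fin4 hM)
  intro α hα β hβ hc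
  have eσ : ∀ {α}, psi hM α = 1 → ∀ (g : D) x, g • σ α x = σ α (g • x) := by
    intro α hα g x
    have := psi_equivariant hM (h α) g x
    rw [hα] at this
    exact this
  have hst : σ α = σ β := perm_determined hM (eσ hα) (eσ hβ) (fun j => congrFun hc j)
  refine ⟨?_, fun x => (θ β ((σ β)⁻¹ (σ α x)))⁻¹ * θ α x, ?_⟩
  · rw [map_mul, map_inv, show psi hM α = 1 from hα, show psi hM β = 1 from hβ]; simp
  · have h1 := (h α).comp (h β).inv
    rw [hst, inv_mul_cancel] at h1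
    intro x s
    rw [h1 x s, hst]

theorem fin2 (hM : Marks L) [Finite J] : FinInn (S2 hM) := by
  refine FinInn.inn ?_ (fin3 hM)
  rintro α ⟨g, hg⟩
  refine ⟨iota g⁻¹, ?_⟩
  change psi hM _ = 1
  rw [map_mul, psi_conj, hg, iota_d, map_inv, inv_mul_cancel]

theorem conj_map {G : Type} [Group G] (φ : MulAut G) (u : G) :
    MulAut.conj (φ u) = φ * MulAut.conj u * φ⁻¹ := by
  apply MulEquiv.ext
  intro x
  simp

theorem fin1 (hM : Marks L) (hA : AutFin L) [Finite J] : FinInn (S1 hM) := by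
  obtain ⟨E, hE, hA⟩ := hA
  have : Finite E := hE.to_subtype
  have hch : ∀ α ∈ S1 hM, ∃ e : E, ∃ g : D, psi hM α = MulAut.conj g * e := by
    intro α hα
    obtain ⟨e, he, g, hg⟩ := hA (psi hM α) hα
    exact ⟨⟨e, he⟩, g, hg⟩
  refine FinInn.step (A' := S2 hM) (Option E)
    (fun α => if h : α ∈ S1 hM then some (hch α h).choose else none) ?_ (fin2 hM)
  intro α hα β hβ hc
  simp only [dif_pos hα, dif_pos hβ, Option.some.injEq] at hc
  obtain ⟨g, hg⟩ := (hch α hα).choose_spec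
  obtain ⟨g', hg'⟩ := (hch β hβ).choose_spec
  rw [hc] at hg
  set e := (hch β hβ).choose
  refine ⟨(e : MulAut D)⁻¹ (g'⁻¹ * g), ?_⟩
  rw [map_mul, map_inv, hg, hg', conj_map, inv_inv, map_mul, map_inv]
  group

theorem fin0 (hM : Marks L) (hA : AutFin L) [Finite J] :
    FinInn (Set.univ : Set (MulAut (Gam L))) := by
  choose σ θ h using exists_acts hM
  refine FinInn.step (A' := S1 hM) (J → J) (fun α j => (σ α (base j)).1) ?_ (fin1 hM hA)
  intro α _ β _ hc j
  obtain ⟨e, he⟩ := class_of_acts hM (h α) j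
  obtain ⟨e', he'⟩ := class_of_acts hM (h β) j
  rw [← congrFun hc j] at he'
  refine ⟨(psi hM β)⁻¹ (e * e'⁻¹), ?_⟩
  apply map_eq_of_iff
  intro g
  rw [he g, he']
  have : e'⁻¹ * psi hM β (((psi hM β)⁻¹ (e * e'⁻¹))⁻¹ * psi hM (β⁻¹ * α) g * (psi hM β)⁻¹ (e * e'⁻¹)) * e' =
      e⁻¹ * psi hM α g * e := by
    rw [map_mul, map_mul, map_inv, MulAut.apply_inv_self, map_mul, MulAut.mul_apply, map_inv,
      MulAut.apply_inv_self]
    group
  rw [this]

end TE2

theorem e_out : E_out := by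
  intro G _ J _ L hM hA
  exact TE2.FinInn.finite (TE2.fin0 hM hA)

end Pool.Agent.Helper106.CG
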