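import Pool.Agent.Helper106.CG.Stmts

/-!
# Characteristic versus normal subgroup growth: growth types and the assembly
-/

namespace Pool.Agent.Helper106.CG

/-- `s_n^◁(Γ)`: the number of normal subgroups of (finite) index at most `n` -/
noncomputable def sNormal (Γ : Type) [Group Γ] (n : ℕ) : ℕ :=
  Set.ncard {N : Subgroup Γ | N.Normal ∧ N.index ≠ 0 ∧ N.index ≤ n}

/-- `s_n^ch(Γ)`: the number of characteristic subgroups of (finite) index at most `n` -/
noncomputable def sChar (Γ : Type) [Group Γ] (n : ℕ) : ℕ :=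
  Set.ncard {N : Subgroup Γ | N.Characteristic ∧ N.index ≠ 0 ∧ N.index ≤ n}

/-- `g` has growth type `f` -/
def GrowthType (g : ℕ → ℕ) (f : ℕ → ℝ) : Prop :=
  ∃ a b : ℝ, 0 < a ∧ 0 < b ∧ (∀ n, 1 ≤ n → (g n : ℝ) ≤ f n ^ a) ∧ ∀ N, ∃ n, N ≤ n ∧ f n ^ b ≤ (g n : ℝ)

/-- the characteristic and the normal subgroup growth of `Γ` have a common type -/
def SameTypes (Γ : Type) [Group Γ] : Prop :=
  ∃ f : ℕ → ℝ, (∀ n, 0 ≤ f n) ∧ GrowthType (sChar Γ) f ∧ GrowthType (sNormal Γ) f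

theorem not_sameTypes {Γ : Type} [Group Γ] (hpos : ∀ n, 1 ≤ n → 1 ≤ sNormal Γ n) (hposc : ∀ n, 1 ≤ n → 1 ≤ sChar Γ n)
    (h : ∀ K : ℕ, ∃ N, ∀ n, N ≤ n → sChar Γ n ^ K < sNormal Γ n) : ¬ SameTypes Γ := by
  rintro ⟨f, hf0, ⟨a, b, ha, hb, h1, h2⟩, ⟨a', b', ha', hb', h1', h2'⟩⟩
  -- sNormal ≤ f^a', f^b ≤ sChar infinitely often
  obtain ⟨K, hK⟩ := exists_nat_gt (a' / b)
  obtain ⟨N, hN⟩ := h K
  obtain ⟨n, hn, hn2⟩ := h2 (max N 1)
  have hnN := hN n ((le_max_left _ _).trans hn)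
  have hn1 : 1 ≤ n := (le_max_right _ _).trans hn
  have e1 := h1' n hn1
  have c1 : (1 : ℝ) ≤ sChar Γ n := by exact_mod_cast hposc n hn1
  have e2 : f n ^ a' ≤ (sChar Γ n : ℝ) ^ (a' / b) := by
    have : f n ^ a' = (f n ^ b) ^ (a' / b) := by
      rw [← Real.rpow_mul (hf0 n)]
      congr 1
      field_simp
    rw [this]
    exact Real.rpow_le_rpow (Real.rpow_nonneg (hf0 n) b) hn2 (by positivity)
  have e3 : (sChar Γ n : ℝ) ^ (a' / b) ≤ (sChar Γ n : ℝ) ^ (K : ℝ) :=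
    Real.rpow_le_rpow_of_exponent_le c1 hK.le
  rw [Real.rpow_natCast] at e3
  have e4 : ((sChar Γ n ^ K : ℕ) : ℝ) < (sNormal Γ n : ℝ) := by exact_mod_cast hnN
  push_cast at e4
  linarith

section numbers

variable (w : ℕ → ℕ) (c : ℕ) (hw0 : w 0 = 1) (hws : ∀ n, w (n + 1) = c * w n ^ 7) (hc : 2 ≤ c)
include hw0 hws hc

theorem w_pos (n : ℕ) : 1 ≤ w n := by
  induction n with
  | zero => omega
  | succ n ih =>
    rw [hws]
    have : 1 ≤ w n ^ 7 := Nat.one_le_pow _ _ ih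
    nlinarith

theorem w_double (n : ℕ) : 2 * w n ≤ w (n + 1) := by
  rw [hws]
  have h1 := w_pos w c hw0 hws hc n
  have : w n ≤ w n ^ 7 := Nat.le_self_pow (by norm_num) _
  exact Nat.mul_le_mul hc this

theorem w_strict : StrictMono w := by
  apply strictMono_nat_of_lt_succ
  intro n
  have h1 := w_pos w c hw0 hws hc n
  have h2 := w_double w c hw0 hws hc n
  omega

theorem w_two (n : ℕ) : 2 ^ (7 ^ n) ≤ w (n + 1) := by
  induction n with
  | zero => rw [hws, hw0]; simpa using hc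
  | succ n ih =>
    rw [hws (n + 1)]
    calc 2 ^ 7 ^ (n + 1) = (2 ^ 7 ^ n) ^ 7 := by rw [← pow_mul, pow_succ]
      _ ≤ w (n + 1) ^ 7 := Nat.pow_le_pow_left ih 7
      _ ≤ c * w (n + 1) ^ 7 := Nat.le_mul_of_pos_left _ (by omega)

theorem w_pow (n j : ℕ) : w n ^ (7 ^ j) ≤ w (n + j) := by
  induction j with
  | zero => simp
  | succ j ih =>
    rw [← add_assoc, hws]
    calc w n ^ 7 ^ (j + 1) = (w n ^ 7 ^ j) ^ 7 := by rw [← pow_mul, pow_succ]
      _ ≤ w (n + j) ^ 7 := Nat.pow_le_pow_left ih 7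
      _ ≤ c * w (n + j) ^ 7 := Nat.le_mul_of_pos_left _ (by omega)

theorem w_big (m R : ℕ) (hR : 2 * m + 4 ≤ R) : w (m + 1) * (p m) ^ (7 ^ (m + 1)) ≤ w R := by
  obtain ⟨j, rfl⟩ : ∃ j, R = (m + 1) + j := ⟨R - (m + 1), by omega⟩
  have hj : m + 3 ≤ j := by omega
  refine le_trans ?_ (w_pow w c hw0 hws hc (m + 1) j)
  have h7 : 1 ≤ 7 ^ j := Nat.one_le_pow _ _ (by norm_num)
  have e1 : w (m + 1) ^ 7 ^ j = w (m + 1) * w (m + 1) ^ (7 ^ j - 1) := by
    rw [← pow_succ']; congr 1; omega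
  rw [e1]
  apply Nat.mul_le_mul_left
  have key : 7 * ((m + 4) ^ 2 + 1) ≤ 7 ^ j - 1 := by
    have h3 : 7 * ((m + 4) ^ 2 + 1) + 1 ≤ 7 ^ (m + 3) := by
      clear hR hj e1
      induction m with
      | zero => norm_num
      | succ m ih =>
        have : 7 ^ (m + 1 + 3) = 7 * 7 ^ (m + 3) := by ring
        rw [this]
        nlinarith
    have h4 : 7 ^ (m + 3) ≤ 7 ^ j := Nat.pow_le_pow_right (by norm_num) hj
    omega
  calc (p m) ^ 7 ^ (m + 1) ≤ (2 ^ ((m + 4) ^ 2 + 1)) ^ 7 ^ (m + 1) := Nat.pow_le_pow_left (p_upper m) _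
    _ = 2 ^ (7 ^ m * (7 * ((m + 4) ^ 2 + 1))) := by rw [← pow_mul]; congr 1; ring
    _ ≤ 2 ^ (7 ^ m * (7 ^ j - 1)) := Nat.pow_le_pow_right (by norm_num) (Nat.mul_le_mul_left _ key)
    _ = (2 ^ 7 ^ m) ^ (7 ^ j - 1) := by rw [pow_mul]
    _ ≤ w (m + 1) ^ (7 ^ j - 1) := Nat.pow_le_pow_left (w_two w c hw0 hws hc m) _

theorem exists_level (n : ℕ) (hn : 1 ≤ n) : ∃ R, w R ≤ n ∧ n < w (R + 1) := by
  have hu : ∃ r, n < w r := by
    refine ⟨n + 1, ?_⟩
    have := (w_strict w c hw0 hws hc).le_apply (x := n + 1)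
    omega
  classical
  obtain ⟨R, hR⟩ : ∃ R, Nat.find hu = R + 1 := by
    refine ⟨Nat.find hu - 1, ?_⟩
    have : Nat.find hu ≠ 0 := by
      intro h0
      have := Nat.find_spec hu
      rw [h0, hw0] at this
      omega
    omega
  refine ⟨R, ?_, ?_⟩
  · have := Nat.find_min hu (m := R) (by omega)
    omega
  · have := Nat.find_spec hu
    rwa [hR] at this

end numbers

open Wr in
theorem NN_D_le {G : Type} [Group G] {J : Type} {L : J → Subgroup G} (n : ℕ)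
    (hfin : (NN (Gam L) n).Finite) (k : ℕ) (f : Fin k → Subgroup G) (hf : Function.Injective f)
    (hn : ∀ i, f i ∈ NN G n) : k ≤ (NN (Gam L) n).ncard := by
  classical
  have hmem : ∀ i, (f i).comap (pi : Gam L →* G) ∈ NN (Gam L) n := by
    intro i
    obtain ⟨h1, h2, h3⟩ := hn i
    refine ⟨h1.comap _, ?_, ?_⟩
    · rw [Subgroup.index_comap_of_surjective _ pi_surjective]; exact h2
    · rw [Subgroup.index_comap_of_surjective _ pi_surjective]; exact h3
  have hinj : Function.Injective (fun i => (f i).comap (pi : Gam L →* G)) := by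
    intro i j hij
    exact hf (Subgroup.comap_injective pi_surjective hij)
  have h1 : (Set.range (fun i => (f i).comap (pi : Gam L →* G))).ncard = k := by
    rw [← Set.image_univ, Set.ncard_image_of_injective _ hinj, Set.ncard_univ]
    simp
  calc k = (Set.range (fun i => (f i).comap (pi : Gam L →* G))).ncard := h1.symm
    _ ≤ _ := Set.ncard_le_ncard (by rintro _ ⟨i, rfl⟩; exact hmem i) hfin

open Wr in
/-- The assembly. -/
theorem main (hS : A_simple) (hidx : B_index) (hrig : B_rigid) (hDfg : D_fg)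
    (hup : D_upper) (hlow : D_lower) (hmarks : D_marks) (haut : D_aut) (hEfg : E_fg) (hEchar : E_char)
    (hEout : E_out) (hFfin : F_fin) :
    ∃ (Γ : Type) (_ : Group Γ), Group.FG Γ ∧ Finite (MulAut Γ ⧸ (MulAut.conj : Γ →* MulAut Γ).range) ∧
      (∀ n, {N : Subgroup Γ | N.Normal ∧ N.index ≠ 0 ∧ N.index ≤ n}.Finite) ∧
      (∀ K : ℕ, ∃ N, ∀ n, N ≤ n → sChar Γ n ^ K < sNormal Γ n) ∧ ¬ SameTypes Γ := by
  obtain ⟨z, hz⟩ := hrig
  have hM := (hmarks z).1
  have hphi := (hmarks z).2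
  have hfg : Group.FG (Gam (L z)) := hEfg D inferInstance (Fin 4) inferInstance (L z) hDfg
  have hout : Finite (MulAut (Gam (L z)) ⧸ (MulAut.conj : Gam (L z) →* MulAut (Gam (L z))).range) :=
    hEout D inferInstance (Fin 4) inferInstance (L z) hM (haut z hz)
  have hfinN : ∀ n, (NN (Gam (L z)) n).Finite := hFfin _ inferInstance hfg
  have hc : 2 ≤ Nat.card ↥S := by
    have : Nontrivial ↥S := (show IsSimpleGroup ↥S from hS).toNontrivial
    have := Finite.one_lt_card (α := ↥S)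
    omega
  set w : ℕ → ℕ := fun r => (St r).index with hwdef
  have hw0 : w 0 = 1 := hidx.1
  have hws : ∀ n, w (n + 1) = Nat.card ↥S * w n ^ 7 := hidx.2
  have hgrow : ∀ K : ℕ, ∃ N, ∀ n, N ≤ n → sChar (Gam (L z)) n ^ K < sNormal (Gam (L z)) n := by
    intro K
    refine ⟨w (8 * K + 4), fun n hn => ?_⟩
    have hn1 : 1 ≤ n := (w_pos w _ hw0 hws hc _).trans hn
    obtain ⟨R, hR1, hR2⟩ := exists_level w _ hw0 hws hc n hn1
    have hRK : 8 * K + 4 ≤ R := by
      by_contra hlt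
      have : w (R + 1) ≤ w (8 * K + 4) := (w_strict w _ hw0 hws hc).monotone (by omega)
      omega
    obtain ⟨m, hm1, hm2⟩ : ∃ m, 2 * m + 4 ≤ R ∧ R ≤ 2 * m + 5 := ⟨(R - 4) / 2, by omega, by omega⟩
    -- upper bound
    obtain ⟨hNIfin, hNIcard⟩ := hup R n hR2
    have hch := hEchar D inferInstance (Fin 4) inferInstance (L z) phi n hM.inf hphi hNIfin
    have h1 : sChar (Gam (L z)) n ≤ 2 ^ (2 * R + 6) := by
      calc sChar (Gam (L z)) n ≤ 2 ^ (Fintype.card (Fin 4)) * (NI D phi n).ncard := hch.2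
        _ ≤ 2 ^ 4 * 4 ^ (R + 1) := by
            rw [Fintype.card_fin]; exact Nat.mul_le_mul_left _ hNIcard
        _ = 2 ^ (2 * R + 6) := by
            rw [show (4 : ℕ) = 2 ^ 2 by norm_num, ← pow_mul, ← pow_add]; congr 1; ring
    -- lower bound
    obtain ⟨f, hf, hfN⟩ := hlow m
    have hpn : w (m + 1) * (p m) ^ (7 ^ (m + 1)) ≤ n :=
      (w_big w _ hw0 hws hc m R hm1).trans hR1
    have h2 : p m ≤ sNormal (Gam (L z)) n := by
      have e : Fin (p m) ≃ ZMod (p m) := by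
        haveI : NeZero (p m) := ⟨(p_prime m).ne_zero⟩
        exact (ZMod.finEquiv (p m)).toEquiv
      refine NN_D_le n (hfinN n) (p m) (fun i => f (e i)) (hf.comp e.injective) ?_
      intro i
      obtain ⟨g1, g2, g3⟩ := hfN (e i)
      exact ⟨g1, g2, g3.trans hpn⟩
    calc sChar (Gam (L z)) n ^ K ≤ (2 ^ (2 * R + 6)) ^ K := Nat.pow_le_pow_left h1 K
      _ = 2 ^ ((2 * R + 6) * K) := by rw [pow_mul]
      _ ≤ 2 ^ ((m + 4) ^ 2) := by
          apply Nat.pow_le_pow_right (by norm_num)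
          have : 2 * R + 6 ≤ 4 * (m + 4) := by omega
          have h4K : 4 * K ≤ m + 4 := by omega
          calc (2 * R + 6) * K ≤ 4 * (m + 4) * K := Nat.mul_le_mul_right _ this
            _ = (m + 4) * (4 * K) := by ring
            _ ≤ (m + 4) * (m + 4) := Nat.mul_le_mul_left _ h4K
            _ = (m + 4) ^ 2 := by ring
      _ < p m := p_lower m
      _ ≤ _ := h2
  have hposN : ∀ n, 1 ≤ n → 1 ≤ sNormal (Gam (L z)) n := by
    intro n hn
    have : (⊤ : Subgroup (Gam (L z))) ∈ NN (Gam (L z)) n := ⟨inferInstance, by simp, by simpa using hn⟩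
    exact (Set.ncard_pos (hfinN n)).2 ⟨_, this⟩
  have hposC : ∀ n, 1 ≤ n → 1 ≤ sChar (Gam (L z)) n := by
    intro n hn
    have hsub : NC (Gam (L z)) n ⊆ NN (Gam (L z)) n := by
      rintro N ⟨h1, h2, h3⟩
      exact ⟨inferInstance, h2, h3⟩
    have : (⊤ : Subgroup (Gam (L z))) ∈ NC (Gam (L z)) n :=
      ⟨Subgroup.topCharacteristic, by simp, by simpa using hn⟩
    exact (Set.ncard_pos ((hfinN n).subset hsub)).2 ⟨_, this⟩
  exact ⟨Gam (L z), inferInstance, hfg, hout, hfinN, hgrow, not_sameTypes hposN hposC hgrow⟩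

end Pool.Agent.Helper106.CG
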