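import Mathlib

/-!
# The rigidifying extension `Gam L = B ⋊ D`

`D` a group, `L : J → Subgroup D` a finite family of subgroups, `Pt L` the disjoint union of the `D ⧸ L j`,
`B` the group of functions `Pt L → Alt(5)` which are almost constant on each `D ⧸ L j`.
-/

namespace Pool.Agent.Helper106.CG.Wr

abbrev F := ↥(alternatingGroup (Fin 5))

section
variable {D : Type} [Group D] {J : Type} (L : J → Subgroup D)

/-- the points -/
abbrev Pt := (j : J) × (D ⧸ L j)

/-- almost constant functions -/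
def B : Subgroup (Pt L → F) where
  carrier := {f | ∀ j, ∃ c : F, {q : D ⧸ L j | f ⟨j, q⟩ ≠ c}.Finite}
  mul_mem' := by
    intro f g hf hg j
    obtain ⟨c, hc⟩ := hf j
    obtain ⟨c', hc'⟩ := hg j
    refine ⟨c * c', (hc.union hc').subset ?_⟩
    intro q hq
    by_contra h
    simp only [Set.mem_union, Set.mem_ofPred_eq, not_or, not_not] at h
    exact hq (by rw [Pi.mul_apply, h.1, h.2])
  one_mem' := by
    intro j
    exact ⟨1, by simp⟩
  inv_mem' := by
    intro f hf j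
    obtain ⟨c, hc⟩ := hf j
    refine ⟨c⁻¹, hc.subset ?_⟩
    intro q hq h
    exact hq (by rw [Pi.inv_apply, h])

theorem smul_B_mem (d : D) {f : Pt L → F} (hf : f ∈ B L) : (fun x => f (d⁻¹ • x)) ∈ B L := by
  intro j
  obtain ⟨c, hc⟩ := hf j
  refine ⟨c, ?_⟩
  have : {q : D ⧸ L j | f (d⁻¹ • (⟨j, q⟩ : Pt L)) ≠ c} = (fun q => d⁻¹ • q) ⁻¹' {q : D ⧸ L j | f ⟨j, q⟩ ≠ c} := rfl
  rw [this]
  exact hc.preimage ((MulAction.injective d⁻¹).injOn)

/-- `B ⋊ D` -/
@[ext] structure Gam where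
  f : Pt L → F
  mem : f ∈ B L
  d : D

variable {L}

instance : Group (Gam L) where
  mul a b := ⟨a.f * fun x => b.f (a.d⁻¹ • x), (B L).mul_mem a.mem (smul_B_mem L a.d b.mem), a.d * b.d⟩
  one := ⟨1, (B L).one_mem, 1⟩
  inv a := ⟨fun x => (a.f (a.d • x))⁻¹, by
    have := (B L).inv_mem (smul_B_mem L a.d⁻¹ a.mem)
    rw [inv_inv] at this
    exact this, a.d⁻¹⟩
  mul_assoc a b c := by
    apply Gam.ext
    · funext x
      change a.f x * b.f (a.d⁻¹ • x) * c.f ((a.d * b.d)⁻¹ • x) = a.f x * (b.f (a.d⁻¹ • x) * c.f (b.d⁻¹ • a.d⁻¹ • x))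
      rw [mul_inv_rev, mul_smul, mul_assoc]
    · exact mul_assoc _ _ _
  one_mul a := by
    apply Gam.ext
    · funext x
      change 1 * a.f ((1 : D)⁻¹ • x) = a.f x
      rw [inv_one, one_smul, one_mul]
    · exact one_mul _
  mul_one a := by
    apply Gam.ext
    · funext x
      change a.f x * 1 = a.f x
      rw [mul_one]
    · exact mul_one _
  inv_mul_cancel a := by
    apply Gam.ext
    · funext x
      change (a.f (a.d • x))⁻¹ * a.f ((a.d⁻¹)⁻¹ • x) = 1
      rw [inv_inv, inv_mul_cancel]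
    · exact inv_mul_cancel _

@[simp] theorem Gam_mul_f (a b : Gam L) (x : Pt L) : (a * b).f x = a.f x * b.f (a.d⁻¹ • x) := rfl
@[simp] theorem Gam_mul_d (a b : Gam L) : (a * b).d = a.d * b.d := rfl
@[simp] theorem Gam_one_f (x : Pt L) : (1 : Gam L).f x = 1 := rfl
@[simp] theorem Gam_one_d : (1 : Gam L).d = 1 := rfl
@[simp] theorem Gam_inv_f (a : Gam L) (x : Pt L) : (a⁻¹).f x = (a.f (a.d • x))⁻¹ := rfl
@[simp] theorem Gam_inv_d (a : Gam L) : (a⁻¹).d = a.d⁻¹ := rfl

/-- the projection onto `D` -/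
def pi : Gam L →* D where
  toFun a := a.d
  map_one' := rfl
  map_mul' _ _ := rfl

@[simp] theorem pi_apply (a : Gam L) : pi a = a.d := rfl

theorem pi_surjective : Function.Surjective (pi : Gam L →* D) := fun d => ⟨⟨1, (B L).one_mem, d⟩, rfl⟩

end

end Pool.Agent.Helper106.CG.Wr
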