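import Pool.Agent.Helper106.CG.Base
import Pool.Agent.Helper106.CG.WDefs

/-!
# Characteristic versus normal subgroup growth: statements of the tasks
-/

namespace Pool.Agent.Helper106.CG

/-! ## A: the Fano group -/

def A_trans : Prop := ∀ x y x' y' : Y, x ≠ y → x' ≠ y' → ∃ s ∈ S, s x = x' ∧ s y = y'

def A_perfect : Prop := commutator ↥S = ⊤

def A_simple : Prop := IsSimpleGroup ↥S

def A_norm : Prop := ∀ σ : Equiv.Perm Y, (∀ s ∈ S, σ * s * σ⁻¹ ∈ S) → σ ∈ S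

/-- the rank one operator `(t₁ - 1)(t₂ - 1)` -/
def A_rank : Prop := ∃ t₁ ∈ S, ∃ t₂ ∈ S, ∃ k k' : Y, k ≠ k' ∧
  ∀ (A : Type) (_ : AddCommGroup A) (f : Y → A) (j : Y),
    f (t₂⁻¹ (t₁⁻¹ j)) - f (t₁⁻¹ j) - f (t₂⁻¹ j) + f j =
      if j = k then (f k - f k') + (f k - f k') else if j = k' then -((f k - f k') + (f k - f k')) else 0

/-! ### A': linear algebra over the Fano group -/

/-- coinvariants vanish, for every coefficient group -/
def A_coinv : Prop := ∀ (A : Type) (_ : AddCommGroup A) (f : Y → A), ∑ y, f y = 0 →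
  f ∈ AddSubgroup.closure {g : Y → A | ∃ s ∈ S, ∃ h : Y → A, ∑ y, h y = 0 ∧ g = fun y => h (s⁻¹ y) - h y}

def A_fix : Prop := ∀ (q : ℕ), q.Prime → 7 < q → ∀ f : Y → ZMod q, ∑ y, f y = 0 →
  (∀ s ∈ S, ∀ y, f (s⁻¹ y) = f y) → f = 0

def A_irr : Prop := ∀ (q : ℕ), q.Prime → 7 < q → ∀ K : AddSubgroup (Y → ZMod q),
  (∀ f ∈ K, ∑ y, f y = 0) → (∀ s ∈ S, ∀ f ∈ K, (fun y => f (s⁻¹ y)) ∈ K) → K ≠ ⊥ →
  ∀ f : Y → ZMod q, ∑ y, f y = 0 → f ∈ K

/-! ## B: the tree group -/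

def B_inc : Prop := ∀ g : Y → Equiv.Perm Ray, (∀ y, g y ∈ T) → inc g ∈ T

def B_dec : Prop := ∀ t ∈ T, ∃ g : Y → Equiv.Perm Ray, (∀ y, g y ∈ T) ∧ ∃ s ∈ S, t = inc g * rooted s

def B_perfect : Prop := commutator ↥T = ⊤

/-- transitivity with trivial sections -/
def B_trans : Prop := ∀ (n : ℕ) (v v' : Ray), ∃ t ∈ T, ∀ z, t (app n v z) = app n v' z

def B_incAt : Prop := ∀ (n : ℕ) (v : Ray), ∀ t ∈ T, incAt n v t ∈ T

/-- how `incAt` acts (for any permutation `t`) -/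
def B_incAt_apply : Prop := ∀ (n : ℕ) (v : Ray) (t : Equiv.Perm Ray),
  (∀ z, incAt n v t (app n v z) = app n v (t z)) ∧
  (∀ z : Ray, (∃ i < n, z i ≠ v i) → incAt n v t z = z) ∧ (∀ z : Ray, ∀ i < n, incAt n v t z i = z i)

/-- sections belong to `T` -/
def B_sec : Prop := ∀ t ∈ T, ∀ (n : ℕ) (v : Ray), ∃ s ∈ T, ∀ z, t (app n v z) = app n (t v) (s z)

def B_St_succ : Prop := ∀ (n : ℕ) (t : ↥T), t ∈ St (n + 1) ↔
  ∃ g : Y → ↥T, (∀ y, g y ∈ St n) ∧ (t : Equiv.Perm Ray) = inc (fun y => (g y : Equiv.Perm Ray))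

def B_St_perfect : Prop := ∀ n : ℕ, ⁅St n, St n⁆ = St n

def B_index : Prop := (St 0).index = 1 ∧ ∀ n, (St (n + 1)).index = Nat.card ↥S * (St n).index ^ 7

/-- `St n` is normal, of finite index; every nontrivial normal subgroup is some `St n` -/
def B_normal : Prop := (∀ n, (St n).Normal) ∧ ∀ N : Subgroup ↥T, N.Normal → N ≠ ⊥ → ∃ n, N = St n

/-- nucleus -/
def B_nuc : Prop := ∀ t ∈ T, ∃ k : ℕ, ∀ v : Ray, ∃ s : Equiv.Perm Ray,
  ((∃ a ∈ S, s = rooted a) ∨ (∃ a ∈ S, s = dir a)) ∧ ∀ z, t (app k v z) = app k (t v) (s z)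

def B_fg : Prop := Group.FG ↥T

/-- the only ray fixed by the stabiliser of `z` is `z`; the index is infinite -/
def B_stab : Prop := ∀ z : Ray, (∀ z' : Ray, (∀ t ∈ T, t z = z → t z' = z') → z' = z) ∧
  (MulAction.stabilizer ↥T z).index = 0

/-- `z` is rigid -/
def Rigid (z : Ray) : Prop := ∀ (β : MulAut ↥T) (c : ↥T),
  (∀ u : ↥T, (u : Equiv.Perm Ray) z = z ↔ ((c⁻¹ * β u * c : ↥T) : Equiv.Perm Ray) z = z) →
  ∃ t : ↥T, ∀ u, β u = t * u * t⁻¹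

def B_rigid : Prop := ∃ z : Ray, Rigid z

/-! ## C: the module -/

def C_Mn_le : Prop := ∀ n, Mn n ≤ M

def C_irr : Prop := ∀ (n : ℕ) (K : AddSubgroup V), K ≤ Mn n → (∀ t ∈ T, ∀ x ∈ K, t • x ∈ K) → K = ⊥ ∨ K = Mn n

def C_prj : Prop := ∀ x ∈ M, ∀ n, prj n x ∈ Mn n

/-- no fixed vectors -/
def C_fix : Prop := ∀ x ∈ M, (∀ t ∈ T, t • x = x) → x = 0

/-- `T` acts faithfully on `M` -/
def C_faith : Prop := ∀ t ∈ T, (∀ x ∈ M, t • x = x) → t = 1

def C_Mn_card : Prop := ∀ n, Finite ↥(Mn n) ∧ 1 < Nat.card ↥(Mn n) ∧ Nat.card ↥(Mn n) ≤ (p n) ^ (7 ^ (n + 1))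

/-- `St r` acts trivially on the levels below `r`, and the coinvariants of the rest vanish -/
def C_coinv : Prop := (∀ (r : ℕ), ∀ t ∈ St r, ∀ x ∈ M, ∀ n < r, ∀ z, ((t : Equiv.Perm Ray) • x) n z = x n z) ∧
  ∀ r : ℕ, ∀ x ∈ M, (∀ n < r, ∀ z, x n z = 0) →
  x ∈ AddSubgroup.closure {y : V | ∃ t ∈ St r, ∃ x' ∈ M, y = (t : Equiv.Perm Ray) • x' - x'}

def C_end : Prop := ∀ f : ↥M →+ ↥M, (∀ (t : ↥T) (x : ↥M), f (t • x) = t • f x) →
  ∃ l : (n : ℕ) → ZMod (p n), ∀ (x : ↥M) (n : ℕ) (z : Ray), (f x : V) n z = l n * (x : V) n z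

def C_fg : Prop := ∃ X : Set V, X.Finite ∧ X ⊆ M ∧
  ∀ K : AddSubgroup V, (∀ t ∈ T, ∀ x ∈ K, t • x ∈ K) → X ⊆ K → M ≤ K

/-- the directed elements stabilise `Λ`; an element of `M` which is fixed by them modulo `Λ` is in `Λ`;
`Λ` has infinite index -/
def C_lam : Prop := (∀ a ∈ S, ∀ x : V, dir a • x ∈ Lam ↔ x ∈ Lam) ∧
  (∀ x ∈ M, (∀ a ∈ S, dir a • x - x ∈ Lam) → x ∈ Lam) ∧ (Lam.addSubgroupOf M).index = 0

/-- thinness of `Λ` -/
def C_thin : Prop := ∀ (a b : (n : ℕ) → ZMod (p n)) (τ : ↥T),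
  (∀ x ∈ Lam, ∀ y ∈ M, ∃ u ∈ Lam, ∀ (n : ℕ) (z : Ray),
    a n * x n z + b n * y n z = ((τ : Equiv.Perm Ray) • u) n z) →
  (∀ n, 1 ≤ n → b n = 0) ∧ ((∀ n, 1 ≤ n → a n ≠ 0) → ∃ c : ℤ, ∀ n, 1 ≤ n → a n = (c : ZMod (p n)))

/-! ## D: the group `D` -/

def D_fg : Prop := Group.FG D

/-- the normal subgroups of index at most `n` of a group -/
def NN (G : Type) [Group G] (n : ℕ) : Set (Subgroup G) := {N | N.Normal ∧ N.index ≠ 0 ∧ N.index ≤ n}

/-- the `φ`-invariant normal subgroups of index at most `n` of a group -/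
def NI (G : Type) [Group G] (φ : MulAut G) (n : ℕ) : Set (Subgroup G) :=
  {N | N.Normal ∧ N.map φ.toMonoidHom = N ∧ N.index ≠ 0 ∧ N.index ≤ n}

/-- the characteristic subgroups of index at most `n` of a group -/
def NC (G : Type) [Group G] (n : ℕ) : Set (Subgroup G) := {N | N.Characteristic ∧ N.index ≠ 0 ∧ N.index ≤ n}

def D_upper : Prop := ∀ R n : ℕ, n < (St (R + 1)).index → (NI D phi n).Finite ∧ (NI D phi n).ncard ≤ 4 ^ (R + 1)

def D_lower : Prop := ∀ m : ℕ, ∃ f : ZMod (p m) → Subgroup D, Function.Injective f ∧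
  ∀ c, f c ∈ NN D ((St (m + 1)).index * (p m) ^ (7 ^ (m + 1)))

/-- properties of the marks -/
structure Marks {G : Type} [Group G] {J : Type} (L : J → Subgroup G) : Prop where
  self : ∀ j, ∀ g : G, (∀ x, x ∈ L j ↔ g * x * g⁻¹ ∈ L j) → g ∈ L j
  inf : ∀ j, (L j).index = 0
  faith : ∀ g : G, (∀ j, ∀ e : G, e⁻¹ * g * e ∈ L j) → g = 1

def D_marks : Prop := ∀ z, Marks (L z) ∧ ∀ j, (L z j).map phi.toMonoidHom = L z j

/-- the automorphisms preserving the marks are inner up to a finite set -/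
def AutFin {G : Type} [Group G] {J : Type} (L : J → Subgroup G) : Prop :=
  ∃ E : Set (MulAut G), E.Finite ∧ ∀ α : MulAut G,
    (∀ j, ∃ g : G, (L j).map α.toMonoidHom = (L j).map (MulAut.conj g).toMonoidHom) →
    ∃ e ∈ E, ∃ g : G, α = MulAut.conj g * e

def D_aut : Prop := ∀ z, Rigid z → AutFin (L z)

/-! ## E: the rigidifying extension -/

open Wr in
def E_fg : Prop := ∀ (G : Type) (_ : Group G) (J : Type) (_ : Fintype J) (L : J → Subgroup G),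
  Group.FG G → Group.FG (Gam L)

open Wr in
def E_char : Prop := ∀ (G : Type) (_ : Group G) (J : Type) (_ : Fintype J) (L : J → Subgroup G) (φ : MulAut G) (n : ℕ),
  (∀ j, (L j).index = 0) → (∀ j, (L j).map φ.toMonoidHom = L j) → (NI G φ n).Finite →
  (NC (Gam L) n).Finite ∧ (NC (Gam L) n).ncard ≤ 2 ^ (Fintype.card J) * (NI G φ n).ncard

open Wr in
def E_out : Prop := ∀ (G : Type) (_ : Group G) (J : Type) (_ : Fintype J) (L : J → Subgroup G),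
  Marks L → AutFin L → Finite (MulAut (Gam L) ⧸ (MulAut.conj : Gam L →* MulAut (Gam L)).range)

/-! ## F -/

/-- a finitely generated group has finitely many normal subgroups of index at most `n` -/
def F_fin : Prop := ∀ (G : Type) (_ : Group G), Group.FG G → ∀ n, (NN G n).Finite

end Pool.Agent.Helper106.CG
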