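import Pool.Agent.Helper106.CG.Stmts

/-!
# Characteristic versus normal subgroup growth: task D1

`D` is finitely generated; few `phi`-invariant normal subgroups; many normal subgroups.
-/

namespace Pool.Agent.Helper106.CG

namespace TD1

/-! ## Preparation -/

/-- evaluation as an additive homomorphism -/
def ev (n : ℕ) (z : Ray) : V →+ ZMod (p n) where
  toFun x := x n z
  map_zero' := rfl
  map_add' _ _ := rfl

@[simp] theorem ev_apply (n : ℕ) (z : Ray) (x : V) : ev n z x = x n z := rfl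

theorem zsmul_apply (c : ℤ) (x : V) (n : ℕ) (z : Ray) : (c • x) n z = (c : ZMod (p n)) * x n z := by
  have := map_zsmul (ev n z) c x
  simpa using this

theorem nsmul_apply (c : ℕ) (x : V) (n : ℕ) (z : Ray) : (c • x) n z = (c : ZMod (p n)) * x n z := by
  have := map_nsmul (ev n z) c x
  simpa using this

theorem sum_apply {ι : Type} (s : Finset ι) (f : ι → V) (n : ℕ) (z : Ray) :
    (∑ i ∈ s, f i) n z = ∑ i ∈ s, f i n z := by
  exact map_sum (ev n z) f s

theorem prj_same (n : ℕ) (x : V) (z : Ray) : prj n x n z = x n z := by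
  unfold prj; rw [Pi.single_eq_same]

theorem prj_ne {n m : ℕ} (h : m ≠ n) (x : V) (z : Ray) : prj n x m z = 0 := by
  unfold prj; rw [Pi.single_eq_of_ne h]; rfl

theorem Mn_ne {n m : ℕ} (h : m ≠ n) {x : V} (hx : x ∈ Mn n) (z : Ray) : x m z = 0 := by
  refine AddSubgroup.closure_induction (p := fun x _ => x m z = 0) ?_ ?_ ?_ ?_ hx
  · rintro x ⟨v, u, _, rfl⟩
    unfold blk
    rw [Pi.single_eq_of_ne h]; rfl
  · rfl
  · intro x y _ _ hx hy; rw [V_add_apply, hx, hy, add_zero]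
  · intro x _ hx; rw [V_neg_apply, hx, neg_zero]

/-- first coordinates of the kernel -/
def Kx (N : Subgroup D) : AddSubgroup ↥M where
  carrier := {x | (⟨x, 0, 1⟩ : D) ∈ N}
  add_mem' := by
    intro a b ha hb
    have : (⟨a + b, 0, 1⟩ : D) = ⟨a, 0, 1⟩ * ⟨b, 0, 1⟩ := by ext1 <;> simp
    change (⟨a + b, 0, 1⟩ : D) ∈ N
    rw [this]; exact N.mul_mem ha hb
  zero_mem' := N.one_mem
  neg_mem' := by
    intro a ha
    have : (⟨-a, 0, 1⟩ : D) = (⟨a, 0, 1⟩ : D)⁻¹ := by ext1 <;> simp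
    change (⟨-a, 0, 1⟩ : D) ∈ N
    rw [this]; exact N.inv_mem ha

/-- second coordinates of the kernel -/
def Ky (N : Subgroup D) : AddSubgroup ↥M where
  carrier := {y | (⟨0, y, 1⟩ : D) ∈ N}
  add_mem' := by
    intro a b ha hb
    have : (⟨0, a + b, 1⟩ : D) = ⟨0, a, 1⟩ * ⟨0, b, 1⟩ := by ext1 <;> simp
    change (⟨0, a + b, 1⟩ : D) ∈ N
    rw [this]; exact N.mul_mem ha hb
  zero_mem' := N.one_mem
  neg_mem' := by
    intro a ha
    have : (⟨0, -a, 1⟩ : D) = (⟨0, a, 1⟩ : D)⁻¹ := by ext1 <;> simp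
    change (⟨0, -a, 1⟩ : D) ∈ N
    rw [this]; exact N.inv_mem ha

theorem mem_Kx {N : Subgroup D} {x : ↥M} : x ∈ Kx N ↔ (⟨x, 0, 1⟩ : D) ∈ N := Iff.rfl
theorem mem_Ky {N : Subgroup D} {x : ↥M} : x ∈ Ky N ↔ (⟨0, x, 1⟩ : D) ∈ N := Iff.rfl

theorem D_split (x y : ↥M) (t : ↥T) : (⟨x, y, t⟩ : D) = ⟨x, 0, 1⟩ * ⟨0, y, 1⟩ * ⟨0, 0, t⟩ := by
  ext1 <;> simp

theorem D_split2 (x y : ↥M) : (⟨x, y, 1⟩ : D) = ⟨x, 0, 1⟩ * ⟨0, y, 1⟩ := by
  ext1 <;> simp

/-! ## `D` is finitely generated -/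

theorem conj_x (t : ↥T) (x : ↥M) : (⟨t • x, 0, 1⟩ : D) = ⟨0, 0, t⟩ * ⟨x, 0, 1⟩ * (⟨0, 0, t⟩ : D)⁻¹ := by
  ext1 <;> simp

theorem conj_y (t : ↥T) (x : ↥M) : (⟨0, t • x, 1⟩ : D) = ⟨0, 0, t⟩ * ⟨0, x, 1⟩ * (⟨0, 0, t⟩ : D)⁻¹ := by
  ext1 <;> simp

/-- the section of `piT` -/
noncomputable def secT : ↥T →* D where
  toFun t := ⟨0, 0, t⟩
  map_one' := rfl
  map_mul' a b := by ext1 <;> simp

theorem d_fg (hT : B_fg) (hM : C_fg) : D_fg := by
  obtain ⟨A, hA, hAf⟩ := Group.fg_iff.1 hT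
  obtain ⟨X, hXf, hXM, hX⟩ := hM
  have hXM' : ∀ x ∈ X, x ∈ M := fun x hx => hXM hx
  -- finite generating set
  let X' : Set ↥M := {x | (x : V) ∈ X}
  have hX'f : X'.Finite := hXf.preimage (Subtype.val_injective.injOn)
  refine Group.fg_iff.2 ⟨(secT '' A) ∪ ((fun x : ↥M => (⟨x, 0, 1⟩ : D)) '' X') ∪
    ((fun x : ↥M => (⟨0, x, 1⟩ : D)) '' X'), ?_, ((hAf.image _).union (hX'f.image _)).union (hX'f.image _)⟩
  set H : Subgroup D := Subgroup.closure ((secT '' A) ∪ ((fun x : ↥M => (⟨x, 0, 1⟩ : D)) '' X') ∪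
    ((fun x : ↥M => (⟨0, x, 1⟩ : D)) '' X')) with hH
  have h1 : ∀ t : ↥T, (⟨0, 0, t⟩ : D) ∈ H := by
    intro t
    have : (⊤ : Subgroup ↥T) ≤ H.comap secT := by
      rw [← hA, Subgroup.closure_le]
      intro a ha
      exact Subgroup.subset_closure (Or.inl (Or.inl ⟨a, ha, rfl⟩))
    exact this (Subgroup.mem_top t)
  have hx : ∀ x : ↥M, x ∈ Kx H := by
    have key : M ≤ (Kx H).map M.subtype := by
      apply hX
      · rintro t ht _ ⟨x, hx, rfl⟩
        refine ⟨(⟨t, ht⟩ : ↥T) • x, ?_, rfl⟩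
        change (⟨(⟨t, ht⟩ : ↥T) • x, 0, 1⟩ : D) ∈ H
        rw [conj_x]
        exact H.mul_mem (H.mul_mem (h1 _) hx) (H.inv_mem (h1 _))
      · intro x hx
        exact ⟨⟨x, hXM' x hx⟩, Subgroup.subset_closure (Or.inl (Or.inr ⟨⟨x, hXM' x hx⟩, hx, rfl⟩)), rfl⟩
    intro x
    obtain ⟨x', hx', e⟩ := key x.2
    have : x' = x := Subtype.ext e
    rw [← this]; exact hx'
  have hy : ∀ x : ↥M, x ∈ Ky H := by
    have key : M ≤ (Ky H).map M.subtype := by
      apply hX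
      · rintro t ht _ ⟨x, hx, rfl⟩
        refine ⟨(⟨t, ht⟩ : ↥T) • x, ?_, rfl⟩
        change (⟨0, (⟨t, ht⟩ : ↥T) • x, 1⟩ : D) ∈ H
        rw [conj_y]
        exact H.mul_mem (H.mul_mem (h1 _) hx) (H.inv_mem (h1 _))
      · intro x hx
        exact ⟨⟨x, hXM' x hx⟩, Subgroup.subset_closure (Or.inr ⟨⟨x, hXM' x hx⟩, hx, rfl⟩), rfl⟩
    intro x
    obtain ⟨x', hx', e⟩ := key x.2
    have : x' = x := Subtype.ext e
    rw [← this]; exact hx'
  rw [eq_top_iff]
  rintro ⟨x, y, t⟩ -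
  rw [D_split]
  exact H.mul_mem (H.mul_mem (hx x) (hy y)) (h1 t)

/-! ## The lower bound -/

/-- the normal subgroups `N_c` -/
def Nc (hc : C_coinv) (m : ℕ) (c : ZMod (p m)) : Subgroup D where
  carrier := {d | d.t ∈ St (m + 1) ∧ ∀ z, (d.y : V) m z = c * (d.x : V) m z}
  mul_mem' := by
    rintro a b ⟨ha, ha'⟩ ⟨hb, hb'⟩
    refine ⟨(St (m + 1)).mul_mem ha hb, fun z => ?_⟩
    rw [D_mul_y, D_mul_x, AddSubgroup.coe_add, AddSubgroup.coe_add, V_add_apply, V_add_apply,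
      coe_smul_M, coe_smul_M, hc.1 (m + 1) a.t ha _ b.y.2 m (by omega) z,
      hc.1 (m + 1) a.t ha _ b.x.2 m (by omega) z, ha', hb']
    ring
  one_mem' := ⟨(St (m + 1)).one_mem, fun z => by simp⟩
  inv_mem' := by
    rintro a ⟨ha, ha'⟩
    refine ⟨(St (m + 1)).inv_mem ha, fun z => ?_⟩
    rw [D_inv_y, D_inv_x, AddSubgroup.coe_neg, AddSubgroup.coe_neg, V_neg_apply, V_neg_apply,
      coe_smul_M, coe_smul_M, hc.1 (m + 1) a.t⁻¹ ((St (m + 1)).inv_mem ha) _ a.y.2 m (by omega) z,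
      hc.1 (m + 1) a.t⁻¹ ((St (m + 1)).inv_mem ha) _ a.x.2 m (by omega) z, ha']
    ring

theorem mem_Nc {hc : C_coinv} {m : ℕ} {c : ZMod (p m)} {d : D} :
    d ∈ Nc hc m c ↔ d.t ∈ St (m + 1) ∧ ∀ z, (d.y : V) m z = c * (d.x : V) m z := Iff.rfl

theorem Nc_normal (hn : B_normal) (hc : C_coinv) (m : ℕ) (c : ZMod (p m)) : (Nc hc m c).Normal := by
  constructor
  intro n hn' g
  rw [mem_Nc] at hn' ⊢
  obtain ⟨h1, h2⟩ := hn'
  have h3 : g.t * n.t * g.t⁻¹ ∈ St (m + 1) := (hn.1 (m + 1)).conj_mem _ h1 _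
  refine ⟨h3, fun z => ?_⟩
  have ex : (g * n * g⁻¹).x = g.x + g.t • n.x - (g.t * n.t * g.t⁻¹) • g.x := by
    simp [mul_smul, sub_eq_add_neg]
  have ey : (g * n * g⁻¹).y = g.y + g.t • n.y - (g.t * n.t * g.t⁻¹) • g.y := by
    simp [mul_smul, sub_eq_add_neg]
  rw [ex, ey, AddSubgroup.coe_sub, AddSubgroup.coe_sub, V_sub_apply, V_sub_apply, AddSubgroup.coe_add,
    AddSubgroup.coe_add, V_add_apply, V_add_apply, coe_smul_M, coe_smul_M, coe_smul_M, coe_smul_M,
    hc.1 (m + 1) _ h3 _ g.y.2 m (by omega) z, hc.1 (m + 1) _ h3 _ g.x.2 m (by omega) z,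
    V_smul_apply, V_smul_apply, h2]
  ring

theorem St_index_ne (hi : B_index) (n : ℕ) : (St n).index ≠ 0 := by
  induction n with
  | zero => rw [hi.1]; norm_num
  | succ n ih =>
    rw [hi.2]
    exact mul_ne_zero Nat.card_pos.ne' (pow_ne_zero _ ih)

theorem d_lower (hi : B_index) (hn : B_normal) (hp : C_prj) (hcard : C_Mn_card) (hc : C_coinv) (hle : C_Mn_le) :
    D_lower := by
  intro m
  refine ⟨fun c => Nc hc m c, ?_, ?_⟩
  · intro c c' h
    dsimp only at h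
    by_contra hcc
    -- a nonzero element of `Mn m`
    have := (hcard m).1
    have : Nontrivial ↥(Mn m) := Finite.one_lt_card_iff_nontrivial.1 (hcard m).2.1
    obtain ⟨x, hx⟩ := exists_ne (0 : ↥(Mn m))
    apply hx
    let xM : ↥M := ⟨x, hle m x.2⟩
    have h1 : (⟨xM, c.val • xM, 1⟩ : D) ∈ Nc hc m c := by
      refine ⟨(St (m + 1)).one_mem, fun z => ?_⟩
      change ((c.val • xM : ↥M) : V) m z = c * (xM : V) m z
      rw [AddSubgroup.coe_nsmul, nsmul_apply, ZMod.natCast_zmod_val]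
    rw [h] at h1
    have h2 := h1.2
    apply Subtype.ext
    apply V_ext
    intro n z
    by_cases hnm : n = m
    · subst hnm
      have h3 := h2 z
      change ((c.val • xM : ↥M) : V) n z = c' * (xM : V) n z at h3
      rw [AddSubgroup.coe_nsmul, nsmul_apply, ZMod.natCast_zmod_val] at h3
      have h4 : (c - c') * (xM : V) n z = 0 := by rw [sub_mul, h3, sub_self]
      rcases mul_eq_zero.1 h4 with h5 | h5
      · exact absurd (sub_eq_zero.1 h5) hcc
      · exact h5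
    · exact Mn_ne hnm x.2 z
  · intro c
    have := (hcard m).1
    have hne := St_index_ne hi (m + 1)
    have : Finite (↥T ⧸ St (m + 1)) := Nat.finite_of_card_ne_zero hne
    -- injection of the quotient
    have inv : ∀ d : D, prj m ((d.y : V) - c.val • (d.x : V)) ∈ Mn m := fun d =>
      hp _ (M.sub_mem d.y.2 (M.nsmul_mem d.x.2 _)) m
    let F : D → (↥T ⧸ St (m + 1)) × ↥(Mn m) := fun d => ((d.t : ↥T ⧸ St (m + 1)), ⟨_, inv d⟩)
    have hF : ∀ a b : D, F a = F b ↔ a⁻¹ * b ∈ Nc hc m c := by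
      intro a b
      rw [mem_Nc]
      change (((a.t : ↥T ⧸ St (m + 1)), (⟨_, inv a⟩ : ↥(Mn m))) = ((b.t : ↥T ⧸ St (m + 1)), (⟨_, inv b⟩ : ↥(Mn m)))) ↔ _
      rw [Prod.mk.injEq, QuotientGroup.eq, Subtype.mk.injEq]
      have e1 : (a⁻¹ * b).t = a.t⁻¹ * b.t := rfl
      have e2 : (a⁻¹ * b).y = a.t⁻¹ • (b.y - a.y) := by
        rw [D_mul_y, D_inv_y, D_inv_t, smul_sub]; abel
      have e3 : (a⁻¹ * b).x = a.t⁻¹ • (b.x - a.x) := by
        rw [D_mul_x, D_inv_x, D_inv_t, smul_sub]; abel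
      rw [e1, e2, e3]
      refine and_congr_right fun _ => ?_
      constructor
      · intro h z
        have h' := congrFun (congrFun h m) ((a.t : Equiv.Perm Ray) z)
        rw [prj_same, prj_same, V_sub_apply, V_sub_apply, nsmul_apply, nsmul_apply,
          ZMod.natCast_zmod_val] at h'
        rw [coe_smul_M, coe_smul_M, V_smul_apply, V_smul_apply, Subgroup.coe_inv, inv_inv,
          AddSubgroup.coe_sub, AddSubgroup.coe_sub, V_sub_apply, V_sub_apply]
        linear_combination -h'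
      · intro h
        apply V_ext
        intro n z
        by_cases hnm : n = m
        · subst hnm
          have h' := h ((a.t : Equiv.Perm Ray)⁻¹ z)
          rw [coe_smul_M, coe_smul_M, V_smul_apply, V_smul_apply, Subgroup.coe_inv, inv_inv,
            show (a.t : Equiv.Perm Ray) ((a.t : Equiv.Perm Ray)⁻¹ z) = z from
              Equiv.apply_symm_apply (a.t : Equiv.Perm Ray) z,
            AddSubgroup.coe_sub, AddSubgroup.coe_sub, V_sub_apply, V_sub_apply] at h'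
          rw [prj_same, prj_same, V_sub_apply, V_sub_apply, nsmul_apply, nsmul_apply,
            ZMod.natCast_zmod_val]
          linear_combination -h'
        · rw [prj_ne hnm, prj_ne hnm]
    let Q : D ⧸ Nc hc m c → (↥T ⧸ St (m + 1)) × ↥(Mn m) :=
      Quotient.lift F (fun a b hab => (hF a b).2 (QuotientGroup.leftRel_apply.1 hab))
    have hQ : Function.Injective Q := by
      intro a b
      induction a using QuotientGroup.induction_on with
      | _ a =>
      induction b using QuotientGroup.induction_on with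
      | _ b =>
      intro h
      exact QuotientGroup.eq.2 ((hF a b).1 h)
    have : Finite (D ⧸ Nc hc m c) := Finite.of_injective Q hQ
    refine ⟨Nc_normal hn hc m c, ?_, ?_⟩
    · exact Nat.card_pos.ne'
    · have h1 := Nat.card_le_card_of_injective Q hQ
      rw [Nat.card_prod] at h1
      refine h1.trans ?_
      exact Nat.mul_le_mul le_rfl (hcard m).2.2

/-! ## The upper bound -/

theorem St_anti {m n : ℕ} (h : m ≤ n) : St n ≤ St m := fun _ ht z i hi => ht z i (hi.trans_le h)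

theorem two_le_S (ht : A_trans) : 2 ≤ Nat.card ↥S := by
  obtain ⟨s, hs, h1, _⟩ := ht 0 1 1 0 (by decide) (by decide)
  have : Nontrivial ↥S := ⟨⟨⟨s, hs⟩, 1, fun h => by
    have h2 : s = 1 := congrArg Subtype.val h
    rw [h2] at h1
    exact absurd h1 (by decide)⟩⟩
  exact Finite.one_lt_card_iff_nontrivial.2 this

theorem lt_index (ht : A_trans) (hi : B_index) (n : ℕ) : n < (St n).index := by
  induction n with
  | zero => rw [hi.1]; norm_num
  | succ n ih =>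
    rw [hi.2]
    have h1 := two_le_S ht
    have h2 : (St n).index ≤ (St n).index ^ 7 := Nat.le_self_pow (by norm_num) _
    calc n + 1 < 2 * (St n).index := by omega
      _ ≤ Nat.card ↥S * (St n).index ^ 7 := Nat.mul_le_mul h1 h2

/-- the image of a normal subgroup of finite index -/
theorem image (ht : A_trans) (hi : B_index) (hn : B_normal) {N : Subgroup D} (hN : N.Normal) (h0 : N.index ≠ 0) :
    ∃ r, N.map piT = St r ∧ (St r).index ≤ N.index := by
  have hsurj : Function.Surjective piT := fun t => ⟨⟨0, 0, t⟩, rfl⟩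
  have hnorm : (N.map piT).Normal := hN.map piT hsurj
  have hdvd : (N.map piT).index ∣ N.index := Subgroup.index_map_dvd N hsurj
  have hne : (N.map piT).index ≠ 0 := fun h => h0 (by rw [h] at hdvd; exact zero_dvd_iff.1 hdvd)
  have hbot : N.map piT ≠ ⊥ := by
    intro hb
    rw [hb] at hne
    have h1 : (St ((⊥ : Subgroup ↥T).index)).index ∣ (⊥ : Subgroup ↥T).index :=
      Subgroup.index_dvd_of_le bot_le
    have h2 := Nat.le_of_dvd (Nat.pos_of_ne_zero hne) h1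
    have h3 := lt_index ht hi ((⊥ : Subgroup ↥T).index)
    omega
  obtain ⟨r, hr⟩ := hn.2 _ hnorm hbot
  refine ⟨r, hr, ?_⟩
  rw [← hr]
  exact Nat.le_of_dvd (Nat.pos_of_ne_zero h0) hdvd

section
variable {N : Subgroup D} {r : ℕ}

theorem exists_lift (hr : N.map piT = St r) {t : ↥T} (ht : t ∈ St r) : ∃ a b : ↥M, (⟨a, b, t⟩ : D) ∈ N := by
  rw [← hr] at ht
  obtain ⟨⟨a, b, t'⟩, hd, e⟩ := ht
  have : t' = t := e
  subst this
  exact ⟨a, b, hd⟩

/-- `(t - 1) M` is in the kernel -/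
theorem sub_mem_Kx (hN : N.Normal) (hr : N.map piT = St r) {t : ↥T} (ht : t ∈ St r) (x : ↥M) :
    t • x - x ∈ Kx N := by
  obtain ⟨a, b, hd⟩ := exists_lift hr ht
  have h1 := N.mul_mem (hN.conj_mem _ hd (⟨-x, 0, 1⟩ : D)) (N.inv_mem hd)
  have : (⟨-x, 0, 1⟩ : D) * ⟨a, b, t⟩ * (⟨-x, 0, 1⟩ : D)⁻¹ * (⟨a, b, t⟩ : D)⁻¹ = ⟨t • x - x, 0, 1⟩ := by
    ext1
    · simp; abel
    · simp
    · simp
  rw [this] at h1
  exact h1

theorem sub_mem_Ky (hN : N.Normal) (hr : N.map piT = St r) {t : ↥T} (ht : t ∈ St r) (x : ↥M) :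
    t • x - x ∈ Ky N := by
  obtain ⟨a, b, hd⟩ := exists_lift hr ht
  have h1 := N.mul_mem (hN.conj_mem _ hd (⟨0, -x, 1⟩ : D)) (N.inv_mem hd)
  have : (⟨0, -x, 1⟩ : D) * ⟨a, b, t⟩ * (⟨0, -x, 1⟩ : D)⁻¹ * (⟨a, b, t⟩ : D)⁻¹ = ⟨0, t • x - x, 1⟩ := by
    ext1
    · simp
    · simp; abel
    · simp
  rw [this] at h1
  exact h1

/-- the levels from `r` on are in the kernel -/
theorem high_mem (hc : C_coinv) {K : AddSubgroup ↥M} (hK : ∀ t ∈ St r, ∀ x : ↥M, t • x - x ∈ K) (x : ↥M)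
    (hx : ∀ n < r, ∀ z, (x : V) n z = 0) : x ∈ K := by
  have h1 := hc.2 r x x.2 hx
  have h2 : AddSubgroup.closure {y : V | ∃ t ∈ St r, ∃ x' ∈ M, y = (t : Equiv.Perm Ray) • x' - x'} ≤ K.map M.subtype := by
    rw [AddSubgroup.closure_le]
    rintro _ ⟨t, ht, x', hx', rfl⟩
    exact ⟨t • ⟨x', hx'⟩ - ⟨x', hx'⟩, hK t ht _, rfl⟩
  obtain ⟨x', hx', e⟩ := h2 h1
  have : x' = x := Subtype.ext e
  rw [← this]; exact hx'

/-- `St r` is in the subgroup -/
theorem St_mem (hN : N.Normal) (hr : N.map piT = St r) (hperf : B_St_perfect) {t : ↥T} (ht : t ∈ St r) :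
    (⟨0, 0, t⟩ : D) ∈ N := by
  have key : ⁅St r, St r⁆ ≤ N.comap secT := by
    rw [Subgroup.commutator_le]
    intro s hs t ht
    obtain ⟨a, b, hd⟩ := exists_lift hr hs
    obtain ⟨a', b', hd'⟩ := exists_lift hr ht
    change (⟨0, 0, s * t * s⁻¹ * t⁻¹⟩ : D) ∈ N
    have h1 : (⟨a, b, s⟩ : D) * ⟨a', b', t⟩ * (⟨a, b, s⟩ : D)⁻¹ * (⟨a', b', t⟩ : D)⁻¹ ∈ N :=
      N.mul_mem (N.mul_mem (N.mul_mem hd hd') (N.inv_mem hd)) (N.inv_mem hd')
    have hst : s * t * s⁻¹ ∈ St r := (St r).mul_mem ((St r).mul_mem hs ht) ((St r).inv_mem hs)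
    have hst' : s * t * s⁻¹ * t⁻¹ ∈ St r := (St r).mul_mem hst ((St r).inv_mem ht)
    have hx : -((s * t * s⁻¹) • a - a) + (s • a' - a') - ((s * t * s⁻¹ * t⁻¹) • a' - a') ∈ Kx N :=
      (Kx N).sub_mem ((Kx N).add_mem ((Kx N).neg_mem (sub_mem_Kx hN hr hst a)) (sub_mem_Kx hN hr hs a'))
        (sub_mem_Kx hN hr hst' a')
    have hy : -((s * t * s⁻¹) • b - b) + (s • b' - b') - ((s * t * s⁻¹ * t⁻¹) • b' - b') ∈ Ky N :=
      (Ky N).sub_mem ((Ky N).add_mem ((Ky N).neg_mem (sub_mem_Ky hN hr hst b)) (sub_mem_Ky hN hr hs b'))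
        (sub_mem_Ky hN hr hst' b')
    have h2 := N.mul_mem (N.mul_mem (N.inv_mem (mem_Kx.1 hx)) (N.inv_mem (mem_Ky.1 hy))) h1
    convert h2 using 1
    ext1
    · simp [mul_smul]; abel
    · simp [mul_smul]; abel
    · simp
  rw [hperf r] at key
  exact key ht

end

/-- a multiplier which extracts one level -/
theorem crt (r n : ℕ) : ∃ c : ℤ, (2 * (c : ZMod (p n)) = 1) ∧ ∀ m < r, m ≠ n → (c : ZMod (p m)) = 0 := by
  set P : ℕ := ∏ m ∈ (Finset.range r).erase n, p m with hP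
  have hPne : (P : ZMod (p n)) ≠ 0 := by
    rw [hP, Nat.cast_prod, Finset.prod_ne_zero_iff]
    intro m hm h
    rw [ZMod.natCast_eq_zero_iff, Nat.prime_dvd_prime_iff_eq (p_prime n) (p_prime m)] at h
    exact (Finset.mem_erase.1 hm).1 (p_strictMono.injective h).symm
  have h2 : (2 : ZMod (p n)) ≠ 0 := by
    intro h
    have h' : ((2 : ℕ) : ZMod (p n)) = 0 := by exact_mod_cast h
    rw [ZMod.natCast_eq_zero_iff] at h'
    have := Nat.le_of_dvd (by norm_num) h'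
    have := p_large n
    omega
  refine ⟨((((2 * P : ZMod (p n))⁻¹).val * P : ℕ) : ℤ), ?_, ?_⟩
  · push_cast
    rw [ZMod.natCast_zmod_val]
    field_simp
  · intro m hm hmn
    push_cast
    have : (P : ZMod (p m)) = 0 := by
      rw [ZMod.natCast_eq_zero_iff]
      exact Finset.dvd_prod_of_mem _ (Finset.mem_erase.2 ⟨hmn, Finset.mem_range.2 hm⟩)
    rw [this, mul_zero]

/-- the projection inside `M` -/
noncomputable def pm (hp : C_prj) (hle : C_Mn_le) (n : ℕ) (x : ↥M) : ↥M := ⟨prj n x, hle n (hp x x.2 n)⟩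

/-- extraction of one level from an additive subgroup -/
theorem pm_mem (hp : C_prj) (hle : C_Mn_le) (hc : C_coinv) {K : AddSubgroup ↥M} {r : ℕ}
    (hK : ∀ t ∈ St r, ∀ x : ↥M, t • x - x ∈ K) {x : ↥M} (hx : x + x ∈ K) {n : ℕ} :
    pm hp hle n x ∈ K := by
  obtain ⟨c, hc1, hc2⟩ := crt r n
  have h1 : c • (x + x) ∈ K := K.zsmul_mem hx c
  have h2 : c • (x + x) - pm hp hle n x ∈ K := by
    apply high_mem hc hK
    intro m hm z
    rw [AddSubgroup.coe_sub, V_sub_apply, AddSubgroup.coe_zsmul, zsmul_apply, AddSubgroup.coe_add, V_add_apply]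
    change (c : ZMod (p m)) * _ - prj n x m z = 0
    by_cases hmn : m = n
    · subst hmn
      rw [prj_same]
      linear_combination ((x : V) m z) * hc1
    · rw [prj_ne hmn, hc2 m hm hmn]; ring
  have h3 := K.sub_mem h1 h2
  rwa [sub_sub_cancel] at h3

/-- `x` is the sum of its levels below `r` and of the rest -/
theorem mem_of_levels (hp : C_prj) (hle : C_Mn_le) (hc : C_coinv) {K : AddSubgroup ↥M} {r : ℕ}
    (hK : ∀ t ∈ St r, ∀ x : ↥M, t • x - x ∈ K) {x : ↥M} (hx : ∀ n < r, pm hp hle n x ∈ K) : x ∈ K := by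
  have h1 : ∑ n ∈ Finset.range r, pm hp hle n x ∈ K :=
    K.sum_mem fun n hn => hx n (Finset.mem_range.1 hn)
  have h2 : x - ∑ n ∈ Finset.range r, pm hp hle n x ∈ K := by
    apply high_mem hc hK
    intro m hm z
    rw [AddSubgroup.coe_sub, V_sub_apply]
    have e : ((∑ n ∈ Finset.range r, pm hp hle n x : ↥M) : V) = ∑ n ∈ Finset.range r, prj n (x : V) := by
      rw [AddSubgroup.val_finsetSum]; rfl
    rw [e, sum_apply, Finset.sum_eq_single m]
    · rw [prj_same, sub_self]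
    · intro n _ hn
      exact prj_ne (Ne.symm hn) _ _
    · intro h; exact absurd (Finset.mem_range.2 hm) h
  have h3 := K.add_mem h2 h1
  rwa [sub_add_cancel] at h3

/-- dichotomy at each level -/
theorem level (hp : C_prj) (hle : C_Mn_le) (hirr : C_irr) (K : AddSubgroup ↥M)
    (hKT : ∀ (t : ↥T), ∀ x ∈ K, t • x ∈ K) (n : ℕ) :
    (∀ x : ↥M, pm hp hle n x ∈ K → ∀ z, (x : V) n z = 0) ∨ (∀ x : ↥M, pm hp hle n x ∈ K) := by
  let K' : AddSubgroup V := K.map M.subtype ⊓ Mn n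
  have hT : ∀ t ∈ T, ∀ x ∈ K', t • x ∈ K' := by
    rintro t ht _ ⟨⟨x, hx, rfl⟩, hx2⟩
    exact ⟨⟨(⟨t, ht⟩ : ↥T) • x, hKT _ x hx, rfl⟩, smul_Mn_mem ht hx2⟩
  rcases hirr n K' inf_le_right hT with h | h
  · left
    intro x hx z
    have : prj n (x : V) ∈ K' := ⟨⟨_, hx, rfl⟩, hp x x.2 n⟩
    rw [h, AddSubgroup.mem_bot] at this
    rw [← prj_same n (x : V) z, this, V_zero_apply]
  · right
    intro x
    have : prj n (x : V) ∈ K' := by rw [h]; exact hp x x.2 n
    obtain ⟨x', hx', e⟩ := this.1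
    have e' : x' = pm hp hle n x := Subtype.ext e
    rw [← e']; exact hx'

open Classical in
/-- the levels which belong to `K` -/
noncomputable def fl (hp : C_prj) (hle : C_Mn_le) (r : ℕ) (K : AddSubgroup ↥M) : Finset ℕ :=
  (Finset.range r).filter fun n => ∀ x : ↥M, pm hp hle n x ∈ K

open Classical in
theorem mem_fl {hp : C_prj} {hle : C_Mn_le} {r : ℕ} {K : AddSubgroup ↥M} {n : ℕ} :
    n ∈ fl hp hle r K ↔ n < r ∧ ∀ x : ↥M, pm hp hle n x ∈ K := by
  unfold fl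
  rw [Finset.mem_filter, Finset.mem_range]

theorem fl_sub (hp : C_prj) (hle : C_Mn_le) (r : ℕ) (K : AddSubgroup ↥M) : fl hp hle r K ⊆ Finset.range r :=
  fun _ h => Finset.mem_range.2 (mem_fl.1 h).1

/-- description of the kernel -/
theorem mem_K_iff (hp : C_prj) (hle : C_Mn_le) (hc : C_coinv) (hirr : C_irr) {K : AddSubgroup ↥M} {r : ℕ}
    (hKT : ∀ (t : ↥T), ∀ x ∈ K, t • x ∈ K) (hK : ∀ t ∈ St r, ∀ x : ↥M, t • x - x ∈ K) (x : ↥M) :
    x ∈ K ↔ ∀ n < r, n ∉ fl hp hle r K → ∀ z, (x : V) n z = 0 := by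
  constructor
  · intro hx n hn hf
    rcases level hp hle hirr K hKT n with h | h
    · exact h x (pm_mem hp hle hc hK (K.add_mem hx hx))
    · exact absurd (mem_fl.2 ⟨hn, h⟩) hf
  · intro h
    apply mem_of_levels hp hle hc hK
    intro n hn
    by_cases hf : n ∈ fl hp hle r K
    · exact (mem_fl.1 hf).2 x
    · have h1 := h n hn hf
      have : pm hp hle n x = 0 := by
        apply Subtype.ext
        apply V_ext
        intro m z
        change prj n (x : V) m z = 0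
        by_cases hmn : m = n
        · subst hmn; rw [prj_same]; exact h1 z
        · exact prj_ne hmn _ _
      rw [this]; exact K.zero_mem

theorem Kx_T {N : Subgroup D} (hN : N.Normal) (t : ↥T) (x : ↥M) (hx : x ∈ Kx N) : t • x ∈ Kx N := by
  rw [mem_Kx, conj_x]; exact hN.conj_mem _ hx _

theorem Ky_T {N : Subgroup D} (hN : N.Normal) (t : ↥T) (x : ↥M) (hx : x ∈ Ky N) : t • x ∈ Ky N := by
  rw [mem_Ky, conj_y]; exact hN.conj_mem _ hx _

/-- the subgroups with image `St r` -/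
def Ar (r : ℕ) : Set (Subgroup D) := {N | N.Normal ∧ N.map phi.toMonoidHom = N ∧ N.map piT = St r}

theorem phi_mem {N : Subgroup D} (h : N.map phi.toMonoidHom = N) {d : D} (hd : d ∈ N) : phi d ∈ N := by
  have : phi d ∈ N.map phi.toMonoidHom := ⟨d, hd, rfl⟩
  rwa [h] at this

theorem mem_iff (hp : C_prj) (hle : C_Mn_le) (hc : C_coinv) (hirr : C_irr) (hperf : B_St_perfect) {r : ℕ}
    {N : Subgroup D} (hN : N ∈ Ar r) (d : D) :
    d ∈ N ↔ d.t ∈ St r ∧ (∀ n < r, n ∉ fl hp hle r (Kx N) → ∀ z, (d.x : V) n z = 0) ∧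
      (∀ n < r, n ∉ fl hp hle r (Ky N) → ∀ z, (d.y : V) n z = 0) := by
  obtain ⟨h1, h2, h3⟩ := hN
  have kx : ∀ t ∈ St r, ∀ x : ↥M, t • x - x ∈ Kx N := fun t ht x => sub_mem_Kx h1 h3 ht x
  have ky : ∀ t ∈ St r, ∀ x : ↥M, t • x - x ∈ Ky N := fun t ht x => sub_mem_Ky h1 h3 ht x
  rw [← mem_K_iff hp hle hc hirr (Kx_T h1) kx, ← mem_K_iff hp hle hc hirr (Ky_T h1) ky]
  obtain ⟨x, y, t⟩ := d
  constructor
  · intro hd
    have ht : t ∈ St r := by rw [← h3]; exact ⟨_, hd, rfl⟩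
    have ht' := St_mem h1 h3 hperf ht
    have h4 : (⟨x, y, 1⟩ : D) ∈ N := by
      have := N.mul_mem hd (N.inv_mem ht')
      convert this using 1
      ext1 <;> simp
    have h5 : (⟨x, -y, 1⟩ : D) ∈ N := phi_mem h2 h4
    have h6 : x + x ∈ Kx N := by
      rw [mem_Kx]
      have := N.mul_mem h4 h5
      convert this using 1
      ext1 <;> simp
    have h7 : y + y ∈ Ky N := by
      rw [mem_Ky]
      have := N.mul_mem h4 (N.inv_mem h5)
      convert this using 1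
      ext1 <;> simp
    exact ⟨ht, mem_of_levels hp hle hc kx fun n _ => pm_mem hp hle hc kx h6,
      mem_of_levels hp hle hc ky fun n _ => pm_mem hp hle hc ky h7⟩
  · rintro ⟨ht, hx, hy⟩
    rw [D_split]
    exact N.mul_mem (N.mul_mem hx hy) (St_mem h1 h3 hperf ht)

theorem Ar_card (hp : C_prj) (hle : C_Mn_le) (hc : C_coinv) (hirr : C_irr) (hperf : B_St_perfect) (r : ℕ) :
    (Ar r).Finite ∧ (Ar r).ncard ≤ 4 ^ r := by
  let F : Subgroup D → Finset ℕ × Finset ℕ := fun N => (fl hp hle r (Kx N), fl hp hle r (Ky N))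
  let C : Finset (Finset ℕ × Finset ℕ) := (Finset.range r).powerset ×ˢ (Finset.range r).powerset
  have hF : ∀ N ∈ Ar r, F N ∈ (C : Set (Finset ℕ × Finset ℕ)) := by
    intro N _
    rw [Finset.mem_coe, Finset.mem_product, Finset.mem_powerset, Finset.mem_powerset]
    exact ⟨fl_sub _ _ _ _, fl_sub _ _ _ _⟩
  have hinj : Set.InjOn F (Ar r) := by
    intro N hN N' hN' h
    have e1 : fl hp hle r (Kx N) = fl hp hle r (Kx N') := congrArg Prod.fst h
    have e2 : fl hp hle r (Ky N) = fl hp hle r (Ky N') := congrArg Prod.snd h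
    ext d
    rw [mem_iff hp hle hc hirr hperf hN, mem_iff hp hle hc hirr hperf hN', e1, e2]
  have hfin : (Ar r).Finite := Set.Finite.of_injOn hF hinj C.finite_toSet
  refine ⟨hfin, ?_⟩
  have h1 := Set.ncard_le_ncard_of_injOn F hF hinj C.finite_toSet
  refine h1.trans ?_
  rw [Set.ncard_coe_finset, Finset.card_product, Finset.card_powerset, Finset.card_range, ← mul_pow]
  exact le_rfl

theorem geom (R : ℕ) : ∑ r ∈ Finset.range (R + 1), 4 ^ r ≤ 4 ^ (R + 1) := by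
  induction R with
  | zero => simp
  | succ R ih =>
    rw [Finset.sum_range_succ, pow_succ 4 (R + 1)]
    omega

theorem d_upper (htr : A_trans) (hi : B_index) (hn : B_normal) (hp : C_prj) (hle : C_Mn_le) (hc : C_coinv)
    (hirr : C_irr) (hperf : B_St_perfect) : D_upper := by
  intro R n hRn
  have hsub : NI D phi n ⊆ ⋃ r ∈ Finset.range (R + 1), Ar r := by
    rintro N ⟨h1, h2, h3, h4⟩
    obtain ⟨r, hr, hr2⟩ := image htr hi hn h1 h3
    have hrR : r < R + 1 := by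
      by_contra hcon
      push Not at hcon
      have h5 := Subgroup.index_dvd_of_le (St_anti hcon)
      have h6 := Nat.le_of_dvd (Nat.pos_of_ne_zero (St_index_ne hi r)) h5
      omega
    simp only [Set.mem_iUnion]
    exact ⟨r, Finset.mem_range.2 hrR, h1, h2, hr⟩
  have hfin : (⋃ r ∈ Finset.range (R + 1), Ar r).Finite := by
    refine Set.Finite.biUnion (Finset.finite_toSet _) ?_
    intro r _
    exact (Ar_card hp hle hc hirr hperf r).1
  refine ⟨hfin.subset hsub, ?_⟩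
  refine (Set.ncard_le_ncard hsub hfin).trans ?_
  refine le_trans ?_ (geom R)
  refine (Finset.set_ncard_biUnion_le _ _).trans ?_
  exact Finset.sum_le_sum fun r _ => (Ar_card hp hle hc hirr hperf r).2

end TD1

theorem d_fg (hT : B_fg) (hM : C_fg) : D_fg := TD1.d_fg hT hM

theorem d_upper (htr : A_trans) (hi : B_index) (hn : B_normal) (hp : C_prj) (hle : C_Mn_le) (hc : C_coinv)
    (hirr : C_irr) (hperf : B_St_perfect) : D_upper := TD1.d_upper htr hi hn hp hle hc hirr hperf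

theorem d_lower (hi : B_index) (hn : B_normal) (hp : C_prj) (hcard : C_Mn_card) (hc : C_coinv) (hle : C_Mn_le) :
    D_lower := TD1.d_lower hi hn hp hcard hc hle

end Pool.Agent.Helper106.CG
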